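import Pool.Agent.H29A.Stm

/-!
# Project ALL (helper29), piece DEN: the proportion of negative discriminants
-/

set_option autoImplicit false
set_option linter.all false

open Filter
open scoped Classical

namespace Pool.Agent.H29A

open Pool.Agent.N922.PQ

namespace DEN

/-- the box -/
noncomputable def bx (A B : ℕ) : Finset (ℤ × ℤ) :=
  Finset.Icc (-(A : ℤ)) A ×ˢ Finset.Icc (-(B : ℤ)) B

theorem card_bx (A B : ℕ) : (bx A B).card = (2 * A + 1) * (2 * B + 1) := by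
  rw [bx, Finset.card_product, Int.card_Icc, Int.card_Icc]
  congr 1 <;> omega

theorem mem_bx {A B : ℕ} {p : ℤ × ℤ} : p ∈ bx A B ↔ p.1.natAbs ≤ A ∧ p.2.natAbs ≤ B := by
  rw [bx, Finset.mem_product, Finset.mem_Icc, Finset.mem_Icc]
  constructor
  · rintro ⟨⟨h1, h2⟩, h3, h4⟩
    constructor <;> omega
  · rintro ⟨h1, h2⟩
    refine ⟨⟨?_, ?_⟩, ?_, ?_⟩ <;> omega

/-- the bad pairs -/
theorem bad_le (A B : ℕ) : ((bx A B).filter fun p => ¬ 0 < dsc p.1 p.2).card ≤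
    ∑ k ∈ Finset.range (A + 1), (2 * Nat.sqrt (4 * k ^ 3 / 27) + 1) := by
  have hsub : ((bx A B).filter fun p => ¬ 0 < dsc p.1 p.2) ⊆
      (Finset.range (A + 1)).biUnion fun k =>
        ({-(k : ℤ)} : Finset ℤ) ×ˢ Finset.Icc (-((Nat.sqrt (4 * k ^ 3 / 27) : ℕ) : ℤ))
          ((Nat.sqrt (4 * k ^ 3 / 27) : ℕ) : ℤ) := by
    intro p hp
    rw [Finset.mem_filter, mem_bx] at hp
    obtain ⟨⟨h1, h2⟩, h3⟩ := hp
    have h4 : dsc p.1 p.2 ≤ 0 := not_lt.1 h3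
    have h5 : p.1 ≤ 0 := by
      by_contra hcon
      have h6 : 0 < p.1 := not_le.1 hcon
      apply h3
      rw [dsc]
      positivity
    obtain ⟨k, hk⟩ : ∃ k : ℕ, p.1 = -(k : ℤ) := ⟨p.1.natAbs, by omega⟩
    rw [Finset.mem_biUnion]
    refine ⟨k, ?_, ?_⟩
    · rw [Finset.mem_range]; omega
    · rw [Finset.mem_product, Finset.mem_singleton, Finset.mem_Icc]
      have h7 : 27 * p.2.natAbs ^ 2 ≤ 4 * k ^ 3 := by
        have h8 : 27 * p.2 ^ 2 ≤ 4 * (k : ℤ) ^ 3 := by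
          rw [dsc, hk] at h4
          linarith [h4, show (-(k : ℤ)) ^ 3 = -(k : ℤ) ^ 3 by ring]
        have h9 : ((27 * p.2.natAbs ^ 2 : ℕ) : ℤ) ≤ ((4 * k ^ 3 : ℕ) : ℤ) := by
          push_cast
          rw [sq_abs]
          exact h8
        exact_mod_cast h9
      have h10 : p.2.natAbs ≤ Nat.sqrt (4 * k ^ 3 / 27) := by
        rw [Nat.le_sqrt']
        rw [Nat.le_div_iff_mul_le (by norm_num)]
        linarith
      refine ⟨hk, ?_, ?_⟩ <;> omega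
  refine (Finset.card_le_card hsub).trans (Finset.card_biUnion_le.trans ?_)
  refine Finset.sum_le_sum fun k _ => ?_
  rw [Finset.card_product, Finset.card_singleton, one_mul, Int.card_Icc]
  omega

theorem step (k : ℕ) : (5 / 2 : ℝ) * (k : ℝ) ^ (3 / 2 : ℝ) ≤
    ((k : ℝ) + 1) ^ (5 / 2 : ℝ) - (k : ℝ) ^ (5 / 2 : ℝ) := by
  rcases Nat.eq_zero_or_pos k with rfl | hk
  · norm_num
  · have hk0 : (0 : ℝ) < k := by exact_mod_cast hk
    have h1 : 1 + (5 / 2 : ℝ) * (1 / k) ≤ (1 + 1 / (k : ℝ)) ^ (5 / 2 : ℝ) :=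
      one_add_mul_self_le_rpow_one_add (by
        have : (0 : ℝ) ≤ 1 / k := by positivity
        linarith) (by norm_num)
    have h2 : ((k : ℝ) + 1) = (k : ℝ) * (1 + 1 / (k : ℝ)) := by field_simp
    rw [h2, Real.mul_rpow hk0.le (by positivity)]
    have h3 : (k : ℝ) ^ (5 / 2 : ℝ) = (k : ℝ) * (k : ℝ) ^ (3 / 2 : ℝ) := by
      rw [show (5 / 2 : ℝ) = 1 + 3 / 2 by norm_num, Real.rpow_add hk0, Real.rpow_one]
    have h4 : (0 : ℝ) < (k : ℝ) ^ (5 / 2 : ℝ) := Real.rpow_pos_of_pos hk0 _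
    have h5 := mul_le_mul_of_nonneg_left h1 h4.le
    have h6 : (k : ℝ) ^ (5 / 2 : ℝ) * (1 + (5 / 2 : ℝ) * (1 / k)) =
        (k : ℝ) ^ (5 / 2 : ℝ) + (5 / 2 : ℝ) * (k : ℝ) ^ (3 / 2 : ℝ) := by
      have h7 : (k : ℝ) ^ (5 / 2 : ℝ) * (1 / k) = (k : ℝ) ^ (3 / 2 : ℝ) := by
        rw [h3]; field_simp
      linear_combination (5 / 2 : ℝ) * h7
    linarith

theorem sum_le (A : ℕ) : ∑ k ∈ Finset.range (A + 1), (k : ℝ) ^ (3 / 2 : ℝ) ≤
    (2 / 5) * ((A : ℝ) + 1) ^ (5 / 2 : ℝ) := by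
  induction A with
  | zero => norm_num
  | succ n ih =>
    rw [Finset.sum_range_succ]
    have h1 := step (n + 1)
    have h2 : (((n + 1 : ℕ) : ℝ)) = (n : ℝ) + 1 := by push_cast; ring
    rw [h2] at h1 ⊢
    linarith

theorem term_le (k : ℕ) : ((Nat.sqrt (4 * k ^ 3 / 27) : ℕ) : ℝ) ≤
    (385 / 1000) * (k : ℝ) ^ (3 / 2 : ℝ) := by
  have hk0 : (0 : ℝ) ≤ k := Nat.cast_nonneg k
  have h1 : ((k : ℝ) ^ (3 / 2 : ℝ)) ^ 2 = (k : ℝ) ^ 3 := by
    rw [← Real.rpow_natCast, ← Real.rpow_mul hk0, ← Real.rpow_natCast]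
    norm_num
  have h2 : ((Nat.sqrt (4 * k ^ 3 / 27) : ℕ) : ℝ) ^ 2 ≤ (4 / 27) * (k : ℝ) ^ 3 := by
    have h3 : 27 * (Nat.sqrt (4 * k ^ 3 / 27)) ^ 2 ≤ 4 * k ^ 3 := by
      have h4 : (Nat.sqrt (4 * k ^ 3 / 27)) ^ 2 ≤ 4 * k ^ 3 / 27 := Nat.sqrt_le' _
      have h5 := Nat.div_mul_le_self (4 * k ^ 3) 27
      nlinarith
    have h6 : (27 : ℝ) * ((Nat.sqrt (4 * k ^ 3 / 27) : ℕ) : ℝ) ^ 2 ≤ 4 * (k : ℝ) ^ 3 := by
      exact_mod_cast h3
    linarith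
  have h3 : (0 : ℝ) ≤ (k : ℝ) ^ 3 := by positivity
  apply (pow_le_pow_iff_left₀ (Nat.cast_nonneg _) (by positivity) two_ne_zero).1
  rw [mul_pow, h1]
  nlinarith

theorem bad_real (A B : ℕ) : (((bx A B).filter fun p => ¬ 0 < dsc p.1 p.2).card : ℝ) ≤
    (308 / 1000) * ((A : ℝ) + 1) ^ (5 / 2 : ℝ) + (A + 1) := by
  have h1 : (((bx A B).filter fun p => ¬ 0 < dsc p.1 p.2).card : ℝ) ≤
      ((∑ k ∈ Finset.range (A + 1), (2 * Nat.sqrt (4 * k ^ 3 / 27) + 1) : ℕ) : ℝ) := by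
    exact_mod_cast bad_le A B
  refine h1.trans ?_
  rw [Nat.cast_sum]
  have h2 : ∀ k ∈ Finset.range (A + 1), ((2 * Nat.sqrt (4 * k ^ 3 / 27) + 1 : ℕ) : ℝ) ≤
      (77 / 100) * (k : ℝ) ^ (3 / 2 : ℝ) + 1 := by
    intro k _
    have := term_le k
    push_cast
    linarith
  refine (Finset.sum_le_sum h2).trans ?_
  rw [Finset.sum_add_distrib, ← Finset.mul_sum, Finset.sum_const, Finset.card_range]
  have := sum_le A
  simp only [nsmul_eq_mul, mul_one]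
  push_cast
  linarith

end DEN

open DEN in
theorem t_DEN : S_DEN := by
  unfold S_DEN
  rw [eventually_atTop]
  refine ⟨100 ^ 6, ?_⟩
  intro T hT
  obtain ⟨x, hx⟩ : ∃ x : ℝ, x = (T : ℝ) ^ (1 / 6 : ℝ) := ⟨_, rfl⟩
  have hT0 : (0 : ℝ) ≤ T := Nat.cast_nonneg T
  have hTr : (100 : ℝ) ^ 6 ≤ T := by exact_mod_cast hT
  have hx0 : 0 ≤ x := by rw [hx]; positivity
  have hx6 : x ^ 6 = T := by
    rw [hx, ← Real.rpow_natCast, ← Real.rpow_mul hT0]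
    norm_num
  have hx100 : 100 ≤ x := by
    by_contra hcon
    have h1 : x < 100 := not_le.1 hcon
    have h2 : x ^ 6 < 100 ^ 6 := pow_lt_pow_left₀ h1 hx0 (by norm_num)
    rw [hx6] at h2
    linarith
  have hx5 : (T : ℝ) ^ (5 / 6 : ℝ) = x ^ 5 := by
    rw [hx, ← Real.rpow_natCast, ← Real.rpow_mul hT0]
    norm_num
  -- the sides of the box
  obtain ⟨A, hA⟩ : ∃ A : ℕ, A = ⌊x ^ 2⌋₊ := ⟨_, rfl⟩
  obtain ⟨B, hB⟩ : ∃ B : ℕ, B = ⌊x ^ 3⌋₊ := ⟨_, rfl⟩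
  have hA1 : (A : ℝ) ≤ x ^ 2 := by rw [hA]; exact Nat.floor_le (by positivity)
  have hA2 : x ^ 2 < (A : ℝ) + 1 := by rw [hA]; exact Nat.lt_floor_add_one _
  have hB1 : (B : ℝ) ≤ x ^ 3 := by rw [hB]; exact Nat.floor_le (by positivity)
  have hB2 : x ^ 3 < (B : ℝ) + 1 := by rw [hB]; exact Nat.lt_floor_add_one _
  have hiff : ∀ p : ℤ × ℤ, Pool.Agent.Helper29L.hgt p ≤ T ↔ p ∈ bx A B := by
    intro p
    rw [mem_bx]
    have h1 : Pool.Agent.Helper29L.hgt p = max (p.1.natAbs ^ 3) (p.2.natAbs ^ 2) := rfl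
    rw [h1, max_le_iff]
    apply and_congr
    · rw [hA, Nat.le_floor_iff (by positivity)]
      constructor
      · intro h2
        have h3 : ((p.1.natAbs : ℕ) : ℝ) ^ 3 ≤ (x ^ 2) ^ 3 := by
          rw [← pow_mul, hx6]
          exact_mod_cast h2
        exact (pow_le_pow_iff_left₀ (Nat.cast_nonneg _) (by positivity) (by norm_num)).1 h3
      · intro h2
        have h3 : ((p.1.natAbs : ℕ) : ℝ) ^ 3 ≤ (x ^ 2) ^ 3 :=
          pow_le_pow_left₀ (Nat.cast_nonneg _) h2 3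
        rw [← pow_mul, hx6] at h3
        exact_mod_cast h3
    · rw [hB, Nat.le_floor_iff (by positivity)]
      constructor
      · intro h2
        have h3 : ((p.2.natAbs : ℕ) : ℝ) ^ 2 ≤ (x ^ 3) ^ 2 := by
          rw [← pow_mul, hx6]
          exact_mod_cast h2
        exact (pow_le_pow_iff_left₀ (Nat.cast_nonneg _) (by positivity) (by norm_num)).1 h3
      · intro h2
        have h3 : ((p.2.natAbs : ℕ) : ℝ) ^ 2 ≤ (x ^ 3) ^ 2 :=
          pow_le_pow_left₀ (Nat.cast_nonneg _) h2 2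
        rw [← pow_mul, hx6] at h3
        exact_mod_cast h3
  have hs1 : {p : ℤ × ℤ | dsc p.1 p.2 ≠ 0 ∧ Pool.Agent.Helper29L.hgt p ≤ T} =
      (((bx A B).filter fun p => dsc p.1 p.2 ≠ 0 : Finset (ℤ × ℤ)) : Set (ℤ × ℤ)) := by
    ext p
    rw [Set.mem_setOf_eq, Finset.mem_coe, Finset.mem_filter, hiff, and_comm]
  have hs2 : {p : ℤ × ℤ | 0 < dsc p.1 p.2 ∧ Pool.Agent.Helper29L.hgt p ≤ T} =
      (((bx A B).filter fun p => 0 < dsc p.1 p.2 : Finset (ℤ × ℤ)) : Set (ℤ × ℤ)) := by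
    ext p
    rw [Set.mem_setOf_eq, Finset.mem_coe, Finset.mem_filter, hiff, and_comm]
  rw [hs1, hs2, Set.ncard_coe_finset, Set.ncard_coe_finset, hx5]
  have hN : ((bx A B).card : ℝ) = (2 * A + 1) * (2 * B + 1) := by
    rw [card_bx]; push_cast; ring
  have hle : (((bx A B).filter fun p => dsc p.1 p.2 ≠ 0).card : ℝ) ≤ (2 * A + 1) * (2 * B + 1) := by
    rw [← hN]
    exact_mod_cast Finset.card_filter_le _ _
  have hsplit : (((bx A B).filter fun p => 0 < dsc p.1 p.2).card : ℝ) +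
      (((bx A B).filter fun p => ¬ 0 < dsc p.1 p.2).card : ℝ) = (2 * A + 1) * (2 * B + 1) := by
    rw [← hN]
    exact_mod_cast Finset.card_filter_add_card_filter_not (s := bx A B) (fun p => 0 < dsc p.1 p.2)
  have hbad := bad_real A B
  have hA3 : ((A : ℝ) + 1) ^ (5 / 2 : ℝ) ≤ (x ^ 2 + 1) ^ 2 * (x + 1) := by
    have h1 : ((A : ℝ) + 1) ^ (5 / 2 : ℝ) ≤ (x ^ 2 + 1) ^ (5 / 2 : ℝ) :=
      Real.rpow_le_rpow (by positivity) (by linarith) (by norm_num)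
    refine h1.trans ?_
    have h2 : (x ^ 2 + 1) ^ (5 / 2 : ℝ) = (x ^ 2 + 1) ^ 2 * (x ^ 2 + 1) ^ (1 / 2 : ℝ) := by
      rw [show (5 / 2 : ℝ) = 2 + 1 / 2 by norm_num, Real.rpow_add (by positivity)]
      norm_num
    rw [h2]
    refine mul_le_mul_of_nonneg_left ?_ (by positivity)
    rw [← Real.sqrt_eq_rpow]
    apply Real.sqrt_le_iff.2
    refine ⟨by positivity, ?_⟩
    nlinarith
  have hbig : (2 * x ^ 2 - 1) * (2 * x ^ 3 - 1) ≤ (2 * (A : ℝ) + 1) * (2 * B + 1) := by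
    apply mul_le_mul
    · linarith
    · linarith
    · have : (0 : ℝ) ≤ x ^ 3 := by positivity
      nlinarith [pow_le_pow_left₀ (by norm_num : (0 : ℝ) ≤ 100) hx100 3]
    · positivity
  have hpoly : (308 / 1000) * ((x ^ 2 + 1) ^ 2 * (x + 1)) + (x ^ 2 + 1) ≤
      (2 * x ^ 2 - 1) * (2 * x ^ 3 - 1) / 10 := by
    obtain ⟨y, hy⟩ : ∃ y : ℝ, x = 100 + y := ⟨x - 100, by ring⟩
    have hy0 : 0 ≤ y := by linarith
    rw [hy]
    have h1 : 0 ≤ y ^ 2 := by positivity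
    have h2 : 0 ≤ y ^ 3 := by positivity
    have h3 : 0 ≤ y ^ 4 := by positivity
    have h4 : 0 ≤ y ^ 5 := by positivity
    ring_nf
    linarith
  constructor
  · nlinarith
  · have h5 : x ^ 5 ≤ 9 / 10 * ((2 * x ^ 2 - 1) * (2 * x ^ 3 - 1)) := by
      obtain ⟨y, hy⟩ : ∃ y : ℝ, x = 100 + y := ⟨x - 100, by ring⟩
      have hy0 : 0 ≤ y := by linarith
      rw [hy]
      have h1 : 0 ≤ y ^ 2 := by positivity
      have h2 : 0 ≤ y ^ 3 := by positivity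
      have h3 : 0 ≤ y ^ 4 := by positivity
      have h4 : 0 ≤ y ^ 5 := by positivity
      ring_nf
      linarith
    linarith

end Pool.Agent.H29A
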