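import Pool.Agent.H29A.Stm
import Pool.Agent.N655.PQ.Diag

/-!
# Project ALL, piece DIAGW: diagonalisation of the ternary form over the rational numbers
(port of `Pool/Agent/N655/PQ/Diag.lean` with `0 < dsc a b` in place of `0 < a`)
-/

set_option autoImplicit false
set_option linter.all false

open Matrix Polynomial
open scoped Classical

namespace Pool.Agent.H29A

open Pool.Agent.N922.PQ
open Pool.Agent.N655.PQ

theorem exists_root' (a b : ℤ) : ∃ t : ℝ, t ^ 3 + (a : ℝ) * t + (b : ℝ) = 0 := by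
  set N : ℝ := |(a : ℝ)| + |(b : ℝ)| + 1 with hN
  have ha0 := abs_nonneg (a : ℝ)
  have hb0 := abs_nonneg (b : ℝ)
  have hN1 : 1 ≤ N := by rw [hN]; linarith
  have ha1 := neg_abs_le (a : ℝ)
  have ha2 := le_abs_self (a : ℝ)
  have hb1 := neg_abs_le (b : ℝ)
  have hb2 := le_abs_self (b : ℝ)
  have hN2 : N ≤ N ^ 2 := by nlinarith
  have e1 : |(a : ℝ)| * N ≤ |(a : ℝ)| * N ^ 2 := mul_le_mul_of_nonneg_left hN2 ha0
  have e2 : |(b : ℝ)| * 1 ≤ |(b : ℝ)| * N ^ 2 := mul_le_mul_of_nonneg_left (by linarith) hb0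
  have e3 : N ^ 3 = |(a : ℝ)| * N ^ 2 + |(b : ℝ)| * N ^ 2 + N ^ 2 := by
    have : N ^ 3 = N * N ^ 2 := by ring
    rw [this]
    nth_rewrite 1 [hN]
    ring
  have e4 : (a : ℝ) * N ≤ |(a : ℝ)| * N := mul_le_mul_of_nonneg_right ha2 (by linarith)
  have e5 : -(|(a : ℝ)| * N) ≤ (a : ℝ) * N := by
    have := mul_le_mul_of_nonneg_right ha1 (by linarith : (0 : ℝ) ≤ N)
    linarith
  have hcont : ContinuousOn (fun t : ℝ => t ^ 3 + (a : ℝ) * t + (b : ℝ)) (Set.Icc (-N) N) := by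
    fun_prop
  have h := intermediate_value_Icc (by linarith : -N ≤ N) hcont
  have h0 : (0 : ℝ) ∈ Set.Icc ((-N) ^ 3 + (a : ℝ) * (-N) + (b : ℝ)) (N ^ 3 + (a : ℝ) * N + (b : ℝ)) := by
    constructor
    · have e : (-N) ^ 3 = -N ^ 3 := by ring
      rw [e]
      linarith
    · linarith
  obtain ⟨t, _, ht⟩ := h h0
  exact ⟨t, ht⟩

theorem root_pos {a b : ℤ} (h : 0 < dsc a b) {t : ℝ} (ht : t ^ 3 + (a : ℝ) * t + (b : ℝ) = 0) :
    0 < 3 * t ^ 2 + 4 * (a : ℝ) := by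
  have h1 : (0 : ℝ) < 4 * (a : ℝ) ^ 3 + 27 * (b : ℝ) ^ 2 := by
    unfold dsc at h
    exact_mod_cast h
  have h2 : 4 * (a : ℝ) ^ 3 + 27 * (b : ℝ) ^ 2 = (3 * t ^ 2 + 4 * (a : ℝ)) * (3 * t ^ 2 + a) ^ 2 := by
    have hb : (b : ℝ) = -(t ^ 3 + a * t) := by linarith
    rw [hb]
    ring
  rw [h2] at h1
  by_contra hcon
  push Not at hcon
  have := mul_nonpos_of_nonpos_of_nonneg hcon (sq_nonneg (3 * t ^ 2 + (a : ℝ)))
  linarith

theorem t_DIAGW : S_DIAGW := by
  intro L _ _ a b θ h ha α hα hsq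
  set M : Matrix (Fin 3) (Fin 3) ℚ :=
    Matrix.of fun i j => h.co 2 (θ ^ (i : ℕ) * θ ^ (j : ℕ) / α) with hMdef
  have hMs : M.IsSymm := by
    ext i j
    rw [hMdef, Matrix.transpose_apply, Matrix.of_apply, Matrix.of_apply, mul_comm (θ ^ (j : ℕ))]
  obtain ⟨P, A, hP, hD⟩ := exists_diag M hMs
  obtain ⟨n, hn⟩ := hsq
  have hn0 : n ≠ 0 := by
    rintro rfl
    rw [mul_zero, Algebra.norm_eq_zero_iff] at hn
    exact hα hn
  have hdet : M.det = -(n⁻¹) ^ 2 := by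
    have h1 := det_eq h α⁻¹
    have h2 : (Matrix.of fun i j : Fin 3 => h.co 2 (θ ^ (i : ℕ) * θ ^ (j : ℕ) * α⁻¹)) = M := by
      ext i j
      rw [hMdef, Matrix.of_apply, Matrix.of_apply, div_eq_mul_inv]
    have h3 : Algebra.norm ℚ α⁻¹ = (n * n)⁻¹ := by
      rw [← hn]
      apply eq_inv_of_mul_eq_one_left
      rw [← map_mul, inv_mul_cancel₀ hα, map_one]
    rw [h2, h3] at h1
    rw [h1, mul_inv]
    ring
  set ρ : ℚ := P.det * n⁻¹ with hρdef
  have hρ : ρ ≠ 0 := mul_ne_zero hP (inv_ne_zero hn0)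
  have hA : A 0 * A 1 * A 2 = -ρ ^ 2 := by
    have h1 := congrArg Matrix.det hD
    rw [Matrix.det_mul, Matrix.det_mul, Matrix.det_transpose, Matrix.det_diagonal,
      Fin.prod_univ_three, hdet] at h1
    rw [← h1, hρdef]
    ring
  have hne : A 0 * A 1 * A 2 ≠ 0 := by
    rw [hA]
    exact neg_ne_zero.2 (pow_ne_zero 2 hρ)
  have h0 : A 0 ≠ 0 := left_ne_zero_of_mul (left_ne_zero_of_mul hne)
  have h1 : A 1 ≠ 0 := right_ne_zero_of_mul (left_ne_zero_of_mul hne)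
  refine ⟨(A 0).num * (A 0).den, (A 1).num * (A 1).den, ?_, ?_, ?_, ?_, ?_⟩
  · exact mul_ne_zero (Rat.num_ne_zero.2 h0) (by exact_mod_cast (A 0).den_ne_zero)
  · exact mul_ne_zero (Rat.num_ne_zero.2 h1) (by exact_mod_cast (A 1).den_ne_zero)
  · -- the real place
    have hpos : 0 < A 0 ∨ 0 < A 1 := by
      by_contra hcon
      push Not at hcon
      have g0 : A 0 < 0 := lt_of_le_of_ne hcon.1 h0
      have g1 : A 1 < 0 := lt_of_le_of_ne hcon.2 h1
      have g2 : A 2 < 0 := by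
        by_contra h2
        push Not at h2
        have h3 : 0 ≤ A 0 * A 1 * A 2 := mul_nonneg (mul_pos_of_neg_of_neg g0 g1).le h2
        rw [hA] at h3
        have : 0 < ρ ^ 2 := by positivity
        linarith
      have g0' : (A 0 : ℝ) < 0 := by exact_mod_cast g0
      have g1' : (A 1 : ℝ) < 0 := by exact_mod_cast g1
      have g2' : (A 2 : ℝ) < 0 := by exact_mod_cast g2
      have hneg : ∀ x : Fin 3 → ℝ, x ≠ 0 →
          ∑ i : Fin 3, ∑ j : Fin 3, (M i j : ℝ) * x i * x j < 0 := by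
        intro x hx
        obtain ⟨y, rfl⟩ := mF_surj hP x
        have hy : y ≠ 0 := by
          rintro rfl
          exact hx (Matrix.mulVec_zero _)
        rw [form_eq hD]
        obtain ⟨i, hi⟩ := Function.ne_iff.1 hy
        have hi' : 0 < y i ^ 2 := by
          have : y i ≠ 0 := hi
          positivity
        have s0 : (A 0 : ℝ) * y 0 ^ 2 ≤ 0 := mul_nonpos_of_nonpos_of_nonneg g0'.le (sq_nonneg _)
        have s1 : (A 1 : ℝ) * y 1 ^ 2 ≤ 0 := mul_nonpos_of_nonpos_of_nonneg g1'.le (sq_nonneg _)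
        have s2 : (A 2 : ℝ) * y 2 ^ 2 ≤ 0 := mul_nonpos_of_nonpos_of_nonneg g2'.le (sq_nonneg _)
        fin_cases i
        · have := mul_neg_of_neg_of_pos g0' hi'
          simp only [Fin.zero_eta] at this
          linarith
        · have := mul_neg_of_neg_of_pos g1' hi'
          simp only [Fin.mk_one] at this
          linarith
        · have := mul_neg_of_neg_of_pos g2' hi'
          simp only [Fin.reduceFinMk] at this
          linarith
      obtain ⟨t, ht⟩ := exists_root' a b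
      have ha' : (0 : ℝ) < 3 * t ^ 2 + 4 * (a : ℝ) := root_pos ha ht
      have e1 := hneg ![-t, 1, 0] (by
        intro h
        have := congrFun h 1
        simp at this)
      have e2 := hneg ![-t ^ 2, -t, 2] (by
        intro h
        have := congrFun h 2
        simp at this)
      have m3 := congrArg (Rat.cast : ℚ → ℝ) (co3 h α⁻¹)
      have m4 := congrArg (Rat.cast : ℚ → ℝ) (co3 h (θ * α⁻¹))
      push_cast at m3 m4
      set m : ℕ → ℝ := fun k => ((h.co 2 (θ ^ k * α⁻¹) : ℚ) : ℝ) with hm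
      have hMm : ∀ i j : Fin 3, (M i j : ℝ) = m ((i : ℕ) + j) := by
        intro i j
        simp only [hm]
        rw [hMdef, Matrix.of_apply, pow_add, div_eq_mul_inv]
      have r3 : m 3 = -(a : ℝ) * m 1 - (b : ℝ) * m 0 := by
        simp only [hm, pow_one, pow_zero, one_mul]
        exact m3
      have r4 : m 4 = -(a : ℝ) * m 2 - (b : ℝ) * m 1 := by
        simp only [hm, pow_one]
        have u1 : θ ^ 4 * α⁻¹ = θ ^ 3 * (θ * α⁻¹) := by ring
        have u2 : θ ^ 2 * α⁻¹ = θ * (θ * α⁻¹) := by ring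
        rw [u1, u2]
        exact m4
      simp only [Fin.sum_univ_three, hMm] at e1 e2
      simp only [Matrix.cons_val_zero, Matrix.cons_val_one, Matrix.cons_val,
        Fin.val_zero, Fin.val_one, Fin.val_two, add_zero, zero_add] at e1 e2
      norm_num at e1 e2
      rw [r3, r4] at e2
      have e3 : (3 * t ^ 2 + 4 * (a : ℝ)) * (t ^ 2 * m 0 - 2 * t * m 1 + m 2) < 0 := by
        apply mul_neg_of_pos_of_neg
        · exact ha'
        · linarith
      have e4 : -((3 * t ^ 2 + 4 * (a : ℝ)) * (t ^ 2 * m 0 - 2 * t * m 1 + m 2)) < 0 := by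
        have e5 : -((3 * t ^ 2 + 4 * (a : ℝ)) * (t ^ 2 * m 0 - 2 * t * m 1 + m 2)) =
          t ^ 4 * m 0 + 2 * t ^ 3 * m 1 - 3 * t ^ 2 * m 2 - 4 * t * (-(a : ℝ) * m 1 - (b : ℝ) * m 0) +
          4 * (-(a : ℝ) * m 2 - (b : ℝ) * m 1) := by
          linear_combination (-4 * t * m 0 + 4 * m 1) * ht
        rw [e5]
        linarith
      linarith
    have key : ∀ q : ℚ, 0 < q → (0 : ℝ) < ((q.num * q.den : ℤ) : ℝ) := by
      intro q hq
      have h3 : 0 < q.num := Rat.num_pos.2 hq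
      have h4 : (0 : ℤ) < q.den := by exact_mod_cast q.den_pos
      exact_mod_cast mul_pos h3 h4
    rcases hpos with h3 | h3
    · refine ⟨1, 0, √(((A 0).num * (A 0).den : ℤ) : ℝ), fun h4 => one_ne_zero h4.1, ?_⟩
      rw [Real.sq_sqrt (key _ h3).le]
      ring
    · refine ⟨0, 1, √(((A 1).num * (A 1).den : ℤ) : ℝ), fun h4 => one_ne_zero h4.2.1, ?_⟩
      rw [Real.sq_sqrt (key _ h3).le]
      ring
  · intro p hp
    rw [← spl_iff hρ hA]
    unfold IsoAt
    constructor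
    · rintro ⟨x, hx, he⟩
      obtain ⟨y, rfl⟩ := mF_surj hP x
      refine ⟨y, ?_, ?_⟩
      · rintro rfl
        exact hx (Matrix.mulVec_zero _)
      · rw [← form_eq hD]
        exact he
    · rintro ⟨y, hy, he⟩
      refine ⟨mF ℚ_[p] P *ᵥ y, mF_ne hP hy, ?_⟩
      rw [← form_eq hD] at he
      exact he
  · intro hspl
    have h3 := (spl_iff (F := ℚ) hρ hA).2 (by simpa using hspl)
    obtain ⟨y, hy, he⟩ := h3
    have h4 := mF_ne (F := ℚ) hP hy
    rw [← form_eq hD] at he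
    set z : Fin 3 → ℚ := mF ℚ P *ᵥ y with hz
    refine ⟨∑ i : Fin 3, z i • θ ^ (i : ℕ), ?_, ?_⟩
    · intro h5
      apply h4
      have h6 := Fintype.linearIndependent_iff.1 h.basis.linearIndependent z (by
        simpa only [basis_pow h] using h5)
      funext i
      exact h6 i
    · rw [← he]
      simp only [Fin.sum_univ_three, hMdef, Matrix.of_apply, Rat.cast_id]
      have e : ((z 0 • θ ^ ((0 : Fin 3) : ℕ) + z 1 • θ ^ ((1 : Fin 3) : ℕ) + z 2 • θ ^ ((2 : Fin 3) : ℕ)) *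
          (z 0 • θ ^ ((0 : Fin 3) : ℕ) + z 1 • θ ^ ((1 : Fin 3) : ℕ) + z 2 • θ ^ ((2 : Fin 3) : ℕ)) / α) =
          (z 0 * z 0) • (θ ^ ((0 : Fin 3) : ℕ) * θ ^ ((0 : Fin 3) : ℕ) / α) +
          (z 0 * z 1) • (θ ^ ((0 : Fin 3) : ℕ) * θ ^ ((1 : Fin 3) : ℕ) / α) +
          (z 0 * z 2) • (θ ^ ((0 : Fin 3) : ℕ) * θ ^ ((2 : Fin 3) : ℕ) / α) +
          (z 1 * z 0) • (θ ^ ((1 : Fin 3) : ℕ) * θ ^ ((0 : Fin 3) : ℕ) / α) +
          (z 1 * z 1) • (θ ^ ((1 : Fin 3) : ℕ) * θ ^ ((1 : Fin 3) : ℕ) / α) +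
          (z 1 * z 2) • (θ ^ ((1 : Fin 3) : ℕ) * θ ^ ((2 : Fin 3) : ℕ) / α) +
          (z 2 * z 0) • (θ ^ ((2 : Fin 3) : ℕ) * θ ^ ((0 : Fin 3) : ℕ) / α) +
          (z 2 * z 1) • (θ ^ ((2 : Fin 3) : ℕ) * θ ^ ((1 : Fin 3) : ℕ) / α) +
          (z 2 * z 2) • (θ ^ ((2 : Fin 3) : ℕ) * θ ^ ((2 : Fin 3) : ℕ) / α) := by
        simp only [Rat.smul_def]
        push_cast
        field_simp
        ring
      rw [e]
      simp only [map_add, map_smul, smul_eq_mul]
      ring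

end Pool.Agent.H29A
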