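import Pool.Agent.Helper29L.Stm2
import Pool.Agent.Helper29L.Size1
import Pool.Agent.Helper29L.Lat5
import Pool.Agent.R425.G.Cl4
import Pool.Agent.N874.PM.Stm

/-!
# Project ALL (helper29): the 2-Selmer groups of bounded twists of almost ALL elliptic curves over `ℚ` of
negative discriminant. Definitions.

`W` is a multiple of `24`. `GW W a b`: the cubic `x ^ 3 + a x + b` is irreducible with one real zero and the
higher prime powers which divide `dsc a b = 4 a ^ 3 + 27 b ^ 2` divide `W` (for `W` divisible by high powers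
of all small primes these are nearly all pairs with `dsc a b > 0`). The primes of the levels are of the type
`Gp` and `1` modulo `W`; so they are squares in `ℚ_p` for all `p ∣ W`. At the primes dividing `W` the local
condition is `CondAt` (the class is that of a point of the curve over the completion). The other primes
are treated as in project PR (`Helper29L`).
-/

set_option autoImplicit false
set_option linter.all false

open IsDedekindDomain NumberField
open scoped Classical

namespace Pool.Agent.H29A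

open Pool.Agent.N922.PQ
open Pool.Agent.Helper29L (Gp PBad InB PD NBas NN cubD)
open Pool.Agent.Helper29L.SZ (VV)
open Pool.Agent.Y710.CV (Cond)
open Pool.Agent.R425.G (ng)
open Pool.Agent.N874.PP (Tup chA chB gq tau Two Ev Sq1 U0 sW)

/-- The pairs `(a, b)` which we consider. -/
structure GW (W : ℕ) (a b : ℤ) : Prop where
  pos : 0 < dsc a b
  irr : ∀ z : ℤ, z ^ 3 + a * z + b ≠ 0
  pow : ∀ q k : ℕ, q.Prime → 2 ≤ k → (q : ℤ) ^ k ∣ dsc a b → q ^ k ∣ W

/-- The modulus. -/
structure OKW (W : ℕ) : Prop where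
  ne : W ≠ 0
  dvd : 24 ∣ W

/-- The primes of the levels. -/
structure GpW (W : ℕ) (a b Q : ℤ) : Prop extends Gp a b Q where
  one : (W : ℤ) ∣ Q - 1

section grp

variable {L : Type} [Field L] [NumberField L]

/-- The local condition at `v`: the class of `z` is that of a point of `y ^ 2 = x ^ 3 + a x + b` over
the completion of `ℚ` at `v` (see `Cond` in `Y710/CV/Core`). -/
def CondAt (v : HeightOneSpectrum (𝓞 ℚ)) (a b : ℤ) (θ z : L) : Prop :=
  Cond (v.adicCompletion ℚ) (AlgebraicClosure (v.adicCompletion ℚ)) (VV a b) θ z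

/-- The classes which are relaxed at the primes `Q ∈ S`. -/
structure InRelW (W : ℕ) (a b : ℤ) (S : Finset ℤ) (θ α : L) : Prop where
  ne : α ≠ 0
  norm : IsSquare (Algebra.norm ℚ α)
  loc : ∀ v : HeightOneSpectrum (𝓞 ℚ), ng v ∣ W → CondAt v a b θ α
  ev : ∀ 𝔓 : HeightOneSpectrum (𝓞 L), (W : 𝓞 L) ∉ 𝔓.asIdeal →
    (∀ Q ∈ S, ¬ (Ov Q 𝔓 ∧ 𝔓.valuation L θ = 1)) → Ev 𝔓 α

/-- The Selmer classes of the twist by `∏ Q ∈ Z, Q`. -/
structure InSelW (W : ℕ) (a b : ℤ) (Z : Finset ℤ) (θ α : L) : Prop extends
    InRelW W a b Z θ α where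
  u0 : ∀ Q ∈ Z, ∀ 𝔓 : HeightOneSpectrum (𝓞 L), Ov Q 𝔓 → 𝔓.valuation L θ = 1 →
    U0 𝔓 ((Q : L) * θ) α

end grp

end Pool.Agent.H29A
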