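import Pool.Agent.H29A.Grp
import Pool.Agent.Helper29L.Thm5
import Pool.Agent.N922.PQ.Big6

/-!
# Project ALL: the deterministic part (as `Helper29L/Det.lean`)
-/

set_option autoImplicit false
set_option linter.all false

open IsDedekindDomain NumberField Finset Filter
open scoped Classical

namespace Pool.Agent.H29A

open Pool.Agent.N922.PQ
open Pool.Agent.H30EV (curve twist)
open Pool.Agent.H30GR (Sel2)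
open Pool.Agent.Helper29L (Gp PBad InB PD WZ S_LIN2 sub mem_sub UnbSet FewSet zS_insert zS_mono
  zS_disj zS_filter gp_of se_twist Rk lv lv_sub StepOK SelDim hgt)
open Pool.Agent.Helper29K (SE Pr8 zS NR mem_zS card_zS prod_zS)
open Pool.Agent.N874.PP (Tup chA chB gq tau Two Ev Sq1 U0 sW)

/-- Piece PLBW with the constants. -/
def PLBk (W κ M₀ N₁ : ℕ) : Prop := ∀ (L : Type) [Field L] [NumberField L]
  (a b : ℤ) (θ : L) (X : ℕ) (Z S E : Finset ℤ) (D : ℕ), IsCub a b θ → |a| ≤ X ^ 2 → |b| ≤ X ^ 3 →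
  GW W a b → (∀ Q ∈ Z ∪ S, GpW W a b Q) → (∀ Q ∈ S, (N₁ : ℤ) < Q) → Disjoint Z S →
  ((D : ℕ) : ℤ) = ∏ Q ∈ Z, Q → ∀ α : L, InSelW W a b Z θ α → ¬ IsSquare α →
  (∀ Q ∈ Z, ∀ 𝔓 : HeightOneSpectrum (𝓞 L), Ov Q 𝔓 → 𝔓.valuation L θ = 1 → ¬ Ev 𝔓 α) →
  (∀ Q ∈ S, ∀ 𝔓 : HeightOneSpectrum (𝓞 L), Ov Q 𝔓 → 𝔓.valuation L θ = 1 →
    (Sq1 𝔓 α ↔ Q ∉ E)) →
  PBad κ (M₀ * D * X) S E (fun _ => a * (M₀ * D) ^ 2) (a * (M₀ * D) ^ 2) (b * (M₀ * D) ^ 3)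

/-- The constants. -/
structure Cst (W κ M₀ N : ℕ) : Prop where
  plb : ∃ N₁ ≤ N, PLBk W κ M₀ N₁
  pos : 0 < M₀
  le : M₀ ≤ N

theorem exists_cst (h : S_PLBW) {W : ℕ} (hW : OKW W) : ∃ κ M₀ N : ℕ, Cst W κ M₀ N := by
  obtain ⟨κ, M₀, N₁, hM, h⟩ := h W hW
  exact ⟨κ, M₀, max N₁ M₀, ⟨N₁, le_max_left _ _, h⟩, hM, le_max_right _ _⟩

/-- The primes which are `1` modulo `W` and larger than `N`. -/
def PrW (W N : ℕ) (𝒬 : Finset ℕ) : Prop := Pr8 𝒬 ∧ ∀ Q ∈ 𝒬, (W : ℤ) ∣ (Q : ℤ) - 1 ∧ N < Q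

theorem PrW.mono {W N : ℕ} {S S' : Finset ℕ} (h : PrW W N S) (hS : S' ⊆ S) : PrW W N S' :=
  ⟨h.1.mono hS, fun Q hQ => h.2 Q (hS hQ)⟩

theorem PrW.ndvd {W N : ℕ} {𝒬 : Finset ℕ} (h : PrW W N 𝒬) {M : ℕ} (hM : 0 < M) (hMN : M ≤ N) :
    ∀ Q ∈ 𝒬, ¬ (Q : ℤ) ∣ (M : ℤ) := by
  intro Q hQ hd
  have h1 : Q ∣ M := by exact_mod_cast hd
  have h2 := Nat.le_of_dvd hM h1
  have h3 := (h.2 Q hQ).2
  omega

theorem gpW_of {W N : ℕ} {𝒬 : Finset ℕ} (h : PrW W N 𝒬) {a b : ℤ} {Q : ℕ} (hQ : Q ∈ SE 𝒬 a b) :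
    GpW W a b (Q : ℤ) :=
  ⟨gp_of h.1 hQ, (h.2 Q (Finset.mem_filter.1 hQ).1).1⟩

theorem mem_BxA {X : ℕ} {p : ℤ × ℤ} : p ∈ BxA X ↔ |p.1| ≤ (X : ℤ) ^ 2 ∧ |p.2| ≤ (X : ℤ) ^ 3 := by
  unfold BxA
  rw [Finset.mem_product, Finset.mem_Icc, Finset.mem_Icc, abs_le, abs_le]
  push_cast
  exact Iff.rfl

section grp

variable {L : Type} [Field L] [NumberField L]

/-- **Balance** from the counting sets. -/
theorem balanced_of {W κ M₀ N : ℕ} (hκ : Cst W κ M₀ N) {a b : ℤ} {θ : L} {S : Finset ℤ}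
    {𝔮 : ℤ → HeightOneSpectrum (𝓞 L)} (C : CtxW W a b θ S 𝔮) {X : ℕ} (hX : ((a, b) : ℤ × ℤ) ∈ BxA X)
    {𝒬 Z₀ : Finset ℕ} (h8 : PrW W N 𝒬) (hZpr : ∀ Q ∈ Z₀, Q.Prime) (hdis : Disjoint Z₀ 𝒬) (hZS : zS Z₀ ⊆ S)
    (hAS : zS (SE 𝒬 a b) ⊆ S) {δ : ℝ} {m : ℕ} (hm : m ≤ (SE 𝒬 a b).card)
    (hunb : ∀ Z ⊆ Z₀, (a * (M₀ * ((∏ Q ∈ Z, Q : ℕ) : ℤ)) ^ 2, b * (M₀ * ((∏ Q ∈ Z, Q : ℕ) : ℤ)) ^ 3) ∉
      UnbSet κ (M₀ * (∏ Q ∈ Z, Q) * X) 𝒬 δ m) :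
    BalancedW W θ a b 𝔮 (zS Z₀) (zS (SE 𝒬 a b)) δ := by
  intro α hα hns
  obtain ⟨hX1, hX2⟩ := mem_BxA.1 hX
  by_contra hcon
  rw [not_le, zS_filter, card_zS] at hcon
  set Z := Z₀.filter fun Q : ℕ => ¬ Ev (𝔮 (Q : ℤ)) α with hZ
  have hZZ : Z ⊆ Z₀ := Finset.filter_subset _ _
  obtain ⟨D, hD⟩ : ∃ D : ℕ, D = ∏ Q ∈ Z, Q := ⟨_, rfl⟩
  have hu := hunb Z hZZ
  rw [← hD] at hu
  have hselZ : InSelW W a b (zS Z) θ α := by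
    refine ⟨⟨hα.ne, hα.norm, hα.loc, fun 𝔓 hW h => ?_⟩, fun Q hQ => hα.u0 Q (zS_mono hZZ hQ)⟩
    by_cases hex : ∃ Q ∈ zS Z₀, Ov Q 𝔓 ∧ 𝔓.valuation L θ = 1
    · obtain ⟨Q, hQ, h3, h4⟩ := hex
      obtain ⟨p, hp, rfl⟩ := mem_zS.1 hQ
      have e := C.uniq _ (hZS hQ) 𝔓 h3 h4
      by_contra hn
      refine h _ (mem_zS.2 ⟨p, Finset.mem_filter.2 ⟨hp, ?_⟩, rfl⟩) ⟨h3, h4⟩
      rwa [← e]
    · exact hα.ev 𝔓 hW fun Q hQ h3 => hex ⟨Q, hQ, h3⟩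
  have hodd : ∀ Q ∈ zS Z, ∀ 𝔓 : HeightOneSpectrum (𝓞 L), Ov Q 𝔓 → 𝔓.valuation L θ = 1 →
      ¬ Ev 𝔓 α := by
    intro Q hQ 𝔓 h3 h4
    obtain ⟨p, hp, rfl⟩ := mem_zS.1 hQ
    rw [C.uniq _ (hZS (zS_mono hZZ hQ)) 𝔓 h3 h4]
    exact (Finset.mem_filter.1 hp).2
  have hDint : ((D : ℕ) : ℤ) = ∏ Q ∈ zS Z, Q := by rw [prod_zS, hD]
  have hdvd : ∀ Q ∈ 𝒬, ¬ (Q : ℤ) ∣ ((M₀ : ℤ) * ((D : ℕ) : ℤ)) := by
    intro Q hQ h1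
    rcases (Nat.prime_iff_prime_int.1 (h8.1 Q hQ).1).dvd_or_dvd h1 with h1 | h1
    · exact h8.ndvd hκ.pos hκ.le Q hQ h1
    have h2 : Q ∣ D := by exact_mod_cast h1
    rw [hD] at h2
    obtain ⟨p, hp, hQp⟩ := ((h8.1 Q hQ).1.prime.dvd_finsetProd_iff _).1 h2
    have h3 := (Nat.prime_dvd_prime_iff_eq (h8.1 Q hQ).1 (hZpr p (hZZ hp))).1 hQp
    exact Finset.disjoint_left.1 hdis (hZZ hp) (h3 ▸ hQ)
  have hSE := se_twist (a := a) (b := b) h8.1 hdvd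
  obtain ⟨N₁, hN₁, hplb⟩ := hκ.plb
  -- the general step
  have key : ∀ (A' : Finset ℕ) (E : Finset ℤ), A' ⊆ SE 𝒬 a b → (E = ∅ ∨ E = zS A') →
      (∀ Q ∈ A', (Sq1 (𝔮 (Q : ℤ)) α ↔ (Q : ℤ) ∉ E)) →
      (1 / 2 + δ) * ((SE 𝒬 a b).card : ℝ) ≤ A'.card → False := by
    intro A' E hA' hE hsym hcard
    have hA'S : zS A' ⊆ S := (zS_mono hA').trans hAS
    have hP := hplb L a b θ X (zS Z) (zS A') E D C.cub hX1 hX2 C.fam (by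
      intro Q hQ
      rcases Finset.mem_union.1 hQ with h1 | h1
      · exact C.gp Q (hZS (zS_mono hZZ h1))
      · exact C.gp Q (hA'S h1)) (by
      intro Q hQ
      obtain ⟨p, hp, rfl⟩ := mem_zS.1 hQ
      have := (h8.2 p (Finset.mem_filter.1 (hA' hp)).1).2
      exact_mod_cast lt_of_le_of_lt hN₁ this) (zS_disj (by
        refine Finset.disjoint_of_subset_left hZZ (Finset.disjoint_of_subset_right ?_ hdis)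
        exact hA'.trans (Finset.filter_subset _ _))) hDint α hselZ hns hodd (by
        intro Q hQ 𝔓 h3 h4
        obtain ⟨p, hp, rfl⟩ := mem_zS.1 hQ
        rw [C.uniq _ (hA'S hQ) 𝔓 h3 h4]
        exact hsym p hp)
    apply hu
    refine ⟨by rw [hSE]; exact hm, A', by rw [hSE]; exact hA', by rw [hSE]; exact hcard, ?_⟩
    rcases hE with rfl | rfl
    · exact Or.inl hP
    · exact Or.inr hP
  set n1 : ℝ := (((SE 𝒬 a b).filter fun q : ℕ => Sq1 (𝔮 (q : ℤ)) α).card : ℝ) with hn1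
  have hsplit : n1 + (((SE 𝒬 a b).filter fun q : ℕ => ¬ Sq1 (𝔮 (q : ℤ)) α).card : ℝ) =
      ((SE 𝒬 a b).card : ℝ) := by
    rw [hn1]
    exact_mod_cast Finset.card_filter_add_card_filter_not
      (s := SE 𝒬 a b) (p := fun q : ℕ => Sq1 (𝔮 (q : ℤ)) α)
  rcases lt_abs.1 hcon with h1 | h1
  · refine key ((SE 𝒬 a b).filter fun q : ℕ => Sq1 (𝔮 (q : ℤ)) α) ∅ (Finset.filter_subset _ _)
      (Or.inl rfl) (fun Q hQ => ?_) ?_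
    · exact iff_of_true (Finset.mem_filter.1 hQ).2 (Finset.notMem_empty _)
    · rw [← hn1]
      linarith
  · refine key ((SE 𝒬 a b).filter fun q : ℕ => ¬ Sq1 (𝔮 (q : ℤ)) α)
      (zS ((SE 𝒬 a b).filter fun q : ℕ => ¬ Sq1 (𝔮 (q : ℤ)) α)) (Finset.filter_subset _ _)
      (Or.inr rfl) (fun Q hQ => ?_) ?_
    · refine iff_of_false (Finset.mem_filter.1 hQ).2 ?_
      rw [not_not]
      exact mem_zS.2 ⟨Q, hQ, rfl⟩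
    · linarith

end grp

/-- The primes in `S` are of the type for `p`. -/
def TypW (W N : ℕ) (p : ℤ × ℤ) (S : Finset ℕ) : Prop := PrW W N S ∧ ∀ Q ∈ S, (Q : ℤ) ∣ p.2 ∧ NR Q p.1

theorem TypW.gp {W N : ℕ} {p : ℤ × ℤ} {S : Finset ℕ} (h : TypW W N p S) :
    ∀ Q ∈ zS S, GpW W p.1 p.2 Q := by
  intro Q hQ
  obtain ⟨q, hq, rfl⟩ := mem_zS.1 hQ
  exact gpW_of h.1 (Finset.mem_filter.2 ⟨hq, h.2 q hq⟩)

/-- The nontrivial classes of `Sel(Z)` are balanced on `A` (the primes in `S ⊇ Z ∪ A` are of the type). -/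
def BalN (W : ℕ) (p : ℤ × ℤ) (S Z A : Finset ℕ) (δ : ℝ) : Prop :=
  ∀ (L : Type) [Field L] [NumberField L] (θ : L) (𝔮 : ℤ → HeightOneSpectrum (𝓞 L)),
    CtxW W p.1 p.2 θ (zS S) 𝔮 → BalancedW W θ p.1 p.2 𝔮 (zS Z) (zS A) δ

/-- The cubic is irreducible. -/
theorem irr_ff {a b : ℤ} (h : ∀ z : ℤ, z ^ 3 + a * z + b ≠ 0) : Irreducible (ff ℚ a b) := by
  refine irr_tw' fun t ht => ?_
  have hint : IsIntegral ℤ t := by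
    refine ⟨Polynomial.X ^ 3 + Polynomial.C a * Polynomial.X + Polynomial.C b, by monicity!, ?_⟩
    simp only [Polynomial.eval₂_add, Polynomial.eval₂_mul, Polynomial.eval₂_pow, Polynomial.eval₂_X,
      Polynomial.eval₂_C]
    simpa using ht
  obtain ⟨z, rfl⟩ := IsIntegrallyClosed.isIntegral_iff.1 hint
  refine h z ?_
  have : ((z ^ 3 + a * z + b : ℤ) : ℚ) = 0 := by
    push_cast
    simpa using ht
  exact_mod_cast this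

/-- **The ranks** of the twists. -/
theorem ranks (H : Pcs) {W N : ℕ} (hW : OKW W) {p : ℤ × ℤ}
    (hF : GW W p.1 p.2) {S A₀ : Finset ℕ} (hS : TypW W N p S) (hA₀ : A₀ ⊆ S) (hne : A₀.Nonempty)
    {δ₀ : ℝ} (hδ₀ : δ₀ < 1 / 2) (hb₀ : BalN W p S ∅ A₀ δ₀) :
    ∃ r : Finset ℕ → ℕ,
      (∀ Z ⊆ S, Finite (Sel2 (curve ℚ (twist p ((∏ Q ∈ Z, Q : ℕ) : ℤ)))) ∧
        Nat.card (Sel2 (curve ℚ (twist p ((∏ Q ∈ Z, Q : ℕ) : ℤ)))) = 2 ^ r Z) ∧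
      r ∅ ≤ A₀.card ∧
      ∀ Z A : Finset ℕ, Z ⊆ S → A ⊆ S → Disjoint Z A → ∀ δ : ℝ, 0 ≤ δ → BalN W p S Z A δ →
        (∀ q ∈ A, r (insert q Z) = r Z + 1 ∨ r (insert q Z) + 1 = r Z) ∧
        |((A.filter fun q => r (insert q Z) = r Z + 1).card : ℝ) -
          (1 / 2) ^ (r Z) * A.card| ≤ 2 * δ * A.card := by
  obtain ⟨a, b⟩ := p
  obtain ⟨L, iF, iN, θ, hc, -⟩ := exists_cub (irr_ff hF.irr)
  obtain ⟨𝔮, C⟩ := exists_ctx H hW hc hF hS.gp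
  have hne0 : (zS A₀).Nonempty := by
    rw [← Finset.card_pos, card_zS]
    exact hne.card_pos
  have hb0 : BalancedW W θ a b 𝔮 ∅ (zS A₀) δ₀ := hb₀ L θ 𝔮 C
  have hI : InjW W a b θ (zS S) 𝔮 := inj_of H C (zS_mono hA₀) hne0 hδ₀ hb0
  refine ⟨fun Z => rkW H C (zS Z), ?_, ?_, ?_⟩
  · intro Z hZ
    exact sel_card H C hI (zS_mono hZ) (by rw [prod_zS])
  · have := rk_le H C (zS_mono hA₀) hne0 hδ₀ hb0
    rwa [card_zS] at this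
  · intro Z A hZ hA hdis δ hδ hb
    obtain ⟨h1, h2⟩ := up_count H C hI (zS_mono hZ) (zS_mono hA) (zS_disj hdis) hδ
      (hb L θ 𝔮 C)
    constructor
    · intro q hq
      have := h1 (q : ℤ) (mem_zS.2 ⟨q, hq, rfl⟩)
      show rkW H C (zS (insert q Z)) = rkW H C (zS Z) + 1 ∨
        rkW H C (zS (insert q Z)) + 1 = rkW H C (zS Z)
      rw [zS_insert]
      exact this
    · rw [zS_filter, card_zS] at h2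
      simp only [zS_insert]
      exact h2

/-- Balance from the sets of Job MOM. -/
theorem balN_of {W κ M₀ N : ℕ} (hκ : Cst W κ M₀ N) {p : ℤ × ℤ} {X : ℕ} (hX : p ∈ BxA X)
    {S 𝒬 Z₀ : Finset ℕ}
    (h8 : PrW W N 𝒬) (hZpr : ∀ Q ∈ Z₀, Q.Prime) (hdis : Disjoint Z₀ 𝒬) (hZS : Z₀ ⊆ S)
    (hAS : SE 𝒬 p.1 p.2 ⊆ S) {δ : ℝ} {m : ℕ} (hm : m ≤ (SE 𝒬 p.1 p.2).card)
    (hunb : ∀ Z ⊆ Z₀, (p.1 * (M₀ * ((∏ Q ∈ Z, Q : ℕ) : ℤ)) ^ 2,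
      p.2 * (M₀ * ((∏ Q ∈ Z, Q : ℕ) : ℤ)) ^ 3) ∉
      UnbSet κ (M₀ * (∏ Q ∈ Z, Q) * X) 𝒬 δ m) : BalN W p S Z₀ (SE 𝒬 p.1 p.2) δ :=
  fun L _ _ θ 𝔮 C => balanced_of hκ C hX h8 hZpr hdis (zS_mono hZS) (zS_mono hAS) hm hunb

end Pool.Agent.H29A
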