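import Pool.Agent.H29A.Stm
import Pool.Agent.H30GS.Sel
import Pool.Agent.N922.PQ.Final

/-!
# Project ALL (helper29), piece EVC (helper61): the valuations of the element of a Selmer cocycle

After `Pool/Agent/H30GR/TopR.lean` and `Pool/Agent/Helper29L/Up.lean`.
-/

set_option autoImplicit false
set_option linter.all false

open Polynomial IsDedekindDomain WeierstrassCurve WeierstrassCurve.Affine NumberField
open scoped Classical IntermediateField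

namespace Pool.Agent.H29A

open Pool.Agent.N922.PQ
open Pool.Agent.TH115.GD (Sep Comp IsCoc LocTriv Pt act rs)
open Pool.Agent.H30GS (unr_q res_q isGal_q finrank_q)
open Pool.Agent.H30EV (Unr Res pz valQ ns_top')
open Pool.Agent.Helper29L (Gp PBad InB PD NBas NN cubD not_ev_exp)
open Pool.Agent.N874.PP (Tup chA chB gq tau Two Ev Sq1 U0 sW IsBeta Rt sg)
open Pool.Agent.N874.PM (PLoc Lies)

/-- The value of the polynomial of a class does not depend on the choice. -/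
theorem evc_aeval {A B : ℚ} (hirr : Irreducible (X ^ 3 + C A * X + C B : ℚ[X])) {h h' : ℚ[X]}
    {β : Sep ℚ → Sep ℚ} (hh : ∀ t : Sep ℚ, Rt A B t → aeval t h = β t ^ 2)
    (hh' : ∀ t : Sep ℚ, Rt A B t → aeval t h' = β t ^ 2) {L : Type} [Field L] [Algebra ℚ L]
    {t : L} (ht : Rt A B t) : aeval t h = aeval t h' := by
  have hm : (X ^ 3 + C A * X + C B : ℚ[X]).Monic := by monicity!
  have hd : (X ^ 3 + C A * X + C B : ℚ[X]).degree ≠ 0 := by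
    have : (X ^ 3 + C A * X + C B : ℚ[X]).degree = 3 := by compute_degree!
    rw [this]
    norm_num
  obtain ⟨t₀, h0⟩ := IsSepClosed.exists_aeval_eq_zero (Sep ℚ) (X ^ 3 + C A * X + C B : ℚ[X]) hd
    hirr.separable
  have hR : Rt A B t₀ := by
    unfold Rt
    simpa using h0
  have hmin : X ^ 3 + C A * X + C B = minpoly ℚ t₀ := minpoly.eq_of_irreducible_of_monic hirr h0 hm
  have hdv : (X ^ 3 + C A * X + C B : ℚ[X]) ∣ h - h' := by
    rw [hmin]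
    apply minpoly.dvd
    rw [map_sub, hh t₀ hR, hh' t₀ hR, sub_self]
  obtain ⟨q, hq⟩ := hdv
  have h1 : aeval t (X ^ 3 + C A * X + C B : ℚ[X]) = 0 := by
    unfold Rt at ht
    simpa using ht
  have h2 : aeval t (h - h') = 0 := by
    rw [hq, map_mul, h1, zero_mul]
  rwa [map_sub, sub_eq_zero] at h2

/-- The valuation of an integer which is not divisible by the square of the prime. -/
theorem evc_val {r : ℤ} (w : HeightOneSpectrum (𝓞 ℚ))
    (hr : ∀ P : ℤ, IsPr P → Ov P w → ¬ P ^ 2 ∣ r) :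
    WithZero.exp (-1 : ℤ) ≤ w.valuation ℚ (r : ℚ) := by
  obtain ⟨P, hP, hPw⟩ := exists_below w
  have h1 : (pz hP).valuation ℚ (r : ℚ) = w.valuation ℚ (r : ℚ) :=
    (valQ hP (r : ℚ) w hPw (unr_q hP)).1
  rw [← h1]
  by_contra hlt
  rw [not_le] at hlt
  apply hr P hP hPw
  have ecast : (r : ℚ) = algebraMap ℤ ℚ r := by simp
  have h2 : (pz hP).intValuation r ≤ WithZero.exp (-(2 : ℕ) : ℤ) := by
    rw [ecast, HeightOneSpectrum.valuation_of_algebraMap] at hlt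
    rcases eq_or_ne ((pz hP).intValuation r) 0 with h0 | h0
    · rw [h0]
      exact zero_le'
    · rw [← WithZero.exp_log h0, WithZero.exp_lt_exp] at hlt
      rw [← WithZero.exp_log h0, WithZero.exp_le_exp]
      push_cast
      omega
  have h3 := ((pz hP).intValuation_le_pow_iff_mem r 2).mp h2
  have h4 : (pz hP).asIdeal ^ 2 = Ideal.span {P ^ 2} := by
    change (Ideal.span {P}) ^ 2 = _
    rw [Ideal.span_singleton_pow]
  rw [h4, Ideal.mem_span_singleton] at h3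
  exact h3

/-- The cubic polynomial of a twist has no rational zero. -/
theorem evc_root {W : ℕ} {a b d : ℤ} (hG : GW W a b) (hd : d ≠ 0) (t : ℚ) :
    t ^ 3 + ((a * d ^ 2 : ℤ) : ℚ) * t + ((b * d ^ 3 : ℤ) : ℚ) ≠ 0 := by
  intro ht
  have hd' : (d : ℚ) ≠ 0 := by exact_mod_cast hd
  have h1 : (t / d) ^ 3 + (a : ℚ) * (t / d) + (b : ℚ) = 0 := by
    have h2 : ((t / d) ^ 3 + (a : ℚ) * (t / d) + (b : ℚ)) * (d : ℚ) ^ 3 = 0 := by
      rw [← ht]
      push_cast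
      field_simp
    exact (mul_eq_zero.1 h2).resolve_right (pow_ne_zero 3 hd')
  have hint : IsIntegral ℤ (t / (d : ℚ)) := by
    refine ⟨X ^ 3 + C a * X + C b, by monicity!, ?_⟩
    rw [eval₂_add, eval₂_add, eval₂_mul, eval₂_C, eval₂_C, eval₂_X, eval₂_pow, eval₂_X]
    simpa using h1
  obtain ⟨z, hz⟩ := IsIntegrallyClosed.isIntegral_iff.1 hint
  rw [eq_intCast] at hz
  rw [← hz] at h1
  exact hG.irr z (by exact_mod_cast h1)

/-- **EVC.** -/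
theorem t_EVC (hE : S_EXW) : S_EVC := by
  intro W hW L _ _ a b θ Z d hc hG hZ hd f hf h2f hloc β h hβ hh
  haveI := isGal_q
  have H : Parts2 := parts2
  have hpr : ∀ Q ∈ Z, IsPr Q := fun Q hQ => (hZ Q hQ).pr
  have hd1 : 0 < d := by
    rw [hd]
    exact Finset.prod_pos fun Q hQ => (hpr Q hQ).1
  have hd0 : d ≠ 0 := hd1.ne'
  have h6M : (6 : ℚ) ≠ 0 := by norm_num
  have hirr : Irreducible (X ^ 3 + C (((a * d ^ 2 : ℤ)) : ℚ) * X +
      C (((b * d ^ 3 : ℤ)) : ℚ) : ℚ[X]) :=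
    irr_tw' (F := ℚ) (a := a * d ^ 2) (b := b * d ^ 3) (evc_root hG hd0)
  have hdsc0 : dsc a b ≠ 0 := hG.pos.ne'
  have hdisc : 4 * (((a * d ^ 2 : ℤ)) : ℚ) ^ 3 + 27 * (((b * d ^ 3 : ℤ)) : ℚ) ^ 2 ≠ 0 := by
    have e : 4 * (((a * d ^ 2 : ℤ)) : ℚ) ^ 3 + 27 * (((b * d ^ 3 : ℤ)) : ℚ) ^ 2 =
        ((d ^ 6 * dsc a b : ℤ) : ℚ) := by
      simp only [dsc, Int.cast_mul, Int.cast_add, Int.cast_pow, Int.cast_ofNat]
      ring
    rw [e, Int.cast_ne_zero]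
    exact mul_ne_zero (pow_ne_zero _ hd0) hdsc0
  have hroot := hc.root
  have hRt : Rt (((a * d ^ 2 : ℤ)) : ℚ) (((b * d ^ 3 : ℤ)) : ℚ) ((d : L) * θ) := by
    unfold Rt
    rw [map_intCast, map_intCast, Int.cast_mul a, Int.cast_mul b, Int.cast_pow, Int.cast_pow]
    linear_combination (d : L) ^ 3 * hroot
  -- the norm
  obtain ⟨h', hh', hn⟩ := H.p.gn ℚ _ _ h6M hdisc hirr f hf h2f β hβ
  have hn2 := hn L _ hRt hc.rank
  rw [← evc_aeval hirr hh hh' hRt] at hn2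
  refine ⟨hn2.1, hn2.2, ?_⟩
  have hroot' : θ ^ 3 + algebraMap ℚ L (a : ℚ) * θ + algebraMap ℚ L (b : ℚ) = 0 := by
    rw [map_intCast, map_intCast]
    exact hroot
  have ecast : algebraMap ℚ L (d : ℚ) = (d : L) := map_intCast _ _
  -- the primes which do not divide `W`
  have h24 : ∀ w : HeightOneSpectrum (𝓞 ℚ), ¬ Ov (W : ℤ) w → ¬ Ov 2 w ∧ ¬ Ov 3 w := by
    intro w hw
    have hsub : ∀ k : ℤ, k ∣ (W : ℤ) → ¬ Ov k w := by
      rintro k ⟨c, hc⟩ hk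
      apply hw
      unfold Ov at hk ⊢
      rw [hc, Int.cast_mul]
      exact Ideal.mul_mem_right _ _ hk
    have h24 : (24 : ℤ) ∣ (W : ℤ) := by exact_mod_cast hW.dvd
    exact ⟨hsub 2 (Dvd.dvd.trans (by norm_num) h24), hsub 3 (Dvd.dvd.trans (by norm_num) h24)⟩
  have hsqf : ∀ w : HeightOneSpectrum (𝓞 ℚ), ¬ Ov (W : ℤ) w →
      WithZero.exp (-1 : ℤ) ≤ w.valuation ℚ (((dsc a b : ℤ)) : ℚ) := by
    intro w hw
    refine evc_val w fun P hP hPw hdv => ?_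
    apply hw
    have hPn : ((P.natAbs : ℕ) : ℤ) = P := Int.natAbs_of_nonneg hP.1.le
    have hPp : P.natAbs.Prime := Int.prime_iff_natAbs_prime.mp hP.2
    have h1 := hG.pow P.natAbs 2 hPp le_rfl (by rw [hPn]; exact hdv)
    have h2 : P ∣ (W : ℤ) := by
      have h3 : P.natAbs ∣ W := (dvd_pow_self _ two_ne_zero).trans h1
      rw [← hPn]
      exact_mod_cast h3
    obtain ⟨c, hc⟩ := h2
    unfold Ov at hPw ⊢
    rw [hc, Int.cast_mul]
    exact Ideal.mul_mem_right _ _ hPw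
  have hpl : ∀ w : HeightOneSpectrum (𝓞 ℚ), ¬ Ov 2 w → @PLoc ℚ (w.adicCompletion ℚ) _ _
      (HeightOneSpectrum.instAlgebraAdicCompletion (𝓞 ℚ) ℚ w)
      (((a * d ^ 2 : ℤ)) : ℚ) (((b * d ^ 3 : ℤ)) : ℚ) h := fun w hw =>
    H.p.glr ℚ (𝓞 ℚ) _ _ h6M hdisc f hf h2f β h hβ hh w (val_two hw) (hloc w)
  -- the primes of `Z`
  have key : ∀ Q ∈ Z, ∀ 𝔓 : HeightOneSpectrum (𝓞 L), Ov Q 𝔓 →
      (𝔓.valuation L θ = 1 → U0 𝔓 ((Q : L) * θ) (aeval ((d : L) * θ) h)) ∧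
      (𝔓.valuation L θ < 1 → Ev 𝔓 (aeval ((d : L) * θ) h)) := by
    intro Q hQ 𝔓 h𝔓
    have hQp : IsPr Q := hpr Q hQ
    obtain ⟨w, hw, hO⟩ := H.p.lie ℚ L (𝓞 ℚ) (𝓞 L) 𝔓
    have hQw : Ov Q w := (hO Q).2 h𝔓
    have hWw : ¬ Ov (W : ℤ) w := by
      intro h1
      obtain ⟨c, hc⟩ := (hZ Q hQ).one
      have h2 : Ov (Q - 1) w := by
        unfold Ov at h1 ⊢
        rw [hc, Int.cast_mul]
        exact Ideal.mul_mem_right _ _ h1
      have h3 : (1 : 𝓞 ℚ) ∈ w.asIdeal := by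
        unfold Ov at h2 hQw
        have := sub_mem hQw h2
        rwa [← Int.cast_sub, sub_sub_cancel, Int.cast_one] at this
      exact w.isPrime.ne_top ((Ideal.eq_top_iff_one _).2 h3)
    obtain ⟨h2w, h3w⟩ := h24 w hWw
    haveI : Finite (𝓞 ℚ ⧸ w.asIdeal) :=
      Pool.Agent.N42.PQ.finite_residue (L := ℚ) hQp.2.ne_zero hQw
    have hprod : d = Q * ∏ P ∈ Z.erase Q, P := by
      rw [hd]
      exact (Finset.mul_prod_erase Z id hQ).symm
    have hϖ : w.valuation ℚ (Q : ℚ) = WithZero.exp (-1 : ℤ) := unr_q hQp w hQw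
    have hD' : w.valuation ℚ (((∏ P ∈ Z.erase Q, P : ℤ)) : ℚ) = 1 := by
      refine val_eq_of _ w fun h => ?_
      obtain ⟨P, hP, hP'⟩ := ov_prod h
      exact Finset.ne_of_mem_erase hP
        (below_unique (hpr P (Finset.mem_of_mem_erase hP)) hQp hP' hQw)
    have hb1 : w.valuation ℚ (b : ℚ) < 1 := by
      rw [← ov_val]
      obtain ⟨c, hc⟩ := (hZ Q hQ).db
      unfold Ov at hQw ⊢
      rw [hc, Int.cast_mul]
      exact Ideal.mul_mem_right _ _ hQw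
    have hns := fun z hz => ns_top' (M := ℚ) (a := a) hQp (unr_q hQp) (res_q hQp)
      (hZ Q hQ).ns w hQw z hz
    have e0 : (d : ℚ) = (Q : ℚ) * (((∏ P ∈ Z.erase Q, P : ℤ)) : ℚ) := by
      rw [hprod, Int.cast_mul]
    have e1 : (((a * d ^ 2 : ℤ)) : ℚ) = (a : ℚ) *
        ((Q : ℚ) * (((∏ P ∈ Z.erase Q, P : ℤ)) : ℚ)) ^ 2 := by
      rw [← e0]
      simp only [Int.cast_mul, Int.cast_pow]
    have e2 : (((b * d ^ 3 : ℤ)) : ℚ) = (b : ℚ) *
        ((Q : ℚ) * (((∏ P ∈ Z.erase Q, P : ℤ)) : ℚ)) ^ 3 := by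
      rw [← e0]
      simp only [Int.cast_mul, Int.cast_pow]
    have e3 : algebraMap ℚ L ((Q : ℚ) * (((∏ P ∈ Z.erase Q, P : ℤ)) : ℚ)) = (d : L) := by
      rw [← e0, map_intCast]
    have hl := hpl w h2w
    rw [e1, e2] at hl
    have h2 := H.p.loc2 ℚ L (𝓞 ℚ) (𝓞 L) w 𝔓 hw (a : ℚ) (b : ℚ)
      (Q : ℚ) (((∏ P ∈ Z.erase Q, P : ℤ)) : ℚ) θ h hroot'
      (val_six h2w h3w) (val_le a w) hb1 hϖ hD' hns hl (by rw [e3]; exact hn2.1)
    rw [e3, map_intCast (algebraMap ℚ L)] at h2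
    refine ⟨fun h3 => h2.1 h3 ?_, h2.2⟩
    -- the valuation of `Q θ`
    have hint : _root_.IsIntegral ℤ θ := by
      refine ⟨X ^ 3 + C a * X + C b, by monicity!, ?_⟩
      rw [← aeval_def, map_add, map_add, map_mul, map_pow, aeval_X, aeval_C, aeval_C]
      simpa only [eq_intCast, map_intCast] using hroot
    obtain ⟨t, ht⟩ : ∃ t : 𝓞 L, algebraMap (𝓞 L) L t = θ := ⟨⟨θ, hint⟩, rfl⟩
    obtain ⟨𝔓₀, 𝔮, hPD, hP0, hq1⟩ := hE L a b θ t hc ht Q (hZ Q hQ).toGp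
    rcases hPD.only 𝔓 h𝔓 with h4 | h4
    · rw [h4] at h3
      exact absurd h3 hP0.ne
    · subst h4
      apply not_ev_exp
      rw [map_mul, hPD.unif', h3, mul_one]
  refine ⟨fun 𝔓 h1 h2 => ?_, fun Q hQ 𝔓 h1 h2 => (key Q hQ 𝔓 h1).1 h2⟩
  by_cases h3 : ∃ Q ∈ Z, Ov Q 𝔓
  · obtain ⟨Q, hQ, hO⟩ := h3
    refine (key Q hQ 𝔓 hO).2 (lt_of_le_of_ne ?_ fun h4 => h2 Q hQ ⟨hO, h4⟩)
    have hint : _root_.IsIntegral ℤ θ := by
      refine ⟨X ^ 3 + C a * X + C b, by monicity!, ?_⟩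
      rw [← aeval_def, map_add, map_add, map_mul, map_pow, aeval_X, aeval_C, aeval_C]
      simpa only [eq_intCast, map_intCast] using hroot
    obtain ⟨t, rfl⟩ : ∃ t : 𝓞 L, algebraMap (𝓞 L) L t = θ := ⟨⟨θ, hint⟩, rfl⟩
    exact HeightOneSpectrum.valuation_le_one 𝔓 t
  · push Not at h3
    obtain ⟨w, hw, hO⟩ := H.p.lie ℚ L (𝓞 ℚ) (𝓞 L) 𝔓
    have hWw : ¬ Ov (W : ℤ) w := by
      intro h4
      have h5 := (hO (W : ℤ)).1 h4
      unfold Ov at h5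
      rw [Int.cast_natCast] at h5
      exact h1 h5
    obtain ⟨h2w, h3w⟩ := h24 w hWw
    have hD : w.valuation ℚ (d : ℚ) = 1 := by
      refine val_eq_of _ w fun h => ?_
      rw [hd] at h
      obtain ⟨Q, hQ, h'⟩ := ov_prod h
      exact h3 Q hQ ((hO Q).1 h')
    have hdisc' : WithZero.exp (-1 : ℤ) ≤ w.valuation ℚ (4 * (a : ℚ) ^ 3 + 27 * (b : ℚ) ^ 2) := by
      have e : 4 * (a : ℚ) ^ 3 + 27 * (b : ℚ) ^ 2 = (((dsc a b : ℤ)) : ℚ) := by
        simp [dsc]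
      rw [e]
      exact hsqf w hWw
    have hl := hpl w h2w
    have e1 : (((a * d ^ 2 : ℤ)) : ℚ) = (a : ℚ) * (d : ℚ) ^ 2 := by
      simp only [Int.cast_mul, Int.cast_pow]
    have e2 : (((b * d ^ 3 : ℤ)) : ℚ) = (b : ℚ) * (d : ℚ) ^ 3 := by
      simp only [Int.cast_mul, Int.cast_pow]
    rw [e1, e2] at hl
    have h5 := H.p.loc1 ℚ L (𝓞 ℚ) (𝓞 L) w 𝔓 hw (a : ℚ) (b : ℚ) (d : ℚ) θ h hroot'
      (val_six h2w h3w) (val_le a w) (val_le b w) hD hdisc' hl (by rw [ecast]; exact hn2.1)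
    rw [ecast] at h5
    exact h5

end Pool.Agent.H29A
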