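import Pool.Agent.H29A.Stm
import Pool.Agent.Helper29L.Lat1

/-!
# Project ALL, piece EXW
-/

set_option autoImplicit false
set_option linter.all false

open IsDedekindDomain NumberField Filter
open scoped Classical Matrix

namespace Pool.Agent.H29A

open Pool.Agent.N922.PQ
open Pool.Agent.N301.PQ (mem_both theta_not_mem val_lt_mem mapO exists_hos crd_add crd_smul crd_theta
  crd_inj crd_C not_dvd_a)
open Pool.Agent.Helper29L (Gp PD unif_aux)

/-- `Q` does not divide the discriminant -/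
theorem gp_not_dvd {a b Q : ℤ} (hQ : Gp a b Q) : ¬ Q ∣ dsc a b := by
  intro hd
  have hp : Prime Q := hQ.pr.2
  have h1 : Q ∣ 4 * a ^ 3 := by
    have h2 : Q ∣ 27 * b ^ 2 := (dvd_pow hQ.db two_ne_zero).mul_left _
    have h3 := dvd_sub hd h2
    have h4 : dsc a b - 27 * b ^ 2 = 4 * a ^ 3 := by unfold dsc; ring
    rwa [h4] at h3
  have ha : ¬ Q ∣ a := not_dvd_a hQ.ns
  have h4 : ¬ Q ∣ 4 := by
    intro h
    have h5 : Q ∣ 2 := by
      have : (4 : ℤ) = 2 ^ 2 := by norm_num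
      rw [this] at h
      exact hp.dvd_of_dvd_pow h
    have h6 := hQ.m8
    have h7 : Q ≤ 2 := Int.le_of_dvd (by norm_num) h5
    have h8 := hQ.pr.1
    have h9 : Q = 1 := by omega
    rw [h9] at hp
    exact hp.not_unit isUnit_one
  rcases hp.dvd_or_dvd h1 with h | h
  · exact h4 h
  · exact ha (hp.dvd_of_dvd_pow h)

/-- local integrality at `Q` -/
theorem inl_at (hI : S_INL) {L : Type} [Field L] [NumberField L] {a b : ℤ} {θ : L} (h : IsCub a b θ)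
    {Q : ℤ} (hQ : Gp a b Q) (z : 𝓞 L) :
    ∃ (s : ℤ) (v : Fin 3 → ℤ), ¬ Q ∣ s ∧ Crd θ v ((s : L) * algebraMap (𝓞 L) L z) := by
  have hp : Prime Q := hQ.pr.2
  have hnd := gp_not_dvd hQ
  have hQn : ((Q.natAbs : ℕ) : ℤ) = Q := Int.natAbs_of_nonneg (le_of_lt hQ.pr.1)
  have hd0 : dsc a b ≠ 0 := by
    intro h0
    rw [h0] at hnd
    exact hnd (dvd_zero _)
  obtain ⟨s, v, hs, hv⟩ := hI L a b θ h hd0 Q.natAbs (Int.prime_iff_natAbs_prime.1 hp) (by
    rw [hQn]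
    exact fun h1 => hnd ((dvd_pow_self Q two_ne_zero).trans h1)) (algebraMap (𝓞 L) L z)
      (RingOfIntegers.isIntegral_coe z)
  rw [hQn] at hs
  exact ⟨s, v, hs, hv⟩

theorem t_EXW (hI : S_INL) : S_EXW := by
  intro L _ _ a b θ t h ht Q hQ
  have hp : Prime Q := hQ.pr.2
  -- the first prime
  obtain ⟨𝔓, hP, htP⟩ : ∃ 𝔓 : HeightOneSpectrum (𝓞 L), Ov Q 𝔓 ∧ t ∈ 𝔓.asIdeal := by
    obtain ⟨𝔓, h1, h2⟩ := exists_hos (O := 𝓞 L) L hp (Ideal.span {(Q : 𝓞 L), t}) (by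
      rw [Ne, Ideal.eq_top_iff_one, Ideal.mem_span_pair]
      rintro ⟨y, z, hyz⟩
      obtain ⟨s, v, hs, hv⟩ := inl_at hI h hQ y
      obtain ⟨r, w, hr, hw⟩ := inl_at hI h hQ z
      have e1 := crd_add (crd_smul (Q * r) hv) (crd_smul s (crd_theta h hw))
      have e2 : ((Q * r : ℤ) : L) * ((s : L) * algebraMap (𝓞 L) L y) +
          (s : L) * (θ * ((r : L) * algebraMap (𝓞 L) L z)) = ((s * r : ℤ) : L) := by
        have := congrArg (algebraMap (𝓞 L) L) hyz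
        rw [map_add, map_mul, map_mul, mapO, ht, map_one] at this
        push_cast
        linear_combination (s : L) * (r : L) * this
      rw [e2] at e1
      have e3 := congrFun (crd_inj h e1 (crd_C θ (s * r))) 0
      simp only [Pi.add_apply, Matrix.cons_val_zero] at e3
      have h5 : Q ∣ s * r := by
        rw [← e3]
        exact dvd_add ((dvd_mul_right _ _).mul_right _) (((hQ.db.neg_right).mul_right _).mul_left _)
      exact (hp.dvd_or_dvd h5).elim hs hr)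
      (Ideal.subset_span (by simp))
    exact ⟨𝔓, h1, h2 (Ideal.subset_span (by simp))⟩
  -- the second prime
  obtain ⟨𝔮, hq, htq⟩ : ∃ 𝔓 : HeightOneSpectrum (𝓞 L), Ov Q 𝔓 ∧ t ^ 2 + (a : 𝓞 L) ∈ 𝔓.asIdeal := by
    obtain ⟨𝔓, h1, h2⟩ := exists_hos (O := 𝓞 L) L hp
      (Ideal.span {(Q : 𝓞 L), t ^ 2 + (a : 𝓞 L)}) (by
      rw [Ne, Ideal.eq_top_iff_one, Ideal.mem_span_pair]
      rintro ⟨y, z, hyz⟩
      obtain ⟨s, v, hs, hv⟩ := inl_at hI h hQ y
      obtain ⟨r, w, hr, hw⟩ := inl_at hI h hQ z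
      have e1 := crd_add (crd_smul (Q * r) hv)
        (crd_smul s (crd_add (crd_theta h (crd_theta h hw)) (crd_smul a hw)))
      have e2 : ((Q * r : ℤ) : L) * ((s : L) * algebraMap (𝓞 L) L y) +
          (s : L) * (θ * (θ * ((r : L) * algebraMap (𝓞 L) L z)) +
          (a : L) * ((r : L) * algebraMap (𝓞 L) L z)) = ((s * r : ℤ) : L) := by
        have := congrArg (algebraMap (𝓞 L) L) hyz
        rw [map_add, map_mul, map_mul, map_add, map_pow, mapO, mapO, ht, map_one] at this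
        push_cast
        linear_combination (s : L) * (r : L) * this
      rw [e2] at e1
      have e3 := crd_inj h e1 (crd_C θ (s * r))
      have e4 := congrFun e3 0
      have e5 := congrFun e3 2
      simp only [Pi.add_apply, Matrix.cons_val_zero, Matrix.cons_val_one, Matrix.cons_val] at e4 e5
      obtain ⟨c, hc⟩ := hQ.db
      have h5 : Q ∣ s * r := by
        refine ⟨r * v 0 - s * c * w 1 - a * (r * v 2), ?_⟩
        linear_combination -e4 + a * e5 - s * w 1 * hc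
      exact (hp.dvd_or_dvd h5).elim hs hr)
      (Ideal.subset_span (by simp))
    exact ⟨𝔓, h1, h2 (Ideal.subset_span (by simp))⟩
  have htn := theta_not_mem hQ.pr.2 hQ.ns hq htq
  have both : ∀ z : 𝓞 L, z ∈ 𝔓.asIdeal → z ∈ 𝔮.asIdeal → ∃ w, z = (Q : 𝓞 L) * w := by
    intro z h1 h2
    obtain ⟨s, v, hs, hv⟩ := inl_at hI h hQ z
    have hv' : Crd θ v (algebraMap (𝓞 L) L ((s : 𝓞 L) * z)) := by
      rw [map_mul, mapO]
      exact hv
    obtain ⟨⟨c0, h0⟩, ⟨c1, h1'⟩, ⟨c2, h2'⟩⟩ := mem_both hQ.pr.2 hQ.ns ht hP hq htP htq hv'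
      (𝔓.asIdeal.mul_mem_left _ h1) (𝔮.asIdeal.mul_mem_left _ h2)
    obtain ⟨u, k, huk⟩ := hp.irreducible.coprime_iff_not_dvd.2 hs
    refine ⟨(u : 𝓞 L) * z + (k : 𝓞 L) * ((c0 : 𝓞 L) + (c1 : 𝓞 L) * t + (c2 : 𝓞 L) * t ^ 2), ?_⟩
    have h3 : (s : 𝓞 L) * z = (Q : 𝓞 L) * ((c0 : 𝓞 L) + (c1 : 𝓞 L) * t + (c2 : 𝓞 L) * t ^ 2) := by
      apply IsFractionRing.injective (𝓞 L) L
      rw [hv']
      simp only [map_add, map_mul, map_pow, mapO, ht, h0, h1', h2', Int.cast_mul]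
      ring
    have h4 : (u : 𝓞 L) * (Q : 𝓞 L) + (k : 𝓞 L) * (s : 𝓞 L) = 1 := by
      exact_mod_cast congrArg (Int.cast (R := 𝓞 L)) huk
    linear_combination -z * h4 + (k : 𝓞 L) * h3
  have hne2 : ∃ p ∈ 𝔮.asIdeal, p ∉ 𝔓.asIdeal := by
    by_contra hcon
    push Not at hcon
    exact htn ((𝔮.isMaximal.eq_of_le 𝔓.isPrime.ne_top hcon) ▸ htP)
  refine ⟨𝔓, 𝔮, ⟨hP, hq, htP, htn, both, ?_, ?_, ?_⟩, ?_, ?_⟩
  · exact unif_aux hP hne2 both
  · exact unif_aux hq ⟨t, htP, htn⟩ fun z h1 h2 => both z h2 h1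
  · intro 𝔓' hov
    have h1 : ¬ ∃ p q, p ∈ 𝔓.asIdeal ∧ q ∈ 𝔮.asIdeal ∧ p ∉ 𝔓'.asIdeal ∧ q ∉ 𝔓'.asIdeal := by
      rintro ⟨p, q, hp, hq', hp', hq''⟩
      obtain ⟨w, hw⟩ := both (p * q) (𝔓.asIdeal.mul_mem_right _ hp)
        (𝔮.asIdeal.mul_mem_left _ hq')
      have h2 : p * q ∈ 𝔓'.asIdeal := by
        rw [hw]
        exact 𝔓'.asIdeal.mul_mem_right _ hov
      exact (𝔓'.isPrime.mem_or_mem h2).elim hp' hq''
    by_cases h2 : 𝔓.asIdeal ≤ 𝔓'.asIdeal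
    · left
      exact (HeightOneSpectrum.ext (𝔓.isMaximal.eq_of_le 𝔓'.isPrime.ne_top h2)).symm
    · right
      obtain ⟨p, hp, hp'⟩ := Set.not_subset.1 h2
      have h3 : 𝔮.asIdeal ≤ 𝔓'.asIdeal := by
        intro q hq'
        by_contra hq''
        exact h1 ⟨p, q, hp, hq', hp', hq''⟩
      exact (HeightOneSpectrum.ext (𝔮.isMaximal.eq_of_le 𝔓'.isPrime.ne_top h3)).symm
  · rw [← ht]
    exact (val_lt_mem 𝔓 t).2 htP
  · rw [← ht]
    exact (HeightOneSpectrum.valuation_eq_one_iff_notMem 𝔮).2 htn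

end Pool.Agent.H29A
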