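import Pool.Agent.H29A.Stm
import Pool.Agent.N42.QM.Glf
import Pool.Agent.N530.QM.Farc
import Pool.Agent.N630.PP.GP

/-!
# Project ALL (helper29), piece GLC (helper88): the local condition of a locally trivial cocycle
-/

set_option autoImplicit false
set_option linter.all false

open IsDedekindDomain NumberField
open scoped Classical Matrix

namespace Pool.Agent.H29A

open Pool.Agent.N922.PQ
open Pool.Agent.TH115.GD (Sep Comp IsCoc LocTriv Pt)
open Pool.Agent.Helper29L.SZ (VV)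
open Pool.Agent.Y710.CV (Cond)
open Pool.Agent.N874.PP (Tup chA chB gq tau Two Ev Sq1 U0 sW IsBeta Rt)

/-- from the condition in terms of polynomials to the condition in terms of the embeddings -/
theorem GLC_cond {F Ω : Type} [Field F] [Field Ω] [Algebra ℚ F] [Algebra F Ω] [Algebra ℚ Ω]
    [IsScalarTower ℚ F Ω] (A B : ℤ) (hD : 4 * A ^ 3 + 27 * B ^ 2 ≠ 0) (h : Polynomial ℚ)
    (j : ℚ →+* F)
    (hP : (∃ g : Polynomial F, Polynomial.X ^ 3 + Polynomial.C (j A) * Polynomial.X +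
        Polynomial.C (j B) ∣ h.map j - g ^ 2) ∨
      ∃ x y : F, y ≠ 0 ∧ y ^ 2 = x ^ 3 + j A * x + j B ∧
        ∃ g : Polynomial F, Polynomial.X ^ 3 + Polynomial.C (j A) * Polynomial.X +
          Polynomial.C (j B) ∣ (Polynomial.C x - Polynomial.X) * h.map j - g ^ 2)
    (L : Type) [Field L] [NumberField L] (θ : L) (hθ : IsCub A B θ) :
    Cond F Ω (VV A B) θ (Polynomial.aeval θ h) := by
  obtain rfl : j = algebraMap ℚ F := Subsingleton.elim _ _
  have hroot : ∀ φ : L →+* Ω, (φ θ) ^ 3 + (A : Ω) * φ θ + (B : Ω) = 0 := by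
    intro φ
    have := congrArg φ hθ.root
    simpa using this
  have hφh : ∀ φ : L →+* Ω, φ (Polynomial.aeval θ h) =
      Polynomial.aeval (φ θ) (h.map (algebraMap ℚ F)) := by
    intro φ
    rw [Polynomial.aeval_map_algebraMap, Polynomial.aeval_def, Polynomial.aeval_def,
      Polynomial.hom_eval₂]
    congr 1
    exact Subsingleton.elim _ _
  have hcub : ∀ φ : L →+* Ω, Polynomial.aeval (φ θ) (Polynomial.X ^ 3 +
      Polynomial.C (algebraMap ℚ F (A : ℚ)) * Polynomial.X +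
      Polynomial.C (algebraMap ℚ F (B : ℚ)) : Polynomial F) = 0 := by
    intro φ
    have := hroot φ
    simpa using this
  have hσg : ∀ (g : Polynomial F) (φ : L →+* Ω) (σ : Ω ≃ₐ[F] Ω), σ (φ θ) = φ θ →
      σ (Polynomial.aeval (φ θ) g) = Polynomial.aeval (φ θ) g := by
    intro g φ σ hσ
    have := Polynomial.aeval_algHom_apply σ.toAlgHom (φ θ) g
    have h2 : σ.toAlgHom (φ θ) = φ θ := hσ
    rw [h2] at this
    exact this.symm
  rcases hP with ⟨g, q, hq⟩ | ⟨x, y, hy, hxy, g, q, hq⟩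
  · refine Pool.Agent.Y710.CV.cond1 fun φ => ⟨Polynomial.aeval (φ θ) g, hσg g φ, ?_⟩
    have h1 := congrArg (Polynomial.aeval (φ θ)) hq
    rw [map_mul, hcub, zero_mul, map_sub, map_pow, sub_eq_zero] at h1
    rw [hφh, h1]
  · have hxy' : y ^ 2 = Pool.Agent.TH115.GD.cub (VV A B) x := by
      rw [Pool.Agent.Helper29L.SZ.cub_VV, hxy]
      simp
    have hxne : ∀ φ : L →+* Ω, algebraMap F Ω x - φ θ ≠ 0 := by
      intro φ h0
      rw [sub_eq_zero] at h0
      have h1 := congrArg (algebraMap F Ω) hxy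
      rw [map_pow, map_add, map_add, map_mul, map_pow, h0] at h1
      have h2 : algebraMap F Ω (algebraMap ℚ F (A : ℚ)) = (A : Ω) := by simp
      have h3 : algebraMap F Ω (algebraMap ℚ F (B : ℚ)) = (B : Ω) := by simp
      rw [h2, h3, hroot φ] at h1
      exact hy ((map_eq_zero _).1 (pow_eq_zero_iff two_ne_zero |>.1 h1))
    refine Pool.Agent.Y710.CV.cond2 rfl rfl ?_ hxy' fun φ =>
      ⟨Polynomial.aeval (φ θ) g / (algebraMap F Ω x - φ θ), algebraMap F Ω x - φ θ, ?_, ?_, ?_⟩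
    · exact (Pool.Agent.Helper29L.SZ.iv_VV (a := A) (b := B) hD).Δ
    · intro σ hσ
      rw [map_div₀, hσg g φ σ hσ, map_sub, hσ, AlgEquiv.commutes]
    · have hne : algebraMap F Ω x - φ θ ≠ 0 := hxne φ
      have h1 := congrArg (Polynomial.aeval (φ θ)) hq
      rw [map_mul, hcub, zero_mul, map_sub, map_pow, sub_eq_zero, map_mul, map_sub,
        Polynomial.aeval_C, Polynomial.aeval_X] at h1
      rw [hφh, div_pow, ← h1]
      field_simp
    · exact Or.inr ⟨fun h0 => hxne φ (sub_eq_zero.2 h0), rfl⟩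

theorem t_GLC : S_GLC := by
  intro A B hD f hf hf2 β h hβ hh v hloc L _ _ θ hθ
  have hDQ : 4 * (A : ℚ) ^ 3 + 27 * (B : ℚ) ^ 2 ≠ 0 := by exact_mod_cast hD
  have hP := Pool.Agent.N42.QM.glf Pool.Agent.N630.PP.gp1 Pool.Agent.N630.PP.gp2
    Pool.Agent.N630.PP.gp3 Pool.Agent.N630.PP.gp4 ℚ (Comp (𝓞 ℚ) ℚ v) (A : ℚ) (B : ℚ)
    (by norm_num) hDQ f hf hf2 β h hβ hh (Pool.Agent.N530.QM.farc ℚ (A : ℚ) (B : ℚ) hDQ v) hloc
  exact GLC_cond (F := v.adicCompletion ℚ) (Ω := AlgebraicClosure (v.adicCompletion ℚ)) A B hD h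
    _ hP L θ hθ

end Pool.Agent.H29A
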