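import Pool.Agent.H29A.Stm
import Pool.Agent.N849.PQ.Int

/-!
# Project ALL (helper29), piece INL (helper61): locally at `p` the ring of integers is `ℤ[θ]`

After `Pool/Agent/H30T/Int.lean` and `Pool/Agent/N849/PQ/Int.lean`.
-/

set_option autoImplicit false
set_option linter.all false

open Polynomial IsDedekindDomain NumberField
open Matrix hiding vec
open scoped Classical

namespace Pool.Agent.H29A

open Pool.Agent.N922.PQ
open Pool.Agent.N849.PQ (discr_vec)

/-- A rational number whose square times `D` is integral has a denominator which is not divisible by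
`p`, if `p ^ 2` does not divide `D`. -/
theorem inl_den {D : ℤ} {p : ℕ} (hp : p.Prime) (hD : ¬ (p : ℤ) ^ 2 ∣ D) {t : ℚ}
    (h : IsIntegral ℤ (t ^ 2 * (D : ℚ))) : ¬ (p : ℤ) ∣ (t.den : ℤ) := by
  obtain ⟨n, hn⟩ := IsIntegrallyClosed.isIntegral_iff.1 h
  rw [eq_intCast] at hn
  intro hpd
  have hden : (t.den : ℚ) ≠ 0 := by exact_mod_cast t.den_ne_zero
  have h1 : t.num ^ 2 * D = n * (t.den : ℤ) ^ 2 := by
    have h2 : ((t.num ^ 2 * D : ℤ) : ℚ) = ((n * (t.den : ℤ) ^ 2 : ℤ) : ℚ) := by
      push_cast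
      rw [hn]
      have h3 : (t.num : ℚ) = t * (t.den : ℚ) := (Rat.mul_den_eq_num t).symm
      rw [h3]
      ring
    exact_mod_cast h2
  apply hD
  have hcop : IsCoprime ((p : ℤ) ^ 2) (t.num ^ 2) := by
    apply IsCoprime.pow
    have h4 : IsCoprime (t.num : ℤ) (t.den : ℤ) := by
      rw [Int.isCoprime_iff_gcd_eq_one]
      exact t.reduced
    exact (h4.of_isCoprime_of_dvd_right hpd).symm
  have h5 : (p : ℤ) ^ 2 ∣ t.num ^ 2 * D := by
    rw [h1]
    exact Dvd.dvd.mul_left (pow_dvd_pow_of_dvd hpd 2) n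
  exact hcop.dvd_of_dvd_mul_left h5

/-- The coordinates of an integral element. -/
theorem inl_coord {L : Type} [Field L] [NumberField L] {a b : ℤ} {θ : L} (h : IsCub a b θ)
    {c : Fin 3 → ℚ} (hx : IsIntegral ℤ ((c 0 : L) + (c 1 : L) * θ + (c 2 : L) * θ ^ 2))
    (i₀ : Fin 3) : IsIntegral ℤ (c i₀ ^ 2 * ((dsc a b : ℤ) : ℚ)) := by
  have hθ : IsIntegral ℤ θ := by
    refine ⟨X ^ 3 + C a * X + C b, ?_, ?_⟩
    · monicity!
    · rw [eval₂_add, eval₂_add, eval₂_mul, eval₂_C, eval₂_C, eval₂_X, eval₂_pow, eval₂_X]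
      simpa using h.root
  have hv : ∀ i : Fin 3, vec θ i = θ ^ (i : ℕ) := by
    intro i
    fin_cases i <;> simp [vec]
  set P : Matrix (Fin 3) (Fin 3) ℚ := (1 : Matrix _ _ ℚ).updateCol i₀ c with hP
  have hdet : P.det = c i₀ := by
    rw [hP, ← cramer_apply, cramer_one]
    rfl
  have h1 : IsIntegral ℤ (Algebra.discr ℚ (vec θ ᵥ* P.map (algebraMap ℚ L))) := by
    apply Algebra.discr_isIntegral
    intro j
    have e : (vec θ ᵥ* P.map (algebraMap ℚ L)) j =
        if j = i₀ then (c 0 : L) + (c 1 : L) * θ + (c 2 : L) * θ ^ 2 else θ ^ (j : ℕ) := by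
      rw [Matrix.vecMul, dotProduct]
      simp only [Matrix.map_apply]
      split_ifs with hj
      · subst hj
        have e1 : ∀ i, P i j = c i := fun i => by rw [hP, updateCol_self]
        simp only [e1, Fin.sum_univ_three, hv, eq_ratCast]
        simp
        ring
      · rw [Finset.sum_eq_single j]
        · rw [hP, updateCol_ne hj, one_apply_eq, map_one, mul_one, hv]
        · intro i _ hij
          rw [hP, updateCol_ne hj, one_apply_ne hij, map_zero, mul_zero]
        · intro h0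
          exact absurd (Finset.mem_univ _) h0
    rw [e]
    split_ifs
    · exact hx
    · exact hθ.pow _
  rw [Algebra.discr_of_matrix_vecMul, hdet, discr_vec h] at h1
  have h2 := h1.neg
  rwa [mul_neg, neg_neg] at h2

/-- **INL.** -/
theorem t_INL : S_INL := by
  intro L _ _ a b θ h hD0 p hp hD x hx
  obtain ⟨r, s, t, rfl⟩ := h.gen x
  have hx' : IsIntegral ℤ (((![r, s, t] : Fin 3 → ℚ) 0 : L) + ((![r, s, t] : Fin 3 → ℚ) 1 : L) * θ +
      ((![r, s, t] : Fin 3 → ℚ) 2 : L) * θ ^ 2) := by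
    simpa using hx
  have key : ∀ i : Fin 3, ¬ (p : ℤ) ∣ (((![r, s, t] : Fin 3 → ℚ) i).den : ℤ) := fun i =>
    inl_den hp hD (inl_coord h hx' i)
  have k0 : ¬ (p : ℤ) ∣ (r.den : ℤ) := key 0
  have k1 : ¬ (p : ℤ) ∣ (s.den : ℤ) := key 1
  have k2 : ¬ (p : ℤ) ∣ (t.den : ℤ) := key 2
  have hpi : Prime (p : ℤ) := Nat.prime_iff_prime_int.mp hp
  refine ⟨(r.den : ℤ) * s.den * t.den, ![r.num * s.den * t.den, r.den * s.num * t.den,
    r.den * s.den * t.num], ?_, ?_⟩
  · intro hdvd
    rcases hpi.dvd_or_dvd hdvd with h1 | h1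
    · rcases hpi.dvd_or_dvd h1 with h2 | h2
      · exact k0 h2
      · exact k1 h2
    · exact k2 h1
  · unfold Crd
    have e1 : (r : L) * (r.den : L) = (r.num : L) := by
      have := Rat.mul_den_eq_num r
      exact_mod_cast congrArg (fun q : ℚ => (q : L)) this
    have e2 : (s : L) * (s.den : L) = (s.num : L) := by
      have := Rat.mul_den_eq_num s
      exact_mod_cast congrArg (fun q : ℚ => (q : L)) this
    have e3 : (t : L) * (t.den : L) = (t.num : L) := by
      have := Rat.mul_den_eq_num t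
      exact_mod_cast congrArg (fun q : ℚ => (q : L)) this
    simp only [Matrix.cons_val_zero, Matrix.cons_val_one, Matrix.cons_val]
    push_cast
    rw [← e1, ← e2, ← e3]
    ring

end Pool.Agent.H29A
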