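import Pool.Agent.H29A.Stm

/-!
# Project ALL, piece ISOW: the class of a point gives an isotropic form
-/

set_option autoImplicit false
set_option linter.all false

open Polynomial IsDedekindDomain NumberField WeierstrassCurve WeierstrassCurve.Affine
open scoped Classical

namespace Pool.Agent.H29A

open Pool.Agent.TH115.GD
open Pool.Agent.R425.G
open Pool.Agent.Y710.CV (Cond shap)
open Pool.Agent.N922.PQ (IsCub IsoAt dsc)
open Pool.Agent.Helper29L.SZ (VV cub_VV iv_VV cf_VV)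

section equi

variable {F Ω : Type} [Field F] [Field Ω] [Algebra F Ω]

/-- Square roots which are fixed by the stabilisers can be chosen equivariantly. -/
theorem exists_equi (R : Ω → Prop) (hR : ∀ (τ : Ω ≃ₐ[F] Ω) (e : Ω), R e → R (τ e)) (u g : Ω → Ω)
    (hu : ∀ (τ : Ω ≃ₐ[F] Ω) (e : Ω), R e → τ (u e) = u (τ e)) (hg : ∀ e, R e → g e ^ 2 = u e)
    (hfix : ∀ e, R e → ∀ τ : Ω ≃ₐ[F] Ω, τ e = e → τ (g e) = g e) :
    ∃ g' : Ω → Ω, (∀ e, R e → g' e ^ 2 = u e) ∧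
      ∀ (τ : Ω ≃ₐ[F] Ω) (e : Ω), R e → τ (g' e) = g' (τ e) := by
  have hinv : ∀ (τ : Ω ≃ₐ[F] Ω) (e : Ω), τ (τ⁻¹ e) = e := by
    intro τ e
    rw [← AlgEquiv.mul_apply, mul_inv_cancel]; rfl
  have hinv' : ∀ (τ : Ω ≃ₐ[F] Ω) (e : Ω), τ⁻¹ (τ e) = e := by
    intro τ e
    rw [← AlgEquiv.mul_apply, inv_mul_cancel]; rfl
  obtain ⟨c, hc⟩ : ∃ c : Ω → (Ω ≃ₐ[F] Ω) → Ω,
      c = fun e τ => if g e = 0 then 1 else τ (g (τ⁻¹ e)) / g e := ⟨_, rfl⟩
  have hsq : ∀ (e : Ω) (τ : Ω ≃ₐ[F] Ω), R e → τ (g (τ⁻¹ e)) ^ 2 = g e ^ 2 := by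
    intro e τ he
    rw [← map_pow, hg _ (hR _ _ he), hu _ _ (hR _ _ he), hinv, hg _ he]
  have hz : ∀ (e : Ω) (τ : Ω ≃ₐ[F] Ω), R e → (g (τ⁻¹ e) = 0 ↔ g e = 0) := by
    intro e τ he
    have h1 := hsq e τ he
    constructor
    · intro h0
      rw [h0, map_zero] at h1
      exact pow_eq_zero_iff two_ne_zero |>.1 (by rw [← h1]; ring)
    · intro h0
      rw [h0] at h1
      have h2 : τ (g (τ⁻¹ e)) = 0 := pow_eq_zero_iff two_ne_zero |>.1 (by rw [h1]; ring)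
      exact (map_eq_zero τ).1 h2
  have hc2 : ∀ e τ, R e → c e τ * c e τ = 1 := by
    intro e τ he
    rw [hc]
    beta_reduce
    split_ifs with h0
    · ring
    · have h1 := hsq e τ he
      rw [div_mul_div_comm, ← pow_two, ← pow_two, h1]
      exact div_self (pow_ne_zero 2 h0)
  have hpm : ∀ e τ, R e → c e τ = 1 ∨ c e τ = -1 := by
    intro e τ he
    exact mul_self_eq_one_iff.1 (hc2 e τ he)
  have hval : ∀ e τ, R e → τ (g (τ⁻¹ e)) = c e τ * g e := by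
    intro e τ he
    rw [hc]
    beta_reduce
    split_ifs with h0
    · rw [(hz e τ he).2 h0, h0, map_zero, mul_zero]
    · rw [div_mul_cancel₀ _ h0]
  have hpmfix : ∀ (x : Ω) (τ : Ω ≃ₐ[F] Ω), x = 1 ∨ x = -1 → τ x = x := by
    intro x τ hx
    rcases hx with rfl | rfl
    · exact map_one _
    · rw [map_neg, map_one]
  obtain ⟨s, hs1, hs⟩ := shap (Γ := Ω ≃ₐ[F] Ω) (X := Ω) (M := Ω) R hR c hc2
    (by
      intro e τ τ' he
      show c e (τ * τ') = c e τ * c (τ⁻¹ e) τ'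
      by_cases h0 : g e = 0
      · have h1 := (hz e τ he).2 h0
        rw [hc]
        beta_reduce
        rw [if_pos h0, if_pos h0, if_pos h1, mul_one]
      · have h2 : (τ * τ') (g ((τ * τ')⁻¹ e)) = c e (τ * τ') * g e := hval e (τ * τ') he
        have h3 : (τ * τ') (g ((τ * τ')⁻¹ e)) = τ (τ' (g (τ'⁻¹ (τ⁻¹ e)))) := by
          rw [mul_inv_rev]
          rfl
        rw [h3, hval (τ⁻¹ e) τ' (hR _ _ he), map_mul, hval e τ he,
          hpmfix _ τ (hpm _ _ (hR _ _ he))] at h2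
        apply mul_right_cancel₀ h0
        rw [← h2]
        ring)
    (by
      intro e τ he hτe
      have h1 : τ e = e := hτe
      have h2 : τ⁻¹ e = e := by
        conv_lhs => rw [← h1]
        exact hinv' τ e
      have h3 := hfix e he τ h1
      show c e τ = 1
      rw [hc]
      beta_reduce
      split_ifs with h0
      · rfl
      · rw [h2, h3, div_self h0])
  have hspm : ∀ e, R e → s e = 1 ∨ s e = -1 := by
    intro e he
    obtain ⟨τ, hτ⟩ := hs1 e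
    rw [hτ]
    exact hpm _ _ he
  have hs2 : ∀ e, R e → s e * s e = 1 := by
    intro e he
    rcases hspm e he with h | h <;> rw [h] <;> ring
  refine ⟨fun e => s e * g e, ?_, ?_⟩
  · intro e he
    beta_reduce
    rw [mul_pow, hg e he, pow_two, hs2 e he, one_mul]
  · intro τ e he
    beta_reduce
    have h1 := hval (τ e) τ (hR _ _ he)
    rw [hinv'] at h1
    have h2 : c (τ e) τ = s (τ e) * s (τ⁻¹ (τ e)) := hs (τ e) τ (hR _ _ he)
    rw [hinv'] at h2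
    rw [map_mul, hpmfix _ τ (hspm e he), h1, h2]
    have h3 := hs2 e he
    calc s e * (s (τ e) * s e * g (τ e)) = (s e * s e) * (s (τ e) * g (τ e)) := by ring
      _ = _ := by rw [h3, one_mul]

/-- Equivariant values at the roots are the values of a polynomial over `F`. -/
theorem exists_pol [IsGalois F Ω] {e1 e2 e3 : Ω} (h12 : e1 ≠ e2) (h13 : e1 ≠ e3) (h23 : e2 ≠ e3)
    (g : Ω → Ω) (R : Ω → Prop) (hR1 : ∀ e, R e ↔ (e = e1 ∨ e = e2 ∨ e = e3))
    (hR : ∀ (τ : Ω ≃ₐ[F] Ω) (e : Ω), R e → R (τ e))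
    (hg : ∀ (τ : Ω ≃ₐ[F] Ω) (e : Ω), R e → τ (g e) = g (τ e)) :
    ∃ x : Fin 3 → F, ∀ e, R e → g e = algebraMap F Ω (x 0) + algebraMap F Ω (x 1) * e +
      algebraMap F Ω (x 2) * e ^ 2 := by
  have hinv : ∀ (τ : Ω ≃ₐ[F] Ω) (e : Ω), τ (τ⁻¹ e) = e := by
    intro τ e
    rw [← AlgEquiv.mul_apply, mul_inv_cancel]; rfl
  obtain ⟨s, hs⟩ : ∃ s : Finset Ω, s = {e1, e2, e3} := ⟨_, rfl⟩
  have hcard : s.card = 3 := by
    rw [hs]
    exact Finset.card_eq_three.2 ⟨e1, e2, e3, h12, h13, h23, rfl⟩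
  have hmem : ∀ e, e ∈ s ↔ R e := by
    intro e
    rw [hs, hR1]
    simp
  have hinj : Set.InjOn (id : Ω → Ω) s := Function.injective_id.injOn
  obtain ⟨P, hP⟩ : ∃ P : Polynomial Ω, P = Lagrange.interpolate s id g := ⟨_, rfl⟩
  have hdeg : P.degree < s.card := by
    rw [hP]
    exact Lagrange.degree_interpolate_lt g hinj
  have hev : ∀ e, R e → P.eval e = g e := by
    intro e he
    rw [hP]
    exact Lagrange.eval_interpolate_at_node g hinj ((hmem e).2 he)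
  have hmap : ∀ τ : Ω ≃ₐ[F] Ω, P.map (τ : Ω →+* Ω) = P := by
    intro τ
    refine Polynomial.eq_of_degrees_lt_of_eval_finset_eq s ?_ hdeg ?_
    · exact lt_of_le_of_lt Polynomial.degree_map_le hdeg
    · intro e he
      have he' := (hmem e).1 he
      have he'' := hR τ⁻¹ e he'
      have h1 : (P.map (τ : Ω →+* Ω)).eval ((τ : Ω →+* Ω) (τ⁻¹ e)) = (τ : Ω →+* Ω) (P.eval (τ⁻¹ e)) :=
        Polynomial.eval_map_apply _ _
      have h2 : (τ : Ω →+* Ω) (τ⁻¹ e) = e := hinv τ e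
      rw [h2, hev _ he''] at h1
      rw [h1, hev _ he']
      have h3 : (τ : Ω →+* Ω) (g (τ⁻¹ e)) = τ (g (τ⁻¹ e)) := rfl
      rw [h3, hg _ _ he'', hinv]
  have hcoef : ∀ i, ∃ x : F, algebraMap F Ω x = P.coeff i := by
    intro i
    refine (InfiniteGalois.mem_range_algebraMap_iff_fixed (k := F) (P.coeff i)).2 fun σ => ?_
    have h1 := congrArg (fun q : Polynomial Ω => q.coeff i) (hmap σ)
    simp only [Polynomial.coeff_map] at h1
    exact h1
  choose x hx using hcoef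
  refine ⟨fun i => x i, fun e he => ?_⟩
  have h1 : P.natDegree < 3 := by
    by_cases h0 : P = 0
    · rw [h0]; simp
    · rw [Polynomial.natDegree_lt_iff_degree_lt h0]
      rw [hcard] at hdeg
      exact_mod_cast hdeg
  rw [← hev e he, Polynomial.eval_eq_sum_range' h1, Finset.sum_range_succ, Finset.sum_range_succ,
    Finset.sum_range_succ, Finset.sum_range_zero]
  rw [← hx 0, ← hx 1, ← hx 2]
  simp

end equi

section main

/-- the formula of Euler -/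
theorem euler {L Ω : Type} [Field L] [NumberField L] [Field Ω] [CharZero Ω] {a b : ℤ} {θ : L}
    (h : IsCub a b θ) {e1 e2 e3 : Ω} (h12 : e1 ≠ e2) (h13 : e1 ≠ e3) (h23 : e2 ≠ e3)
    (φ1 φ2 φ3 : L →+* Ω) (h1 : φ1 θ = e1) (h2 : φ2 θ = e2) (h3 : φ3 θ = e3) (z : L) :
    ((h.co 2 z : ℚ) : Ω) = φ1 z / ((e1 - e2) * (e1 - e3)) + φ2 z / ((e2 - e1) * (e2 - e3)) +
      φ3 z / ((e3 - e1) * (e3 - e2)) := by
  have hz : z = (h.co 0 z : L) + (h.co 1 z : L) * θ + (h.co 2 z : L) * θ ^ 2 := by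
    have h4 := h.basis.sum_repr z
    rw [Fin.sum_univ_three, h.basis_apply, h.basis_apply, h.basis_apply, Rat.smul_def, Rat.smul_def,
      Rat.smul_def] at h4
    have e0 : Pool.Agent.N922.PQ.vec θ 0 = 1 := rfl
    have e1 : Pool.Agent.N922.PQ.vec θ 1 = θ := rfl
    have e2 : Pool.Agent.N922.PQ.vec θ 2 = θ ^ 2 := rfl
    rw [e0, e1, e2, mul_one] at h4
    exact h4.symm
  have hφ : ∀ (φ : L →+* Ω) (e : Ω), φ θ = e →
      φ z = (h.co 0 z : Ω) + (h.co 1 z : Ω) * e + (h.co 2 z : Ω) * e ^ 2 := by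
    intro φ e he
    conv_lhs => rw [hz]
    simp only [map_add, map_mul, map_pow, map_ratCast, he]
  rw [hφ φ1 e1 h1, hφ φ2 e2 h2, hφ φ3 e3 h3]
  have d12 : e1 - e2 ≠ 0 := sub_ne_zero.2 h12
  have d13 : e1 - e3 ≠ 0 := sub_ne_zero.2 h13
  have d23 : e2 - e3 ≠ 0 := sub_ne_zero.2 h23
  have d21 : e2 - e1 ≠ 0 := sub_ne_zero.2 h12.symm
  have d31 : e3 - e1 ≠ 0 := sub_ne_zero.2 h13.symm
  have d32 : e3 - e2 ≠ 0 := sub_ne_zero.2 h23.symm
  have k1 : e2 - e1 = -(e1 - e2) := by ring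
  have k2 : e3 - e1 = -(e1 - e3) := by ring
  have k3 : e3 - e2 = -(e2 - e3) := by ring
  rw [k1, k2, k3]
  field_simp
  ring

theorem iso_F {F Ω : Type} [Field F] [Field Ω] [Algebra F Ω] [Algebra ℚ F] [Algebra ℚ Ω]
    [IsScalarTower ℚ F Ω] [IsGalois F Ω] [IsAlgClosed Ω] {L : Type} [Field L] [NumberField L]
    {a b : ℤ} {θ : L} (hcf : CF (VV a b) L θ) (hV : IV (VV a b)) (hcub : IsCub a b θ)
    {α : L} (hα : α ≠ 0) (h : Cond F Ω (VV a b) θ α) :
    ∃ x : Fin 3 → F, x ≠ 0 ∧ ∑ i : Fin 3, ∑ j : Fin 3,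
      ((hcub.co 2 (θ ^ (i : ℕ) * θ ^ (j : ℕ) / α) : ℚ) : F) * x i * x j = 0 := by
  haveI : CharZero F := algebraRat.charZero F
  haveI : CharZero Ω := algebraRat.charZero Ω
  obtain ⟨R, hR, hφ⟩ := h
  obtain ⟨e1, e2, e3, hC⟩ := Pool.Agent.Y355.G.V_roots hV.a1 hV.a3 hV.Δ Ω
  have hroot : ∀ e : Ω, cub (VV a b) e = 0 ↔ (e = e1 ∨ e = e2 ∨ e = e3) := by
    intro e
    constructor
    · exact fun h => hC.root h
    · rintro (rfl | rfl | rfl)
      · exact hC.root_a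
      · exact hC.root_b
      · exact hC.root_c
  have hst : ∀ (τ : Ω ≃ₐ[F] Ω) (e : Ω), cub (VV a b) e = 0 → cub (VV a b) (τ e) = 0 := by
    intro τ e he
    have := cub_map (VV a b) (rs ℚ τ) e
    rw [he, map_zero] at this
    exact this
  -- the values of `α`
  obtain ⟨A, hA⟩ : ∃ A : Ω → Ω, A = fun e => if he : cub (VV a b) e = 0 then
    em hcf (⟨e, he⟩ : Rt (VV a b) Ω) α else 0 := ⟨_, rfl⟩
  have hAe : ∀ (e : Ω) (he : cub (VV a b) e = 0), A e = em hcf (⟨e, he⟩ : Rt (VV a b) Ω) α := by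
    intro e he
    rw [hA]
    beta_reduce
    rw [dif_pos he]
  have hAτ : ∀ (τ : Ω ≃ₐ[F] Ω) (e : Ω), cub (VV a b) e = 0 → τ (A e) = A (τ e) := by
    intro τ e he
    rw [hAe e he, hAe _ (hst τ e he)]
    exact em_equi hcf τ (⟨e, he⟩ : Rt (VV a b) Ω) α
  have hA0 : ∀ e, cub (VV a b) e = 0 → A e ≠ 0 := by
    intro e he
    rw [hAe e he]
    exact (_root_.map_ne_zero _).2 hα
  -- the choice of `w`
  have hw : ∀ e : Ω, ∃ w : Ω, cub (VV a b) e = 0 → (∀ σ : Ω ≃ₐ[F] Ω, σ e = e → σ w = w) ∧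
      ∀ b' c' : Ω, IsC ((VV a b).baseChange Ω).toAffine e b' c' → A e = w ^ 2 * dc e b' c' R := by
    intro e
    by_cases he : cub (VV a b) e = 0
    · obtain ⟨w, hw1, hw2⟩ := hφ (em hcf (⟨e, he⟩ : Rt (VV a b) Ω) : L →+* Ω)
      have h1 : ((em hcf (⟨e, he⟩ : Rt (VV a b) Ω) : L →+* Ω)) θ = e := em_root hcf _
      rw [h1] at hw1 hw2
      refine ⟨w, fun _ => ⟨hw1, fun b' c' hbc => ?_⟩⟩
      rw [hAe e he]
      exact hw2 b' c' hbc
    · exact ⟨0, fun h => absurd h he⟩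
  choose w hw using hw
  -- the essential step: `ψ` and `g`
  obtain ⟨ψ, g, hψτ, hg, hgfix, hψsum, hψne⟩ : ∃ ψ g : Ω → Ω,
      (∀ (τ : Ω ≃ₐ[F] Ω) (e : Ω), cub (VV a b) e = 0 → τ (ψ e) = ψ (τ e)) ∧
      (∀ e, cub (VV a b) e = 0 → g e ^ 2 = A e * ψ e) ∧
      (∀ e, cub (VV a b) e = 0 → ∀ τ : Ω ≃ₐ[F] Ω, τ e = e → τ (g e) = g e) ∧
      (ψ e1 / ((e1 - e2) * (e1 - e3)) + ψ e2 / ((e2 - e1) * (e2 - e3)) +
        ψ e3 / ((e3 - e1) * (e3 - e2)) = 0) ∧ (ψ e1 ≠ 0 ∨ ψ e2 ≠ 0) := by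
    have d12 : e1 - e2 ≠ 0 := sub_ne_zero.2 hC.ab
    have d13 : e1 - e3 ≠ 0 := sub_ne_zero.2 hC.ac
    have d23 : e2 - e3 ≠ 0 := sub_ne_zero.2 hC.bc
    have k1 : e2 - e1 = -(e1 - e2) := by ring
    have k2 : e3 - e1 = -(e1 - e3) := by ring
    have k3 : e3 - e2 = -(e2 - e3) := by ring
    match R, hR, hw with
    | .zero, hR, hw =>
      refine ⟨fun _ => 1, w, fun τ e _ => map_one τ, ?_, fun e he => (hw e he).1, ?_,
        Or.inl one_ne_zero⟩
      · intro e he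
        obtain ⟨b', c', hbc⟩ := hC.at_root (hC.root he)
        have h1 := (hw e he).2 b' c' hbc
        have e0 : dc e b' c' (Point.zero : Pt (VV a b) Ω) = 1 := rfl
        rw [e0, mul_one] at h1
        beta_reduce
        rw [mul_one, h1]
      · beta_reduce
        rw [k1, k2, k3]
        field_simp
        ring
    | .some x y hns, hR, hw =>
      have hfix : ∀ σ : Ω ≃ₐ[F] Ω, σ x = x := by
        intro σ
        obtain ⟨h', hh⟩ := act_some (VV a b) (rs ℚ σ) hns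
        have h1 := hR σ
        rw [hh] at h1
        have h2 := Point.some.inj h1
        exact h2.1
      refine ⟨fun e => x - e, fun e => w e * (x - e), ?_, ?_, ?_, ?_, ?_⟩
      · intro τ e _
        beta_reduce
        rw [map_sub, hfix]
      · intro e he
        beta_reduce
        obtain ⟨b', c', hbc⟩ := hC.at_root (hC.root he)
        have h1 := (hw e he).2 b' c' hbc
        by_cases hxe : x = e
        · rw [hxe, sub_self]
          ring
        · have e0 : dc e b' c' (Point.some x y hns : Pt (VV a b) Ω) = x - e := by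
            simp only [dc]
            rw [if_neg hxe]
          rw [e0] at h1
          rw [h1]
          ring
      · intro e he τ hτ
        beta_reduce
        rw [map_mul, (hw e he).1 τ hτ, map_sub, hfix, hτ]
      · beta_reduce
        rw [k1, k2, k3]
        field_simp
        ring
      · beta_reduce
        by_contra hcon
        push Not at hcon
        apply hC.ab
        have h1 := sub_eq_zero.1 hcon.1
        have h2 := sub_eq_zero.1 hcon.2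
        rw [← h1, ← h2]
  obtain ⟨g', hg'1, hg'2⟩ := exists_equi (F := F) (fun e => cub (VV a b) e = 0) hst
    (fun e => A e * ψ e) g (by
      intro τ e he
      beta_reduce
      rw [map_mul, hAτ τ e he, hψτ τ e he]) hg hgfix
  obtain ⟨x, hx⟩ := exists_pol hC.ab hC.ac hC.bc g' (fun e => cub (VV a b) e = 0) hroot hst hg'2
  refine ⟨x, ?_, ?_⟩
  · rintro rfl
    have h0 : ∀ e, cub (VV a b) e = 0 → ψ e = 0 := by
      intro e he
      have h1 := hx e he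
      simp only [Pi.zero_apply, map_zero, zero_mul, add_zero] at h1
      have h2 := hg'1 e he
      rw [h1] at h2
      have h3 : A e * ψ e = 0 := by
        rw [← h2]
        ring
      exact (mul_eq_zero.1 h3).resolve_left (hA0 e he)
    rcases hψne with h1 | h1
    · exact h1 (h0 _ hC.root_a)
    · exact h1 (h0 _ hC.root_b)
  · apply (algebraMap F Ω).injective
    rw [map_zero]
    simp only [Fin.sum_univ_three, map_add, map_mul, map_ratCast]
    obtain ⟨φ1, hφ1⟩ : ∃ φ : L →+* Ω, φ = (em hcf (⟨e1, hC.root_a⟩ : Rt (VV a b) Ω) : L →+* Ω) :=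
      ⟨_, rfl⟩
    obtain ⟨φ2, hφ2⟩ : ∃ φ : L →+* Ω, φ = (em hcf (⟨e2, hC.root_b⟩ : Rt (VV a b) Ω) : L →+* Ω) :=
      ⟨_, rfl⟩
    obtain ⟨φ3, hφ3⟩ : ∃ φ : L →+* Ω, φ = (em hcf (⟨e3, hC.root_c⟩ : Rt (VV a b) Ω) : L →+* Ω) :=
      ⟨_, rfl⟩
    have t1 : φ1 θ = e1 := by rw [hφ1]; exact em_root hcf _
    have t2 : φ2 θ = e2 := by rw [hφ2]; exact em_root hcf _
    have t3 : φ3 θ = e3 := by rw [hφ3]; exact em_root hcf _
    have A1 : φ1 α = A e1 := by rw [hφ1, hAe e1 hC.root_a]; rfl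
    have A2 : φ2 α = A e2 := by rw [hφ2, hAe e2 hC.root_b]; rfl
    have A3 : φ3 α = A e3 := by rw [hφ3, hAe e3 hC.root_c]; rfl
    have n1 := hA0 e1 hC.root_a
    have n2 := hA0 e2 hC.root_b
    have n3 := hA0 e3 hC.root_c
    simp only [euler hcub hC.ab hC.ac hC.bc φ1 φ2 φ3 t1 t2 t3, map_div₀, map_mul, map_pow, t1, t2,
      t3, A1, A2, A3]
    have g1 := hg'1 e1 hC.root_a
    have g2 := hg'1 e2 hC.root_b
    have g3 := hg'1 e3 hC.root_c
    rw [hx e1 hC.root_a] at g1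
    rw [hx e2 hC.root_b] at g2
    rw [hx e3 hC.root_c] at g3
    beta_reduce at g1 g2 g3
    obtain ⟨c1, hc1⟩ : ∃ c : Ω, c = 1 / ((e1 - e2) * (e1 - e3)) := ⟨_, rfl⟩
    obtain ⟨c2, hc2⟩ : ∃ c : Ω, c = 1 / ((e2 - e1) * (e2 - e3)) := ⟨_, rfl⟩
    obtain ⟨c3, hc3⟩ : ∃ c : Ω, c = 1 / ((e3 - e1) * (e3 - e2)) := ⟨_, rfl⟩
    have s0 : ψ e1 * c1 + ψ e2 * c2 + ψ e3 * c3 = 0 := by
      rw [hc1, hc2, hc3, mul_one_div, mul_one_div, mul_one_div]
      exact hψsum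
    have q1 : ∀ t : Ω, t / ((e1 - e2) * (e1 - e3)) = t * c1 := fun t => by rw [hc1, mul_one_div]
    have q2 : ∀ t : Ω, t / ((e2 - e1) * (e2 - e3)) = t * c2 := fun t => by rw [hc2, mul_one_div]
    have q3 : ∀ t : Ω, t / ((e3 - e1) * (e3 - e2)) = t * c3 := fun t => by rw [hc3, mul_one_div]
    simp only [q1, q2, q3]
    have m1 : (A e1)⁻¹ * A e1 = 1 := inv_mul_cancel₀ n1
    have m2 : (A e2)⁻¹ * A e2 = 1 := inv_mul_cancel₀ n2
    have m3 : (A e3)⁻¹ * A e3 = 1 := inv_mul_cancel₀ n3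
    simp only [Fin.val_zero, Fin.val_one, Fin.val_two, pow_zero, pow_one, div_eq_mul_inv]
    linear_combination (A e1)⁻¹ * c1 * g1 + (A e2)⁻¹ * c2 * g2 + (A e3)⁻¹ * c3 * g3 +
      ψ e1 * c1 * m1 + ψ e2 * c2 * m2 + ψ e3 * c3 * m3 + s0

/-- the map to `ℚ_p` -/
theorem exists_jp (v : HeightOneSpectrum (𝓞 ℚ)) (p : ℕ) [hp : Fact p.Prime] (h : ng v = p) :
    Nonempty (v.adicCompletion ℚ →+* ℚ_[p]) := by
  have e : Rat.HeightOneSpectrum.primesEquiv v = (⟨p, hp.out⟩ : Nat.Primes) :=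
    Subtype.ext h
  have j : Nonempty (v.adicCompletion ℚ →+* ℚ_[(Rat.HeightOneSpectrum.primesEquiv v : ℕ)]) := by
    letI : Algebra ℚ (v.adicCompletion ℚ) := HeightOneSpectrum.instAlgebraAdicCompletion (𝓞 ℚ) ℚ v
    exact ⟨((Rat.HeightOneSpectrum.adicCompletion.padicEquiv v).toAlgEquiv.toRingEquiv : _ →+* _)⟩
  subst h
  exact j

theorem t_ISOW : S_ISOW := by
  intro L _ _ a b θ h hd v p _ hv α hα hc
  haveI : CharZero (v.adicCompletion ℚ) := algebraRat.charZero _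
  haveI := gal_p v
  obtain ⟨x, hx0, hx⟩ := iso_F (cf_VV h) (iv_VV hd) h hα hc
  obtain ⟨j⟩ := exists_jp v p hv
  refine ⟨fun i => j (x i), ?_, ?_⟩
  · intro h0
    apply hx0
    funext i
    have h1 := congrFun h0 i
    exact (map_eq_zero j).1 h1
  · have h1 := congrArg j hx
    simpa only [map_sum, map_mul, map_ratCast, map_zero] using h1

end main

end Pool.Agent.H29A
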