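import Pool.Agent.H29A.Stm
import Pool.Agent.R425.G.Cl4
import Pool.Agent.H527R9.CC.T_HM
import Pool.Agent.H527R9.CC.T_HMA
import Pool.Agent.H527R9.CC.T_HMB
import Pool.Agent.H527R9.CC.T_HS

/-!
# Piece ISQ of project ALL: the form is isotropic over `ℚ` for a Selmer class
-/

set_option autoImplicit false
set_option linter.all false

open IsDedekindDomain NumberField
open scoped Classical

namespace Pool.Agent.H29A

open Pool.Agent.N922.PQ
open Pool.Agent.Helper29L (Gp PD)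
open Pool.Agent.R425.G (ng)
open Pool.Agent.N874.PP (Ev Sq1 U0)
open Pool.Agent.H527R9.CC (Hs)

theorem isq_hs {F : Type} [Field F] {d e : F} : Hs F d e ↔ Spl d e := by
  constructor
  · rintro ⟨x, y, z, h, h1⟩
    exact ⟨x, y, z, fun h2 => h.elim (fun h3 => h3 h2.1)
      (fun h3 => h3.elim (fun h4 => h4 h2.2.1) (fun h4 => h4 h2.2.2)), h1.symm⟩
  · rintro ⟨x, y, z, h, h1⟩
    refine ⟨x, y, z, ?_, h1.symm⟩
    by_contra h2
    push Not at h2
    exact h h2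

/-- A prime number and a number prime to it are not in the same prime ideal. -/
theorem isq_cop {O : Type} [CommRing O] [IsDedekindDomain O] {𝔓 : HeightOneSpectrum O} {m n : ℤ}
    (h : IsCoprime m n) (hm : (m : O) ∈ 𝔓.asIdeal) (hn : (n : O) ∈ 𝔓.asIdeal) : False := by
  obtain ⟨u, v, huv⟩ := h
  apply 𝔓.isPrime.ne_top
  rw [Ideal.eq_top_iff_one]
  have h1 : ((u : O)) * (m : O) + (v : O) * (n : O) = 1 := by exact_mod_cast congrArg (Int.cast : ℤ → O) huv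
  rw [← h1]
  exact 𝔓.asIdeal.add_mem (𝔓.asIdeal.mul_mem_left _ hm) (𝔓.asIdeal.mul_mem_left _ hn)

theorem isq_int {L : Type} [Field L] [NumberField L] {a b : ℤ} {θ : L} (h : IsCub a b θ) :
    ∃ t : 𝓞 L, algebraMap (𝓞 L) L t = θ := by
  have h1 : IsIntegral ℤ θ := by
    refine ⟨Polynomial.X ^ 3 + Polynomial.C a * Polynomial.X + Polynomial.C b, ?_, ?_⟩
    · monicity!
    · have := h.root
      rw [Polynomial.eval₂_add, Polynomial.eval₂_add, Polynomial.eval₂_mul, Polynomial.eval₂_pow,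
        Polynomial.eval₂_X, Polynomial.eval₂_C, Polynomial.eval₂_C]
      exact this
  exact ⟨⟨θ, h1⟩, rfl⟩

/-- The form is isotropic at all primes. -/
theorem isq_loc (hI : S_ISOW) (hU : S_UNW) (hR : S_RAW) (hE : S_EXW) {W : ℕ} (hW : OKW W)
    {L : Type} [Field L] [NumberField L] {a b : ℤ} {θ : L} (h : IsCub a b θ) {Z : Finset ℤ}
    (hG : GW W a b) (hZ : ∀ Q ∈ Z, GpW W a b Q) {α : L} (hα : InSelW W a b Z θ α) (p : ℕ)
    [hp : Fact p.Prime] : IsoAt h p α := by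
  have hd : dsc a b ≠ 0 := hG.pos.ne'
  by_cases hpW : p ∣ W
  · obtain ⟨v, hv⟩ := Pool.Agent.R425.G.exists_ng hp.out
    exact hI L a b θ h hd v p hv α hα.ne (hα.loc v (by rw [hv]; exact hpW))
  have hp2 : p ≠ 2 := by
    rintro rfl
    exact hpW ((by norm_num : 2 ∣ 24).trans hW.dvd)
  have hpsq : ¬ (p : ℤ) ^ 2 ∣ dsc a b := by
    intro h1
    exact hpW ((dvd_pow_self p two_ne_zero).trans (hG.pow p 2 hp.out le_rfl h1))
  have hcW : IsCoprime (p : ℤ) (W : ℤ) := by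
    rw [Nat.isCoprime_iff_coprime]
    exact (Nat.Prime.coprime_iff_not_dvd hp.out).2 hpW
  have hWn : ∀ 𝔓 : HeightOneSpectrum (𝓞 L), Ov (p : ℤ) 𝔓 → (W : 𝓞 L) ∉ 𝔓.asIdeal := by
    intro 𝔓 h1 h2
    refine isq_cop hcW h1 ?_
    rw [Int.cast_natCast]
    exact h2
  by_cases hpZ : (p : ℤ) ∈ Z
  · obtain ⟨t, ht⟩ := isq_int h
    have hGp : Gp a b p := (hZ _ hpZ).toGp
    obtain ⟨𝔓₁, 𝔮, hPD, h1, h2⟩ := hE L a b θ t h ht p hGp
    have hev1 : Ev 𝔓₁ α := by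
      refine hα.ev 𝔓₁ (hWn _ hPD.ovP) fun Q _ h3 => ?_
      exact absurd h3.2 h1.ne
    by_cases hev : Ev 𝔮 α
    · refine hU L a b θ h hd p hp2 hpsq α hα.ne fun 𝔓 h3 => ?_
      rcases hPD.only 𝔓 h3 with rfl | rfl
      · exact hev1
      · exact hev
    · refine (hR L a b θ h p hGp 𝔓₁ 𝔮 hPD.ovP hPD.ovq h1 h2 α hα.ne hev1 hev).2 ?_
      have h5 := (hα.u0 p hpZ 𝔮 hPD.ovq h2).2 hev
      rwa [Int.cast_natCast] at h5
  · refine hU L a b θ h hd p hp2 hpsq α hα.ne fun 𝔓 h3 => ?_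
    refine hα.ev 𝔓 (hWn _ h3) fun Q hQ h4 => ?_
    have hQ1 := (hZ Q hQ).pr
    refine isq_cop ?_ h3 h4.1
    have hpp : Prime (p : ℤ) := Nat.prime_iff_prime_int.1 hp.out
    rw [hpp.coprime_iff_not_dvd]
    intro h5
    apply hpZ
    have h6 : Associated (p : ℤ) Q := hpp.associated_of_dvd hQ1.2 h5
    have h7 : (p : ℤ) = Q := by
      rcases Int.associated_iff.1 h6 with h8 | h8
      · exact h8
      · have h9 : (0 : ℤ) < p := by exact_mod_cast hp.out.pos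
        have h10 := hQ1.1
        omega
    rw [h7]
    exact hQ

theorem t_ISQ (hD : S_DIAGW) (hI : S_ISOW) (hU : S_UNW) (hR : S_RAW) (hE : S_EXW) : S_ISQ := by
  intro W hW L _ _ a b θ h Z hG hZ α hα
  obtain ⟨d, e, hd, he, h1, h2, h3⟩ := hD L a b θ h hG.pos α hα.ne hα.norm
  apply h3
  have h4 : Pool.Agent.H527R9.CC.S_HM := Pool.Agent.H527R9.CC.t_HM Pool.Agent.H527R9.CC.t_HMA
    Pool.Agent.H527R9.CC.t_HMB Pool.Agent.H527R9.CC.t_HS
  exact isq_hs.1 (h4 d e hd he (isq_hs.2 h1) fun p _ =>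
    isq_hs.2 ((h2 p).1 (isq_loc hI hU hR hE hW h hG hZ hα p)))

end Pool.Agent.H29A
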