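import Pool.Agent.H29A.Stm

/-!
# Project ALL (helper29), piece LATW: duality
-/

set_option autoImplicit false
set_option linter.all false

open IsDedekindDomain NumberField Matrix
open scoped Classical

namespace Pool.Agent.H29A

open Pool.Agent.N922.PQ
open Pool.Agent.Helper29L
open Pool.Agent.N301.PQ (mem_P1 val_lt_mem theta_ex mapO poly_mem)
open Pool.Agent.N227.PQ (co_crd eq_co co_smul co_int_smul co_th det_T)
open Pool.Agent.N874.PP (Tup chA chB gq tau Two Ev Sq1 U0 sW)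

section lat

variable {L : Type} [Field L] [NumberField L]

/-- **The duality at `Q`**, with the integrality at `Q` only. -/
theorem dualQ_loc {a b : ℤ} {θ α : L} (h : IsCub a b θ) {Q : ℤ}
    (hint : ∀ w : 𝓞 L, ∃ (s : ℤ) (v : Fin 3 → ℤ), ¬ Q ∣ s ∧
      Crd θ v ((s : L) * algebraMap (𝓞 L) L w))
    (hQ : Gp a b Q) {t : 𝓞 L} (ht : algebraMap (𝓞 L) L t = θ) {𝔓 𝔮 : HeightOneSpectrum (𝓞 L)}
    (hd : PD Q t 𝔓 𝔮) (hα : α ≠ 0) (hev : Ev 𝔓 α) {f : L} {c : ℤ} (hf : FQ α θ f Q c) {y : L}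
    {z : 𝓞 L} (hz : algebraMap (𝓞 L) L z = y * y / α) (hzP : z ∈ 𝔓.asIdeal)
    (hc2 : ∃ m : ℤ, h.co 2 (f * y / α) = (Q : ℚ) ^ 2 * m) :
    ∃ n : ℤ, InB α ((y - (n : L) * f) / (Q : L)) := by
  have hQL : (Q : L) ≠ 0 := Q_ne hQ.pr.2.ne_zero
  have hymem : InB α y := ⟨z, hz⟩
  obtain ⟨w, hw⟩ := hf.pair y hymem
  obtain ⟨w1, hw1⟩ := hf.val
  obtain ⟨zf, hzf⟩ := hf.mem
  have hQP : 𝔓.valuation L (Q : L) < 1 := by
    rw [← mapO (O := 𝓞 L)]
    exact (val_lt_mem 𝔓 _).2 hd.ovP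
  have hneP : 𝔓.valuation L (Q : L) ≠ 0 := (Valuation.ne_zero_iff _).2 hQL
  have hneq : 𝔮.valuation L (Q : L) ≠ 0 := (Valuation.ne_zero_iff _).2 hQL
  have hvz : 𝔓.valuation L (y * y / α) ≤ 𝔓.valuation L (Q : L) ^ 2 :=
    par2 hd.unif (ev_div hα hev) (by rw [← hz]; exact (val_lt_mem 𝔓 _).2 hzP)
  have hvf1 : 𝔓.valuation L (f * f / α) < 1 := by
    have e1 : f * f / α = (Q : L) * (algebraMap (𝓞 L) L ((c : 𝓞 L) * t + (Q : 𝓞 L) * w1)) := by
      rw [hw1, map_add, map_mul, map_mul, mapO, mapO, ht]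
      ring
    rw [e1, map_mul]
    exact lt_of_le_of_lt (mul_le_of_le_one_right' (𝔓.valuation_le_one _)) hQP
  have hvf : 𝔓.valuation L (f * f / α) ≤ 𝔓.valuation L (Q : L) ^ 2 :=
    par2 hd.unif (ev_div hα hev) hvf1
  -- `w` is in `𝔓`
  have hwP : w ∈ 𝔓.asIdeal := by
    rw [← val_lt_mem (L := L)]
    by_contra hcon
    have h1 : (1 : WithZero (Multiplicative ℤ)) ≤ 𝔓.valuation L (algebraMap (𝓞 L) L w) :=
      not_lt.1 hcon
    have h2 : (f * y / α) * (f * y / α) = (f * f / α) * (y * y / α) := by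
      field_simp
    have h3 : 𝔓.valuation L ((f * y / α) * (f * y / α)) ≤
        𝔓.valuation L (Q : L) ^ 2 * 𝔓.valuation L (Q : L) ^ 2 := by
      rw [h2, map_mul]
      exact mul_le_mul' hvf hvz
    rw [hw, map_mul, map_mul] at h3
    have h4 : 𝔓.valuation L (Q : L) * 𝔓.valuation L (Q : L) ≤
        𝔓.valuation L (Q : L) ^ 2 * 𝔓.valuation L (Q : L) ^ 2 := by
      refine le_trans ?_ h3
      exact mul_le_mul' (le_mul_of_one_le_right' h1) (le_mul_of_one_le_right' h1)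
    rw [← pow_two] at h4
    have h5 : 𝔓.valuation L (Q : L) ^ 2 * 𝔓.valuation L (Q : L) ^ 2 <
        𝔓.valuation L (Q : L) ^ 2 * 1 :=
      (mul_lt_mul_iff_right₀ (zero_lt_iff.2 (pow_ne_zero 2 hneP))).2
        (pow_lt_one₀ zero_le hQP two_ne_zero)
    rw [mul_one] at h5
    exact absurd (lt_of_le_of_lt h4 h5) (lt_irrefl _)
  obtain ⟨s, v, hsQ, hv⟩ := hint w
  have hv' : Crd θ v (algebraMap (𝓞 L) L ((s : 𝓞 L) * w)) := by
    rw [map_mul, mapO]; exact hv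
  have hr : Q ∣ v 0 := (mem_P1 hQ.pr.2 ht hd.ovP hd.tP hv').1 (𝔓.asIdeal.mul_mem_left _ hwP)
  have ht2 : Q ∣ v 2 := by
    obtain ⟨m, hm⟩ := hc2
    rw [hw, Pool.Agent.N227.PQ.co_int_smul] at hm
    have hQq : (Q : ℚ) ≠ 0 := by exact_mod_cast hQ.pr.2.ne_zero
    have h2 : h.co 2 (algebraMap (𝓞 L) L w) = (Q : ℚ) * m := by
      have h2 : (Q : ℚ) * h.co 2 (algebraMap (𝓞 L) L w) = (Q : ℚ) * ((Q : ℚ) * m) := by
        rw [hm]; ring
      exact mul_left_cancel₀ hQq h2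
    have h3 := Pool.Agent.N301.PQ.co_crd h hv 2
    rw [Pool.Agent.N227.PQ.co_int_smul, h2] at h3
    refine ⟨s * m, ?_⟩
    have h4 : ((v 2 : ℤ) : ℚ) = ((Q * (s * m) : ℤ) : ℚ) := by
      rw [← h3]; push_cast; ring
    exact_mod_cast h4
  obtain ⟨r', hr'⟩ := hr
  obtain ⟨t', ht'⟩ := ht2
  -- the number `n`
  have hsc : ¬ Q ∣ s * c := fun hh => (hQ.pr.2.dvd_or_dvd hh).elim hsQ hf.nd
  obtain ⟨u, u', huu⟩ := hQ.pr.2.irreducible.coprime_iff_not_dvd.2 hsc
  obtain ⟨n, hn⟩ : ∃ n, n = u' * v 1 := ⟨_, rfl⟩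
  have hnc : v 1 - n * (s * c) = Q * (u * v 1) := by
    rw [hn]
    linear_combination (-(v 1)) * huu
  refine ⟨n, ?_⟩
  obtain ⟨y', hy'⟩ : ∃ y' : L, y' = y - (n : L) * f := ⟨_, rfl⟩
  rw [← hy']
  have hy'm : InB α y' := by
    rw [hy']
    exact hymem.sub hα (hf.mem.zsmul n)
  obtain ⟨zp, hzp⟩ := InB.prod hα hf.mem hy'm
  obtain ⟨z', hz'⟩ := hy'm
  -- `f y' / α` is divisible by `Q ^ 2`
  obtain ⟨w2, hw2⟩ : ∃ w2 : 𝓞 L, f * y' / α = (Q : L) ^ 2 * algebraMap (𝓞 L) L w2 := by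
    have hA : (s : L) * (f * y' / α) = (Q : L) ^ 2 * algebraMap (𝓞 L) L ((r' : 𝓞 L) +
        ((u * v 1 : ℤ) : 𝓞 L) * t + (t' : 𝓞 L) * t ^ 2 - (n : 𝓞 L) * (s : 𝓞 L) * w1) := by
      have e1 : (s : L) * (f * y' / α) = (s : L) * (f * y / α) -
          (s : L) * ((n : L) * (f * f / α)) := by rw [hy']; ring
      have e0 : (s : L) * (f * y / α) = (Q : L) * ((s : L) * algebraMap (𝓞 L) L w) := by
        rw [hw]; ring
      rw [e1, e0, hw1, hv]
      simp only [map_add, map_sub, map_mul, map_pow, mapO, ht]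
      have e2 : ((v 1 : ℤ) : L) = (n : L) * ((s : L) * (c : L)) +
          (Q : L) * ((u * v 1 : ℤ) : L) := by
        have := congrArg (Int.cast (R := L)) hnc
        rw [Int.cast_sub, Int.cast_mul, Int.cast_mul, Int.cast_mul] at this
        linear_combination this
      rw [hr', ht', e2]
      push_cast
      ring
    obtain ⟨u₂, v₂, huv⟩ : IsCoprime s (Q ^ 2) :=
      ((hQ.pr.2.irreducible.coprime_iff_not_dvd.2 hsQ).symm).pow_right
    have huvL : (u₂ : L) * (s : L) + (v₂ : L) * (Q : L) ^ 2 = 1 := by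
      exact_mod_cast congrArg (Int.cast (R := L)) huv
    refine ⟨(u₂ : 𝓞 L) * ((r' : 𝓞 L) +
        ((u * v 1 : ℤ) : 𝓞 L) * t + (t' : 𝓞 L) * t ^ 2 - (n : 𝓞 L) * (s : 𝓞 L) * w1) +
        (v₂ : 𝓞 L) * zp, ?_⟩
    rw [map_add, map_mul _ (v₂ : 𝓞 L), map_mul _ (u₂ : 𝓞 L), mapO, mapO, hzp]
    linear_combination (u₂ : L) * hA - (f * y' / α) * huvL
  -- the valuation of `y' ^ 2 / α` at `𝔮`
  have hrel : (algebraMap (𝓞 L) L ((c : 𝓞 L) * t + (Q : 𝓞 L) * w1)) * algebraMap (𝓞 L) L z' =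
      (Q : L) ^ 3 * algebraMap (𝓞 L) L (w2 * w2) := by
    have h2 : (f * y' / α) * (f * y' / α) = (f * f / α) * (y' * y' / α) := by
      field_simp
    rw [hw2, hw1, ← hz'] at h2
    rw [map_add, map_mul, map_mul, mapO, mapO, ht, map_mul]
    apply mul_left_cancel₀ hQL
    linear_combination -h2
  have hunit : (c : 𝓞 L) * t + (Q : 𝓞 L) * w1 ∉ 𝔮.asIdeal := by
    intro h1
    have h2 : (c : 𝓞 L) * t ∈ 𝔮.asIdeal := by
      have := 𝔮.asIdeal.sub_mem h1 (𝔮.asIdeal.mul_mem_right w1 hd.ovq)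
      rwa [add_sub_cancel_right] at this
    rcases 𝔮.isPrime.mem_or_mem h2 with h3 | h3
    · exact hf.nd ((poly_mem hQ.pr.2 hd.ovq c).1 h3)
    · exact hd.tq h3
  have hvq : 𝔮.valuation L (algebraMap (𝓞 L) L z') ≤ 𝔮.valuation L (Q : L) ^ 2 := by
    have h1 := congrArg (𝔮.valuation L) hrel
    rw [map_mul, map_mul, map_pow,
      (HeightOneSpectrum.valuation_eq_one_iff_notMem (K := L) 𝔮).2 hunit, one_mul] at h1
    rw [h1]
    calc 𝔮.valuation L (Q : L) ^ 3 * 𝔮.valuation L (algebraMap (𝓞 L) L (w2 * w2))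
        ≤ 𝔮.valuation L (Q : L) ^ 3 := mul_le_of_le_one_right' (𝔮.valuation_le_one _)
      _ = 𝔮.valuation L (Q : L) ^ 2 * 𝔮.valuation L (Q : L) := pow_succ _ _
      _ ≤ _ := by
          refine mul_le_of_le_one_right' ?_
          rw [← mapO (O := 𝓞 L)]
          exact 𝔮.valuation_le_one _
  -- the valuation at `𝔓`
  have hvα : 𝔓.valuation L α ≠ 0 := (Valuation.ne_zero_iff _).2 hα
  have hlt : ∀ x : L, 𝔓.valuation L (x * x / α) < 1 ↔ 𝔓.valuation L x ^ 2 < 𝔓.valuation L α := by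
    intro x
    rw [map_div₀, map_mul, ← pow_two, div_lt_one₀ (zero_lt_iff.2 hvα)]
  have hvP : 𝔓.valuation L (y' * y' / α) < 1 := by
    rw [hlt]
    have h1 : 𝔓.valuation L y ^ 2 < 𝔓.valuation L α := by
      rw [← hlt, ← hz]
      exact (val_lt_mem 𝔓 _).2 hzP
    have h2 : 𝔓.valuation L f ^ 2 < 𝔓.valuation L α := (hlt f).1 hvf1
    have h3 : 𝔓.valuation L y' ≤ max (𝔓.valuation L y) (𝔓.valuation L f) := by
      rw [hy']
      refine (Valuation.map_sub _ _ _).trans (max_le_max le_rfl ?_)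
      rw [map_mul, ← mapO (O := 𝓞 L)]
      exact mul_le_of_le_one_left' (𝔓.valuation_le_one _)
    rcases le_max_iff.1 h3 with h4 | h4
    · exact lt_of_le_of_lt (pow_le_pow_left' h4 2) h1
    · exact lt_of_le_of_lt (pow_le_pow_left' h4 2) h2
  have hvP2 : 𝔓.valuation L (algebraMap (𝓞 L) L z') ≤ 𝔓.valuation L (Q : L) ^ 2 := by
    rw [hz']
    exact par2 hd.unif (ev_div hα hev) hvP
  obtain ⟨z'', hz''⟩ := div2 hQ.pr.2.ne_zero hd hvP2 hvq
  refine ⟨z'', ?_⟩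
  have e1 : y' / (Q : L) * (y' / (Q : L)) / α = (y' * y' / α) / (Q : L) ^ 2 := by
    field_simp
  rw [e1, ← hz', hz'', map_mul, map_pow, mapO]
  field_simp

/-- The determinant of the Gram matrix of `co 2` on a lattice which is nearly self-dual. -/
theorem det_dualW {a b : ℤ} {θ : L} (h : IsCub a b θ) {α : L} (e : Fin 3 → L) (hα : α ≠ 0)
    (hN : IsSquare (Algebra.norm ℚ α)) (hli : LinearIndependent ℚ e) (W : ℕ) (hW : W ≠ 0)
    (G : Matrix (Fin 3) (Fin 3) ℤ)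
    (hG : ∀ i j, (G i j : ℚ) = (W : ℚ) ^ 2 * h.co 2 (e i * e j / α))
    (hdual : ∀ y : L, (∀ i, ∃ c : ℤ, (c : ℚ) = h.co 2 (e i * y / α)) →
      ∃ c : Fin 3 → ℤ, (W : L) * y = ∑ i, (c i : L) * e i) :
    ∃ n : ℕ, 0 < n ∧ n ≤ W ^ 5 ∧ G.det = -(n : ℤ) ^ 2 := by
  have hWq : (W : ℚ) ≠ 0 := by exact_mod_cast hW
  have hWpos : (0 : ℚ) < W := by exact_mod_cast Nat.pos_of_ne_zero hW
  have hW1 : (1 : ℚ) ≤ W := by exact_mod_cast Nat.one_le_iff_ne_zero.2 hW
  set Gq : Matrix (Fin 3) (Fin 3) ℚ := Matrix.of fun i j => h.co 2 (e i * e j / α) with hGq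
  have hGqe : ((W : ℚ) ^ 2) • Gq = G.map (Int.cast : ℤ → ℚ) := by
    ext i j
    rw [Matrix.smul_apply, hGq, Matrix.of_apply, Matrix.map_apply, hG, smul_eq_mul]
  have hdet : (W : ℚ) ^ 6 * Gq.det = ((G.det : ℤ) : ℚ) := by
    have h1 : (G.map (Int.cast : ℤ → ℚ)).det = ((G.det : ℤ) : ℚ) := (Int.cast_det G).symm
    rw [← h1, ← hGqe, Matrix.det_smul, Fintype.card_fin]
    ring
  obtain ⟨s, hs⟩ := hN
  have hNα : Algebra.norm ℚ α ≠ 0 := Algebra.norm_ne_zero_iff.2 hα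
  have hs0 : s ≠ 0 := by rintro rfl; exact hNα (by rw [hs]; ring)
  set P : Matrix (Fin 3) (Fin 3) ℚ := Matrix.of fun i k => h.basis.repr (e i) k with hP
  have hPe : ∀ i, e i = ∑ k, P i k • h.basis k := by
    intro i
    rw [← h.basis.sum_repr (e i)]
    rfl
  have hfac : Gq = P * (Matrix.of fun i j : Fin 3 => h.co 2 (h.basis i * h.basis j * α⁻¹)) * Pᵀ := by
    ext i j
    rw [Matrix.mul_apply, hGq, Matrix.of_apply, div_eq_mul_inv]
    conv_lhs => rw [hPe j, Finset.mul_sum, Finset.sum_mul, map_sum]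
    refine Finset.sum_congr rfl fun l _ => ?_
    rw [Matrix.mul_apply, Finset.sum_mul]
    conv_lhs => rw [hPe i, Finset.sum_mul, Finset.sum_mul, map_sum]
    refine Finset.sum_congr rfl fun k _ => ?_
    rw [Matrix.of_apply, Matrix.transpose_apply, smul_mul_smul_comm, smul_mul_assoc, map_smul,
      smul_eq_mul]
    ring
  have hdetq : Gq.det = - (P.det / s) ^ 2 := by
    have hinvn : Algebra.norm ℚ α⁻¹ = (s * s)⁻¹ := by
      apply eq_inv_of_mul_eq_one_left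
      rw [← hs, ← map_mul, inv_mul_cancel₀ hα, map_one]
    rw [hfac, Matrix.det_mul, Matrix.det_mul, det_T, Matrix.det_transpose, hinvn]
    field_simp
  have hPdet : P.det ≠ 0 := by
    intro h0
    obtain ⟨v, hv0, hv⟩ := Matrix.exists_vecMul_eq_zero_iff.2 h0
    have : ∑ i, v i • e i = 0 := by
      have e1 : ∑ i, v i • e i = ∑ k, (v ᵥ* P) k • h.basis k := by
        calc ∑ i, v i • e i = ∑ i, ∑ k, (v i * P i k) • h.basis k := by
              refine Finset.sum_congr rfl fun i _ => ?_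
              rw [hPe i, Finset.smul_sum]
              simp_rw [smul_smul]
          _ = ∑ k, ∑ i, (v i * P i k) • h.basis k := Finset.sum_comm
          _ = ∑ k, (v ᵥ* P) k • h.basis k := by
              refine Finset.sum_congr rfl fun k _ => ?_
              rw [← Finset.sum_smul]
              rfl
      rw [e1, hv]
      simp
    apply hv0
    ext i
    exact Fintype.linearIndependent_iff.1 hli v this i
  set r : ℚ := P.det / s with hr
  have hr0 : r ≠ 0 := div_ne_zero hPdet hs0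
  have hr2 : 0 < r ^ 2 := by positivity
  have hneg : Gq.det < 0 := by
    rw [hdetq]
    linarith
  have hunit : IsUnit Gq.det := hneg.ne.isUnit
  have hinv : ∀ i, ∃ c : Fin 3 → ℤ, ∀ k, (c k : ℚ) = (W : ℚ) * Gq⁻¹ i k := by
    intro i
    obtain ⟨c, hc⟩ := hdual (∑ k, Gq⁻¹ i k • e k) (by
      intro j
      refine ⟨if i = j then 1 else 0, ?_⟩
      have e1 : e j * (∑ k, Gq⁻¹ i k • e k) / α = ∑ k, Gq⁻¹ i k • (e k * e j / α) := by
        rw [Finset.mul_sum, Finset.sum_div]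
        refine Finset.sum_congr rfl fun k _ => ?_
        rw [mul_smul_comm, smul_div_assoc, mul_comm (e j)]
      rw [e1, map_sum]
      have e2 : ∑ k, h.co 2 (Gq⁻¹ i k • (e k * e j / α)) = (Gq⁻¹ * Gq) i j := by
        rw [Matrix.mul_apply]
        refine Finset.sum_congr rfl fun k _ => ?_
        rw [map_smul, smul_eq_mul, hGq, Matrix.of_apply]
      rw [e2, Matrix.nonsing_inv_mul _ hunit, Matrix.one_apply]
      split_ifs <;> simp)
    refine ⟨c, fun k => ?_⟩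
    have e3 : ∑ k, ((c k : ℚ) - (W : ℚ) * Gq⁻¹ i k) • e k = 0 := by
      simp_rw [sub_smul]
      rw [Finset.sum_sub_distrib]
      have e4 : ∑ k, ((c k : ℚ)) • e k = (W : L) * ∑ k, Gq⁻¹ i k • e k := by
        rw [hc]
        refine Finset.sum_congr rfl fun k _ => ?_
        rw [Rat.smul_def]
        push_cast
        rfl
      have e5 : ∑ k, ((W : ℚ) * Gq⁻¹ i k) • e k = (W : L) * ∑ k, Gq⁻¹ i k • e k := by
        rw [Finset.mul_sum]
        refine Finset.sum_congr rfl fun k _ => ?_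
        rw [Rat.smul_def, Rat.smul_def]
        push_cast
        ring
      rw [e4, e5, sub_self]
    have := Fintype.linearIndependent_iff.1 hli _ e3 k
    linarith
  choose K hK using hinv
  have hdetK : (W : ℚ) ^ 3 * Gq⁻¹.det = (((Matrix.of K).det : ℤ) : ℚ) := by
    have : (W : ℚ) • Gq⁻¹ = (Matrix.of K).map (Int.cast : ℤ → ℚ) := by
      ext i k
      rw [Matrix.map_apply, Matrix.of_apply, hK, Matrix.smul_apply, smul_eq_mul]
    have h1 : ((Matrix.of K).map (Int.cast : ℤ → ℚ)).det = (((Matrix.of K).det : ℤ) : ℚ) :=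
      (Int.cast_det (Matrix.of K)).symm
    rw [← h1, ← this, Matrix.det_smul, Fintype.card_fin]
  -- the number `n`
  have hinvdet : Gq.det * Gq⁻¹.det = 1 := by
    rw [← Matrix.det_mul, Matrix.mul_nonsing_inv _ hunit, Matrix.det_one]
  have hk1 : r ^ 2 ≤ (W : ℚ) ^ 3 := by
    have h1 : r ^ 2 * (-(((Matrix.of K).det : ℤ) : ℚ)) = (W : ℚ) ^ 3 := by
      rw [← hdetK]
      rw [hdetq] at hinvdet
      linear_combination (W : ℚ) ^ 3 * hinvdet
    have h2 : (0 : ℚ) < -(((Matrix.of K).det : ℤ) : ℚ) := by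
      have h3 : 0 < r ^ 2 * (-(((Matrix.of K).det : ℤ) : ℚ)) := by
        rw [h1]; positivity
      exact (mul_pos_iff_of_pos_left hr2).1 h3
    have h4 : (1 : ℚ) ≤ -(((Matrix.of K).det : ℤ) : ℚ) := by
      have h5 : (0 : ℤ) < -(Matrix.of K).det := by exact_mod_cast h2
      have h6 : (1 : ℤ) ≤ -(Matrix.of K).det := h5
      exact_mod_cast h6
    calc r ^ 2 = r ^ 2 * 1 := (mul_one _).symm
      _ ≤ r ^ 2 * (-(((Matrix.of K).det : ℤ) : ℚ)) := mul_le_mul_of_nonneg_left h4 hr2.le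
      _ = _ := h1
  have hGd : (((-G.det : ℤ)) : ℚ) = ((W : ℚ) ^ 3 * r) * ((W : ℚ) ^ 3 * r) := by
    rw [Int.cast_neg, ← hdet, hdetq]
    ring
  have hsqz : IsSquare (-G.det) := by
    rw [← Rat.isSquare_intCast_iff]
    exact ⟨_, hGd⟩
  obtain ⟨m, hm⟩ := hsqz
  have hm2 : ((m.natAbs : ℕ) : ℤ) ^ 2 = -G.det := by
    rw [hm, Int.natCast_natAbs, sq_abs, pow_two]
  have hmq : ((m.natAbs : ℕ) : ℚ) ^ 2 = (W : ℚ) ^ 6 * r ^ 2 := by
    have h1 : (((m.natAbs : ℕ) : ℤ) : ℚ) ^ 2 = ((-G.det : ℤ) : ℚ) := by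
      rw [← hm2]; push_cast; ring
    rw [hGd] at h1
    rw [Int.cast_natCast] at h1
    rw [h1]; ring
  refine ⟨m.natAbs, ?_, ?_, ?_⟩
  · rcases Nat.eq_zero_or_pos m.natAbs with h0 | h0
    · exfalso
      rw [h0] at hmq
      have : 0 < (W : ℚ) ^ 6 * r ^ 2 := by positivity
      rw [← hmq] at this
      norm_num at this
    · exact h0
  · have h1 : ((m.natAbs : ℕ) : ℚ) ^ 2 ≤ ((W : ℚ) ^ 5) ^ 2 := by
      rw [hmq]
      calc (W : ℚ) ^ 6 * r ^ 2 ≤ (W : ℚ) ^ 6 * (W : ℚ) ^ 3 :=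
            mul_le_mul_of_nonneg_left hk1 (by positivity)
        _ = (W : ℚ) ^ 9 * 1 := by ring
        _ ≤ (W : ℚ) ^ 9 * W := mul_le_mul_of_nonneg_left hW1 (by positivity)
        _ = _ := by ring
    have h2 : ((m.natAbs : ℕ) : ℚ) ≤ (W : ℚ) ^ 5 :=
      (pow_le_pow_iff_left₀ (by positivity) (by positivity) two_ne_zero).1 h1
    exact_mod_cast h2
  · rw [hm2]; ring

/-- An element with a given valuation. -/
theorem exists_exp (v : HeightOneSpectrum (𝓞 L)) (k : ℤ) :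
    ∃ x : L, v.valuation L x = WithZero.exp k := by
  obtain ⟨π, hπ⟩ := v.valuation_exists_uniformizer L
  refine ⟨π ^ (-k), ?_⟩
  rw [map_zpow₀, hπ, ← WithZero.exp_zsmul]
  congr 1
  simp

/-- If the valuation is not even then it is even after multiplication with a uniformizer. -/
theorem odd_val (v : HeightOneSpectrum (𝓞 L)) {α : L} (hα : α ≠ 0) (h : ¬ Ev v α) :
    ∃ s : L, v.valuation L s ^ 2 = v.valuation L α * WithZero.exp (-1 : ℤ) := by
  have hvα : v.valuation L α ≠ 0 := (Valuation.ne_zero_iff _).2 hα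
  obtain ⟨k, hk⟩ : ∃ k : ℤ, v.valuation L α = WithZero.exp k :=
    ⟨_, (WithZero.exp_log hvα).symm⟩
  rcases Int.even_or_odd k with ⟨m, hm⟩ | ⟨m, hm⟩
  · exfalso
    apply h
    obtain ⟨x, hx⟩ := exists_exp v m
    refine ⟨x, ?_⟩
    rw [hk, hx, ← WithZero.exp_nsmul, two_nsmul, hm]
  · obtain ⟨x, hx⟩ := exists_exp v m
    refine ⟨x, ?_⟩
    rw [hk, hx, ← WithZero.exp_nsmul, ← WithZero.exp_add, two_nsmul, hm]
    congr 1
    ring

end lat

theorem t_LATW (hI : S_INL) (hW : S_INW) (hE : S_EXW) (hN : S_NSW) : S_LATW := by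
  intro W hOK L _ _ a b θ h Z D hD0 hGW hZ hD α hs hodd
  have hα := hs.ne
  have hW0 := hOK.ne
  have hWL : (W : L) ≠ 0 := by exact_mod_cast hW0
  have hWq : (W : ℚ) ≠ 0 := by exact_mod_cast hW0
  obtain ⟨t, ht⟩ := theta_ex (𝓞 L) h
  have hDL : (D : L) ≠ 0 := Q_ne hD0
  have hDq : (D : ℚ) ≠ 0 := by exact_mod_cast hD0
  have hZpr : ∀ Q ∈ Z, IsPr Q := fun Q hQ => (hZ Q hQ).pr
  -- coordinates of integral elements
  have hcoW : ∀ (w : 𝓞 L) (i : Fin 3), ∃ c : ℤ,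
      (W : ℚ) * h.co i (algebraMap (𝓞 L) L w) = (c : ℚ) := by
    intro w i
    obtain ⟨v, hv⟩ := hW W hOK L a b θ h hGW (algebraMap (𝓞 L) L w) (RingOfIntegers.isIntegral_coe w)
    refine ⟨v i, ?_⟩
    have h1 := Pool.Agent.N301.PQ.co_crd h hv i
    have h2 : ((W : ℕ) : L) = (((W : ℕ) : ℤ) : L) := by push_cast; rfl
    rw [h2, co_int_smul] at h1
    exact_mod_cast h1
  -- the primes
  have hPD : ∀ Q ∈ Z, ∃ 𝔓 𝔮 : HeightOneSpectrum (𝓞 L), PD Q t 𝔓 𝔮 := by
    intro Q hQ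
    obtain ⟨𝔓, 𝔮, hd, _⟩ := hE L a b θ t h ht Q (hZ Q hQ).toGp
    exact ⟨𝔓, 𝔮, hd⟩
  have hWnot : ∀ Q ∈ Z, ∀ 𝔓 : HeightOneSpectrum (𝓞 L), Ov Q 𝔓 → (W : 𝓞 L) ∉ 𝔓.asIdeal := by
    intro Q hQ 𝔓 hov hcon
    obtain ⟨k, hk⟩ := (hZ Q hQ).one
    apply 𝔓.isPrime.ne_top
    rw [Ideal.eq_top_iff_one]
    have h1 : (1 : 𝓞 L) = (Q : 𝓞 L) - (W : 𝓞 L) * (k : 𝓞 L) := by
      have h2 := congrArg (Int.cast (R := 𝓞 L)) hk
      push_cast at h2
      linear_combination -h2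
    rw [h1]
    exact 𝔓.asIdeal.sub_mem hov (𝔓.asIdeal.mul_mem_right _ hcon)
  have hevP : ∀ Q ∈ Z, ∀ 𝔓 𝔮 : HeightOneSpectrum (𝓞 L), PD Q t 𝔓 𝔮 → Ev 𝔓 α := by
    intro Q hQ 𝔓 𝔮 hd
    apply hs.ev 𝔓 (hWnot Q hQ 𝔓 hd.ovP)
    rintro Q' _ ⟨_, h2⟩
    have h3 := (val_lt_mem (L := L) 𝔓 t).2 hd.tP
    rw [ht, h2] at h3
    exact lt_irrefl _ h3
  have hθq : ∀ Q ∈ Z, ∀ 𝔓 𝔮 : HeightOneSpectrum (𝓞 L), PD Q t 𝔓 𝔮 → 𝔮.valuation L θ = 1 := by
    intro Q hQ 𝔓 𝔮 hd
    rw [← ht]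
    exact (HeightOneSpectrum.valuation_eq_one_iff_notMem (K := L) 𝔮).2 hd.tq
  -- the element `f`
  obtain ⟨f, hf, hfQ⟩ := exists_f (α := α) (θ := θ) Z hZpr (by
    intro Q hQ
    obtain ⟨𝔓, 𝔮, hd⟩ := hPD Q hQ
    refine exists_f1 (hZ Q hQ).pr.2 ht hd hα (hevP Q hQ 𝔓 𝔮 hd) ?_
    exact (hs.u0 Q hQ 𝔮 hd.ovq (hθq Q hQ 𝔓 𝔮 hd)).2
      (hodd Q hQ 𝔮 hd.ovq (hθq Q hQ 𝔓 𝔮 hd))) hα
  have hvW1 : ∀ v : HeightOneSpectrum (𝓞 L), v.valuation L (W : L) ≤ 1 := by
    intro v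
    have h1 : algebraMap (𝓞 L) L (W : 𝓞 L) = (W : L) := map_natCast _ W
    rw [← h1]
    exact v.valuation_le_one _
  have hvD1 : ∀ v : HeightOneSpectrum (𝓞 L), v.valuation L (D : L) ≤ 1 := by
    intro v
    rw [← mapO (O := 𝓞 L)]
    exact v.valuation_le_one _
  -- local generators
  have hloc : ∀ v : HeightOneSpectrum (𝓞 L), ∃ x, InB α x ∧
      v.valuation L α * v.valuation L ((D : L) * (W : L)) ≤ v.valuation L x ^ 2 := by
    intro v
    have hvα : v.valuation L α ≠ 0 := (Valuation.ne_zero_iff _).2 hα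
    have key : ∀ (s : L) (q : WithZero (Multiplicative ℤ)), q ≤ 1 →
        v.valuation L ((D : L) * (W : L)) ≤ q →
        v.valuation L s ^ 2 = v.valuation L α * q → ∃ x, InB α x ∧
        v.valuation L α * v.valuation L ((D : L) * (W : L)) ≤ v.valuation L x ^ 2 := by
      intro s q hq hDq hsq'
      obtain ⟨d, hd, hds⟩ := exists_mul (α := α) (s := s) (v := v) (by
        rw [map_div₀, map_mul, ← pow_two, hsq']
        rw [mul_div_assoc, mul_comm, div_mul_cancel₀ _ hvα]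
        exact hq)
      refine ⟨_, hds, ?_⟩
      have hvd : v.valuation L (algebraMap (𝓞 L) L d * s) = v.valuation L s := by
        rw [map_mul, (HeightOneSpectrum.valuation_eq_one_iff_notMem (K := L) v).2 hd, one_mul]
      rw [hvd, hsq']
      exact mul_le_mul_right hDq _
    by_cases hcase : ∃ Q ∈ Z, Ov Q v ∧ v.valuation L θ = 1
    · obtain ⟨Q, hQ, hov, hvθ⟩ := hcase
      obtain ⟨s, hs'⟩ := (hs.u0 Q hQ v hov hvθ).2 (hodd Q hQ v hov hvθ)
      have hvs : v.valuation L (s ^ 2) = v.valuation L (α * ((Q : L) * θ)) := by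
        have h1 : s ^ 2 = α * ((Q : L) * θ) - (α * ((Q : L) * θ) - s ^ 2) := by ring
        rw [h1]
        exact Valuation.map_sub_eq_of_lt_left _ hs'
      refine key s (v.valuation L (Q : L)) ?_ ?_ ?_
      · rw [← mapO (O := 𝓞 L)]
        exact v.valuation_le_one _
      · obtain ⟨P', hP'⟩ : Q ∣ D := hD ▸ Finset.dvd_prod_of_mem _ hQ
        rw [map_mul]
        refine (mul_le_of_le_one_right' (hvW1 v)).trans ?_
        rw [hP', Int.cast_mul, map_mul]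
        refine mul_le_of_le_one_right' ?_
        rw [← mapO (O := 𝓞 L)]
        exact v.valuation_le_one _
      · rw [← map_pow, hvs, map_mul, map_mul, hvθ, mul_one]
    · by_cases hev : Ev v α
      · obtain ⟨s, hs'⟩ := hev
        refine key s 1 le_rfl ?_ ?_
        · rw [map_mul]
          exact mul_le_one' (hvD1 v) (hvW1 v)
        · rw [hs', mul_one]
      · have hWv : (W : 𝓞 L) ∈ v.asIdeal := by
          by_contra hcon
          exact hev (hs.ev v hcon fun Q hQ h1 => hcase ⟨Q, hQ, h1⟩)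
        obtain ⟨s, hs'⟩ := odd_val v hα hev
        refine key s (WithZero.exp (-1 : ℤ)) ?_ ?_ hs'
        · rw [← WithZero.exp_zero, WithZero.exp_le_exp]
          norm_num
        · rw [map_mul]
          refine (mul_le_of_le_one_left' (hvD1 v)).trans ?_
          apply lt_one_le
          have h1 : algebraMap (𝓞 L) L (W : 𝓞 L) = (W : L) := map_natCast _ W
          rw [← h1]
          exact (val_lt_mem v _).2 hWv
  -- `f` pairs with the lattice into `D O`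
  have hfpair : ∀ x, InB α x → ∃ w : 𝓞 L, f * x / α = (D : L) * algebraMap (𝓞 L) L w := by
    intro x hx
    obtain ⟨z, hz⟩ := hf.prod hα hx
    rw [hD]
    refine dvd_prod_O Z hZpr ⟨z, hz.symm⟩ ?_
    intro Q hQ
    obtain ⟨c, hc⟩ := hfQ Q hQ
    exact hc.pair x hx
  have hff2 : ∃ m : ℤ, (W : ℚ) * h.co 2 (f * f / α) = (D : ℚ) ^ 2 * m := by
    obtain ⟨z, hz⟩ := hf
    obtain ⟨N, hN⟩ := hcoW z 2
    rw [hz] at hN
    have h1 : D ^ 2 ∣ N := by
      have h2 : (∏ Q ∈ Z, Q ^ 2) ∣ N := by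
        apply Finset.prod_dvd_of_coprime
        · intro P hP Q hQ hne
          exact (isCoprime_of (hZpr P hP) (hZpr Q hQ) hne).pow
        · intro Q hQ
          obtain ⟨c, hc⟩ := hfQ Q hQ
          obtain ⟨w, hw⟩ := hc.val
          obtain ⟨m, hm⟩ := hcoW w 2
          refine ⟨m, ?_⟩
          have h3 : (W : ℚ) * h.co 2 (f * f / α) = (Q : ℚ) ^ 2 * m := by
            have e1 : f * f / α = ((Q * c : ℤ) : L) * θ + ((Q ^ 2 : ℤ) : L) * algebraMap (𝓞 L) L w := by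
              rw [hw]; push_cast; ring
            have e2 : h.co 2 θ = 0 := by
              have := (co_crd h 0 1 0).2.2
              simpa using this
            rw [e1, map_add, co_int_smul, co_int_smul, e2, ← hm]
            push_cast
            ring
          rw [hN] at h3
          exact_mod_cast h3
      rw [hD, ← Finset.prod_pow]
      exact h2
    obtain ⟨m, hm⟩ := h1
    refine ⟨m, ?_⟩
    rw [hN, hm]
    push_cast
    ring
  -- products of elements of the lattice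
  set M := Lam α f D hα with hM
  have hfM : f ∈ M := ⟨1, 0, InB.zero α, by simp⟩
  have hDM : ∀ x, InB α x → (D : L) * x ∈ M := fun x hx => ⟨0, x, hx, by simp⟩
  have hprod : ∀ x ∈ M, ∀ y ∈ M, (∃ m : ℤ, (W : ℚ) * h.co 2 (x * y / α) = (D : ℚ) ^ 2 * m) ∧
      ∃ m : ℤ, (W : ℚ) * h.co 1 (x * y / α) = (D : ℚ) * m := by
    rintro _ ⟨n, u, hu, rfl⟩ _ ⟨m, v, hv, rfl⟩
    obtain ⟨w0, hw0⟩ := hfpair f hf
    obtain ⟨w1, hw1⟩ := hfpair v hv
    obtain ⟨w2, hw2⟩ := hfpair u hu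
    obtain ⟨w3, hw3⟩ := hu.prod hα hv
    have e1 : ((n : L) * f + (D : L) * u) * ((m : L) * f + (D : L) * v) / α =
        ((n * m : ℤ) : L) * (f * f / α) + ((D ^ 2 : ℤ) : L) * algebraMap (𝓞 L) L
          ((n : 𝓞 L) * w1 + (m : 𝓞 L) * w2 + w3) := by
      simp only [map_add, map_mul, mapO]
      have e2 : ((n : L) * f + (D : L) * u) * ((m : L) * f + (D : L) * v) / α =
        (n : L) * (m : L) * (f * f / α) + (D : L) * (n : L) * (f * v / α) +
          (D : L) * (m : L) * (f * u / α) + (D : L) ^ 2 * (u * v / α) := by ring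
      rw [e2, hw1, hw2, ← hw3]
      push_cast
      ring
    obtain ⟨w4, hw4⟩ : ∃ w4 : 𝓞 L, w4 = (n : 𝓞 L) * w1 + (m : 𝓞 L) * w2 + w3 := ⟨_, rfl⟩
    rw [← hw4] at e1
    constructor
    · obtain ⟨m1, hm1⟩ := hff2
      obtain ⟨m2, hm2⟩ := hcoW w4 2
      refine ⟨n * m * m1 + m2, ?_⟩
      rw [e1, map_add, co_int_smul, co_int_smul]
      push_cast
      linear_combination ((n : ℚ) * m) * hm1 + (D : ℚ) ^ 2 * hm2
    · obtain ⟨m1, hm1⟩ := hcoW w0 1
      obtain ⟨m2, hm2⟩ := hcoW w4 1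
      refine ⟨n * m * m1 + D * m2, ?_⟩
      rw [e1, map_add, co_int_smul, co_int_smul, hw0, co_int_smul]
      push_cast
      linear_combination ((n : ℚ) * m * D) * hm1 + (D : ℚ) ^ 2 * hm2
  -- the basis
  obtain ⟨m0, hm0, hy0⟩ := exists_mult (α := α) α
  have hy00 : (m0 : L) * α ≠ 0 := mul_ne_zero (Q_ne hm0) hα
  obtain ⟨e, hli, hmem, hbas⟩ := basis_M h.rank M (α / ((m0 : L) * α)) (by
    intro y hy
    obtain ⟨z, hz⟩ := (Lam_le hf hy).prod hα hy0
    refine ⟨z, ?_⟩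
    rw [hz]
    field_simp) (by
    intro x
    obtain ⟨m, hm, hx⟩ := exists_mult (α := α) x
    refine ⟨D * m, mul_ne_zero hD0 hm, ?_⟩
    have := hDM _ hx
    convert this using 1
    push_cast
    ring)
  -- the matrices
  have hG : ∀ i j, ∃ m : ℤ, (m : ℚ) = (W : ℚ) ^ 2 * (cubD h hD0).co 2 (e i * e j / α) := by
    intro i j
    obtain ⟨m, hm⟩ := (hprod _ (hmem i) _ (hmem j)).1
    refine ⟨W * m, ?_⟩
    rw [(coD h hD0 _).2]
    have e1 : (W : ℚ) ^ 2 * (h.co 2 (e i * e j / α) / (D : ℚ) ^ 2) =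
        (W : ℚ) * ((W : ℚ) * h.co 2 (e i * e j / α)) / (D : ℚ) ^ 2 := by ring
    rw [e1, hm]
    push_cast
    field_simp
  have hB : ∀ i j, ∃ m : ℤ, (m : ℚ) = (W : ℚ) ^ 2 * (cubD h hD0).co 1 (e i * e j / α) := by
    intro i j
    obtain ⟨m, hm⟩ := (hprod _ (hmem i) _ (hmem j)).2
    refine ⟨W * m, ?_⟩
    rw [(coD h hD0 _).1]
    have e1 : (W : ℚ) ^ 2 * (h.co 1 (e i * e j / α) / (D : ℚ)) =
        (W : ℚ) * ((W : ℚ) * h.co 1 (e i * e j / α)) / (D : ℚ) := by ring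
    rw [e1, hm]
    push_cast
    field_simp
  choose G hG using hG
  choose B hB using hB
  -- duality
  have hdual : ∀ y : L, (∀ i, ∃ c : ℤ, (c : ℚ) = (cubD h hD0).co 2 (e i * y / α)) →
      ∃ c : Fin 3 → ℤ, (W : L) * y = ∑ i, (c i : L) * e i := by
    intro y hy
    -- values on the lattice
    have hval : ∀ x ∈ M, ∃ m : ℤ, h.co 2 (x * y / α) = (D : ℚ) ^ 2 * m := by
      intro x hx
      obtain ⟨c, hc⟩ := hbas x hx
      choose k hk using hy
      refine ⟨∑ i, c i * k i, ?_⟩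
      have e1 : x * y / α = ∑ i, (c i : L) * (e i * y / α) := by
        rw [hc, Finset.sum_mul, Finset.sum_div]
        refine Finset.sum_congr rfl fun i _ => by ring
      rw [e1, map_sum]
      push_cast
      rw [Finset.mul_sum]
      refine Finset.sum_congr rfl fun i _ => ?_
      have h2 := hk i
      rw [(coD h hD0 _).2] at h2
      rw [co_int_smul, h2]
      field_simp
    have hyB : ∀ x, InB α x → ∃ w : 𝓞 L, x * y / α = (D : L) * algebraMap (𝓞 L) L w := by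
      intro x hx
      have h1 : ∀ x', InB α x' → ∃ m : ℤ, h.co 2 (x' * y / α / (D : L)) = (m : ℚ) := by
        intro x' hx'
        obtain ⟨m, hm⟩ := hval _ (hDM x' hx')
        refine ⟨m, ?_⟩
        have e1 : (D : L) * x' * y / α = ((D ^ 2 : ℤ) : L) * (x' * y / α / (D : L)) := by
          push_cast
          field_simp
        rw [e1, co_int_smul] at hm
        have hD2 : (D : ℚ) ^ 2 ≠ 0 := pow_ne_zero 2 hDq
        push_cast at hm
        exact mul_left_cancel₀ hD2 hm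
      obtain ⟨w, hw⟩ := int_of_co2 h ht (z := x * y / α / (D : L)) (h1 x hx) (by
        obtain ⟨m, hm⟩ := h1 (θ * x) (by have := hx.smul t; rwa [ht] at this)
        refine ⟨m, ?_⟩
        rw [← hm]
        congr 1
        ring) (by
        obtain ⟨m, hm⟩ := h1 (θ ^ 2 * x) (by have := hx.smul (t ^ 2); rwa [map_pow, ht] at this)
        refine ⟨m, ?_⟩
        rw [← hm]
        congr 1
        ring)
      refine ⟨w, ?_⟩
      rw [hw]
      field_simp
    have hmapW : algebraMap (𝓞 L) L (W : 𝓞 L) = (W : L) := map_natCast _ W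
    obtain ⟨w, hw⟩ := dual_mem (y := (W : L) * y) hα (mul_ne_zero hDL hWL) hloc (by
      intro x hx
      obtain ⟨w, hw⟩ := hyB x hx
      refine ⟨w, ?_⟩
      have e1 : x * ((W : L) * y) / α = (W : L) * (x * y / α) := by ring
      rw [e1, hw]
      ring)
    obtain ⟨y₁, hy₁⟩ : ∃ y₁ : L, y₁ = (W : L) * y := ⟨_, rfl⟩
    rw [← hy₁] at hw ⊢
    have hzz : algebraMap (𝓞 L) L ((D : 𝓞 L) * ((W : 𝓞 L) * w)) = y₁ * y₁ / α := by
      rw [map_mul, map_mul, mapO, hmapW, hw]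
      ring
    have hymem : InB α y₁ := ⟨_, hzz⟩
    obtain ⟨n, hn⟩ := crt_B hα hf Z hZpr hymem (by
      intro Q hQ
      obtain ⟨𝔓, 𝔮, hd⟩ := hPD Q hQ
      obtain ⟨c, hc⟩ := hfQ Q hQ
      obtain ⟨P', hP'⟩ : Q ∣ D := hD ▸ Finset.dvd_prod_of_mem _ hQ
      refine dualQ_loc h ?_ (hZ Q hQ).toGp ht hd hα (hevP Q hQ 𝔓 𝔮 hd) hc
        (z := (D : 𝓞 L) * ((W : 𝓞 L) * w)) hzz ?_ ?_
      · -- the integrality at `Q`
        intro w
        have hQpos := (hZ Q hQ).pr.1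
        have hQpr := (hZ Q hQ).pr.2
        obtain ⟨q, hq⟩ : ∃ q : ℕ, (q : ℤ) = Q := ⟨Q.toNat, Int.toNat_of_nonneg hQpos.le⟩
        have hqp : q.Prime := Nat.prime_iff_prime_int.2 (by rw [hq]; exact hQpr)
        have hdscQ : ¬ Q ∣ dsc a b := by
          intro hcon
          obtain ⟨b', hb'⟩ := (hZ Q hQ).db
          have h1 : Q ∣ 4 * a ^ 3 := by
            have h2 : 4 * a ^ 3 = dsc a b - Q * (27 * b' * b) := by
              rw [dsc, hb']; ring
            rw [h2]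
            exact dvd_sub hcon (dvd_mul_right _ _)
          rcases hQpr.dvd_or_dvd h1 with h2 | h2
          · have h3 : Q ∣ 2 := by
              have : (4 : ℤ) = 2 ^ 2 := by norm_num
              rw [this] at h2
              exact hQpr.dvd_of_dvd_pow h2
            have h4 := Int.le_of_dvd (by norm_num) h3
            have h5 := (hZ Q hQ).m8
            have h6 : Q ≠ 1 := fun h7 => hQpr.not_unit (h7 ▸ isUnit_one)
            omega
          · have h3 := hQpr.dvd_of_dvd_pow h2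
            apply (hZ Q hQ).ns 0
            simpa using h3
        obtain ⟨s, v, hs1, hv⟩ := hI L a b θ h hGW.pos.ne' q hqp (by
          intro hcon
          rw [hq] at hcon
          exact hdscQ ((dvd_pow_self Q two_ne_zero).trans hcon))
          (algebraMap (𝓞 L) L w) (RingOfIntegers.isIntegral_coe w)
        exact ⟨s, v, by rwa [hq] at hs1, hv⟩
      · rw [hP', Int.cast_mul]
        exact 𝔓.asIdeal.mul_mem_right _ (𝔓.asIdeal.mul_mem_right _ hd.ovP)
      · obtain ⟨m, hm⟩ := hval f hfM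
        refine ⟨P' ^ 2 * (W * m), ?_⟩
        have e1 : f * y₁ / α = (((W : ℕ) : ℤ) : L) * (f * y / α) := by
          rw [hy₁]; push_cast; ring
        rw [e1, co_int_smul, hm, hP']
        push_cast
        ring)
    rw [← hD] at hn
    apply hbas
    refine ⟨n, _, hn, ?_⟩
    field_simp
    ring
  obtain ⟨n, hn0, hn1, hn2⟩ := det_dualW (cubD h hD0) e hα hs.norm hli W hW0 (Matrix.of G)
    (fun i j => hG i j) hdual
  exact ⟨e, Matrix.of G, Matrix.of B, n, hli, fun i => Lam_le hf (hmem i),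
    fun y hy => hbas _ (hDM y hy), hn0, hn1, hn2, fun i j => hG i j, fun i j => hB i j⟩

end Pool.Agent.H29A
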