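import Pool.Agent.H29A.Stm
import Pool.Agent.N50.PQ.Maj

/-!
# Project ALL (helper29), piece MAJW: the majorant, for all signatures (port of `N50/PQ/Maj`)
-/

set_option autoImplicit false
set_option linter.all false

open Matrix
open scoped Classical

namespace Pool.Agent.H29A

open Pool.Agent.N922.PQ
open Pool.Agent.N50.PQ.Maj

lemma majw_root_bound {a b : ℤ} {X : ℕ} (ha : |a| ≤ X ^ 2) (hb : |b| ≤ X ^ 3) (z : ℂ)
    (hz : z ^ 3 + (a : ℂ) * z + (b : ℂ) = 0) : ‖z‖ ≤ 2 * X := by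
  by_contra hcon
  push Not at hcon
  have hX : (0 : ℝ) ≤ X := Nat.cast_nonneg X
  have ha' : ‖(a : ℂ)‖ ≤ (X : ℝ) ^ 2 := by
    rw [Complex.norm_intCast]
    exact_mod_cast ha
  have hb' : ‖(b : ℂ)‖ ≤ (X : ℝ) ^ 3 := by
    rw [Complex.norm_intCast]
    exact_mod_cast hb
  have h1 : ‖z‖ ^ 3 ≤ (X : ℝ) ^ 2 * ‖z‖ + X ^ 3 := by
    have h0 : z ^ 3 = -((a : ℂ) * z + b) := by linear_combination hz
    calc ‖z‖ ^ 3 = ‖z ^ 3‖ := (norm_pow _ _).symm
      _ = ‖(a : ℂ) * z + b‖ := by rw [h0, norm_neg]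
      _ ≤ ‖(a : ℂ)‖ * ‖z‖ + ‖(b : ℂ)‖ := (norm_add_le _ _).trans (by rw [norm_mul])
      _ ≤ _ := by gcongr
  have h2 : 0 < ‖z‖ := by linarith
  have h3 : 4 * (X : ℝ) ^ 2 < ‖z‖ ^ 2 := by nlinarith
  have h4 : 4 * (X : ℝ) ^ 2 * ‖z‖ < ‖z‖ ^ 3 := by
    have := mul_lt_mul_of_pos_right h3 h2
    nlinarith
  have h5 : (X : ℝ) ^ 2 * (2 * X) ≤ (X : ℝ) ^ 2 * ‖z‖ := by gcongr
  nlinarith [pow_nonneg hX 3]

lemma majw_real_root {a b : ℤ} {X : ℕ} (ha : |a| ≤ X ^ 2) (hb : |b| ≤ X ^ 3) :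
    ∃ t : ℝ, t ^ 3 + (a : ℝ) * t + (b : ℝ) = 0 := by
  have ha' : |(a : ℝ)| ≤ (X : ℝ) ^ 2 := by exact_mod_cast ha
  have hb' : |(b : ℝ)| ≤ (X : ℝ) ^ 3 := by exact_mod_cast hb
  have hX0 : (0 : ℝ) ≤ X := Nat.cast_nonneg X
  have hcont : Continuous fun t : ℝ => t ^ 3 + (a : ℝ) * t + (b : ℝ) := by fun_prop
  have h1 := intermediate_value_Icc (show -(2 * (X : ℝ)) ≤ 2 * X by linarith) hcont.continuousOn
  have hm : (0 : ℝ) ∈ Set.Icc ((-(2 * (X : ℝ))) ^ 3 + (a : ℝ) * (-(2 * (X : ℝ))) + (b : ℝ))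
      ((2 * (X : ℝ)) ^ 3 + (a : ℝ) * (2 * X : ℝ) + (b : ℝ)) := by
    have h2 := abs_le.1 hb'
    have h3 := abs_le.1 ha'
    have h4 : (a : ℝ) * (2 * X) ≤ (X : ℝ) ^ 2 * (2 * X) := by
      exact mul_le_mul_of_nonneg_right h3.2 (by positivity)
    have h5 : (-(X : ℝ) ^ 2) * (2 * X) ≤ (a : ℝ) * (2 * X) := by
      exact mul_le_mul_of_nonneg_right h3.1 (by positivity)
    have h6 : 0 ≤ (X : ℝ) ^ 3 := by positivity
    constructor
    · nlinarith
    · nlinarith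
  obtain ⟨t, ht, ht2⟩ := h1 hm
  exact ⟨t, ht2⟩

lemma majw_cs (A x y B t1 : ℝ) (W z w t2 : ℂ) (h1 : |t1| ≤ B) (h2 : ‖t2‖ ≤ B) :
    (A * t1 * x * y + 2 * (W * t2 * z * w).re) ^ 2 ≤
      B ^ 2 * ((|A| * x ^ 2 + 2 * ‖W‖ * ‖z‖ ^ 2) * (|A| * y ^ 2 + 2 * ‖W‖ * ‖w‖ ^ 2)) := by
  obtain ⟨s, hs, hA⟩ : ∃ s : ℝ, |s| = 1 ∧ A = |A| * s := by
    rcases abs_cases A with h | h
    · exact ⟨1, by simp, by rw [h.1]; ring⟩
    · exact ⟨-1, by simp, by rw [h.1]; ring⟩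
  have h3 := cs |A| x y B (s * t1) W z w t2 (abs_nonneg A) (by rw [abs_mul, hs, one_mul]; exact h1) h2
  have e : A * t1 * x * y = |A| * (s * t1) * x * y := by
    conv_lhs => rw [hA]
    ring
  rw [e]
  exact h3

section cub

variable {L : Type} [Field L] [NumberField L] {a b : ℤ} {θ : L}

/-- the coordinates of a linearly independent family -/
lemma majw_cq (h : IsCub a b θ) (e : Fin 3 → L) (he : LinearIndependent ℚ e) :
    (Matrix.of fun i k => h.co k (e i) : Matrix (Fin 3) (Fin 3) ℚ).det ≠ 0 := by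
  obtain ⟨Cq, hCq⟩ : ∃ Cq : Matrix (Fin 3) (Fin 3) ℚ, Cq = Matrix.of fun i k => h.co k (e i) :=
    ⟨_, rfl⟩
  rw [← hCq]
  have hli : LinearIndependent ℚ Cq.row := by
    have h1 := he.map' h.basis.equivFun.toLinearMap (LinearEquiv.ker _)
    have h2 : (h.basis.equivFun.toLinearMap ∘ e) = Cq.row := by
      rw [hCq]
      rfl
    rwa [h2] at h1
  have h1 := Matrix.linearIndependent_rows_iff_isUnit.1 hli
  exact ((Matrix.isUnit_iff_isUnit_det _).1 h1).ne_zero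

/-- the conclusion -/
def MajC (h : IsCub a b θ) (X : ℕ) (α : L) (e : Fin 3 → L) : Prop :=
  ∃ H : Matrix (Fin 3) (Fin 3) ℝ, H.PosDef ∧
    H.det = |((Matrix.of fun i j => h.co 2 (e i * e j / α)).det : ℝ)| ∧
    (∀ u v : Fin 3 → ℝ, (∑ i, ∑ j, u i * v j * (h.co 2 (e i * e j / α) : ℝ)) ^ 2 ≤
      (u ⬝ᵥ H *ᵥ u) * (v ⬝ᵥ H *ᵥ v)) ∧
    (∀ u v : Fin 3 → ℝ, (∑ i, ∑ j, u i * v j * (h.co 1 (e i * e j / α) : ℝ)) ^ 2 ≤
      (2 * X) ^ 2 * ((u ⬝ᵥ H *ᵥ u) * (v ⬝ᵥ H *ᵥ v)))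

lemma majw_complex (h : IsCub a b θ) (X : ℕ) (haX : |a| ≤ X ^ 2) (hbX : |b| ≤ X ^ 3) (α : L)
    (e : Fin 3 → L) (hα : α ≠ 0) (he : LinearIndependent ℚ e) (t : ℝ)
    (ht : t ^ 3 + (a : ℝ) * t + (b : ℝ) = 0) (hpos : 0 < (a : ℝ) + 3 * t ^ 2 / 4) :
    MajC h X α e := by
  have hX0 : (0 : ℝ) ≤ X := Nat.cast_nonneg X
  obtain ⟨p, hp⟩ : ∃ p : ℝ, p = -t / 2 := ⟨_, rfl⟩
  obtain ⟨q, hq⟩ : ∃ q : ℝ, q = Real.sqrt (a + 3 * t ^ 2 / 4) := ⟨_, rfl⟩
  have hq2 : q ^ 2 = a + 3 * t ^ 2 / 4 := by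
    rw [hq, Real.sq_sqrt hpos.le]
  have hq0 : 0 < q := by
    rw [hq]
    exact Real.sqrt_pos.2 hpos
  obtain ⟨z, hz⟩ : ∃ z : ℂ, z = ⟨p, q⟩ := ⟨_, rfl⟩
  have hzre : z.re = p := by rw [hz]
  have hzim : z.im = q := by rw [hz]
  have hz2 : z ^ 2 + (t : ℂ) * z + ((t : ℂ) ^ 2 + (a : ℂ)) = 0 := by
    apply Complex.ext
    · simp only [pow_two, Complex.add_re, Complex.mul_re, Complex.ofReal_re, Complex.ofReal_im,
        Complex.intCast_re, Complex.zero_re, hzre, hzim]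
      rw [hp]
      nlinarith
    · simp only [pow_two, Complex.add_im, Complex.mul_im, Complex.ofReal_re, Complex.ofReal_im,
        Complex.intCast_im, Complex.zero_im, hzre, hzim]
      rw [hp]
      ring
  have htC : (t : ℂ) ^ 3 + (a : ℂ) * (t : ℂ) + (b : ℂ) = 0 := by exact_mod_cast ht
  have hz3 : z ^ 3 + (a : ℂ) * z + (b : ℂ) = 0 := by
    linear_combination (z - t) * hz2 + htC
  have hzn : ‖z‖ ≤ 2 * X := majw_root_bound haX hbX z hz3
  have htn : |t| ≤ 2 * X := by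
    have := majw_root_bound haX hbX (t : ℂ) htC
    rwa [Complex.norm_real, Real.norm_eq_abs] at this
  obtain ⟨δ, hδ⟩ : ∃ δ : ℝ, δ = (t - p) ^ 2 + q ^ 2 := ⟨_, rfl⟩
  have hδ0 : 0 < δ := by rw [hδ]; positivity
  -- the formula for the last coordinate
  obtain ⟨W0, hW0⟩ : ∃ W0 : ℂ, W0 = ⟨-1 / (2 * δ), (t - p) / (2 * δ * q)⟩ := ⟨_, rfl⟩
  have hW0re : W0.re = -1 / (2 * δ) := by rw [hW0]
  have hW0im : W0.im = (t - p) / (2 * δ * q) := by rw [hW0]
  have hW0ne : W0 ≠ 0 := by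
    intro h0
    rw [h0, Complex.zero_re] at hW0re
    have : -1 / (2 * δ) < 0 := div_neg_of_neg_of_pos (by norm_num) (by positivity)
    linarith
  have hc2 : ∀ x : L, ((h.co 2 x : ℚ) : ℝ) = 1 / δ * ev h t x + 2 * (W0 * ev h z x).re := by
    intro x
    unfold ev
    simp only [Complex.mul_re, Complex.mul_im, Complex.add_re, Complex.add_im, Complex.ratCast_re,
      Complex.ratCast_im, pow_two, hzre, hzim, hW0re, hW0im]
    have hδ' := hδ0.ne'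
    have hq' := hq0.ne'
    field_simp
    rw [hδ]
    ring
  have hc1 : ∀ x : L, ((h.co 1 x : ℚ) : ℝ) = 1 / δ * (t * ev h t x) + 2 * (W0 * (z * ev h z x)).re := by
    intro x
    rw [co_shift, hc2, ev_mul h ht, ev_mul h hz3, ev_theta, ev_theta]
  have ht0 : ev h t α ≠ 0 := ev_ne h ht hα
  have hz0 : ev h z α ≠ 0 := ev_ne h hz3 hα
  obtain ⟨A, hA⟩ : ∃ A : ℝ, A = 1 / δ / ev h t α := ⟨_, rfl⟩
  have hA0 : A ≠ 0 := by
    rw [hA]
    exact div_ne_zero (one_div_ne_zero hδ0.ne') ht0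
  obtain ⟨W, hW⟩ : ∃ W : ℂ, W = W0 / ev h z α := ⟨_, rfl⟩
  have hWne : W ≠ 0 := by rw [hW]; exact div_ne_zero hW0ne hz0
  obtain ⟨E1, hE1⟩ : ∃ E1 : Fin 3 → ℝ, E1 = fun i => ev h t (e i) := ⟨_, rfl⟩
  obtain ⟨E2, hE2⟩ : ∃ E2 : Fin 3 → ℂ, E2 = fun i => ev h z (e i) := ⟨_, rfl⟩
  have hC2 : ∀ i j, ((h.co 2 (e i * e j / α) : ℚ) : ℝ) = A * E1 i * E1 j + 2 * (W * E2 i * E2 j).re := by
    intro i j
    rw [hc2, ev_div h ht _ hα, ev_div h hz3 _ hα, ev_mul h ht, ev_mul h hz3, hA, hW, hE1, hE2]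
    congr 1
    · field_simp
    · congr 2
      field_simp
  have hC1 : ∀ i j, ((h.co 1 (e i * e j / α) : ℚ) : ℝ) =
      (A * t) * E1 i * E1 j + 2 * ((W * z) * E2 i * E2 j).re := by
    intro i j
    rw [hc1, ev_div h ht _ hα, ev_div h hz3 _ hα, ev_mul h ht, ev_mul h hz3, hA, hW, hE1, hE2]
    congr 1
    · field_simp
    · congr 2
      field_simp
  -- the determinant
  have hV : (Vm E1 E2).det ≠ 0 := by
    have hdet := majw_cq h e he
    have hfac : (Vm E1 E2).det = (((Matrix.of fun i k => h.co k (e i) :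
        Matrix (Fin 3) (Fin 3) ℚ).det : ℚ) : ℝ) * (q * δ) := by
      rw [hδ, hE1, hE2]
      unfold Vm ev
      simp only [Matrix.det_fin_three, Matrix.of_apply, Matrix.cons_val_zero, Matrix.cons_val_one,
        Matrix.cons_val, Complex.mul_re, Complex.mul_im, Complex.add_re, Complex.add_im,
        Complex.ratCast_re, Complex.ratCast_im, pow_two, hzre, hzim]
      push_cast
      ring
    rw [hfac]
    have : (((Matrix.of fun i k => h.co k (e i) : Matrix (Fin 3) (Fin 3) ℚ).det : ℚ) : ℝ) ≠ 0 := by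
      exact_mod_cast hdet
    positivity
  refine ⟨Hm E1 E2 |A| W, posdef E1 E2 |A| W (abs_pos.2 hA0) hWne hV, ?_, ?_, ?_⟩
  · have h1 : (((Matrix.of fun i j => h.co 2 (e i * e j / α)).det : ℚ) : ℝ) = (Cm E1 E2 A W).det := by
      rw [Matrix.det_fin_three, Matrix.det_fin_three]
      simp only [Matrix.of_apply, Cm]
      push_cast
      simp only [hC2]
    rw [h1, det_C, det_H, neg_mul, abs_neg, abs_mul, abs_mul, abs_mul, abs_of_nonneg (sq_nonneg ‖W‖),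
      abs_of_nonneg (sq_nonneg (Vm E1 E2).det), abs_of_nonneg (by norm_num : (0 : ℝ) ≤ 4)]
  · intro u v
    simp only [hC2]
    rw [cm_sum, hm_sum, hm_sum]
    have h1 := majw_cs A (l1 E1 u) (l1 E1 v) 1 1 W (l2 E2 u) (l2 E2 v) 1 (by simp) (by simp)
    simp only [mul_one, one_pow, one_mul] at h1
    exact h1
  · intro u v
    simp only [hC1]
    rw [cm_sum, hm_sum, hm_sum]
    exact majw_cs A (l1 E1 u) (l1 E1 v) (2 * X) t W (l2 E2 u) (l2 E2 v) z htn hzn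

/-! ### Three real zeros -/

/-- the form -/
noncomputable def Cr (E : Fin 3 → Fin 3 → ℝ) (A : Fin 3 → ℝ) : Matrix (Fin 3) (Fin 3) ℝ :=
  Matrix.of fun i j => ∑ k, A k * E k i * E k j

lemma cr_det (E : Fin 3 → Fin 3 → ℝ) (A : Fin 3 → ℝ) :
    (Cr E A).det = (A 0 * A 1 * A 2) * (Matrix.of E).det ^ 2 := by
  unfold Cr
  simp only [Matrix.det_fin_three, Matrix.of_apply, Fin.sum_univ_three]
  ring

lemma cr_sum (E : Fin 3 → Fin 3 → ℝ) (A : Fin 3 → ℝ) (u v : Fin 3 → ℝ) :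
    ∑ i, ∑ j, u i * v j * (∑ k, A k * E k i * E k j) =
      ∑ k, A k * (∑ i, u i * E k i) * (∑ i, v i * E k i) := by
  simp only [Fin.sum_univ_three]
  ring

lemma cr_dot (E : Fin 3 → Fin 3 → ℝ) (A : Fin 3 → ℝ) (u : Fin 3 → ℝ) :
    u ⬝ᵥ Cr E A *ᵥ u = ∑ k, A k * (∑ i, u i * E k i) ^ 2 := by
  unfold Cr
  simp only [dotProduct, mulVec, Matrix.of_apply, Fin.sum_univ_three]
  ring

lemma cr_pos (E : Fin 3 → Fin 3 → ℝ) (A : Fin 3 → ℝ) (hA : ∀ k, 0 < A k)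
    (hE : (Matrix.of E).det ≠ 0) : (Cr E A).PosDef := by
  refine Matrix.PosDef.of_dotProduct_mulVec_pos ?_ ?_
  · ext i j
    simp only [Cr, Matrix.conjTranspose_apply, Matrix.of_apply, star_trivial]
    refine Finset.sum_congr rfl fun k _ => ?_
    ring
  · intro u hu
    rw [star_trivial, cr_dot]
    by_contra hcon
    push Not at hcon
    have h1 : ∀ k ∈ (Finset.univ : Finset (Fin 3)), A k * (∑ i, u i * E k i) ^ 2 = 0 := by
      have h0 : ∀ k ∈ (Finset.univ : Finset (Fin 3)), 0 ≤ A k * (∑ i, u i * E k i) ^ 2 :=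
        fun k _ => mul_nonneg (hA k).le (sq_nonneg _)
      exact (Finset.sum_eq_zero_iff_of_nonneg h0).1 (le_antisymm hcon (Finset.sum_nonneg h0))
    have h2 : (Matrix.of E) *ᵥ u = 0 := by
      funext k
      have h3 := h1 k (Finset.mem_univ k)
      rcases mul_eq_zero.1 h3 with h4 | h4
      · exact absurd h4 (hA k).ne'
      · have h5 := pow_eq_zero_iff (two_ne_zero) |>.1 h4
        show ∑ i, E k i * u i = 0
        rw [← h5]
        exact Finset.sum_congr rfl fun i _ => mul_comm _ _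
    exact hu (Matrix.eq_zero_of_mulVec_eq_zero hE h2)

lemma cr_cs (A t x y : Fin 3 → ℝ) (B : ℝ) (hB : 0 ≤ B) (ht : ∀ k, |t k| ≤ B) :
    (∑ k, A k * t k * x k * y k) ^ 2 ≤
      B ^ 2 * ((∑ k, |A k| * x k ^ 2) * (∑ k, |A k| * y k ^ 2)) := by
  have h1 : |∑ k, A k * t k * x k * y k| ≤ B * ∑ k, |A k| * |x k| * |y k| := by
    rw [Finset.mul_sum]
    refine (Finset.abs_sum_le_sum_abs _ _).trans (Finset.sum_le_sum fun k _ => ?_)
    rw [abs_mul, abs_mul, abs_mul]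
    have h2 : |A k| * |t k| * |x k| * |y k| ≤ |A k| * B * |x k| * |y k| := by
      have := ht k
      gcongr
    linarith
  have h2 : (∑ k, |A k| * |x k| * |y k|) ^ 2 ≤ (∑ k, |A k| * x k ^ 2) * (∑ k, |A k| * y k ^ 2) := by
    refine Finset.sum_sq_le_sum_mul_sum_of_sq_eq_mul _ (fun k _ => by positivity)
      (fun k _ => by positivity) fun k _ => ?_
    rw [← sq_abs (x k), ← sq_abs (y k)]
    ring
  rw [← sq_abs]
  calc |∑ k, A k * t k * x k * y k| ^ 2 ≤ (B * ∑ k, |A k| * |x k| * |y k|) ^ 2 :=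
        pow_le_pow_left₀ (abs_nonneg _) h1 2
    _ = B ^ 2 * (∑ k, |A k| * |x k| * |y k|) ^ 2 := by ring
    _ ≤ _ := mul_le_mul_of_nonneg_left h2 (by positivity)

lemma majw_real (h : IsCub a b θ) (X : ℕ) (haX : |a| ≤ X ^ 2) (hbX : |b| ≤ X ^ 3) (α : L)
    (e : Fin 3 → L) (hα : α ≠ 0) (he : LinearIndependent ℚ e) (t : Fin 3 → ℝ)
    (ht : ∀ k, t k ^ 3 + (a : ℝ) * t k + (b : ℝ) = 0) (h01 : t 0 ≠ t 1) (h02 : t 0 ≠ t 2)
    (h12 : t 1 ≠ t 2) : MajC h X α e := by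
  have hX0 : (0 : ℝ) ≤ X := Nat.cast_nonneg X
  have htn : ∀ k, |t k| ≤ 2 * X := by
    intro k
    have htC : ((t k : ℝ) : ℂ) ^ 3 + (a : ℂ) * ((t k : ℝ) : ℂ) + (b : ℂ) = 0 := by
      exact_mod_cast ht k
    have := majw_root_bound haX hbX _ htC
    rwa [Complex.norm_real, Real.norm_eq_abs] at this
  obtain ⟨w, hw⟩ : ∃ w : Fin 3 → ℝ, w = ![1 / ((t 0 - t 1) * (t 0 - t 2)),
    1 / ((t 1 - t 0) * (t 1 - t 2)), 1 / ((t 2 - t 0) * (t 2 - t 1))] := ⟨_, rfl⟩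
  have d01 : t 0 - t 1 ≠ 0 := sub_ne_zero.2 h01
  have d02 : t 0 - t 2 ≠ 0 := sub_ne_zero.2 h02
  have d12 : t 1 - t 2 ≠ 0 := sub_ne_zero.2 h12
  have d10 : t 1 - t 0 ≠ 0 := sub_ne_zero.2 h01.symm
  have d20 : t 2 - t 0 ≠ 0 := sub_ne_zero.2 h02.symm
  have d21 : t 2 - t 1 ≠ 0 := sub_ne_zero.2 h12.symm
  have w0 : w 0 = 1 / ((t 0 - t 1) * (t 0 - t 2)) := by rw [hw]; rfl
  have w1 : w 1 = 1 / ((t 1 - t 0) * (t 1 - t 2)) := by rw [hw]; rfl
  have w2 : w 2 = 1 / ((t 2 - t 0) * (t 2 - t 1)) := by rw [hw]; rfl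
  have hwne : ∀ k, w k ≠ 0 := by
    intro k
    fin_cases k
    · show w 0 ≠ 0
      rw [w0]
      exact one_div_ne_zero (mul_ne_zero d01 d02)
    · show w 1 ≠ 0
      rw [w1]
      exact one_div_ne_zero (mul_ne_zero d10 d12)
    · show w 2 ≠ 0
      rw [w2]
      exact one_div_ne_zero (mul_ne_zero d20 d21)
  have hc2 : ∀ x : L, ((h.co 2 x : ℚ) : ℝ) = ∑ k, w k * ev h (t k) x := by
    intro x
    rw [Fin.sum_univ_three, w0, w1, w2]
    unfold ev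
    have e10 : t 1 - t 0 = -(t 0 - t 1) := by ring
    have e20 : t 2 - t 0 = -(t 0 - t 2) := by ring
    have e21 : t 2 - t 1 = -(t 1 - t 2) := by ring
    rw [e10, e20, e21]
    field_simp
    ring
  have hc1 : ∀ x : L, ((h.co 1 x : ℚ) : ℝ) = ∑ k, w k * (t k * ev h (t k) x) := by
    intro x
    rw [co_shift, hc2]
    refine Finset.sum_congr rfl fun k _ => ?_
    rw [ev_mul h (ht k), ev_theta]
  have ht0 : ∀ k, ev h (t k) α ≠ 0 := fun k => ev_ne h (ht k) hα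
  obtain ⟨A, hA⟩ : ∃ A : Fin 3 → ℝ, ∀ k, A k = w k / ev h (t k) α := ⟨_, fun _ => rfl⟩
  have hA0 : ∀ k, A k ≠ 0 := by
    intro k
    rw [hA]
    exact div_ne_zero (hwne k) (ht0 k)
  obtain ⟨E, hE⟩ : ∃ E : Fin 3 → Fin 3 → ℝ, ∀ k i, E k i = ev h (t k) (e i) := ⟨_, fun _ _ => rfl⟩
  have hC2 : ∀ i j, ((h.co 2 (e i * e j / α) : ℚ) : ℝ) = ∑ k, A k * E k i * E k j := by
    intro i j
    rw [hc2]
    refine Finset.sum_congr rfl fun k _ => ?_
    rw [ev_div h (ht k) _ hα, ev_mul h (ht k), hA, hE, hE]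
    have := ht0 k
    field_simp
  have hC1 : ∀ i j, ((h.co 1 (e i * e j / α) : ℚ) : ℝ) = ∑ k, (A k * t k) * E k i * E k j := by
    intro i j
    rw [hc1]
    refine Finset.sum_congr rfl fun k _ => ?_
    rw [ev_div h (ht k) _ hα, ev_mul h (ht k), hA, hE, hE]
    have := ht0 k
    field_simp
  have hV : (Matrix.of E).det ≠ 0 := by
    have hdet := majw_cq h e he
    have hfac : (Matrix.of E).det = (((Matrix.of fun i k => h.co k (e i) :
        Matrix (Fin 3) (Fin 3) ℚ).det : ℚ) : ℝ) * ((t 1 - t 0) * (t 2 - t 0) * (t 2 - t 1)) := by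
      simp only [Matrix.det_fin_three, Matrix.of_apply, hE]
      unfold ev
      push_cast
      ring
    rw [hfac]
    have : (((Matrix.of fun i k => h.co k (e i) : Matrix (Fin 3) (Fin 3) ℚ).det : ℚ) : ℝ) ≠ 0 := by
      exact_mod_cast hdet
    exact mul_ne_zero this (mul_ne_zero (mul_ne_zero d10 d20) d21)
  refine ⟨Cr E fun k => |A k|, cr_pos E _ (fun k => abs_pos.2 (hA0 k)) hV, ?_, ?_, ?_⟩
  · have h1 : (((Matrix.of fun i j => h.co 2 (e i * e j / α)).det : ℚ) : ℝ) = (Cr E A).det := by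
      rw [Matrix.det_fin_three, Matrix.det_fin_three]
      simp only [Matrix.of_apply, Cr]
      push_cast
      simp only [hC2]
    rw [h1, cr_det, cr_det, abs_mul, abs_mul, abs_mul, abs_of_nonneg (sq_nonneg (Matrix.of E).det)]
  · intro u v
    simp only [hC2]
    rw [cr_sum, cr_dot, cr_dot]
    have h1 := cr_cs A (fun _ => 1) (fun k => ∑ i, u i * E k i) (fun k => ∑ i, v i * E k i) 1
      zero_le_one (fun _ => by simp)
    simp only [mul_one, one_pow, one_mul] at h1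
    exact h1
  · intro u v
    simp only [hC1]
    rw [cr_sum, cr_dot, cr_dot]
    exact cr_cs A t (fun k => ∑ i, u i * E k i) (fun k => ∑ i, v i * E k i) (2 * X)
      (by positivity) htn

end cub

theorem t_MAJW : S_MAJW := by
  intro L _ _ a b θ h X hd haX hbX α e hα he
  obtain ⟨t, ht⟩ := majw_real_root haX hbX
  rcases lt_trichotomy 0 ((a : ℝ) + 3 * t ^ 2 / 4) with hp | hp | hp
  · exact majw_complex h X haX hbX α e hα he t ht hp
  · exfalso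
    apply hd
    have h1 : (a : ℝ) = - (3 * t ^ 2 / 4) := by linarith
    have h2 : (b : ℝ) = - t ^ 3 / 4 := by
      have : (b : ℝ) = - t ^ 3 - a * t := by linarith
      rw [this, h1]
      ring
    have h3 : ((dsc a b : ℤ) : ℝ) = 0 := by
      unfold dsc
      push_cast
      rw [h1, h2]
      ring
    exact_mod_cast h3
  · obtain ⟨s, hs⟩ : ∃ s : ℝ, s = Real.sqrt (-(a + 3 * t ^ 2 / 4)) := ⟨_, rfl⟩
    have hs2 : s ^ 2 = -(a + 3 * t ^ 2 / 4) := by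
      rw [hs, Real.sq_sqrt (by linarith)]
    have hs0 : 0 < s := by
      rw [hs]
      exact Real.sqrt_pos.2 (by linarith)
    have hbt : (b : ℝ) = - t ^ 3 - a * t := by linarith
    have hne : ∀ σ : ℝ, σ ^ 2 = 1 → t ≠ -t / 2 + σ * s := by
      intro σ hσ h0
      have h1 : 3 * t / 2 = σ * s := by linarith
      have h2 : (3 * t / 2) ^ 2 = s ^ 2 := by rw [h1, mul_pow, hσ, one_mul]
      have h3 : (a : ℝ) = - (3 * t ^ 2) := by
        rw [hs2] at h2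
        linarith
      apply hd
      have h4 : (b : ℝ) = 2 * t ^ 3 := by
        rw [hbt, h3]
        ring
      have h5 : ((dsc a b : ℤ) : ℝ) = 0 := by
        unfold dsc
        push_cast
        rw [h3, h4]
        ring
      exact_mod_cast h5
    refine majw_real h X haX hbX α e hα he ![t, -t / 2 + s, -t / 2 - s] ?_ ?_ ?_ ?_
    · intro k
      fin_cases k
      · exact ht
      · show (-t / 2 + s) ^ 3 + (a : ℝ) * (-t / 2 + s) + (b : ℝ) = 0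
        rw [hbt]
        linear_combination (s - 3 * t / 2) * hs2
      · show (-t / 2 - s) ^ 3 + (a : ℝ) * (-t / 2 - s) + (b : ℝ) = 0
        rw [hbt]
        linear_combination (-s - 3 * t / 2) * hs2
    · show t ≠ -t / 2 + s
      have := hne 1 (by norm_num)
      rwa [one_mul] at this
    · show t ≠ -t / 2 - s
      have := hne (-1) (by norm_num)
      intro h0
      apply this
      linarith
    · show -t / 2 + s ≠ -t / 2 - s
      intro h0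
      linarith

end Pool.Agent.H29A
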