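import Pool.Agent.H29A.Stm
import Pool.Agent.Helper29L.Mom
import Pool.Agent.Helper29L.NN

/-!
# Project ALL (helper29): piece MOMW
-/

set_option autoImplicit false
set_option linter.all false

open Finset Filter
open scoped Classical

namespace Pool.Agent.H29A

open Pool.Agent.Helper29L (FewSet UnbSet S_MOM)
open Pool.Agent.Helper29K (SE Pr8 Bx mem_Bx NR nr_congr)

namespace MOMW

theorem mem_BxA {X : ℕ} {p : ℤ × ℤ} : p ∈ BxA X ↔ |p.1| ≤ X ^ 2 ∧ |p.2| ≤ X ^ 3 := by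
  unfold BxA
  rw [mem_product, mem_Icc, mem_Icc, abs_le, abs_le]
  push_cast
  tauto

theorem SE_add (𝒬 : Finset ℕ) (a b t : ℤ) (ht : ∀ Q ∈ 𝒬, (Q : ℤ) ∣ t) :
    SE 𝒬 (a + t) b = SE 𝒬 a b := by
  unfold SE
  apply Finset.filter_congr
  intro Q hQ
  have : NR Q (a + t) ↔ NR Q a := nr_congr (by simpa using ht Q hQ)
  rw [this]

theorem fewset_finite (𝒬 : Finset ℕ) (m X : ℕ) : (FewSet 𝒬 m X).Finite :=
  (Bx X).finite_toSet.subset fun _ hp => hp.1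

theorem sub (𝒬 : Finset ℕ) (m X P : ℕ) (t : ℤ) (ht : ∀ Q ∈ 𝒬, (Q : ℤ) ∣ t)
    (h1 : (X : ℤ) ^ 2 < t) (h2 : t ≤ (X : ℤ) ^ 2 + P) :
    FewA 𝒬 m X ⊆ FewSet 𝒬 m X ∪ (fun p : ℤ × ℤ => (p.1 - t, p.2)) '' FewSet 𝒬 m (X + P) := by
  rintro ⟨a, b⟩ ⟨hB, hc⟩
  rw [mem_BxA] at hB
  obtain ⟨ha, hb⟩ := hB
  simp only at ha hb hc
  by_cases hpos : 0 < a
  · left
    refine ⟨?_, hc⟩
    rw [mem_Bx]
    exact ⟨hpos, (le_abs_self a).trans ha, hb⟩
  · right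
    refine ⟨(a + t, b), ⟨?_, ?_⟩, ?_⟩
    · rw [mem_Bx]
      have h3 := (abs_le.1 ha).1
      have hX : (0 : ℤ) ≤ X := Int.natCast_nonneg X
      have hP : (0 : ℤ) ≤ P := Int.natCast_nonneg P
      refine ⟨?_, ?_, ?_⟩
      · show 0 < a + t
        linarith
      · show a + t ≤ ((X + P : ℕ) : ℤ) ^ 2
        push_cast
        have : (P : ℤ) ≤ (P : ℤ) ^ 2 := by
          rcases Nat.eq_zero_or_pos P with rfl | h
          · simp
          · have : (1 : ℤ) ≤ P := by exact_mod_cast h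
            nlinarith
        nlinarith [mul_nonneg hX hP]
      · show |b| ≤ ((X + P : ℕ) : ℤ) ^ 3
        refine hb.trans ?_
        exact pow_le_pow_left₀ hX (by push_cast; linarith) 3
    · show (SE 𝒬 (a + t) b).card < m
      rw [SE_add 𝒬 a b t ht]
      exact hc
    · simp

theorem core (hM : S_MOM) : S_MOMW := by
  intro κ δ ε hδ hδ1 hε m₀
  obtain ⟨Λ₀, hΛ⟩ := hM κ δ (ε / 4) hδ hδ1 (by positivity) m₀
  refine ⟨Λ₀, fun 𝒬 hQ hs => ?_⟩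
  obtain ⟨m, hm, hev⟩ := hΛ 𝒬 hQ hs
  refine ⟨m, hm, ?_⟩
  obtain ⟨P, hP⟩ : ∃ P : ℕ, P = ∏ Q ∈ 𝒬, Q := ⟨_, rfl⟩
  have hP0 : 0 < P := by
    rw [hP]
    exact Finset.prod_pos fun Q hQ' => (hQ Q hQ').1.pos
  have hdv : ∀ Q ∈ 𝒬, Q ∣ P := fun Q hQ' => by
    rw [hP]
    exact Finset.dvd_prod_of_mem _ hQ'
  have hev2 := (tendsto_add_atTop_nat P).eventually hev
  filter_upwards [hev, hev2, eventually_ge_atTop (10 * P)] with X h1 h2 h3
  have hX5 : (0 : ℝ) ≤ (X : ℝ) ^ 5 := by positivity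
  refine ⟨?_, h1.2.1, h1.2.2.trans ?_⟩
  · obtain ⟨t, ht⟩ : ∃ t : ℕ, t = P * (X ^ 2 / P + 1) := ⟨_, rfl⟩
    have ht1 : X ^ 2 < t := by
      rw [ht, mul_comm]
      exact Nat.lt_mul_of_div_lt (Nat.lt_succ_self _) hP0
    have ht2 : t ≤ X ^ 2 + P := by
      rw [ht, mul_add, mul_one]
      exact Nat.add_le_add_right (Nat.mul_div_le _ _) _
    have hsub := sub 𝒬 m X P (t : ℤ) (fun Q hQ' => by
        have : Q ∣ t := by
          rw [ht]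
          exact (hdv Q hQ').mul_right _
        exact_mod_cast this) (by exact_mod_cast ht1) (by exact_mod_cast ht2)
    have hfin := (fewset_finite 𝒬 m X).union ((fewset_finite 𝒬 m (X + P)).image
      (fun p : ℤ × ℤ => (p.1 - (t : ℤ), p.2)))
    have hc1 : (FewA 𝒬 m X).ncard ≤ (FewSet 𝒬 m X).ncard + (FewSet 𝒬 m (X + P)).ncard :=
      (Set.ncard_le_ncard hsub hfin).trans ((Set.ncard_union_le _ _).trans
        (Nat.add_le_add_left (Set.ncard_image_le (fewset_finite 𝒬 m (X + P))) _))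
    have hc2 : ((FewA 𝒬 m X).ncard : ℝ) ≤
        ((FewSet 𝒬 m X).ncard : ℝ) + ((FewSet 𝒬 m (X + P)).ncard : ℝ) := by exact_mod_cast hc1
    have h4 : ((X + P : ℕ) : ℝ) ≤ 11 / 10 * (X : ℝ) := by
      have : (10 : ℝ) * P ≤ X := by exact_mod_cast h3
      push_cast
      linarith
    have h5 : ((X + P : ℕ) : ℝ) ^ 5 ≤ 2 * (X : ℝ) ^ 5 := by
      calc ((X + P : ℕ) : ℝ) ^ 5 ≤ (11 / 10 * (X : ℝ)) ^ 5 :=
            pow_le_pow_left₀ (by positivity) h4 5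
        _ = (11 / 10) ^ 5 * (X : ℝ) ^ 5 := by rw [mul_pow]
        _ ≤ 2 * (X : ℝ) ^ 5 := mul_le_mul_of_nonneg_right (by norm_num) hX5
    have h6 : ε / 4 * ((X + P : ℕ) : ℝ) ^ 5 ≤ ε / 4 * (2 * (X : ℝ) ^ 5) :=
      mul_le_mul_of_nonneg_left h5 (by positivity)
    have h7 := h1.1
    have h8 := h2.1
    have h9 : 0 ≤ ε * (X : ℝ) ^ 5 := by positivity
    linarith
  · have : 0 ≤ ε * (X : ℝ) ^ 5 := by positivity
    linarith

end MOMW

theorem t_MOMW : S_MOMW := MOMW.core (Pool.Agent.Helper29L.mom Pool.Agent.Helper29L.NNL.pbad)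

end Pool.Agent.H29A
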