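import Pool.Agent.H29A.Stm
import Pool.Agent.R425.G.Cl4
import Pool.Agent.Helper29L.Size1

/-!
# Piece MUL of project ALL: the local condition is multiplicative
-/

set_option autoImplicit false
set_option linter.all false

open IsDedekindDomain NumberField WeierstrassCurve WeierstrassCurve.Affine
open scoped Classical

namespace Pool.Agent.H29A

open Pool.Agent.TH115.GD
open Pool.Agent.R425.G
open Pool.Agent.Y710.CV (Cond)

/-- The local condition is multiplicative. -/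
theorem cond_mul {V : WeierstrassCurve ℚ} {F Ω A : Type} [Field F] [Field Ω] [Algebra F Ω]
    [Algebra ℚ F] [Algebra ℚ Ω] [IsScalarTower ℚ F Ω] [IsSepClosed Ω] [IsGalois F Ω] [Field A]
    {θ x y : A} {a b c : Ω} (hC : IsC (V.baseChange Ω).toAffine a b c)
    (hr : ∀ φ : A →+* Ω, cub V (φ θ) = 0)
    (hx : Cond F Ω V θ x) (hy : Cond F Ω V θ y) : Cond F Ω V θ (x * y) := by
  obtain ⟨R, hR, hw⟩ := hx
  obtain ⟨R', hR', hw'⟩ := hy
  obtain ⟨P, hP⟩ := fixed_point (K := ℚ) (F := F) V R hR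
  obtain ⟨P', hP'⟩ := fixed_point (K := ℚ) (F := F) V R' hR'
  obtain ⟨η, hη⟩ := kp_mul hC P P'
  refine ⟨R + R', fun σ => by rw [map_add, hR, hR'], fun φ => ?_⟩
  obtain ⟨w, hw1, hw2⟩ := hw φ
  obtain ⟨w', hw1', hw2'⟩ := hw' φ
  obtain ⟨e, he⟩ : ∃ e : Rt V Ω, e = ⟨φ θ, hr φ⟩ := ⟨_, rfl⟩
  have he1 : e.1 = φ θ := by rw [he]
  refine ⟨w * w' * (η.1 e : Ω)⁻¹, fun σ hσ => ?_, fun b' c' hC' => ?_⟩
  · have hmv : mv σ e = e := Subtype.ext (by
      show σ e.1 = e.1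
      rw [he1, hσ])
    rw [map_mul, map_mul, map_inv₀, equi, hmv, hw1 σ hσ, hw1' σ hσ]
  · have hC1 : IsC (V.baseChange Ω).toAffine e.1 b' c' := by rw [he1]; exact hC'
    have h1 := congrArg (fun z : EE V F Ω => (z.1 e : Ω)) hη
    have h2 : kpf (P + P') e = kpf P e * kpf P' e * (η.1 e : Ω) ^ 2 := h1
    rw [kpf_eq _ _ hC1, kpf_eq _ _ hC1, kpf_eq _ _ hC1, map_add, hP, hP', he1] at h2
    have hη0 : (η.1 e : Ω) ≠ 0 := (η.1 e).ne_zero
    rw [map_mul, hw2 b' c' hC', hw2' b' c' hC', h2]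
    field_simp

theorem t_MUL : S_MUL := by
  intro L _ _ a b θ h hd v x y hx hy h1 h2
  have hV := Pool.Agent.Helper29L.SZ.iv_VV hd
  haveI hgal := gal_p v
  obtain ⟨e1, e2, e3, hC⟩ := Pool.Agent.Y355.G.V_roots hV.a1 hV.a3 hV.Δ
    (AlgebraicClosure (v.adicCompletion ℚ))
  refine cond_mul hC (fun φ => ?_) h1 h2
  have h3 := congrArg φ h.root
  rw [Pool.Agent.Helper29L.SZ.cub_VV]
  simpa using h3

end Pool.Agent.H29A
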