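import Pool.Agent.H29A.Stm

/-!
# Project ALL (helper29), piece NFW: the normal form with bounded denominators
-/

set_option autoImplicit false
set_option linter.all false

open Matrix
open scoped Classical

namespace Pool.Agent.H29A

open Pool.Agent.N922.PQ

/-- the conclusion -/
def PN (κ : ℝ) (N : ℕ) (G : Matrix (Fin 3) (Fin 3) ℤ) (h : Fin 3 → ℝ) : Prop :=
  ∃ (m : ℕ) (T : Matrix (Fin 3) (Fin 3) ℚ) (T₁ T₂ : Matrix (Fin 3) (Fin 3) ℤ),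
    T * G.map (Int.castRingHom ℚ) * Tᵀ = JJ.map (Int.castRingHom ℚ) ∧
    T₁.map (Int.castRingHom ℚ) = (N : ℚ) • T ∧
    T₂.map (Int.castRingHom ℚ) * T = (N : ℚ) • (1 : Matrix (Fin 3) (Fin 3) ℚ) ∧
    (∑ j, |(T 0 j : ℝ)| * h j ≤ κ / 2 ^ m) ∧ (∑ j, |(T 1 j : ℝ)| * h j ≤ κ) ∧
    (∑ j, |(T 2 j : ℝ)| * h j ≤ κ * 2 ^ m)

theorem PN_mono {κ κ' : ℝ} {N N' : ℕ} {G : Matrix (Fin 3) (Fin 3) ℤ} {h : Fin 3 → ℝ} (hκ : κ ≤ κ')
    (hN : N ∣ N') (hP : PN κ N G h) : PN κ' N' G h := by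
  obtain ⟨c, rfl⟩ := hN
  obtain ⟨m, T, T₁, T₂, h1, h2, h3, h4, h5, h6⟩ := hP
  refine ⟨m, T, (c : ℤ) • T₁, (c : ℤ) • T₂, h1, ?_, ?_, h4.trans ?_, h5.trans hκ, h6.trans ?_⟩
  · have e : ((c : ℤ) • T₁).map (Int.castRingHom ℚ) = (c : ℚ) • T₁.map (Int.castRingHom ℚ) := by
      ext i j
      simp only [Matrix.map_apply, Matrix.smul_apply, smul_eq_mul, map_mul, eq_intCast,
        Int.cast_natCast]
    rw [e, h2, smul_smul]
    push_cast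
    rw [mul_comm]
  · have e : ((c : ℤ) • T₂).map (Int.castRingHom ℚ) = (c : ℚ) • T₂.map (Int.castRingHom ℚ) := by
      ext i j
      simp only [Matrix.map_apply, Matrix.smul_apply, smul_eq_mul, map_mul, eq_intCast,
        Int.cast_natCast]
    rw [e, Matrix.smul_mul, h3, smul_smul]
    push_cast
    rw [mul_comm]
  · gcongr
  · gcongr

/-! ### The first case -/

theorem nf_m1 (g k c d z : ℚ) (hg : g ≠ 0) (hk : k ≠ 0) (hz : z = (c ^ 2 / k ^ 2 - d) / (2 * g)) :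
    !![1 / g, 0, 0; 0, 1 / k, 0; z, -c / k ^ 2, 1] * !![0, 0, g; 0, k ^ 2, c; g, c, d] *
      (!![1 / g, 0, 0; 0, 1 / k, 0; z, -c / k ^ 2, 1])ᵀ = JJ.map (Int.castRingHom ℚ) := by
  ext i j
  fin_cases i <;> fin_cases j <;>
    simp only [Matrix.mul_apply, Fin.sum_univ_three, Matrix.transpose_apply, Matrix.of_apply, Matrix.cons_val', Matrix.cons_val_zero,
      Matrix.cons_val_one, Matrix.cons_val, Matrix.map_apply, JJ, hz, Fin.zero_eta, Fin.mk_one, Fin.reduceFinMk, Int.coe_castRingHom] <;> push_cast <;> field_simp <;> ring_nf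

theorem nf_m2 (g k c d f z N : ℚ) (hg : g ≠ 0) (hk : k ≠ 0) (hz : z = (c ^ 2 / k ^ 2 - d) / (2 * g)) (hN : N = 2 * (g * k * f) ^ 4) :
    !![2 * g ^ 3 * k ^ 4 * f ^ 4, 0, 0; 0, 2 * g ^ 4 * k ^ 3 * f ^ 4, 0;
      (c ^ 2 - d * k ^ 2) * (g ^ 3 * k ^ 2 * f ^ 4), -c * (2 * g ^ 4 * k ^ 2 * f ^ 4),
        2 * g ^ 4 * k ^ 4 * f ^ 4] = N • !![1 / g, 0, 0; 0, 1 / k, 0; z, -c / k ^ 2, 1] := by
  ext i j
  fin_cases i <;> fin_cases j <;>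
    simp only [Matrix.smul_apply, smul_eq_mul, Matrix.of_apply, Matrix.cons_val', Matrix.cons_val_zero,
      Matrix.cons_val_one, Matrix.cons_val, hz, hN, Fin.zero_eta, Fin.mk_one, Fin.reduceFinMk] <;> field_simp <;> ring_nf

theorem nf_m3 (g k c d f z N : ℚ) (hg : g ≠ 0) (hk : k ≠ 0) (hz : z = (c ^ 2 / k ^ 2 - d) / (2 * g)) (hN : N = 2 * (g * k * f) ^ 4) :
    !![2 * g ^ 5 * k ^ 4 * f ^ 4, 0, 0; 0, 2 * g ^ 4 * k ^ 5 * f ^ 4, 0;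
      -(c ^ 2 - d * k ^ 2) * (g ^ 4 * k ^ 2 * f ^ 4), c * (2 * g ^ 4 * k ^ 3 * f ^ 4),
        2 * g ^ 4 * k ^ 4 * f ^ 4] * !![1 / g, 0, 0; 0, 1 / k, 0; z, -c / k ^ 2, 1] = N • (1 : Matrix (Fin 3) (Fin 3) ℚ) := by
  ext i j
  fin_cases i <;> fin_cases j <;>
    simp only [Matrix.mul_apply, Fin.sum_univ_three, Matrix.smul_apply, smul_eq_mul, Matrix.of_apply, Matrix.cons_val', Matrix.cons_val_zero,
      Matrix.cons_val_one, Matrix.cons_val, hz, hN, Fin.zero_eta, Fin.mk_one, Fin.reduceFinMk, Matrix.one_apply, Fin.reduceEq, reduceIte, if_true] <;> first | (norm_num; done) | (field_simp; done) | (field_simp; ring_nf; done)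

theorem case_one {N₀ : ℕ} (G : Matrix (Fin 3) (Fin 3) ℤ) (n : ℕ) (h : Fin 3 → ℝ) (hn : 0 < n)
    (hnN : n ≤ N₀) (hs : G.IsSymm) (hd : G.det = -(n : ℤ) ^ 2) (hh : ∀ i, 0 < h i)
    (hmon : Monotone h) (hprod : h 0 * h 1 * h 2 ≤ 8 * n) (hG : ∀ i j, |(G i j : ℝ)| ≤ h i * h j)
    (h0 : h 0 < 1) (h01 : h 0 * h 1 < 1) :
    PN (16 * N₀ * ((4 * N₀ + 1) * (64 * N₀ ^ 2 + 1))) (2 * (N₀.factorial) ^ 4) G h := by
  have hn' : (1 : ℝ) ≤ n := by exact_mod_cast hn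
  have hnN' : (n : ℝ) ≤ N₀ := by exact_mod_cast hnN
  have g00 : G 0 0 = 0 := by
    have h1 := hG 0 0
    have h2 : h 0 * h 0 < 1 := by nlinarith [hh 0]
    have h3 : |G 0 0| < 1 := by
      have : |(G 0 0 : ℝ)| < 1 := lt_of_le_of_lt h1 h2
      exact_mod_cast this
    exact Int.abs_lt_one_iff.1 h3
  have g01 : G 0 1 = 0 := by
    have h1 := hG 0 1
    have h3 : |G 0 1| < 1 := by
      have : |(G 0 1 : ℝ)| < 1 := lt_of_le_of_lt h1 h01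
      exact_mod_cast this
    exact Int.abs_lt_one_iff.1 h3
  have g10 : G 1 0 = 0 := by
    have := hs.apply 0 1
    rw [this, g01]
  have g20 : G 2 0 = G 0 2 := hs.apply 0 2
  have g21 : G 2 1 = G 1 2 := hs.apply 1 2
  obtain ⟨g, hg⟩ : ∃ g, g = G 0 2 := ⟨_, rfl⟩
  obtain ⟨K, hK⟩ : ∃ K, K = G 1 1 := ⟨_, rfl⟩
  obtain ⟨c, hc⟩ : ∃ c, c = G 1 2 := ⟨_, rfl⟩
  obtain ⟨d, hdd⟩ : ∃ d, d = G 2 2 := ⟨_, rfl⟩
  have hdet : g ^ 2 * K = (n : ℤ) ^ 2 := by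
    rw [Matrix.det_fin_three, g00, g01, g10, g20, g21, ← hg, ← hK, ← hc, ← hdd] at hd
    linarith
  have hgn : g ∣ (n : ℤ) := by
    rw [← Int.pow_dvd_pow_iff (two_ne_zero)]
    exact ⟨K, hdet.symm⟩
  obtain ⟨k, hk⟩ := hgn
  have hg0 : g ≠ 0 := by
    rintro rfl
    rw [zero_mul] at hk
    have : n = 0 := by exact_mod_cast hk
    omega
  have hKk : K = k ^ 2 := by
    have h1 : g ^ 2 * K = g ^ 2 * k ^ 2 := by rw [hdet, hk]; ring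
    exact mul_left_cancel₀ (pow_ne_zero 2 hg0) h1
  have hk0 : k ≠ 0 := by
    rintro rfl
    rw [mul_zero] at hk
    have : n = 0 := by exact_mod_cast hk
    omega
  -- sizes
  have hgR : (1 : ℝ) ≤ |(g : ℝ)| := by
    have : (1 : ℤ) ≤ |g| := Int.one_le_abs hg0
    exact_mod_cast this
  have hkR : (1 : ℝ) ≤ |(k : ℝ)| := by
    have : (1 : ℤ) ≤ |k| := Int.one_le_abs hk0
    exact_mod_cast this
  have hp0 := hh 0
  have hp1 := hh 1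
  have hp2 := hh 2
  have b02 : (1 : ℝ) ≤ h 0 * h 2 := by
    have := hG 0 2
    rw [← hg] at this
    linarith
  have b11 : (1 : ℝ) ≤ h 1 := by
    have h1 := hG 1 1
    rw [← hK, hKk] at h1
    push_cast at h1
    rw [abs_pow] at h1
    have h2 : (1 : ℝ) ≤ |(k : ℝ)| ^ 2 := one_le_pow₀ hkR
    by_contra hcon
    push Not at hcon
    nlinarith
  have b1 : h 1 ≤ 8 * n := by
    have : h 1 * 1 ≤ h 1 * (h 0 * h 2) := mul_le_mul_of_nonneg_left b02 hp1.le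
    linarith
  have b02' : h 0 * h 2 ≤ 8 * n := by
    have : (h 0 * h 2) * 1 ≤ (h 0 * h 2) * h 1 := mul_le_mul_of_nonneg_left b11 (by positivity)
    linarith
  have bc : |(c : ℝ)| ≤ h 1 * h 2 := by rw [hc]; exact hG 1 2
  have bd : |(d : ℝ)| ≤ h 2 * h 2 := by rw [hdd]; exact hG 2 2
  -- the exponent
  obtain ⟨m, hm1, hm2⟩ := exists_nat_pow_near (show (1 : ℝ) ≤ 1 / h 0 by
    rw [le_div_iff₀ hp0]; linarith) (show (1 : ℝ) < 2 by norm_num)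
  have hm1' : h 0 ≤ 1 / 2 ^ m := by
    rw [le_div_iff₀ (by positivity)]
    rw [le_div_iff₀ hp0] at hm1
    linarith
  have b2 : h 2 ≤ 16 * n * 2 ^ m := by
    rw [div_lt_iff₀ hp0, pow_succ] at hm2
    have h3 : h 2 * 1 ≤ h 2 * (2 ^ m * 2 * h 0) := mul_le_mul_of_nonneg_left hm2.le hp2.le
    have h4 : h 2 * (2 ^ m * 2 * h 0) = (h 0 * h 2) * (2 ^ m * 2) := by ring
    have h5 : (h 0 * h 2) * (2 ^ m * 2) ≤ (8 * n) * (2 ^ m * 2) := by gcongr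
    nlinarith
  have hgQ : (g : ℚ) ≠ 0 := by exact_mod_cast hg0
  have hkQ : (k : ℚ) ≠ 0 := by exact_mod_cast hk0
  obtain ⟨z, hz⟩ : ∃ z : ℚ, z = ((c : ℚ) ^ 2 / (k : ℚ) ^ 2 - d) / (2 * g) := ⟨_, rfl⟩
  have hndvd : (n : ℤ) ∣ (N₀.factorial : ℤ) := by
    exact_mod_cast Nat.dvd_factorial hn hnN
  obtain ⟨f, hf⟩ := hndvd
  have hfQ : ((N₀.factorial : ℕ) : ℚ) = (g : ℚ) * k * f := by
    have : ((N₀.factorial : ℤ) : ℚ) = ((g * k * f : ℤ) : ℚ) := by rw [hf, hk]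
    push_cast at this
    exact this
  have hN : ((2 * N₀.factorial ^ 4 : ℕ) : ℚ) = 2 * ((g : ℚ) * k * f) ^ 4 := by
    push_cast
    rw [hfQ]
  have hGm : G.map (Int.castRingHom ℚ) = !![0, 0, (g : ℚ); 0, (k : ℚ) ^ 2, (c : ℚ);
      (g : ℚ), (c : ℚ), (d : ℚ)] := by
    ext i j
    fin_cases i <;> fin_cases j <;>
      simp only [Matrix.map_apply, Matrix.of_apply, Matrix.cons_val', Matrix.cons_val_zero,
        Matrix.cons_val_one, Matrix.cons_val, Fin.zero_eta, Fin.mk_one, Fin.reduceFinMk, g00, g01,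
        g10, g20, g21, ← hg, ← hK, ← hc, ← hdd, hKk, eq_intCast] <;> push_cast <;> rfl
  have hκ1 : (1 : ℝ) ≤ 16 * N₀ * ((4 * N₀ + 1) * (64 * N₀ ^ 2 + 1)) := by
    have h1 : (1 : ℝ) ≤ N₀ := hn'.trans hnN'
    have h2 : (1 : ℝ) ≤ (4 * N₀ + 1) := by linarith
    have h3 : (1 : ℝ) ≤ (64 * N₀ ^ 2 + 1) := by nlinarith
    have h4 : (1 : ℝ) ≤ (4 * N₀ + 1) * (64 * N₀ ^ 2 + 1) := one_le_mul_of_one_le_of_one_le h2 h3
    exact one_le_mul_of_one_le_of_one_le (by linarith) h4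
  have hκ8 : 8 * (n : ℝ) ≤ 16 * N₀ * ((4 * N₀ + 1) * (64 * N₀ ^ 2 + 1)) := by
    have h1 : (1 : ℝ) ≤ N₀ := hn'.trans hnN'
    have h2 : (1 : ℝ) ≤ (4 * N₀ + 1) := by linarith
    have h3 : (1 : ℝ) ≤ (64 * N₀ ^ 2 + 1) := by nlinarith
    have h4 : (1 : ℝ) ≤ (4 * N₀ + 1) * (64 * N₀ ^ 2 + 1) := one_le_mul_of_one_le_of_one_le h2 h3
    have h5 : 16 * (N₀ : ℝ) * 1 ≤ 16 * N₀ * ((4 * N₀ + 1) * (64 * N₀ ^ 2 + 1)) :=
      mul_le_mul_of_nonneg_left h4 (by positivity)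
    linarith
  refine ⟨m, !![1 / (g : ℚ), 0, 0; 0, 1 / (k : ℚ), 0; z, -(c : ℚ) / (k : ℚ) ^ 2, 1],
    !![2 * g ^ 3 * k ^ 4 * f ^ 4, 0, 0; 0, 2 * g ^ 4 * k ^ 3 * f ^ 4, 0;
      (c ^ 2 - d * k ^ 2) * (g ^ 3 * k ^ 2 * f ^ 4), -c * (2 * g ^ 4 * k ^ 2 * f ^ 4),
        2 * g ^ 4 * k ^ 4 * f ^ 4],
    !![2 * g ^ 5 * k ^ 4 * f ^ 4, 0, 0; 0, 2 * g ^ 4 * k ^ 5 * f ^ 4, 0;
      -(c ^ 2 - d * k ^ 2) * (g ^ 4 * k ^ 2 * f ^ 4), c * (2 * g ^ 4 * k ^ 3 * f ^ 4),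
        2 * g ^ 4 * k ^ 4 * f ^ 4], ?_, ?_, ?_, ?_, ?_, ?_⟩
  · rw [hGm]
    exact nf_m1 g k c d z hgQ hkQ hz
  · rw [← nf_m2 g k c d f z _ hgQ hkQ hz hN]
    ext i j
    fin_cases i <;> fin_cases j <;>
      simp only [Matrix.map_apply, Matrix.of_apply, Matrix.cons_val', Matrix.cons_val_zero,
        Matrix.cons_val_one, Matrix.cons_val, Fin.zero_eta, Fin.mk_one, Fin.reduceFinMk,
        eq_intCast] <;> push_cast <;> rfl
  · rw [← nf_m3 g k c d f z _ hgQ hkQ hz hN]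
    congr 1
    ext i j
    fin_cases i <;> fin_cases j <;>
      simp only [Matrix.map_apply, Matrix.of_apply, Matrix.cons_val', Matrix.cons_val_zero,
        Matrix.cons_val_one, Matrix.cons_val, Fin.zero_eta, Fin.mk_one, Fin.reduceFinMk,
        eq_intCast] <;> push_cast <;> rfl
  · have e1 : ∑ j, |((!![1 / (g : ℚ), 0, 0; 0, 1 / (k : ℚ), 0; z, -(c : ℚ) / (k : ℚ) ^ 2, 1] 0 j : ℚ) :
        ℝ)| * h j = |1 / (g : ℝ)| * h 0 := by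
      simp [Fin.sum_univ_three]
    rw [e1, abs_div, abs_one]
    have h1 : 1 / |(g : ℝ)| ≤ 1 := by
      rw [div_le_one (by linarith)]
      exact hgR
    calc 1 / |(g : ℝ)| * h 0 ≤ 1 * h 0 := mul_le_mul_of_nonneg_right h1 hp0.le
      _ = h 0 := one_mul _
      _ ≤ 1 / 2 ^ m := hm1'
      _ ≤ _ := div_le_div_of_nonneg_right hκ1 (by positivity)
  · have e1 : ∑ j, |((!![1 / (g : ℚ), 0, 0; 0, 1 / (k : ℚ), 0; z, -(c : ℚ) / (k : ℚ) ^ 2, 1] 1 j : ℚ) :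
        ℝ)| * h j = |1 / (k : ℝ)| * h 1 := by
      simp [Fin.sum_univ_three]
    rw [e1, abs_div, abs_one]
    have h1 : 1 / |(k : ℝ)| ≤ 1 := by
      rw [div_le_one (by linarith)]
      exact hkR
    calc 1 / |(k : ℝ)| * h 1 ≤ 1 * h 1 := mul_le_mul_of_nonneg_right h1 hp1.le
      _ = h 1 := one_mul _
      _ ≤ _ := b1.trans hκ8
  · have e1 : ∑ j, |((!![1 / (g : ℚ), 0, 0; 0, 1 / (k : ℚ), 0; z, -(c : ℚ) / (k : ℚ) ^ 2, 1] 2 j : ℚ) :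
        ℝ)| * h j = |(z : ℝ)| * h 0 + |-(c : ℝ) / (k : ℝ) ^ 2| * h 1 + h 2 := by
      simp [Fin.sum_univ_three]
    rw [e1]
    have hk2 : (1 : ℝ) ≤ (k : ℝ) ^ 2 := by
      rw [← sq_abs]
      exact one_le_pow₀ hkR
    have hzr : (z : ℝ) = ((c : ℝ) ^ 2 / (k : ℝ) ^ 2 - d) / (2 * g) := by
      rw [hz]
      push_cast
      rfl
    have hc2 : (c : ℝ) ^ 2 ≤ (h 1 * h 2) ^ 2 := by
      rw [← sq_abs]
      exact pow_le_pow_left₀ (abs_nonneg _) bc 2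
    have hz1 : |(z : ℝ)| ≤ ((h 1 * h 2) ^ 2 + h 2 * h 2) / 2 := by
      rw [hzr, abs_div, abs_mul, abs_of_nonneg (by norm_num : (0 : ℝ) ≤ 2)]
      have h5 : |(c : ℝ) ^ 2 / (k : ℝ) ^ 2 - d| ≤ (h 1 * h 2) ^ 2 + h 2 * h 2 := by
        refine (abs_sub _ _).trans (add_le_add ?_ bd)
        rw [abs_of_nonneg (by positivity)]
        exact (div_le_self (sq_nonneg _) hk2).trans hc2
      rw [div_le_div_iff₀ (by linarith) (by norm_num)]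
      have h6 : |(c : ℝ) ^ 2 / (k : ℝ) ^ 2 - d| * 2 ≤ ((h 1 * h 2) ^ 2 + h 2 * h 2) * 2 := by
        linarith
      have h7 : ((h 1 * h 2) ^ 2 + h 2 * h 2) * 2 * 1 ≤ ((h 1 * h 2) ^ 2 + h 2 * h 2) * 2 * |(g : ℝ)| :=
        mul_le_mul_of_nonneg_left hgR (by positivity)
      linarith
    have hz2 : |-(c : ℝ) / (k : ℝ) ^ 2| ≤ h 1 * h 2 := by
      rw [abs_div, abs_neg, abs_of_nonneg (by positivity : (0 : ℝ) ≤ (k : ℝ) ^ 2)]
      exact (div_le_self (abs_nonneg _) hk2).trans bc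
    have hb1 : h 1 ^ 2 ≤ 64 * n ^ 2 := by
      have := pow_le_pow_left₀ hp1.le b1 2
      linarith [this, show (8 * (n : ℝ)) ^ 2 = 64 * n ^ 2 by ring]
    calc |(z : ℝ)| * h 0 + |-(c : ℝ) / (k : ℝ) ^ 2| * h 1 + h 2
        ≤ ((h 1 * h 2) ^ 2 + h 2 * h 2) / 2 * h 0 + (h 1 * h 2) * h 1 + h 2 := by gcongr
      _ = (h 0 * h 2) * (h 2 * (h 1 ^ 2 + 1)) / 2 + h 2 * (h 1 ^ 2 + 1) := by ring
      _ ≤ (8 * n) * (h 2 * (h 1 ^ 2 + 1)) / 2 + h 2 * (h 1 ^ 2 + 1) := by gcongr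
      _ = h 2 * ((4 * n + 1) * (h 1 ^ 2 + 1)) := by ring
      _ ≤ (16 * n * 2 ^ m) * ((4 * n + 1) * (64 * n ^ 2 + 1)) := by gcongr
      _ ≤ (16 * N₀ * 2 ^ m) * ((4 * N₀ + 1) * (64 * N₀ ^ 2 + 1)) := by gcongr
      _ = _ := by ring

/-! ### The second case -/

/-- integral multiples -/
theorem exists_den (T : Matrix (Fin 3) (Fin 3) ℚ) : ∃ (N : ℕ) (T₁ : Matrix (Fin 3) (Fin 3) ℤ),
    0 < N ∧ T₁.map (Int.castRingHom ℚ) = (N : ℚ) • T := by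
  obtain ⟨N, hN⟩ : ∃ N : ℕ, N = ∏ i, ∏ j, (T i j).den := ⟨_, rfl⟩
  have hdvd : ∀ i j, (T i j).den ∣ N := by
    intro i j
    rw [hN]
    exact (Finset.dvd_prod_of_mem (fun j => (T i j).den) (Finset.mem_univ j)).trans
      (Finset.dvd_prod_of_mem (fun i => ∏ j, (T i j).den) (Finset.mem_univ i))
  have hint : ∀ i j, ∃ z : ℤ, (z : ℚ) = N * T i j := by
    intro i j
    obtain ⟨c, hc⟩ := hdvd i j
    refine ⟨c * (T i j).num, ?_⟩
    rw [hc]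
    push_cast
    have h0 : (T i j) * ((T i j).den : ℚ) = (T i j).num := Rat.mul_den_eq_num _
    rw [← h0]
    ring
  choose T₁ hT₁ using hint
  refine ⟨N, Matrix.of T₁, ?_, ?_⟩
  · rw [hN]
    exact Finset.prod_pos fun i _ => Finset.prod_pos fun j _ => (T i j).den_pos
  · ext i j
    rw [Matrix.map_apply, Matrix.smul_apply, smul_eq_mul, ← hT₁]
    rfl

/-- the quadratic form -/
theorem dot_symm {G : Matrix (Fin 3) (Fin 3) ℚ} (hs : Gᵀ = G) (v w : Fin 3 → ℚ) :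
    v ⬝ᵥ G *ᵥ w = w ⬝ᵥ G *ᵥ v := by
  rw [Matrix.dotProduct_mulVec, ← Matrix.mulVec_transpose, hs, dotProduct_comm]

/-- a ternary isotropic form of determinant `- n ^ 2` -/
theorem exists_T (G : Matrix (Fin 3) (Fin 3) ℚ) (hs : Gᵀ = G) (n : ℚ) (hn : n ≠ 0)
    (hd : G.det = -n ^ 2) (v : Fin 3 → ℚ) (hv : v ≠ 0) (hv0 : v ⬝ᵥ G *ᵥ v = 0) :
    ∃ T : Matrix (Fin 3) (Fin 3) ℚ, T * G * Tᵀ = JJ.map (Int.castRingHom ℚ) := by
  have hd0 : G.det ≠ 0 := by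
    rw [hd]
    exact neg_ne_zero.2 (pow_ne_zero 2 hn)
  -- a vector with product one
  obtain ⟨w₀, hw₀⟩ : ∃ w₀ : Fin 3 → ℚ, w₀ ⬝ᵥ G *ᵥ v = 1 := by
    have h1 : G *ᵥ v ≠ 0 := fun h => hv (Matrix.eq_zero_of_mulVec_eq_zero hd0 h)
    obtain ⟨i, hi⟩ := Function.ne_iff.1 h1
    refine ⟨Pi.single i ((G *ᵥ v) i)⁻¹, ?_⟩
    rw [single_dotProduct]
    exact inv_mul_cancel₀ hi
  obtain ⟨w, hw⟩ : ∃ w : Fin 3 → ℚ, w = w₀ - (w₀ ⬝ᵥ G *ᵥ w₀ / 2) • v := ⟨_, rfl⟩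
  have hvw : w ⬝ᵥ G *ᵥ v = 1 := by
    rw [hw, sub_dotProduct, smul_dotProduct, hv0, hw₀, smul_zero, sub_zero]
  have hww : w ⬝ᵥ G *ᵥ w = 0 := by
    have h1 : v ⬝ᵥ G *ᵥ w₀ = 1 := by rw [dot_symm hs, hw₀]
    rw [hw, Matrix.mulVec_sub, Matrix.mulVec_smul, sub_dotProduct, dotProduct_sub, dotProduct_sub,
      smul_dotProduct, smul_dotProduct, dotProduct_smul, dotProduct_smul, hv0, hw₀, h1]
    simp only [smul_eq_mul]
    ring
  obtain ⟨u, hu⟩ : ∃ u : Fin 3 → ℚ, u = crossProduct (G *ᵥ v) (G *ᵥ w) := ⟨_, rfl⟩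
  have huv : u ⬝ᵥ G *ᵥ v = 0 := by
    rw [hu, dotProduct_comm]
    exact dot_self_cross _ _
  have huw : u ⬝ᵥ G *ᵥ w = 0 := by
    rw [hu, dotProduct_comm]
    exact dot_cross_self _ _
  have huu : u ⬝ᵥ G *ᵥ u = n ^ 2 := by
    have key : u ⬝ᵥ G *ᵥ u = G.det * ((v ⬝ᵥ G *ᵥ v) * (w ⬝ᵥ G *ᵥ w) - (w ⬝ᵥ G *ᵥ v) ^ 2) := by
      have s10 : G 1 0 = G 0 1 := congrFun (congrFun hs 0) 1
      have s20 : G 2 0 = G 0 2 := congrFun (congrFun hs 0) 2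
      have s21 : G 2 1 = G 1 2 := congrFun (congrFun hs 1) 2
      rw [hu, Matrix.det_fin_three]
      simp only [dotProduct, mulVec, cross_apply, Fin.sum_univ_three, Matrix.cons_val_zero,
        Matrix.cons_val_one, Matrix.cons_val, s10, s20, s21]
      ring
    rw [key, hv0, hvw, hww, hd]
    ring
  have huv' : v ⬝ᵥ G *ᵥ u = 0 := by rw [dot_symm hs, huv]
  have huw' : w ⬝ᵥ G *ᵥ u = 0 := by rw [dot_symm hs, huw]
  have hvw' : v ⬝ᵥ G *ᵥ w = 1 := by rw [dot_symm hs, hvw]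
  refine ⟨Matrix.of ![v, n⁻¹ • u, w], ?_⟩
  have hent : ∀ i j, (Matrix.of ![v, n⁻¹ • u, w] * G * (Matrix.of ![v, n⁻¹ • u, w])ᵀ) i j =
      (![v, n⁻¹ • u, w] i) ⬝ᵥ G *ᵥ (![v, n⁻¹ • u, w] j) := by
    intro i j
    rw [Matrix.mul_assoc, Matrix.mul_apply]
    refine Finset.sum_congr rfl fun k _ => ?_
    rfl
  ext i j
  rw [hent]
  fin_cases i <;> fin_cases j
  · show v ⬝ᵥ G *ᵥ v = _
    rw [hv0]; simp [JJ]
  · show v ⬝ᵥ G *ᵥ (n⁻¹ • u) = _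
    rw [Matrix.mulVec_smul, dotProduct_smul, huv']; simp [JJ]
  · show v ⬝ᵥ G *ᵥ w = _
    rw [hvw']; simp [JJ]
  · show (n⁻¹ • u) ⬝ᵥ G *ᵥ v = _
    rw [smul_dotProduct, huv]; simp [JJ]
  · show (n⁻¹ • u) ⬝ᵥ G *ᵥ (n⁻¹ • u) = _
    rw [Matrix.mulVec_smul, dotProduct_smul, smul_dotProduct, huu, smul_smul, smul_eq_mul]
    simp [JJ]
    field_simp
  · show (n⁻¹ • u) ⬝ᵥ G *ᵥ w = _
    rw [smul_dotProduct, huw]; simp [JJ]
  · show w ⬝ᵥ G *ᵥ v = _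
    rw [hvw]; simp [JJ]
  · show w ⬝ᵥ G *ᵥ (n⁻¹ • u) = _
    rw [Matrix.mulVec_smul, dotProduct_smul, huw']; simp [JJ]
  · show w ⬝ᵥ G *ᵥ w = _
    rw [hww]; simp [JJ]

/-- one form -/
theorem case_two (B : ℝ) (hB : 0 ≤ B) (G : Matrix (Fin 3) (Fin 3) ℤ) :
    ∃ (κ : ℝ) (N : ℕ), 0 ≤ κ ∧ 0 < N ∧ ∀ (n : ℕ) (h : Fin 3 → ℝ), 0 < n → G.IsSymm →
      G.det = -(n : ℤ) ^ 2 → (∃ v : Fin 3 → ℤ, v ≠ 0 ∧ v ⬝ᵥ G *ᵥ v = 0) → (∀ i, 0 < h i) →
      (∀ i, h i ≤ B) → PN κ N G h := by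
  by_cases hex : ∃ T : Matrix (Fin 3) (Fin 3) ℚ,
      T * G.map (Int.castRingHom ℚ) * Tᵀ = JJ.map (Int.castRingHom ℚ)
  · obtain ⟨T, hT⟩ := hex
    have hTdet : T.det ≠ 0 := by
      intro h0
      have h1 := congrArg Matrix.det hT
      rw [Matrix.det_mul, Matrix.det_mul, h0, zero_mul, zero_mul] at h1
      have h2 : (JJ.map (Int.castRingHom ℚ)).det = -1 := by
        simp [Matrix.det_fin_three, JJ]
      rw [h2] at h1
      norm_num at h1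
    obtain ⟨N₁, T₁, hN₁, hT₁⟩ := exists_den T
    obtain ⟨N₂, T₂, hN₂, hT₂⟩ := exists_den T⁻¹
    refine ⟨∑ i, ∑ j, |(T i j : ℝ)| * B, N₁ * N₂, ?_, Nat.mul_pos hN₁ hN₂, ?_⟩
    · exact Finset.sum_nonneg fun i _ => Finset.sum_nonneg fun j _ =>
        mul_nonneg (abs_nonneg _) hB
    intro n h hn hs hd hiso hh hhB
    have hsum : ∀ i, ∑ j, |(T i j : ℝ)| * h j ≤ ∑ i, ∑ j, |(T i j : ℝ)| * B := by
      intro i
      calc ∑ j, |(T i j : ℝ)| * h j ≤ ∑ j, |(T i j : ℝ)| * B :=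
            Finset.sum_le_sum fun j _ => mul_le_mul_of_nonneg_left (hhB j) (abs_nonneg _)
        _ ≤ _ := Finset.single_le_sum (f := fun i => ∑ j, |(T i j : ℝ)| * B)
            (fun i _ => Finset.sum_nonneg fun j _ => mul_nonneg (abs_nonneg _) hB)
            (Finset.mem_univ i)
    refine ⟨0, T, (N₂ : ℤ) • T₁, (N₁ : ℤ) • T₂, hT, ?_, ?_, ?_, hsum 1, ?_⟩
    · have e : ((N₂ : ℤ) • T₁).map (Int.castRingHom ℚ) = (N₂ : ℚ) • T₁.map (Int.castRingHom ℚ) := by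
        ext i j
        simp only [Matrix.map_apply, Matrix.smul_apply, smul_eq_mul, map_mul, eq_intCast,
          Int.cast_natCast]
      rw [e, hT₁, smul_smul]
      push_cast
      rw [mul_comm]
    · have e : ((N₁ : ℤ) • T₂).map (Int.castRingHom ℚ) = (N₁ : ℚ) • T₂.map (Int.castRingHom ℚ) := by
        ext i j
        simp only [Matrix.map_apply, Matrix.smul_apply, smul_eq_mul, map_mul, eq_intCast,
          Int.cast_natCast]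
      rw [e, hT₂, smul_smul, Matrix.smul_mul, Matrix.nonsing_inv_mul _ (isUnit_iff_ne_zero.2 hTdet)]
      push_cast
      rfl
    · rw [pow_zero, div_one]
      exact hsum 0
    · rw [pow_zero, mul_one]
      exact hsum 2
  · refine ⟨0, 1, le_rfl, one_pos, ?_⟩
    intro n h hn hs hd hiso hh hhB
    exfalso
    apply hex
    obtain ⟨v, hv, hv0⟩ := hiso
    refine exists_T (G.map (Int.castRingHom ℚ)) ?_ (n : ℚ) (by exact_mod_cast hn.ne') ?_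
      (fun i => (v i : ℚ)) ?_ ?_
    · ext i j
      show (Int.castRingHom ℚ) (G j i) = (Int.castRingHom ℚ) (G i j)
      rw [hs.apply i j]
    · have h1 := (Int.castRingHom ℚ).map_det G
      rw [hd] at h1
      have h2 : (Int.castRingHom ℚ).mapMatrix G = G.map (Int.castRingHom ℚ) := rfl
      rw [h2] at h1
      rw [← h1]
      simp
    · intro h0
      apply hv
      funext i
      have h1 : (v i : ℚ) = 0 := congrFun h0 i
      show v i = 0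
      exact_mod_cast h1
    · have h1 : ((v ⬝ᵥ G *ᵥ v : ℤ) : ℚ) = 0 := by rw [hv0]; rfl
      rw [← h1]
      simp only [dotProduct, mulVec, Matrix.map_apply, eq_intCast]
      push_cast
      rfl

theorem t_NFW : S_NFW := by
  intro N₀
  obtain ⟨B, hB⟩ : ∃ B : ℤ, B = 64 * (N₀ : ℤ) ^ 2 := ⟨_, rfl⟩
  have hfin : Set.Finite {G : Matrix (Fin 3) (Fin 3) ℤ | ∀ i j, |G i j| ≤ B} := by
    have h1 : Set.Finite (Set.Icc (fun _ _ => -B : Fin 3 → Fin 3 → ℤ) (fun _ _ => B)) :=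
      Set.finite_Icc _ _
    refine h1.subset fun G hG => ?_
    exact ⟨fun i j => (abs_le.1 (hG i j)).1, fun i j => (abs_le.1 (hG i j)).2⟩
  choose κ N hκ hN hP using case_two (8 * (N₀ : ℝ)) (by positivity)
  obtain ⟨K, hK⟩ : ∃ K : ℝ, K = 16 * N₀ * ((4 * N₀ + 1) * (64 * N₀ ^ 2 + 1)) := ⟨_, rfl⟩
  have hK0 : 0 ≤ K := by rw [hK]; positivity
  refine ⟨K + 1 + ∑ G ∈ hfin.toFinset, κ G,
    2 * N₀.factorial ^ 4 * ∏ G ∈ hfin.toFinset, N G, ?_, ?_, ?_⟩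
  · have : 0 ≤ ∑ G ∈ hfin.toFinset, κ G := Finset.sum_nonneg fun G _ => hκ G
    linarith
  · exact Nat.mul_pos (by positivity) (Finset.prod_pos fun G _ => hN G)
  intro G n h hn hnN hs hd hiso hh hmon hprod hG
  have hs0 : 0 ≤ ∑ G ∈ hfin.toFinset, κ G := Finset.sum_nonneg fun G _ => hκ G
  have hn' : (1 : ℝ) ≤ n := by exact_mod_cast hn
  have hnN' : (n : ℝ) ≤ N₀ := by exact_mod_cast hnN
  by_cases hc : h 0 < 1 ∧ h 0 * h 1 < 1
  · have h1 := case_one G n h hn hnN hs hd hh hmon hprod hG hc.1 hc.2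
    rw [← hK] at h1
    exact PN_mono (by linarith) (Dvd.intro _ rfl) h1
  · have hp0 := hh 0
    have hp1 := hh 1
    have hp2 := hh 2
    have h12 : h 1 ≤ h 2 := hmon (by decide)
    have h01 : h 0 ≤ h 1 := hmon (by decide)
    have hone : 1 ≤ h 0 * h 1 := by
      by_cases h1 : h 0 < 1
      · by_contra h2
        push Not at h2
        exact hc ⟨h1, h2⟩
      · push Not at h1
        nlinarith
    have hb2 : h 2 ≤ 8 * N₀ := by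
      have : 1 * h 2 ≤ h 0 * h 1 * h 2 := mul_le_mul_of_nonneg_right hone hp2.le
      linarith
    have hball : ∀ i, h i ≤ 8 * (N₀ : ℝ) := by
      intro i
      fin_cases i
      · exact h01.trans (h12.trans hb2)
      · exact h12.trans hb2
      · exact hb2
    have hmem : G ∈ hfin.toFinset := by
      rw [Set.Finite.mem_toFinset]
      intro i j
      have h1 : |(G i j : ℝ)| ≤ 64 * (N₀ : ℝ) ^ 2 := by
        refine (hG i j).trans ?_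
        have h2 := mul_le_mul (hball i) (hball j) (hh j).le (by positivity)
        linarith [h2, show 8 * (N₀ : ℝ) * (8 * N₀) = 64 * N₀ ^ 2 by ring]
      rw [hB]
      exact_mod_cast h1
    have h3 := hP G n h hn hs hd hiso hh hball
    refine PN_mono ?_ ?_ h3
    · have := Finset.single_le_sum (f := κ) (fun G _ => hκ G) hmem
      linarith
    · exact (Finset.dvd_prod_of_mem N hmem).mul_left _

end Pool.Agent.H29A
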