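import Pool.Agent.H29A.TTW
import Pool.Agent.N667.PQ.Ns
import Pool.Agent.N667.PQ.P3

/-!
# Project ALL (helper29), piece NSW: the square class at the prime of degree one from the norm

Port of `N667/PQ/Ns.lean` and of `Helper29L/Size2.lean` with integrality at `Q` only.
-/

set_option autoImplicit false
set_option linter.all false

open IsDedekindDomain NumberField WithZero UniqueFactorizationMonoid
open scoped Classical

namespace Pool.Agent.H29A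

open Pool.Agent.N922.PQ
open Pool.Agent.N667.PQ (crd_iff crd_smul crd_add exists_den_Q ov_iff cn_three intNorm_crd norm_crd
  dn dn_lin parity nonres exists_theta algL_inj algO_inj)
open Pool.Agent.N874.PP (Ev Sq1 U0)
open Pool.Agent.N862.PP (not_ev_of_exp val_eq ev_iff_count ev_mul_sq cn cn_prod cn_sum cn_zero cn_pow
  cn_one exists_unif exists_two sq1_mul_sq)
open Pool.Agent.Helper29L (Gp PD)

section nsw

variable {L : Type} [Field L] [NumberField L] {a b Q : ℤ} {θ : L}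

theorem intO (c : ℤ) : algebraMap ℤ (𝓞 L) c = (c : 𝓞 L) := eq_intCast _ c

/-- the product of the two primes -/
theorem pd_mul {t : 𝓞 L} {𝔓 𝔮 : HeightOneSpectrum (𝓞 L)} (hd : PD Q t 𝔓 𝔮) :
    𝔓.asIdeal * 𝔮.asIdeal = Ideal.span {algebraMap ℤ (𝓞 L) Q} := by
  rw [intO]
  apply le_antisymm
  · intro x hx
    obtain ⟨h1, h2⟩ : x ∈ 𝔓.asIdeal ∧ x ∈ 𝔮.asIdeal := Ideal.mul_le_inf hx
    obtain ⟨w, hw⟩ := hd.both x h1 h2
    rw [Ideal.mem_span_singleton]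
    exact ⟨w, hw⟩
  · rw [Ideal.span_le, Set.singleton_subset_iff, SetLike.mem_coe]
    have hne : 𝔓.asIdeal ≠ 𝔮.asIdeal := fun h0 => hd.tq (h0 ▸ hd.tP)
    have hcop : IsCoprime 𝔓.asIdeal 𝔮.asIdeal := by
      rw [Ideal.isCoprime_iff_sup_eq]
      exact 𝔓.isMaximal.coprime_of_ne 𝔮.isMaximal hne
    rw [← Ideal.inf_eq_mul_of_isCoprime hcop]
    exact ⟨hd.ovP, hd.ovq⟩

theorem pd_ov {v : HeightOneSpectrum (𝓞 L)} (h : (Q : 𝓞 L) ∈ v.asIdeal) : Ov Q v := h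

/-- the degrees of the two primes -/
theorem cn_pd (h : IsCub a b θ) (hQ : Gp a b Q) {t : 𝓞 L} (ht : algebraMap (𝓞 L) L t = θ)
    {𝔓 𝔮 : HeightOneSpectrum (𝓞 L)} (hd : PD Q t 𝔓 𝔮) :
    cn ℤ (Ideal.span {Q}) 𝔓.asIdeal = 1 ∧ cn ℤ (Ideal.span {Q}) 𝔮.asIdeal = 2 := by
  have hQp := hQ.pr.2
  have hpp : (Ideal.span {Q} : Ideal ℤ).IsPrime :=
    (Ideal.span_singleton_prime hQp.ne_zero).mpr hQp
  have hpb : (Ideal.span {Q} : Ideal ℤ) ≠ ⊥ := by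
    rw [Ne, Ideal.span_singleton_eq_bot]
    exact hQp.ne_zero
  have hov : Ov Q 𝔓 := hd.ovP
  -- a root modulo `Q` which is not a root modulo `Q ^ 2`
  obtain ⟨c, hcQ, hc⟩ : ∃ c : ℤ, Q ∣ c ∧ ¬ Q ^ 2 ∣ c ^ 3 + a * c + b := by
    by_contra hno
    push Not at hno
    have h1 := hno 0 (dvd_zero Q)
    have h2 := hno Q dvd_rfl
    have h3 : Q ^ 2 ∣ Q * a := by
      have e : Q * a = (Q ^ 3 + a * Q + b) - (0 ^ 3 + a * 0 + b) - Q ^ 2 * Q := by ring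
      rw [e]
      exact dvd_sub (dvd_sub h2 h1) (dvd_mul_right _ _)
    rw [pow_two] at h3
    have h4 : Q ∣ a := Int.dvd_of_mul_dvd_mul_left hQp.ne_zero h3
    exact hQ.ns 0 (by simpa using h4)
  obtain ⟨d, hdc⟩ := hcQ
  have h1 : cn ℤ (Ideal.span {Q}) 𝔓.asIdeal = 1 := by
    refine cn_one hpp hpb 𝔓.isPrime ?_ (z := t - algebraMap ℤ (𝓞 L) c) ?_ ?_
    · ext x
      rw [Ideal.mem_comap, ov_iff hQp hov, Ideal.mem_span_singleton]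
    · rw [hdc, map_mul]
      exact 𝔓.asIdeal.sub_mem hd.tP (𝔓.asIdeal.mul_mem_right _ (by rw [intO]; exact hd.ovP))
    · have hcr : Crd θ ![-c, 1, 0] (algebraMap (𝓞 L) L (t - algebraMap ℤ (𝓞 L) c)) := by
        simp only [crd_iff]
        simp only [Matrix.cons_val_zero, Matrix.cons_val_one, Matrix.cons_val, map_sub, ht,
          map_neg, map_one, map_zero, ← IsScalarTower.algebraMap_apply ℤ (𝓞 L) L]
        ring
      rw [intNorm_crd h hcr, dn_lin, Ideal.neg_mem_iff, Ideal.span_singleton_pow,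
        Ideal.mem_span_singleton]
      exact hc
  refine ⟨h1, ?_⟩
  have h2 := cn_prod (R := ℤ) (Ideal.span {Q})
    ({𝔓.asIdeal, 𝔮.asIdeal} : Multiset (Ideal (𝓞 L))) (by
    intro I hI'
    simp only [Multiset.insert_eq_cons, Multiset.mem_cons, Multiset.mem_singleton] at hI'
    rcases hI' with rfl | rfl
    · exact 𝔓.ne_bot
    · exact 𝔮.ne_bot)
  have h3 : cn ℤ (Ideal.span {Q}) (Ideal.span {algebraMap ℤ (𝓞 L) Q} : Ideal (𝓞 L)) = 3 :=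
    cn_three (L := L) h hQp
  have h4 : ({𝔓.asIdeal, 𝔮.asIdeal} : Multiset (Ideal (𝓞 L))).prod = 𝔓.asIdeal * 𝔮.asIdeal := by
    simp
  rw [h4, pd_mul hd, h3] at h2
  simp only [Multiset.insert_eq_cons, Multiset.map_cons, Multiset.map_singleton,
    Multiset.sum_cons, Multiset.sum_singleton, h1] at h2
  omega

/-- **The parity at the prime of degree one.** -/
theorem ev_pd (h : IsCub a b θ) (hQ : Gp a b Q) {t : 𝓞 L} (ht : algebraMap (𝓞 L) L t = θ)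
    {𝔓 𝔮 : HeightOneSpectrum (𝓞 L)} (hd : PD Q t 𝔓 𝔮) {x : L} (hx : x ≠ 0)
    (hN : IsSquare (Algebra.norm ℚ x)) : Ev 𝔓 x := by
  obtain ⟨c1, c2⟩ := cn_pd h hQ ht hd
  refine parity h hQ.pr.2 𝔓 hd.ovP ?_ hx hN fun 𝔮' ho hne => ?_
  · rw [c1]
    decide
  · right
    rcases hd.only 𝔮' ho with h0 | h0
    · exact absurd h0 hne
    · rw [h0, c2]
      decide

/-- `θ ^ 2 + a` is in the prime of degree two -/
theorem tq_mem (h : IsCub a b θ) (hQ : Gp a b Q) {t : 𝓞 L} (ht : algebraMap (𝓞 L) L t = θ)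
    {𝔓 𝔮 : HeightOneSpectrum (𝓞 L)} (hd : PD Q t 𝔓 𝔮) :
    t ^ 2 + (a : 𝓞 L) ∈ 𝔮.asIdeal := by
  have hroot : t * (t ^ 2 + (a : 𝓞 L)) = -(b : 𝓞 L) := by
    apply IsFractionRing.injective (𝓞 L) L
    simp only [map_add, map_mul, map_pow, map_neg, Pool.Agent.N301.PQ.mapO, ht]
    linear_combination h.root
  have h3 : t * (t ^ 2 + (a : 𝓞 L)) ∈ 𝔮.asIdeal := by
    rw [hroot]
    exact 𝔮.asIdeal.neg_mem ((Pool.Agent.N301.PQ.poly_mem hQ.pr.2 hd.ovq b).2 hQ.db)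
  exact (𝔮.isPrime.mem_or_mem h3).resolve_left hd.tq

theorem pq_mem (h : IsCub a b θ) (hQ : Gp a b Q) {t : 𝓞 L} (ht : algebraMap (𝓞 L) L t = θ)
    {𝔓 𝔮 : HeightOneSpectrum (𝓞 L)} (hd : PD Q t 𝔓 𝔮) {c d : ℤ}
    (hm : (c : 𝓞 L) + (d : 𝓞 L) * t ∈ 𝔮.asIdeal) : Q ∣ c ∧ Q ∣ d := by
  apply nonres hQ.pr.2 hQ.ns
  rw [← Pool.Agent.N301.PQ.poly_mem hQ.pr.2 hd.ovq]
  have e : ((c ^ 2 + a * d ^ 2 : ℤ) : 𝓞 L) = ((c : 𝓞 L) - (d : 𝓞 L) * t) *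
      ((c : 𝓞 L) + (d : 𝓞 L) * t) + (d : 𝓞 L) ^ 2 * (t ^ 2 + (a : 𝓞 L)) := by
    push_cast
    ring
  rw [e]
  exact 𝔮.asIdeal.add_mem (𝔮.asIdeal.mul_mem_left _ hm)
    (𝔮.asIdeal.mul_mem_left _ (tq_mem h hQ ht hd))

theorem q_rep (hI : S_INL) (h : IsCub a b θ) (hQ : Gp a b Q) {t : 𝓞 L}
    (ht : algebraMap (𝓞 L) L t = θ) {𝔓 𝔮 : HeightOneSpectrum (𝓞 L)} (hd : PD Q t 𝔓 𝔮)
    (z : 𝓞 L) : ∃ c d : ℤ, z - ((c : 𝓞 L) + (d : 𝓞 L) * t) ∈ 𝔮.asIdeal := by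
  obtain ⟨s, v, hs, hv⟩ := crd_loc hI h hQ z
  obtain ⟨u', u, hu⟩ := (hQ.pr.2.irreducible.coprime_iff_not_dvd).mpr hs
  refine ⟨u * (v 0 - a * v 2), u * v 1, ?_⟩
  have hz : (s : 𝓞 L) * z = (v 0 : 𝓞 L) + (v 1 : 𝓞 L) * t + (v 2 : 𝓞 L) * t ^ 2 := by
    apply IsFractionRing.injective (𝓞 L) L
    rw [map_mul, Pool.Agent.N301.PQ.mapO, hv]
    simp only [map_add, map_mul, map_pow, Pool.Agent.N301.PQ.mapO, ht]
  have hu2 : (u' : 𝓞 L) * (Q : 𝓞 L) + (u : 𝓞 L) * (s : 𝓞 L) = 1 := by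
    exact_mod_cast congrArg (Int.cast (R := 𝓞 L)) hu
  have e : z - (((u * (v 0 - a * v 2) : ℤ) : 𝓞 L) + ((u * v 1 : ℤ) : 𝓞 L) * t) =
      ((u' : 𝓞 L) * z) * (Q : 𝓞 L) + ((u : 𝓞 L) * (v 2 : 𝓞 L)) * (t ^ 2 + (a : 𝓞 L)) := by
    push_cast
    linear_combination (-z) * hu2 + (u : 𝓞 L) * hz
  rw [e]
  exact 𝔮.asIdeal.add_mem (𝔮.asIdeal.mul_mem_left _ hd.ovq)
    (𝔮.asIdeal.mul_mem_left _ (tq_mem h hQ ht hd))

/-- The integral case, with integral coordinates. -/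
theorem nsw_int (hI : S_INL) (h : IsCub a b θ) (hQ : Gp a b Q) {t : 𝓞 L}
    (ht : algebraMap (𝓞 L) L t = θ) {𝔓 𝔮 : HeightOneSpectrum (𝓞 L)} (hd : PD Q t 𝔓 𝔮)
    {y : 𝓞 L} {v : Fin 3 → ℤ} (hv : Crd θ v (algebraMap (𝓞 L) L y))
    (hy1 : y ∉ 𝔓.asIdeal) (hy2 : y ∉ 𝔮.asIdeal)
    (hn : IsSquare (Algebra.norm ℚ (algebraMap (𝓞 L) L y)))
    (hs : Sq1 𝔮 (algebraMap (𝓞 L) L y)) : Sq1 𝔓 (algebraMap (𝓞 L) L y) := by
  have hQp := hQ.pr.2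
  have hns := hQ.ns
  have hv1 : 𝔓.valuation L (algebraMap (𝓞 L) L y) = 1 :=
    (HeightOneSpectrum.valuation_eq_one_iff_notMem 𝔓).2 hy1
  have hv2 : 𝔮.valuation L (algebraMap (𝓞 L) L y) = 1 :=
    (HeightOneSpectrum.valuation_eq_one_iff_notMem 𝔮).2 hy2
  -- the norm
  obtain ⟨r, hr⟩ := hn
  rw [norm_crd h hv] at hr
  have hint : IsIntegral ℤ r := by
    refine IsIntegral.of_pow (n := 2) (by norm_num) ?_
    rw [sq, ← hr]
    exact isIntegral_algebraMap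
  obtain ⟨m, rfl⟩ := IsIntegrallyClosed.isIntegral_iff.mp hint
  rw [← map_mul] at hr
  have hm := IsFractionRing.injective ℤ ℚ hr
  -- the square root at `𝔮`
  obtain ⟨s, hs⟩ := hs
  rw [hv2] at hs
  have hs1 : 𝔮.valuation L s ≤ 1 := by
    by_contra hgt
    push Not at hgt
    have h3 : 𝔮.valuation L (algebraMap (𝓞 L) L y) < 𝔮.valuation L (s ^ 2) := by
      rw [hv2, map_pow]
      exact one_lt_pow' hgt (by norm_num)
    have h4 : 𝔮.valuation L (algebraMap (𝓞 L) L y - s ^ 2) = 𝔮.valuation L (s ^ 2) := by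
      rw [Valuation.map_sub_swap]
      exact Valuation.map_sub_eq_of_lt_left _ h3
    rw [h4] at hs
    exact absurd (hv2 ▸ h3) (not_lt.mpr hs.le)
  obtain ⟨z, hz⟩ := 𝔮.exists_valuation_sub_lt_of_integer hs1 1
  rw [Units.val_one] at hz
  have hyz : y - z ^ 2 ∈ 𝔮.asIdeal := by
    rw [← 𝔮.valuation_lt_one_iff_mem (K := L)]
    change 𝔮.valuation L (algebraMap (𝓞 L) L (y - z ^ 2)) < 1
    have e : algebraMap (𝓞 L) L (y - z ^ 2) = (algebraMap (𝓞 L) L y - s ^ 2) -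
        (algebraMap (𝓞 L) L z - s) * (algebraMap (𝓞 L) L z + s) := by
      rw [map_sub, map_pow]
      ring
    rw [e]
    refine Valuation.map_sub_lt _ hs ?_
    rw [map_mul]
    have h5 : 𝔮.valuation L (algebraMap (𝓞 L) L z + s) ≤ 1 :=
      Valuation.map_add_le _ (𝔮.valuation_le_one _) hs1
    calc 𝔮.valuation L (algebraMap (𝓞 L) L z - s) * 𝔮.valuation L (algebraMap (𝓞 L) L z + s)
        ≤ 𝔮.valuation L (algebraMap (𝓞 L) L z - s) * 1 := mul_le_mul_right h5 _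
      _ = 𝔮.valuation L (algebraMap (𝓞 L) L z - s) := mul_one _
      _ < 1 := hz
  obtain ⟨z0, z1, hz01⟩ := q_rep hI h hQ ht hd z
  set w : 𝓞 L := (z0 : 𝓞 L) + (z1 : 𝓞 L) * t with hw
  have hyw : y - w ^ 2 ∈ 𝔮.asIdeal := by
    have e : y - w ^ 2 = (y - z ^ 2) + (z + w) * (z - w) := by ring
    rw [e]
    exact Ideal.add_mem _ hyz (Ideal.mul_mem_left _ _ hz01)
  have hyv : y = (v 0 : 𝓞 L) + (v 1 : 𝓞 L) * t + (v 2 : 𝓞 L) * t ^ 2 := by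
    apply IsFractionRing.injective (𝓞 L) L
    rw [hv]
    simp only [map_add, map_mul, map_pow, Pool.Agent.N301.PQ.mapO, ht]
  have hcd : ((v 0 - a * v 2 - (z0 ^ 2 - a * z1 ^ 2) : ℤ) : 𝓞 L) +
      ((v 1 - 2 * z0 * z1 : ℤ) : 𝓞 L) * t ∈ 𝔮.asIdeal := by
    have e : ((v 0 - a * v 2 - (z0 ^ 2 - a * z1 ^ 2) : ℤ) : 𝓞 L) +
        ((v 1 - 2 * z0 * z1 : ℤ) : 𝓞 L) * t = (y - w ^ 2) -
        ((v 2 - z1 ^ 2 : ℤ) : 𝓞 L) * (t ^ 2 + (a : 𝓞 L)) := by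
      rw [hw, hyv]
      push_cast
      ring
    rw [e]
    exact Ideal.sub_mem _ hyw (Ideal.mul_mem_left _ _ (tq_mem h hQ ht hd))
  obtain ⟨⟨c1, e1⟩, d1, e2⟩ := pq_mem h hQ ht hd hcd
  -- `n = z0 ^ 2 + a z1 ^ 2` is prime to `Q`
  have hnn : ¬ Q ∣ z0 ^ 2 + a * z1 ^ 2 := by
    intro hdv
    obtain ⟨⟨c', hc'⟩, d', hd'⟩ := nonres hQp hns hdv
    apply hy2
    have e : y = (y - w ^ 2) + w * ((c' : 𝓞 L) + (d' : 𝓞 L) * t) * (Q : 𝓞 L) := by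
      have : w = ((c' : 𝓞 L) + (d' : 𝓞 L) * t) * (Q : 𝓞 L) := by
        rw [hw, hc', hd']
        push_cast
        ring
      linear_combination w * this
    rw [e]
    exact Ideal.add_mem _ hyw (Ideal.mul_mem_left _ _ hd.ovq)
  obtain ⟨u', u, hu⟩ := (hQp.irreducible.coprime_iff_not_dvd).mpr hnn
  obtain ⟨b', hb'⟩ := hQ.db
  have e3 : v 0 - a * v 2 = z0 ^ 2 - a * z1 ^ 2 + Q * c1 := by linear_combination e1
  have e4 : v 1 = 2 * z0 * z1 + Q * d1 := by linear_combination e2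
  have e5 : Q ∣ v 0 * (z0 ^ 2 + a * z1 ^ 2) ^ 2 - m * m := by
    rw [← hm, hb']
    have e6 : dn a (Q * b') v = v 0 * ((v 0 - a * v 2) ^ 2 + a * v 1 ^ 2) +
        Q * (v 0 * b' * v 2 * v 1 +
          b' * v 2 * (v 1 * (v 0 - a * v 2) - (-(Q * b') * v 2 - a * v 1) * v 2)
          - b' * v 1 * (v 1 * v 1 - (v 0 - a * v 2) * v 2)) := by
      simp only [dn]
      ring
    rw [e6, e3, e4]
    refine ⟨-(v 0 * (c1 * (2 * (z0 ^ 2 - a * z1 ^ 2) + Q * c1) +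
      a * d1 * (4 * z0 * z1 + Q * d1))) - (v 0 * b' * v 2 * (2 * z0 * z1 + Q * d1) +
          b' * v 2 * ((2 * z0 * z1 + Q * d1) * (z0 ^ 2 - a * z1 ^ 2 + Q * c1) -
            (-(Q * b') * v 2 - a * (2 * z0 * z1 + Q * d1)) * v 2)
          - b' * (2 * z0 * z1 + Q * d1) * ((2 * z0 * z1 + Q * d1) * (2 * z0 * z1 + Q * d1) -
            (z0 ^ 2 - a * z1 ^ 2 + Q * c1) * v 2)), ?_⟩
    ring
  obtain ⟨f, hf⟩ := e5
  have e7 : v 0 - (u * m) ^ 2 = Q * (v 0 * u' * (1 + u * (z0 ^ 2 + a * z1 ^ 2)) + u ^ 2 * f) := by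
    linear_combination (-(v 0 * (1 + u * (z0 ^ 2 + a * z1 ^ 2)))) * hu + u ^ 2 * hf
  refine ⟨((u * m : ℤ) : L), ?_⟩
  rw [hv1, ← Pool.Agent.N301.PQ.mapO (O := 𝓞 L), ← map_pow, ← map_sub]
  refine (𝔓.valuation_lt_one_iff_mem (K := L) _).mpr ?_
  have e8 : y - ((u * m : ℤ) : 𝓞 L) ^ 2 =
      ((v 1 : 𝓞 L) + (v 2 : 𝓞 L) * t) * t +
      ((v 0 * u' * (1 + u * (z0 ^ 2 + a * z1 ^ 2)) + u ^ 2 * f : ℤ) : 𝓞 L) * (Q : 𝓞 L) := by
    have e9 := congrArg (Int.cast (R := 𝓞 L)) e7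
    push_cast at e9 ⊢
    rw [hyv]
    linear_combination e9
  rw [e8]
  exact Ideal.add_mem _ (Ideal.mul_mem_left _ _ hd.tP) (Ideal.mul_mem_left _ _ hd.ovP)

/-- **The square class at the prime of degree one.** -/
theorem sq_pd (hI : S_INL) (h : IsCub a b θ) (hQ : Gp a b Q) {t : 𝓞 L}
    (ht : algebraMap (𝓞 L) L t = θ) {𝔓 𝔮 : HeightOneSpectrum (𝓞 L)} (hd : PD Q t 𝔓 𝔮) {x : L}
    (hx : x ≠ 0) (hnx : IsSquare (Algebra.norm ℚ x)) (hsq2 : Sq1 𝔮 x) : Sq1 𝔓 x := by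
  have hQp := hQ.pr.2
  have hne : 𝔓 ≠ 𝔮 := fun h0 => hd.tq (h0 ▸ hd.tP)
  obtain ⟨y1, hy1⟩ := ev_pd h hQ ht hd hx hnx
  -- `Sq1` implies `Ev`
  obtain ⟨s, hs⟩ := hsq2
  have hvs : 𝔮.valuation L x = 𝔮.valuation L s ^ 2 := by
    have h3 : 𝔮.valuation L (x - (x - s ^ 2)) = 𝔮.valuation L x :=
      Valuation.map_sub_eq_of_lt_left _ hs
    rw [sub_sub_cancel, map_pow] at h3
    exact h3.symm
  have hvx1 : 𝔓.valuation L x ≠ 0 := (Valuation.ne_zero_iff _).mpr hx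
  have hvx2 : 𝔮.valuation L x ≠ 0 := (Valuation.ne_zero_iff _).mpr hx
  have hy10 : 𝔓.valuation L y1 ≠ 0 := by
    intro h0
    rw [h0] at hy1
    exact hvx1 (by rw [hy1]; simp)
  have hs0 : 𝔮.valuation L s ≠ 0 := by
    intro h0
    rw [h0] at hvs
    exact hvx2 (by rw [hvs]; simp)
  obtain ⟨β, hβ0, hβ1, hβ2⟩ := exists_two (L := L) hne (log (𝔓.valuation L y1))
    (log (𝔮.valuation L s))
  rw [exp_log hy10] at hβ1
  rw [exp_log hs0] at hβ2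
  -- `x / β ^ 2` is a unit at both primes
  have hu1 : 𝔓.valuation L (x / β ^ 2) = 1 := by
    rw [map_div₀, map_pow, hβ1, ← hy1, div_self hvx1]
  have hu2 : 𝔮.valuation L (x / β ^ 2) = 1 := by
    rw [map_div₀, map_pow, hβ2, ← hvs, div_self hvx2]
  obtain ⟨c, z, hc, hz⟩ := exists_den_Q (O := 𝓞 L) h hQp (x / β ^ 2) (by
    intro 𝔓' hov'
    rcases hd.only 𝔓' hov' with h' | h'
    · rw [h', hu1]
    · rw [h', hu2])
  -- integral coordinates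
  obtain ⟨k, v, hk, hv⟩ := crd_loc hI h hQ z
  have hcL : (c : L) ≠ 0 := by
    have : c ≠ 0 := fun h0 => hc (h0 ▸ dvd_zero Q)
    exact_mod_cast this
  have hkL : (k : L) ≠ 0 := by
    have : k ≠ 0 := fun h0 => hk (h0 ▸ dvd_zero Q)
    exact_mod_cast this
  have hval : ∀ (e : ℤ), ¬ Q ∣ e → ∀ v : HeightOneSpectrum (𝓞 L), Ov Q v →
      v.valuation L ((e : ℤ) : L) = 1 := by
    intro e he v hov'
    rw [← Pool.Agent.N301.PQ.mapO (O := 𝓞 L)]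
    refine (HeightOneSpectrum.valuation_eq_one_iff_notMem v).2 ?_
    rw [Pool.Agent.N301.PQ.poly_mem hQp hov']
    exact he
  have hz' : (c : L) * (x / β ^ 2) = algebraMap (𝓞 L) L z := hz
  -- `y = (k c) ^ 2 x / β ^ 2`
  have hy : algebraMap (𝓞 L) L ((k : 𝓞 L) * (c : 𝓞 L) * ((k : 𝓞 L) * z)) =
      x * ((k : L) * (c : L) / β) ^ 2 := by
    simp only [map_mul, Pool.Agent.N301.PQ.mapO]
    rw [← hz']
    field_simp
  have hcrd : Crd θ (fun i => (k * c) * v i)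
      (algebraMap (𝓞 L) L ((k : 𝓞 L) * (c : 𝓞 L) * ((k : 𝓞 L) * z))) := by
    have h1 := crd_smul (k * c) hv
    have e : algebraMap (𝓞 L) L ((k : 𝓞 L) * (c : 𝓞 L) * ((k : 𝓞 L) * z)) =
        algebraMap ℤ L (k * c) * ((k : L) * algebraMap (𝓞 L) L z) := by
      simp only [map_mul, Pool.Agent.N301.PQ.mapO, eq_intCast]
    rw [e]
    exact h1
  have hcβ : (k : L) * (c : L) / β ≠ 0 := div_ne_zero (mul_ne_zero hkL hcL) hβ0
  rw [← sq1_mul_sq hcβ, ← hy]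
  refine nsw_int hI h hQ ht hd hcrd ?_ ?_ ?_ ?_
  · rw [← HeightOneSpectrum.valuation_eq_one_iff_notMem (K := L) 𝔓, hy, map_mul, map_pow, map_div₀,
      map_mul, hval k hk 𝔓 hd.ovP, hval c hc 𝔓 hd.ovP, hβ1, hy1, one_mul, div_pow, one_pow,
      mul_one_div, div_self (pow_ne_zero 2 hy10)]
  · rw [← HeightOneSpectrum.valuation_eq_one_iff_notMem (K := L) 𝔮, hy, map_mul, map_pow, map_div₀,
      map_mul, hval k hk 𝔮 hd.ovq, hval c hc 𝔮 hd.ovq, hβ2, hvs, one_mul, div_pow, one_pow,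
      mul_one_div, div_self (pow_ne_zero 2 hs0)]
  · rw [hy, map_mul, map_pow]
    exact hnx.mul (IsSquare.sq _)
  · rw [hy, sq1_mul_sq hcβ]
    exact ⟨s, hs⟩

end nsw

theorem t_NSW (hI : S_INL) (hE : S_EXW) : S_NSW := by
  intro L _ _ a b θ h Q hQ x hx hnx
  obtain ⟨t, ht⟩ := Pool.Agent.N301.PQ.theta_ex (𝓞 L) h
  obtain ⟨𝔓, 𝔮, hd, hvP, hvq⟩ := hE L a b θ t h ht Q hQ
  have hevP := ev_pd h hQ ht hd hx hnx
  refine ⟨fun 𝔓' hov hv => ?_, fun hs 𝔓' hov => ?_⟩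
  · rcases hd.only 𝔓' hov with h0 | h0
    · rw [h0]
      exact hevP
    · rw [h0, hvq] at hv
      exact absurd hv (lt_irrefl _)
  · have h1 : Sq1 𝔮 x := hs 𝔮 hd.ovq hvq
    rcases hd.only 𝔓' hov with h0 | h0
    · rw [h0]
      exact sq_pd hI h hQ ht hd hx hnx h1
    · rw [h0]
      exact h1

end Pool.Agent.H29A
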