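import Pool.Agent.H29A.RECW
import Pool.Agent.Helper29L.Size3

/-!
# Project ALL (helper29), piece SIZEW (helper52): the group of the relaxed classes

Port of `Pool/Agent/Helper29L/Size3.lean`.
-/

set_option autoImplicit false
set_option linter.all false

open IsDedekindDomain NumberField
open scoped Classical Matrix

namespace Pool.Agent.H29A

open Pool.Agent.TH115.GD
open Pool.Agent.R425.G
open Pool.Agent.N922.PQ
open Pool.Agent.Y702.G (sh)
open Pool.Agent.Y710.CV (Cond)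
open Pool.Agent.Helper29L (Gp PBad InB PD NBas NN cubD UnbSet FewSet)
open Pool.Agent.Helper29L.SZ (VV WW disc_WW cf_sh cf_VV iv_VV)
open Pool.Agent.H30GR (exists_zs)
open Pool.Agent.N874.PP (Ev Sq1 U0)

/-- `θ` is an integer of the field -/
theorem exists_t {L : Type} [Field L] [NumberField L] {a b : ℤ} {θ : L} (hc : IsCub a b θ) :
    ∃ t : 𝓞 L, algebraMap (𝓞 L) L t = θ := by
  have hint : IsIntegral ℤ θ := by
    refine ⟨Polynomial.X ^ 3 + Polynomial.C a * Polynomial.X + Polynomial.C b, ?_, ?_⟩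
    · have : (Polynomial.X ^ 3 + Polynomial.C a * Polynomial.X + Polynomial.C b : Polynomial ℤ) =
          Polynomial.X ^ 3 + (Polynomial.C a * Polynomial.X + Polynomial.C b) := by ring
      rw [this]
      apply Polynomial.monic_X_pow_add
      refine lt_of_le_of_lt (Polynomial.degree_linear_le) ?_
      norm_num
    · have h1 := hc.root
      rw [Polynomial.eval₂_add, Polynomial.eval₂_add, Polynomial.eval₂_mul, Polynomial.eval₂_pow,
        Polynomial.eval₂_X, Polynomial.eval₂_C, Polynomial.eval₂_C]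
      exact h1
  exact ⟨⟨θ, hint⟩, rfl⟩

theorem t_SIZEW (hN : S_NSW) (hE : S_EXW) : S_SIZEW := by
  intro W hW L _ _ a b θ S hc hG hS'
  have hd0 : dsc a b ≠ 0 := hG.pos.ne'
  have hV := iv_VV hd0
  have hcf := cf_VV hc
  obtain ⟨t, ht⟩ := exists_t hc
  have hS : ∀ Q ∈ S, IsPr Q ∧ Q % 8 = 1 ∧ Q ∣ b ∧ ∀ z : ℤ, ¬ Q ∣ z ^ 2 + a := fun Q hQ =>
    ⟨(hS' Q hQ).pr, (hS' Q hQ).m8, (hS' Q hQ).db, (hS' Q hQ).ns⟩
  have hnat : ∀ Q ∈ S, ((Q.toNat : ℕ) : ℤ) = Q := fun Q hQ => Int.toNat_of_nonneg (hS Q hQ).1.1.le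
  have hpr : ∀ Q ∈ S, Q.toNat.Prime := by
    intro Q hQ
    rw [Nat.prime_iff_prime_int, hnat Q hQ]
    exact (hS Q hQ).1.2
  obtain ⟨R, hRdef⟩ : ∃ R : Finset ℕ, R = S.image Int.toNat := ⟨_, rfl⟩
  have hRmem : ∀ l ∈ R, ∃ Q ∈ S, ((l : ℕ) : ℤ) = Q := by
    intro l hl
    rw [hRdef, Finset.mem_image] at hl
    obtain ⟨Q, hQ, rfl⟩ := hl
    exact ⟨Q, hQ, hnat Q hQ⟩
  have hRp : ∀ l ∈ R, l.Prime := by
    intro l hl
    rw [hRdef, Finset.mem_image] at hl
    obtain ⟨Q, hQ, rfl⟩ := hl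
    exact hpr Q hQ
  have hRcard : R.card = S.card := by
    rw [hRdef]
    refine Finset.card_image_of_injOn ?_
    intro Q hQ Q' hQ' h
    rw [← hnat Q hQ, ← hnat Q' hQ']
    exact congrArg _ h
  have h2 : ∀ Q ∈ S, ¬ Q ∣ 2 := by
    intro Q hQ hdvd
    obtain ⟨⟨h0, hp⟩, h8, -, -⟩ := hS Q hQ
    have := Int.le_of_dvd (by norm_num) hdvd
    have h1 : Q ≠ 1 := fun h => hp.not_unit (by rw [h]; exact isUnit_one)
    omega
  have hdd : ∀ Q ∈ S, ¬ Q ∣ dsc a b := by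
    intro Q hQ hdvd
    obtain ⟨⟨h0, hp⟩, h8, hQb, hns⟩ := hS Q hQ
    have h1 : Q ∣ 4 * a ^ 3 := by
      have h3 : Q ∣ 27 * b ^ 2 := (dvd_pow hQb two_ne_zero).mul_left _
      have := dvd_sub hdvd h3
      rwa [Pool.Agent.N922.PQ.dsc, add_sub_cancel_right] at this
    rcases hp.dvd_or_dvd h1 with h3 | h3
    · have h4 : Q ∣ 2 ^ 2 := h3
      exact h2 Q hQ (hp.dvd_of_dvd_pow h4)
    · apply hns 0
      have := hp.dvd_of_dvd_pow h3
      simpa using this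
  have hWΔ : (WW a b).Δ ≠ 0 := by
    rw [disc_WW]
    exact mul_ne_zero (by norm_num) hd0
  have htq : ∀ l ∈ R, 2 ≤ (Tq L l).ncard := by
    intro l hl
    obtain ⟨Q, hQ, hlQ⟩ := hRmem l hl
    obtain ⟨⟨h0, hp⟩, h8, hQb, hns⟩ := hS Q hQ
    refine tq_two (cf_sh hc) hWΔ (hRp l hl) ?_ (n := 0) ?_
    · rw [hlQ, disc_WW]
      intro hdvd
      have e : (2 * (-16 * dsc a b) : ℤ) = 2 ^ 5 * (-dsc a b) := by ring
      rw [e] at hdvd
      rcases hp.dvd_or_dvd hdvd with h3 | h3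
      · exact h2 Q hQ (hp.dvd_of_dvd_pow h3)
      · rw [dvd_neg] at h3
        exact hdd Q hQ h3
    · rw [hlQ]
      have e : (0 : ℤ) ^ 3 + (WW a b).b₂ * 0 ^ 2 + 8 * (WW a b).b₄ * 0 + 16 * (WW a b).b₆ =
          64 * b := by
        simp only [WW, WeierstrassCurve.b₂, WeierstrassCurve.b₄, WeierstrassCurve.b₆]
        ring
      rw [e]
      exact hQb.mul_left _
  have hprod : ((∏ l ∈ R, l : ℕ) : ℤ) ≠ 0 := by
    exact_mod_cast Finset.prod_ne_zero_iff.2 fun l hl => (hRp l hl).ne_zero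
  have hW0 : (W : ℤ) ≠ 0 := by exact_mod_cast hW.ne
  have hD : (W : ℤ) * ((∏ l ∈ R, l : ℕ) : ℤ) ≠ 0 := mul_ne_zero hW0 hprod
  obtain ⟨n, z, hn, hz, hzd⟩ := exists_zs hcf hV (D0 := (W : ℤ)) hW0 R
    (fun l hl => ⟨hRp l hl, by
      obtain ⟨Q, hQ, hlQ⟩ := hRmem l hl
      intro hd
      have h3 : GpW W a b (l : ℤ) := by rw [hlQ]; exact hS' Q hQ
      exact GpW.not_dvd hW h3 (Int.natCast_dvd_natCast.1 hd)⟩)
    (fun l hl => one_le_two.trans (htq l hl)) hD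
  have hcard : 2 ^ S.card ≤ n := by
    refine le_trans ?_ hn
    apply Nat.pow_le_pow_right (by norm_num)
    rw [← hRcard, Finset.card_eq_sum_ones]
    refine Finset.sum_le_sum fun l hl => ?_
    have := htq l hl
    omega
  refine ⟨fun i => (z (Fin.castLE hcard i) : L), fun i => ?_, fun i j hij hs => ?_⟩
  · obtain ⟨⟨r, hr0, hr⟩, hval, hcond⟩ := hz (Fin.castLE hcard i)
    have hne : (z (Fin.castLE hcard i) : L) ≠ 0 := (z (Fin.castLE hcard i)).ne_zero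
    have hNm : IsSquare (Algebra.norm ℚ (z (Fin.castLE hcard i) : L)) := ⟨r, by rw [hr, sq]⟩
    refine ⟨hne, hNm, ?_, ?_⟩
    · intro v hv
      have h5 := hcond v (Int.natCast_dvd_natCast.2 hv)
      unfold CondAt
      convert h5
      · exact Subsingleton.elim _ _
      · exact Subsingleton.elim _ _
    · intro 𝔓 hWP h𝔓
      by_cases hmem : (((W : ℤ) * ((∏ l ∈ R, l : ℕ) : ℤ) : ℤ) : 𝓞 L) ∈ 𝔓.asIdeal
      · have h3 : ∃ l ∈ R, ((l : ℕ) : 𝓞 L) ∈ 𝔓.asIdeal := by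
          rw [Int.cast_mul] at hmem
          rcases 𝔓.isPrime.mem_or_mem hmem with h4 | h4
          · exfalso
            rw [Int.cast_natCast] at h4
            exact hWP h4
          · rw [Int.cast_natCast, Nat.cast_prod] at h4
            obtain ⟨l, hl, h5⟩ := (𝔓.isPrime.prod_mem_iff).1 h4
            exact ⟨l, hl, h5⟩
        obtain ⟨l, hl, h4⟩ := h3
        obtain ⟨Q, hQ, hlQ⟩ := hRmem l hl
        have hov : Ov Q 𝔓 := by
          show ((Q : ℤ) : 𝓞 L) ∈ 𝔓.asIdeal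
          rw [← hlQ, Int.cast_natCast]
          exact h4
        obtain ⟨𝔓₁, 𝔮', hPD, v1, v2⟩ := hE L a b θ t hc ht Q (hS' Q hQ).toGp
        have hlt : 𝔓.valuation L θ < 1 := by
          rcases hPD.only 𝔓 hov with h | h
          · rw [h]; exact v1
          · exact absurd ⟨hov, by rw [h]; exact v2⟩ (h𝔓 Q hQ)
        exact (hN L a b θ hc Q (hS' Q hQ).toGp _ hne hNm).1 𝔓 hov hlt
      · exact ⟨1, by rw [hval 𝔓 hmem, map_one, one_pow]⟩
  · obtain ⟨s, hs⟩ := hs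
    apply hij
    have := hzd _ _ ⟨s, by rw [sq]; exact hs⟩
    exact Fin.castLE_injective hcard this

end Pool.Agent.H29A
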