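import Pool.Agent.H29A.Stm
import Pool.Agent.H98R3.OM.A1

/-!
# Project ALL (helper29): piece PRW
-/

set_option autoImplicit false
set_option linter.all false

open Finset Filter
open scoped Classical

namespace Pool.Agent.H29A.PRW

/-- Finite sets with a large sum of the reciprocals, disjoint from a given finite set. -/
theorem large {P : ℕ → Prop} [DecidablePred P] (h : ¬ Summable (fun n : ℕ => if P n then (1 : ℝ) / n else 0))
    (T : Finset ℕ) (L : ℝ) :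
    ∃ 𝒬 : Finset ℕ, (∀ Q ∈ 𝒬, P Q) ∧ Disjoint T 𝒬 ∧ L ≤ ∑ Q ∈ 𝒬, (1 : ℝ) / Q := by
  have h0 : ∀ n : ℕ, 0 ≤ (if P n then (1 : ℝ) / n else 0) := by
    intro n
    split_ifs <;> positivity
  rw [not_summable_iff_tendsto_nat_atTop_of_nonneg h0] at h
  obtain ⟨n, hn⟩ := (h.eventually_ge_atTop (L + ∑ Q ∈ T, (1 : ℝ) / Q)).exists
  refine ⟨(range n).filter (fun k => P k ∧ k ∉ T), fun Q hQ => (mem_filter.1 hQ).2.1, ?_, ?_⟩
  · rw [Finset.disjoint_left]
    intro k hk hk2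
    exact (mem_filter.1 hk2).2.2 hk
  · have h1 : ∑ i ∈ range n, (if P i then (1 : ℝ) / i else 0) ≤
        ∑ Q ∈ (range n).filter (fun k => P k ∧ k ∉ T), (1 : ℝ) / Q + ∑ Q ∈ T, (1 : ℝ) / Q := by
      rw [← Finset.sum_filter]
      calc ∑ i ∈ (range n).filter P, (1 : ℝ) / i
          ≤ ∑ i ∈ (range n).filter (fun k => P k ∧ k ∉ T) ∪ T, (1 : ℝ) / i := by
            apply Finset.sum_le_sum_of_subset_of_nonneg
            · intro k hk
              rw [mem_filter] at hk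
              rw [mem_union, mem_filter]
              by_cases hkT : k ∈ T
              · exact Or.inr hkT
              · exact Or.inl ⟨hk.1, hk.2, hkT⟩
            · intro i _ _
              positivity
        _ ≤ ∑ Q ∈ (range n).filter (fun k => P k ∧ k ∉ T), (1 : ℝ) / Q + ∑ Q ∈ T, (1 : ℝ) / Q := by
            have h5 := Finset.sum_union_inter (s₁ := (range n).filter (fun k => P k ∧ k ∉ T))
              (s₂ := T) (f := fun i : ℕ => (1 : ℝ) / i)
            have h6 : 0 ≤ ∑ i ∈ (range n).filter (fun k => P k ∧ k ∉ T) ∩ T, (1 : ℝ) / i :=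
              Finset.sum_nonneg fun i _ => by positivity
            linarith
    linarith

theorem main (W : ℕ) (hW : W ≠ 0) (T : Finset ℕ) (Λ : ℝ) : ∃ 𝒬 : Finset ℕ,
    (∀ Q ∈ 𝒬, Q.Prime ∧ Q % 8 = 1) ∧ (∀ Q ∈ 𝒬, Q % W = 1 % W ∧ W < Q) ∧ Disjoint T 𝒬 ∧
      Λ ≤ ∑ Q ∈ 𝒬, (1 : ℝ) / Q := by
  obtain ⟨q, hq⟩ : ∃ q : ℕ, q = 8 * W := ⟨_, rfl⟩
  haveI : NeZero q := ⟨by omega⟩
  have hu : IsUnit (1 : ZMod q) := isUnit_one
  have H0 := Pool.Agent.H98R3.OM.not_summable_class hu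
  have H1 : ¬ Summable (fun n : ℕ => if (fun k : ℕ => k.Prime ∧ (k : ZMod q) = 1) n then
      (1 : ℝ) / n else 0) := by
    intro h
    apply H0
    refine h.congr fun n => ?_
    by_cases hn : n.Prime ∧ (n : ZMod q) = 1
    · simp only [hn, and_self, if_true]
    · simp only [hn, if_false]
  have H2 := large (P := fun k : ℕ => k.Prime ∧ (k : ZMod q) = 1) H1 (T ∪ range (W + 1)) Λ
  obtain ⟨𝒬, hP, hd, hs⟩ := H2
  have hmod : ∀ Q ∈ 𝒬, Q ≡ 1 [MOD 8 * W] := by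
    intro Q hQ
    have h1 := (hP Q hQ).2
    have h2 : ((Q : ℕ) : ZMod q) = ((1 : ℕ) : ZMod q) := by
      rw [h1, Nat.cast_one]
    rw [← hq]
    exact (ZMod.natCast_eq_natCast_iff _ _ _).1 h2
  rw [Finset.disjoint_union_left] at hd
  refine ⟨𝒬, fun Q hQ => ⟨(hP Q hQ).1, ?_⟩, fun Q hQ => ⟨?_, ?_⟩, hd.1, hs⟩
  · have h3 : Q ≡ 1 [MOD 8] := (hmod Q hQ).of_mul_right W
    have h4 : Q % 8 = 1 % 8 := h3
    omega
  · have h3 : Q ≡ 1 [MOD W] := (hmod Q hQ).of_mul_left 8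
    exact h3
  · by_contra hlt
    exact Finset.disjoint_left.1 hd.2 (mem_range.2 (by omega)) hQ

end Pool.Agent.H29A.PRW

namespace Pool.Agent.H29A

theorem t_PRW : S_PRW := fun W hW T Λ => PRW.main W hW T Λ

end Pool.Agent.H29A
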