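import Pool.Agent.H29A.Stm
import Pool.Agent.N966.PQ.Ram

/-!
# Project ALL (helper29), piece RAW (helper88): odd valuation at the prime of degree two

Port of `Pool/Agent/N966/PQ/Ram.lean` (helper966) with the local integrality `S_INL`.
-/

set_option autoImplicit false
set_option linter.all false

open IsDedekindDomain NumberField
open scoped Classical Matrix

namespace Pool.Agent.H29A

open Pool.Agent.N922.PQ
open Pool.Agent.N966.PQ
open Pool.Agent.N874.PP (Ev Sq1 U0)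

theorem RAW_crd {L : Type} [Field L] {θ : L} (f : ℤ) : Crd θ (![f, 0, 0] : Fin 3 → ℤ) (f : L) := by
  change (f : L) = _
  simp

/-- Odd valuation at the prime of degree two over `Q`. -/
theorem t_RAW (h0 : S_INL) : S_RAW := by
  intro L _ _ a b θ h p _ hgp 𝔓₁ 𝔮 hO1 hOq hθ1 hθq α hα hev hodd
  have hp : p.Prime := Fact.out
  have h2 : p ≠ 2 := by
    rintro rfl
    have := hgp.m8
    norm_num at this
  have hQb : (p : ℤ) ∣ b := hgp.db
  have hns : ∀ z : ℤ, ¬ (p : ℤ) ∣ z ^ 2 + a := hgp.ns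
  obtain ⟨Q, hQp⟩ : ∃ Q : ℤ, Q = (p : ℤ) := ⟨_, rfl⟩
  have hQ : Prime Q := by
    rw [hQp]
    exact Nat.prime_iff_prime_int.1 (Fact.out : p.Prime)
  have hQa' : ¬ (p : ℤ) ∣ a := by
    intro h3; apply hns 0; rw [zero_pow two_ne_zero, zero_add]; exact h3
  have hpP : Prime (p : ℤ) := Nat.prime_iff_prime_int.1 hp
  have hdn : ¬ (p : ℤ) ∣ dsc a b := by
    intro hd
    have e : dsc a b = 4 * a ^ 3 + 27 * b ^ 2 := rfl
    rw [e] at hd
    have h3 : (p : ℤ) ∣ 4 * a ^ 3 := by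
      have := dvd_sub hd (Dvd.dvd.mul_left (dvd_pow hQb two_ne_zero) 27)
      simpa using this
    rcases hpP.dvd_or_dvd h3 with h4 | h4
    · have h5 : (p : ℤ) ∣ 2 ^ 2 := by norm_num; exact h4
      have h6 := hpP.dvd_of_dvd_pow h5
      have h7 : p ∣ 2 := by exact_mod_cast h6
      exact h2 ((Nat.prime_dvd_prime_iff_eq hp Nat.prime_two).1 h7)
    · exact hQa' (hpP.dvd_of_dvd_pow h4)
  have hd0 : dsc a b ≠ 0 := by
    intro h3; exact hdn (h3 ▸ dvd_zero _)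
  have hd2 : ¬ (p : ℤ) ^ 2 ∣ dsc a b := fun h3 => hdn ((dvd_pow_self _ two_ne_zero).trans h3)
  have hINT := h0 L a b θ h hd0 p hp hd2
  rw [← hQp] at hQb hns hO1 hOq hINT
  have hQa : ¬ Q ∣ a := by
    intro h3; apply hns 0; rw [zero_pow two_ne_zero, zero_add]; exact h3
  set ι : ℤ →+* L := Int.castRingHom L with hι
  have hinj : Function.Injective ι := Int.cast_injective
  -- valuations of sums
  have hv1 : ∀ (𝔓 : HeightOneSpectrum (𝓞 L)) (f : ℤ), 𝔓.valuation L (ι f) ≤ 1 := fun 𝔓 f =>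
    val_le 𝔓 f
  have hlt : ∀ (𝔓 : HeightOneSpectrum (𝓞 L)), Ov Q 𝔓 → ∀ f : ℤ,
      𝔓.valuation L (ι f) < 1 ↔ Q ∣ f := fun 𝔓 h𝔓 f => val_lt hQ h𝔓 f
  have hval : ∀ (𝔓 : HeightOneSpectrum (𝓞 L)), Ov Q 𝔓 → ∀ f : ℤ, ¬ Q ∣ f →
      𝔓.valuation L (ι f) = 1 := fun 𝔓 h𝔓 f hf => val_eq hQ h𝔓 hf
  have hroot : θ * (θ ^ 2 + ι a) = -ι b := by
    have := h.root
    linear_combination this
  have hleQ : ∀ (𝔓 : HeightOneSpectrum (𝓞 L)) (f : ℤ), Q ∣ f →
      𝔓.valuation L (ι f) ≤ 𝔓.valuation L (ι Q) := by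
    rintro 𝔓 f ⟨g, rfl⟩
    rw [hι, map_mul, map_mul]
    exact mul_le_of_le_one_right' (hv1 𝔓 g)
  -- at the first prime
  have F2' : ∀ 𝔓 : HeightOneSpectrum (𝓞 L), Ov Q 𝔓 → 𝔓.valuation L θ < 1 →
      ∀ p0 p1 p2 : ℤ, 𝔓.valuation L (ι p0 + ι p1 * θ + ι p2 * θ ^ 2) < 1 ↔ Q ∣ p0 := by
    intro 𝔓 hO1 hθ1 p0 p1 p2
    have hsm : 𝔓.valuation L ((ι p1 + ι p2 * θ) * θ) < 1 := by
      rw [map_mul]
      refine mul_lt_one_of_nonneg_of_lt_one_right ?_ zero_le hθ1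
      refine (Valuation.map_add _ _ _).trans (max_le (hv1 _ _) ?_)
      rw [map_mul]
      exact mul_le_one' (hv1 _ _) hθ1.le
    rw [← hlt 𝔓 hO1]
    constructor
    · intro hp
      have e : ι p0 = (ι p0 + ι p1 * θ + ι p2 * θ ^ 2) - (ι p1 + ι p2 * θ) * θ := by ring
      rw [e]
      exact (Valuation.map_sub _ _ _).trans_lt (max_lt hp hsm)
    · intro hp
      have e : ι p0 + ι p1 * θ + ι p2 * θ ^ 2 = ι p0 + (ι p1 + ι p2 * θ) * θ := by ring
      rw [e]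
      exact (Valuation.map_add _ _ _).trans_lt (max_lt hp hsm)
  have F2 : ∀ p0 p1 p2 : ℤ, 𝔓₁.valuation L (ι p0 + ι p1 * θ + ι p2 * θ ^ 2) < 1 → Q ∣ p0 :=
    fun p0 p1 p2 => (F2' 𝔓₁ hO1 hθ1 p0 p1 p2).1
  -- at the second prime
  have F3' : ∀ 𝔮 : HeightOneSpectrum (𝓞 L), 𝔮.valuation L θ = 1 →
      𝔮.valuation L (θ ^ 2 + ι a) ≤ 𝔮.valuation L (ι Q) := by
    intro 𝔮 hθq
    have := congrArg (𝔮.valuation L) hroot
    rw [map_mul, hθq, one_mul, Valuation.map_neg] at this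
    rw [this]
    exact hleQ 𝔮 b hQb
  have F3 := F3' 𝔮 hθq
  have hQ1 : 𝔮.valuation L (ι Q) < 1 := (hlt 𝔮 hOq Q).2 dvd_rfl
  have F4' : ∀ 𝔮 : HeightOneSpectrum (𝓞 L), Ov Q 𝔮 → 𝔮.valuation L θ = 1 →
      ∀ p0 p1 : ℤ, 𝔮.valuation L (ι p0 + ι p1 * θ) < 1 → Q ∣ p0 ∧ Q ∣ p1 := by
    intro 𝔮 hOq hθq p0 p1 hp
    have F3 := F3' 𝔮 hθq
    have hQ1 : 𝔮.valuation L (ι Q) < 1 := (hlt 𝔮 hOq Q).2 dvd_rfl
    have h3 : Q ∣ p0 ^ 2 + a * p1 ^ 2 := by
      rw [← hlt 𝔮 hOq]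
      have e : ι (p0 ^ 2 + a * p1 ^ 2) = (ι p0 + ι p1 * θ) * (ι p0 - ι p1 * θ) +
          ι (p1 ^ 2) * (θ ^ 2 + ι a) := by
        rw [hι, map_add, map_mul, map_pow, map_pow]; ring
      rw [e]
      refine (Valuation.map_add _ _ _).trans_lt (max_lt ?_ ?_)
      · rw [map_mul]
        refine mul_lt_one_of_lt_of_le hp ?_
        refine (Valuation.map_sub _ _ _).trans (max_le (hv1 _ _) ?_)
        rw [map_mul]
        exact mul_le_one' (hv1 _ _) hθq.le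
      · rw [map_mul]
        exact (mul_le_of_le_one_left' (hv1 _ _)).trans_lt (F3.trans_lt hQ1)
    by_cases h4 : Q ∣ p1
    · refine ⟨?_, h4⟩
      have h5 : Q ∣ p0 ^ 2 := by
        have : p0 ^ 2 = (p0 ^ 2 + a * p1 ^ 2) - a * p1 * p1 := by ring
        rw [this]
        exact dvd_sub h3 (Dvd.dvd.mul_left h4 _)
      exact hQ.dvd_of_dvd_pow h5
    · exfalso
      obtain ⟨u, w, huw⟩ := (hQ.irreducible.coprime_iff_not_dvd.2 h4)
      apply hns (p0 * w)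
      have e : (p0 * w) ^ 2 + a = w ^ 2 * (p0 ^ 2 + a * p1 ^ 2) +
          a * (u * Q) * (1 + w * p1) := by
        have : u * Q = 1 - w * p1 := by linear_combination huw
        rw [this]; ring
      rw [e]
      exact dvd_add (Dvd.dvd.mul_left h3 _)
        (Dvd.dvd.mul_right (Dvd.dvd.mul_left (Dvd.intro_left u rfl) _) _)
  have F4 := F4' 𝔮 hOq hθq
  -- the ideals over `Q`
  have hallA : ∀ 𝔓 𝔓' : HeightOneSpectrum (𝓞 L), Ov Q 𝔓 → Ov Q 𝔓' → 𝔓.valuation L θ < 1 →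
      𝔓'.valuation L θ < 1 → ∀ x : 𝓞 L, x ∈ 𝔓.asIdeal → x ∈ 𝔓'.asIdeal := by
    intro 𝔓 𝔓' hP hP' ht ht' x hx
    obtain ⟨s, v, hs, hv⟩ := hINT (algebraMap (𝓞 L) L x)
      (IsIntegralClosure.isIntegral_iff.2 ⟨x, rfl⟩)
    have hv' : (s : L) * algebraMap (𝓞 L) L x = ι (v 0) + ι (v 1) * θ + ι (v 2) * θ ^ 2 := hv
    rw [← HeightOneSpectrum.valuation_lt_one_iff_mem (K := L)] at hx ⊢
    have h3 : 𝔓.valuation L ((s : L) * algebraMap (𝓞 L) L x) < 1 := by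
      rw [map_mul, val_eq hQ hP hs, one_mul]; exact hx
    have h4 : 𝔓'.valuation L ((s : L) * algebraMap (𝓞 L) L x) < 1 := by
      rw [hv'] at h3 ⊢
      exact (F2' 𝔓' hP' ht' _ _ _).2 ((F2' 𝔓 hP ht _ _ _).1 h3)
    rw [map_mul, val_eq hQ hP' hs, one_mul] at h4
    exact h4
  have hallB : ∀ 𝔓 𝔓' : HeightOneSpectrum (𝓞 L), Ov Q 𝔓 → Ov Q 𝔓' → 𝔓.valuation L θ = 1 →
      𝔓'.valuation L θ = 1 → ∀ x : 𝓞 L, x ∈ 𝔓.asIdeal → x ∈ 𝔓'.asIdeal := by
    intro 𝔓 𝔓' hP hP' ht ht' x hx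
    obtain ⟨s, v, hs, hv⟩ := hINT (algebraMap (𝓞 L) L x)
      (IsIntegralClosure.isIntegral_iff.2 ⟨x, rfl⟩)
    have hv' : (s : L) * algebraMap (𝓞 L) L x = ι (v 0) + ι (v 1) * θ + ι (v 2) * θ ^ 2 := hv
    have e : (s : L) * algebraMap (𝓞 L) L x = (ι (v 0 - a * v 2) + ι (v 1) * θ) +
        ι (v 2) * (θ ^ 2 + ι a) := by
      rw [hv', hι, map_sub, map_mul]; ring
    rw [← HeightOneSpectrum.valuation_lt_one_iff_mem (K := L)] at hx ⊢
    have hsm : ∀ 𝔔 : HeightOneSpectrum (𝓞 L), Ov Q 𝔔 → 𝔔.valuation L θ = 1 →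
        𝔔.valuation L (ι (v 2) * (θ ^ 2 + ι a)) < 1 := by
      intro 𝔔 h5 h6
      rw [map_mul]
      exact (mul_le_of_le_one_left' (hv1 _ _)).trans_lt
        ((F3' 𝔔 h6).trans_lt ((hlt 𝔔 h5 Q).2 dvd_rfl))
    have h3 : 𝔓.valuation L ((s : L) * algebraMap (𝓞 L) L x) < 1 := by
      rw [map_mul, val_eq hQ hP hs, one_mul]; exact hx
    have h4 : 𝔓.valuation L (ι (v 0 - a * v 2) + ι (v 1) * θ) < 1 := by
      have e2 : ι (v 0 - a * v 2) + ι (v 1) * θ = (s : L) * algebraMap (𝓞 L) L x -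
          ι (v 2) * (θ ^ 2 + ι a) := by rw [e]; ring
      rw [e2]
      exact (Valuation.map_sub _ _ _).trans_lt (max_lt h3 (hsm 𝔓 hP ht))
    obtain ⟨h5, h6⟩ := F4' 𝔓 hP ht _ _ h4
    have h7 : 𝔓'.valuation L ((s : L) * algebraMap (𝓞 L) L x) < 1 := by
      rw [e]
      refine (Valuation.map_add _ _ _).trans_lt (max_lt ?_ (hsm 𝔓' hP' ht'))
      refine (Valuation.map_add _ _ _).trans_lt (max_lt ((hlt 𝔓' hP' _).2 h5) ?_)
      rw [map_mul, ht', mul_one]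
      exact (hlt 𝔓' hP' _).2 h6
    rw [map_mul, val_eq hQ hP' hs, one_mul] at h7
    exact h7
  have hθi : ∀ 𝔓 : HeightOneSpectrum (𝓞 L), 𝔓.valuation L θ ≤ 1 := by
    intro 𝔓
    have hint : IsIntegral ℤ θ := by
      refine ⟨Polynomial.X ^ 3 + Polynomial.C a * Polynomial.X + Polynomial.C b, by monicity!, ?_⟩
      rw [← Polynomial.aeval_def]
      simp only [map_add, map_mul, map_pow, Polynomial.aeval_X, Polynomial.aeval_C]
      exact h.root
    obtain ⟨t, ht⟩ := (IsIntegralClosure.isIntegral_iff (A := 𝓞 L)).1 hint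
    rw [← ht]
    exact 𝔓.valuation_le_one t
  have hall : ∀ 𝔓 : HeightOneSpectrum (𝓞 L), Ov Q 𝔓 → 𝔓 = 𝔓₁ ∨ 𝔓 = 𝔮 := by
    intro 𝔓 hP
    rcases lt_or_eq_of_le (hθi 𝔓) with h3 | h3
    · left
      apply HeightOneSpectrum.ext
      ext x
      exact ⟨hallA 𝔓 𝔓₁ hP hO1 h3 hθ1 x, hallA 𝔓₁ 𝔓 hO1 hP hθ1 h3 x⟩
    · right
      apply HeightOneSpectrum.ext
      ext x
      exact ⟨hallB 𝔓 𝔮 hP hOq h3 hθq x, hallB 𝔮 𝔓 hOq hP hθq h3 x⟩
  -- unramified
  have F5 : ∀ x : 𝓞 L, 𝔮.valuation L (algebraMap (𝓞 L) L x) < 1 →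
      𝔮.valuation L (algebraMap (𝓞 L) L x) ≤ 𝔮.valuation L (ι Q) := by
    intro x hx
    obtain ⟨s, p, hs, hp⟩ := hINT (algebraMap (𝓞 L) L x)
      (IsIntegralClosure.isIntegral_iff.2 ⟨x, rfl⟩)
    have hsx : 𝔮.valuation L (algebraMap (𝓞 L) L x) =
        𝔮.valuation L ((s : L) * algebraMap (𝓞 L) L x) := by
      rw [map_mul, val_eq hQ hOq hs, one_mul]
    rw [hsx] at hx ⊢
    have hp' : (s : L) * algebraMap (𝓞 L) L x = ι (p 0) + ι (p 1) * θ + ι (p 2) * θ ^ 2 := hp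
    have e : (s : L) * algebraMap (𝓞 L) L x = (ι (p 0 - a * p 2) + ι (p 1) * θ) +
        ι (p 2) * (θ ^ 2 + ι a) := by
      rw [hp', hι, map_sub, map_mul]; ring
    have h3 : 𝔮.valuation L (ι (p 2) * (θ ^ 2 + ι a)) ≤ 𝔮.valuation L (ι Q) := by
      rw [map_mul]
      exact (mul_le_of_le_one_left' (hv1 _ _)).trans F3
    have h4 : 𝔮.valuation L (ι (p 0 - a * p 2) + ι (p 1) * θ) < 1 := by
      have e2 : ι (p 0 - a * p 2) + ι (p 1) * θ = (s : L) * algebraMap (𝓞 L) L x -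
          ι (p 2) * (θ ^ 2 + ι a) := by rw [e]; ring
      rw [e2]
      exact (Valuation.map_sub _ _ _).trans_lt (max_lt hx (h3.trans_lt hQ1))
    obtain ⟨h5, h7⟩ := F4 _ _ h4
    rw [e]
    refine (Valuation.map_add _ _ _).trans (max_le ?_ h3)
    refine (Valuation.map_add _ _ _).trans (max_le (hleQ _ _ h5) ?_)
    rw [map_mul, hθq, mul_one]
    exact hleQ _ _ h7
  have hQexp : 𝔮.valuation L (ι Q) = WithZero.exp (-1 : ℤ) := by
    have hQ0 : 𝔮.valuation L (ι Q) ≠ 0 := by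
      rw [Valuation.ne_zero_iff]
      intro h3
      exact hQ.ne_zero (hinj (by rw [map_zero]; exact h3))
    obtain ⟨π, hπ⟩ := 𝔮.intValuation_exists_uniformizer
    have h3 : 𝔮.valuation L (algebraMap (𝓞 L) L π) = WithZero.exp (-1 : ℤ) := by
      rw [𝔮.valuation_of_algebraMap]; exact hπ
    have h4 := F5 π (by
      rw [h3, ← WithZero.exp_zero, WithZero.exp_lt_exp]; norm_num)
    rw [h3] at h4
    refine le_antisymm ?_ h4
    obtain ⟨n, hn⟩ : ∃ n : ℤ, 𝔮.valuation L (ι Q) = WithZero.exp n :=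
      ⟨WithZero.log (𝔮.valuation L (ι Q)), (WithZero.exp_log hQ0).symm⟩
    rw [hn] at hQ1 ⊢
    rw [← WithZero.exp_zero, WithZero.exp_lt_exp] at hQ1
    rw [WithZero.exp_le_exp]
    omega
  -- the odd valuation
  obtain ⟨yq, hyq0, hyq⟩ : ∃ y : L, y ≠ 0 ∧
      𝔮.valuation L α = 𝔮.valuation L (ι Q) * 𝔮.valuation L y ^ 2 := by
    have hα0 : 𝔮.valuation L α ≠ 0 := (Valuation.ne_zero_iff _).2 hα
    obtain ⟨n, hn⟩ : ∃ n : ℤ, 𝔮.valuation L α = WithZero.exp n :=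
      ⟨WithZero.log (𝔮.valuation L α), (WithZero.exp_log hα0).symm⟩
    rcases Int.even_or_odd n with ⟨m, hm⟩ | ⟨m, hm⟩
    · exfalso
      apply hodd
      obtain ⟨y, hy⟩ := 𝔮.valuation_surjective L (WithZero.exp m)
      refine ⟨y, ?_⟩
      rw [hn, hy, hm, ← WithZero.exp_nsmul]
      congr 1
      ring
    · obtain ⟨y, hy⟩ := 𝔮.valuation_surjective L (WithZero.exp (m + 1))
      refine ⟨y, ?_, ?_⟩
      · rintro rfl
        rw [map_zero] at hy
        exact WithZero.exp_ne_zero hy.symm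
      · rw [hn, hQexp, hy, hm, ← WithZero.exp_nsmul, ← WithZero.exp_add]
        congr 1
        ring
  obtain ⟨y1, hy1⟩ := hev
  have hy10 : y1 ≠ 0 := by
    rintro rfl
    rw [map_zero, zero_pow two_ne_zero, map_eq_zero] at hy1
    exact hα hy1
  have hne : 𝔓₁ ≠ 𝔮 := by
    rintro rfl; exact hθ1.ne hθq
  obtain ⟨g0, hg0, hgv⟩ := weak (L := L) {𝔓₁, 𝔮} (fun 𝔓 => if 𝔓 = 𝔓₁ then y1 else yq) (by
    intro 𝔓 _
    split_ifs
    · exact hy10
    · exact hyq0)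
  have hg1 : 𝔓₁.valuation L g0 = 𝔓₁.valuation L y1 := by
    have := hgv 𝔓₁ (by simp)
    simpa using this
  have hgq : 𝔮.valuation L g0 = 𝔮.valuation L yq := by
    have := hgv 𝔮 (by simp)
    simpa [hne.symm] using this
  have hvne : ∀ (𝔓 : HeightOneSpectrum (𝓞 L)) {x : L}, x ≠ 0 → 𝔓.valuation L x ≠ 0 := fun 𝔓 x hx =>
    (Valuation.ne_zero_iff _).2 hx
  have hιQ : ι Q ≠ 0 := by
    intro h3
    exact hQ.ne_zero (hinj (by rw [map_zero]; exact h3))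
  have hk1 : 𝔓₁.valuation L (ι Q * g0 ^ 2 / α) = 𝔓₁.valuation L (ι Q) := by
    rw [map_div₀, map_mul, map_pow, hg1, hy1, mul_div_assoc, div_self, mul_one]
    exact pow_ne_zero _ (hvne _ hy10)
  have hkq : 𝔮.valuation L (ι Q * g0 ^ 2 / α) = 1 := by
    rw [map_div₀, map_mul, map_pow, hgq, hyq, div_self]
    exact mul_ne_zero (hvne _ hιQ) (pow_ne_zero _ (hvne _ hyq0))
  obtain ⟨s₀, hs₀, hsi₀⟩ := loc_int hQ (ι Q * g0 ^ 2 / α) fun 𝔓 h𝔓 => by
    rcases hall 𝔓 h𝔓 with h3 | h3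
    · rw [h3, hk1]; exact hv1 _ _
    · rw [h3, hkq]
  obtain ⟨s₁, v₁, hs₁, hv₁⟩ := hINT _ hsi₀
  obtain ⟨s, hsdef⟩ : ∃ s : ℤ, s = s₁ * s₀ := ⟨_, rfl⟩
  have hs : ¬ Q ∣ s := by
    rw [hsdef]
    intro hd
    rcases hQ.dvd_or_dvd hd with h | h
    · exact hs₁ h
    · exact hs₀ h
  have hs0 : ι s ≠ 0 := by
    intro h3
    apply hs
    have : s = 0 := hinj (by rw [map_zero]; exact h3)
    rw [this]; exact dvd_zero Q
  set g : L := ι s * g0 with hg
  have hgne : g ≠ 0 := mul_ne_zero hs0 hg0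
  set κ : L := ι Q * g ^ 2 / α with hκ
  have hκe : κ = ι s ^ 2 * (ι Q * g0 ^ 2 / α) := by rw [hκ, hg]; ring
  have hκ0 : κ ≠ 0 := div_ne_zero (mul_ne_zero hιQ (pow_ne_zero _ hgne)) hα
  have hκ1 : 𝔓₁.valuation L κ = 𝔓₁.valuation L (ι Q) := by
    rw [hκe, map_mul, map_pow, hval 𝔓₁ hO1 s hs, one_pow, one_mul, hk1]
  have hκq : 𝔮.valuation L κ = 1 := by
    rw [hκe, map_mul, map_pow, hval 𝔮 hOq s hs, one_pow, one_mul, hkq]
  obtain ⟨d, hd⟩ : ∃ d : Fin 3 → ℤ, Crd θ d κ := by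
    refine ⟨mulc a b ![s, 0, 0] v₁, ?_⟩
    have hsL : ι s = (s₁ : L) * (s₀ : L) := by
      rw [hsdef, hι, map_mul]; rfl
    have e : κ = (s : L) * ((s₁ : L) * ((s₀ : L) * (ι Q * g0 ^ 2 / α))) := by
      rw [hκe]
      have : (s : L) = ι s := rfl
      rw [this, hsL]; ring
    rw [e]
    exact crd_mul h (RAW_crd s) hv₁
  have hd' : κ = ι (d 0) + ι (d 1) * θ + ι (d 2) * θ ^ 2 := hd
  have hQ1' : 𝔓₁.valuation L (ι Q) < 1 := (hlt 𝔓₁ hO1 Q).2 dvd_rfl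
  have F8 : Q ∣ d 0 := by
    apply F2 (d 0) (d 1) (d 2)
    rw [← hd', hκ1]; exact hQ1'
  have F9 : ¬ (Q ∣ d 1 ∧ Q ∣ d 2) := by
    rintro ⟨h3, h4⟩
    have : 𝔮.valuation L κ < 1 := by
      rw [hd']
      refine (Valuation.map_add _ _ _).trans_lt (max_lt ?_ ?_)
      · refine (Valuation.map_add _ _ _).trans_lt (max_lt ((hlt 𝔮 hOq _).2 F8) ?_)
        rw [map_mul, hθq, mul_one]
        exact (hlt 𝔮 hOq _).2 h3
      · rw [map_mul, map_pow, hθq, one_pow, mul_one]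
        exact (hlt 𝔮 hOq _).2 h4
    exact this.ne hκq
  have hf1 : 𝔓₁.valuation L (θ ^ 2 + ι a) = 1 := by
    have h3 : 𝔓₁.valuation L (ι a) = 1 := hval 𝔓₁ hO1 a hQa
    have h4 : 𝔓₁.valuation L (θ ^ 2) < 1 := by
      rw [map_pow]
      exact pow_lt_one₀ zero_le hθ1 two_ne_zero
    rw [Valuation.map_add_eq_of_lt_right, h3]
    rw [h3]; exact h4
  have F10 : ¬ Q ^ 2 ∣ a * d 0 - b * d 1 := by
    rintro ⟨w, hw⟩
    obtain ⟨b', hb'⟩ := hQb
    obtain ⟨d', hd0'⟩ := F8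
    have e : κ * (θ ^ 2 + ι a) ^ 2 = ι Q ^ 2 * (ι w * (θ ^ 2 + ι a) - ι b' * ι d' * θ +
        ι b' ^ 2 * ι (d 2)) := by
      have e1 : ι a * ι (d 0) - ι b * ι (d 1) = ι Q ^ 2 * ι w := by
        have := congrArg ι hw
        rw [hι] at this ⊢
        simp only [map_sub, map_mul, map_pow] at this
        exact this
      have e2 : ι b = ι Q * ι b' := by rw [hb', hι, map_mul]
      have e3 : ι (d 0) = ι Q * ι d' := by rw [hd0', hι, map_mul]
      rw [hd']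
      linear_combination (ι (d 0) * θ + ι (d 1) * (θ ^ 2 + ι a) + ι (d 2) * θ * (θ ^ 2 + ι a) -
        ι b * ι (d 2)) * hroot + (θ ^ 2 + ι a) * e1 +
        (-θ * ι (d 0) + ι (d 2) * (ι b + ι Q * ι b')) * e2 - (ι Q * ι b' * θ) * e3
    have h3 := congrArg (𝔓₁.valuation L) e
    rw [map_mul, map_pow, hf1, one_pow, mul_one, hκ1, map_mul, map_pow] at h3
    have h4 : 𝔓₁.valuation L (ι w * (θ ^ 2 + ι a) - ι b' * ι d' * θ + ι b' ^ 2 * ι (d 2)) ≤ 1 := by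
      refine (Valuation.map_add _ _ _).trans (max_le ?_ ?_)
      · refine (Valuation.map_sub _ _ _).trans (max_le ?_ ?_)
        · rw [map_mul, hf1, mul_one]; exact hv1 _ _
        · rw [map_mul, map_mul]
          exact mul_le_one' (mul_le_one' (hv1 _ _) (hv1 _ _)) hθ1.le
      · rw [map_mul, map_pow]
        exact mul_le_one' (pow_le_one' (hv1 _ _) _) (hv1 _ _)
    have h5 : 𝔓₁.valuation L (ι Q) ≤ 𝔓₁.valuation L (ι Q) ^ 2 := by
      conv_lhs => rw [h3]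
      exact mul_le_of_le_one_right' h4
    have h7 : 𝔓₁.valuation L (ι Q) ^ 2 < 𝔓₁.valuation L (ι Q) := by
      rw [pow_two]
      exact mul_lt_of_lt_one_left (zero_lt_iff.2 (hvne _ hιQ)) hQ1'
    exact absurd h5 (not_le.2 h7)
  -- the form
  set f : Fin 3 → L := fun i => g * (![θ ^ 2 + ι a, θ, θ ^ 2] : Fin 3 → L) i with hf
  have hfli : LinearIndependent ℚ f := by
    apply li_mul _ hgne
    have hli := li_pow h
    rw [Fintype.linearIndependent_iff] at hli ⊢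
    intro c hc
    rw [Fin.sum_univ_three] at hc
    simp only [Matrix.cons_val_zero, Matrix.cons_val_one, Matrix.cons_val] at hc
    have ha0 : (a : ℚ) ≠ 0 := by
      intro h3
      have : a = 0 := by exact_mod_cast h3
      exact hQa (this ▸ dvd_zero Q)
    have e3 : ι a = ((a : ℚ) : L) := by
      rw [hι, Rat.cast_intCast]; rfl
    have h3 := hli ![c 0 * (a : ℚ), c 1, c 0 + c 2] (by
      rw [Fin.sum_univ_three]
      simp only [Matrix.cons_val_zero, Matrix.cons_val_one, Matrix.cons_val]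
      rw [← hc]
      simp only [Rat.smul_def, Rat.cast_mul, Rat.cast_add, e3, Fin.val_zero, Fin.val_one, Fin.val_two,
        pow_zero, pow_one, Fin.coe_ofNat_eq_mod]
      ring)
    have c0 : c 0 = 0 := by
      have := h3 0
      simp only [Matrix.cons_val_zero] at this
      exact (mul_eq_zero.1 this).resolve_right ha0
    have c1 : c 1 = 0 := by
      have := h3 1
      simpa using this
    have c2 : c 2 = 0 := by
      have := h3 2
      simp only [Matrix.cons_val, c0, zero_add] at this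
      exact this
    intro i
    fin_cases i
    · exact c0
    · exact c1
    · exact c2
  have hgm : ∀ i j, h.co 2 (f i * f j / α) * (Q : ℚ) = ((gm a b d i j : ℤ) : ℚ) := by
    have tt : ∀ i, ∃ t : Fin 3 → ℤ, t = (![![a, 0, 1], ![0, 1, 0], ![0, 0, 1]] :
        Fin 3 → Fin 3 → ℤ) i ∧ Crd θ t ((![θ ^ 2 + ι a, θ, θ ^ 2] : Fin 3 → L) i) := by
      intro i
      refine ⟨_, rfl, ?_⟩
      change (![θ ^ 2 + ι a, θ, θ ^ 2] : Fin 3 → L) i = _
      fin_cases i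
      · simp [hι]; ring
      · simp [hι]
      · simp [hι]
    intro i j
    have e4 : f i * f j / α * ι Q = κ * ((![θ ^ 2 + ι a, θ, θ ^ 2] : Fin 3 → L) i *
        (![θ ^ 2 + ι a, θ, θ ^ 2] : Fin 3 → L) j) := by
      rw [hκ, hf]; ring
    have e5 : h.co 2 (f i * f j / α) * (Q : ℚ) = h.co 2 (f i * f j / α * ι Q) := by
      have : f i * f j / α * ι Q = (Q : ℚ) • (f i * f j / α) := by
        rw [Rat.smul_def, hι, Rat.cast_intCast, eq_intCast]; ring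
      rw [this, map_smul, smul_eq_mul, mul_comm]
    obtain ⟨t, ht, htc⟩ := tt i
    obtain ⟨t', ht', htc'⟩ := tt j
    rw [e5, e4, co_crd h (crd_mul h hd (crd_mul h htc htc')) 2, ht, ht']
    congr 1
    fin_cases i <;> fin_cases j <;> simp [mulc, gm] <;> ring
  have hQK : (Q : ℚ) ≠ 0 := by exact_mod_cast hQ.ne_zero
  have hA : IsoAt h p α ↔ Iso3 p (gm a b d) := by
    rw [← isoF_iff h p α f (gm a b d) _ hQK hgm]
    exact ⟨fun H => iso_change h p α (li_pow h) hfli H, fun H => iso_change h p α hfli (li_pow h) H⟩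
  rw [hA, iso_gm hQp h2 hQb hns F8 F9 F10]
  have hB : α * (ι Q * θ) = (ι Q * g / κ) ^ 2 * (κ * θ) := by
    rw [hκ]; field_simp
  have hpQ : ((p : ℕ) : L) = ι Q := by rw [hι, hQp, eq_intCast, Int.cast_natCast]
  rw [hpQ]
  rw [hB, sq1_scale 𝔮 (div_ne_zero (mul_ne_zero hιQ hgne) hκ0)]
  -- reduction modulo 𝔮
  have hκθ : 𝔮.valuation L (κ * θ) = 1 := by rw [map_mul, hκq, hθq, one_mul]
  have hred : ∀ r0 r1 : ℤ, 𝔮.valuation L (κ * θ - (ι r0 + ι r1 * θ) ^ 2) < 1 ↔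
      (Q ∣ r0 ^ 2 - a * r1 ^ 2 + a * d 1 ∧ Q ∣ 2 * r0 * r1 + a * d 2) := by
    intro r0 r1
    obtain ⟨d', hd0'⟩ := F8
    have hθ3 : θ ^ 3 = -ι a * θ - ι b := by linear_combination hroot
    have e : κ * θ - (ι r0 + ι r1 * θ) ^ 2 =
        -(ι (r0 ^ 2 - a * r1 ^ 2 + a * d 1) + ι (2 * r0 * r1 + a * d 2) * θ) +
        ((ι (d 1) - ι r1 ^ 2) * (θ ^ 2 + ι a) + ι Q * ι d' * θ - ι b * ι (d 2)) := by
      have e3 : ι (d 0) = ι Q * ι d' := by rw [hd0', hι, map_mul]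
      rw [hd', e3, hι]
      simp only [map_add, map_sub, map_mul, map_pow, map_ofNat]
      rw [← hι]
      linear_combination (ι (d 2)) * hroot
    have hsmall : 𝔮.valuation L ((ι (d 1) - ι r1 ^ 2) * (θ ^ 2 + ι a) + ι Q * ι d' * θ -
        ι b * ι (d 2)) < 1 := by
      refine (Valuation.map_sub _ _ _).trans_lt (max_lt ?_ ?_)
      · refine (Valuation.map_add _ _ _).trans_lt (max_lt ?_ ?_)
        · rw [map_mul]
          refine mul_lt_one_of_nonneg_of_lt_one_right ?_ zero_le (F3.trans_lt hQ1)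
          refine (Valuation.map_sub _ _ _).trans (max_le (hv1 _ _) ?_)
          rw [map_pow]
          exact pow_le_one' (hv1 _ _) _
        · rw [map_mul, map_mul, hθq, mul_one]
          exact mul_lt_one_of_lt_of_le hQ1 (hv1 _ _)
      · rw [map_mul]
        exact mul_lt_one_of_lt_of_le ((hlt 𝔮 hOq b).2 hQb) (hv1 _ _)
    constructor
    · intro h3
      apply F4
      have e5 : ι (r0 ^ 2 - a * r1 ^ 2 + a * d 1) + ι (2 * r0 * r1 + a * d 2) * θ =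
          ((ι (d 1) - ι r1 ^ 2) * (θ ^ 2 + ι a) + ι Q * ι d' * θ - ι b * ι (d 2)) -
          (κ * θ - (ι r0 + ι r1 * θ) ^ 2) := by rw [e]; ring
      rw [e5]
      exact (Valuation.map_sub _ _ _).trans_lt (max_lt hsmall h3)
    · rintro ⟨h3, h4⟩
      rw [e]
      refine (Valuation.map_add _ _ _).trans_lt (max_lt ?_ hsmall)
      rw [Valuation.map_neg]
      refine (Valuation.map_add _ _ _).trans_lt (max_lt ((hlt 𝔮 hOq _).2 h3) ?_)
      rw [map_mul, hθq, mul_one]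
      exact (hlt 𝔮 hOq _).2 h4
  constructor
  · rintro ⟨r0, r1, hr⟩
    refine ⟨ι r0 + ι r1 * θ, ?_⟩
    rw [hκθ]
    exact (hred r0 r1).2 hr
  · rintro ⟨s1, hs1⟩
    rw [hκθ] at hs1
    have hs1v : 𝔮.valuation L s1 ≤ 1 := by
      have h3 : 𝔮.valuation L (s1 ^ 2) ≤ 1 := by
        have e : s1 ^ 2 = κ * θ - (κ * θ - s1 ^ 2) := by ring
        rw [e]
        exact (Valuation.map_sub _ _ _).trans (max_le hκθ.le hs1.le)
      rw [map_pow] at h3
      exact (pow_le_one_iff two_ne_zero).1 h3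
    obtain ⟨t, ht⟩ := 𝔮.exists_valuation_sub_lt_of_integer hs1v 1
    obtain ⟨s₂, p, hs₂, hp⟩ := hINT (algebraMap (𝓞 L) L t)
      (IsIntegralClosure.isIntegral_iff.2 ⟨t, rfl⟩)
    have hp' : (s₂ : L) * algebraMap (𝓞 L) L t = ι (p 0) + ι (p 1) * θ + ι (p 2) * θ ^ 2 := hp
    have ht' : 𝔮.valuation L (algebraMap (𝓞 L) L t - s1) < 1 := by simpa using ht
    obtain ⟨w', u, huw⟩ := (hQ.irreducible.coprime_iff_not_dvd.2 hs₂)
    refine ⟨u * (p 0 - a * p 2), u * p 1, (hred _ _).1 ?_⟩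
    set z := ι (u * (p 0 - a * p 2)) + ι (u * p 1) * θ with hz
    have hzs : 𝔮.valuation L (z - s1) < 1 := by
      have hus : ι u * (s₂ : L) = 1 - ι w' * ι Q := by
        have := congrArg ι huw
        rw [map_add, map_mul, map_mul, map_one] at this
        have e7 : (s₂ : L) = ι s₂ := rfl
        rw [e7]
        linear_combination this
      have e : z - s1 = (algebraMap (𝓞 L) L t - s1) - ι u * (ι (p 2) * (θ ^ 2 + ι a)) -
          ι Q * (ι w' * algebraMap (𝓞 L) L t) := by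
        have e8 : z = ι u * ((s₂ : L) * algebraMap (𝓞 L) L t) -
            ι u * (ι (p 2) * (θ ^ 2 + ι a)) := by
          rw [hz, hp', hι, map_mul, map_sub, map_mul, map_mul]; ring
        rw [e8]
        linear_combination (algebraMap (𝓞 L) L t) * hus
      rw [e]
      refine (Valuation.map_sub _ _ _).trans_lt (max_lt ?_ ?_)
      · refine (Valuation.map_sub _ _ _).trans_lt (max_lt ht' ?_)
        rw [map_mul, map_mul]
        exact (mul_le_of_le_one_left' (hv1 _ _)).trans_lt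
          ((mul_le_of_le_one_left' (hv1 _ _)).trans_lt (F3.trans_lt hQ1))
      · rw [map_mul, map_mul]
        exact mul_lt_one_of_lt_of_le hQ1 (mul_le_one' (hv1 _ _) (𝔮.valuation_le_one t))
    have hzv : 𝔮.valuation L (z + s1) ≤ 1 := by
      have e : z + s1 = (z - s1) + 2 * s1 := by ring
      have h2v : 𝔮.valuation L (2 : L) ≤ 1 := by
        have := hv1 𝔮 2
        rwa [hι, map_ofNat] at this
      rw [e]
      refine (Valuation.map_add _ _ _).trans (max_le hzs.le ?_)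
      rw [map_mul]
      exact mul_le_one' h2v hs1v
    have e : κ * θ - z ^ 2 = (κ * θ - s1 ^ 2) - (z - s1) * (z + s1) := by ring
    rw [e]
    refine (Valuation.map_sub _ _ _).trans_lt (max_lt hs1 ?_)
    rw [map_mul]
    exact mul_lt_one_of_lt_of_le hzs hzv

end Pool.Agent.H29A

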