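import Pool.Agent.H29A.Stm
import Pool.Agent.N945.PQ.RED

/-!
# Project ALL (helper29): piece REDW
-/

set_option autoImplicit false
set_option linter.all false

open scoped Classical Matrix

namespace Pool.Agent.H29A

/-- Reduction of positive definite ternary forms of determinant `n ^ 2`. -/
theorem t_REDW : S_REDW := by
  intro H n hn hH hd
  obtain ⟨r, hr, hr3⟩ : ∃ r : ℝ, 0 < r ∧ r ^ 3 = n :=
    ⟨n ^ (1 / 3 : ℝ), by positivity, by
      rw [← Real.rpow_natCast, ← Real.rpow_mul hn.le]; norm_num⟩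
  have hr2 : (0 : ℝ) < (r ^ 2)⁻¹ := by positivity
  have hc : ((r ^ 2)⁻¹ • H).PosDef := hH.smul hr2
  have hcd : ((r ^ 2)⁻¹ • H).det = 1 := by
    rw [Matrix.det_smul, hd, ← hr3, Fintype.card_fin]
    field_simp
  obtain ⟨U, h, hU, hpos, hmono, hprod, hval⟩ := Pool.Agent.N945.PQ.RED.main _ hc hcd
  refine ⟨U, fun i => r * h i, hU, fun i => mul_pos hr (hpos i), ?_, ?_, ?_⟩
  · intro i j hij
    exact mul_le_mul_of_nonneg_left (hmono hij) hr.le
  · have : r * h 0 * (r * h 1) * (r * h 2) = r ^ 3 * (h 0 * h 1 * h 2) := by ring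
    rw [this, hr3]
    have := mul_le_mul_of_nonneg_left hprod hn.le
    linarith
  · intro i
    have h1 := hval i
    rw [Matrix.smul_mulVec, dotProduct_smul, smul_eq_mul] at h1
    have hr0 : r ^ 2 ≠ 0 := by positivity
    have h2 : (fun j => (U i j : ℝ)) ⬝ᵥ H *ᵥ (fun j => (U i j : ℝ)) = r ^ 2 * h i ^ 2 := by
      rw [← h1]; field_simp
    rw [h2]; ring

end Pool.Agent.H29A
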