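import Pool.Agent.H29A.Stm
import Pool.Agent.Helper29L.LOW10

/-!
# Project ALL, piece SLOWW (port of `Helper29L/LOW10.lean`)
-/

set_option autoImplicit false
set_option linter.all false

open NumberField IsDedekindDomain WithZero WeierstrassCurve WeierstrassCurve.Affine
open scoped NNReal Classical

namespace Pool.Agent.H29A.SLOWP

open Pool.Agent
open Pool.Agent.TH115.GD
open Pool.Agent.Y710.CV (Cond cond1 cond2)
open Pool.Agent.Y702.G (sh base pts)
open Pool.Agent.R425.G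
open Pool.Agent.N922.PQ (IsCub Ov IsPr)
open Pool.Agent.N874.PP (Ev Sq1 U0)
open Pool.Agent.Helper29L
open Pool.Agent.Helper29L.LOW
open Pool.Agent.Helper29L.SZ (VV)

theorem prod_one (W : ℤ) (Z : Finset ℤ) (h : ∀ Q ∈ Z, W ∣ Q - 1) : W ∣ (∏ Q ∈ Z, Q) - 1 := by
  refine Finset.prod_induction (fun Q : ℤ => Q) (fun x => W ∣ x - 1) ?_ (by simp) h
  intro x y hx hy
  have e : x * y - 1 = x * (y - 1) + (x - 1) := by ring
  show W ∣ x * y - 1
  rw [e]
  exact dvd_add (Dvd.dvd.mul_left hy x) hx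

theorem VV_eq (a b d : ℤ) : VV (a * (4 * d) ^ 2) (b * (4 * d) ^ 3) = sh (Wt a b d) := by
  unfold VV Pool.Agent.Y702.G.sh
  rw [Wt_b2, Wt_b4, Wt_b6]
  ext <;> push_cast <;> ring

/-- a prime which does not divide `W` is at least five -/
theorem five_le' {W : ℕ} (hW : OKW W) {p : ℕ} (hp : p.Prime) (h : ¬ p ∣ W) : 5 ≤ p := by
  have h24 := hW.dvd
  have h2 : p ≠ 2 := by
    rintro rfl
    exact h (dvd_trans (by norm_num) h24)
  have h3 : p ≠ 3 := by
    rintro rfl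
    exact h (dvd_trans (by norm_num) h24)
  have h4 : p ≠ 4 := by
    rintro rfl
    exact absurd hp (by decide)
  have := hp.two_le
  omega

section all

variable {A : Type} [Field A] [NumberField A] {a b d : ℤ} {θ : A}

theorem cond_all (hT : S_TWC) (hS : S_SQV) (hR : S_RAMC) {W : ℕ} (hW : OKW W)
    (h : IsCub a b θ) (hF : GW W a b) {Z : Finset ℤ}
    (hG : ∀ Q ∈ Z, GpW W a b Q) (hd : d = ∏ Q ∈ Z, Q) {z : A} (hz : InSelW W a b Z θ z)
    (v : HeightOneSpectrum (𝓞 ℚ)) :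
    Cond (v.adicCompletion ℚ) (AlgebraicClosure (v.adicCompletion ℚ)) (sh (Wt a b d))
      (4 * d * θ) z := by
  haveI : CharZero (v.adicCompletion ℚ) := algebraRat.charZero _
  haveI : CharZero (AlgebraicClosure (v.adicCompletion ℚ)) := algebraRat.charZero _
  haveI := gal_p v
  obtain ⟨r, hr⟩ := hz.norm
  have hr' : Algebra.norm ℚ z = r ^ 2 := by rw [hr, sq]
  have hp : (ng v).Prime := ng_prime v
  have hpZ : Prime ((ng v : ℕ) : ℤ) := Nat.prime_iff_prime_int.1 hp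
  have hd8 : d % 8 = 1 := by
    rw [hd]
    exact prod_mod8 Z fun Q hQ => (hG Q hQ).m8
  have hd0 : d ≠ 0 := by
    rintro rfl
    norm_num at hd8
  have hds0 : Pool.Agent.N922.PQ.dsc a b ≠ 0 := hF.pos.ne'
  have hd1 : (W : ℤ) ∣ d - 1 := by
    rw [hd]
    exact prod_one W Z fun Q hQ => (hG Q hQ).one
  by_cases hvW : ng v ∣ W
  · have h1 : IsSquare (((4 * d : ℤ) : v.adicCompletion ℚ)) := by
      have h2 := hS W hW d hd1 v hvW
      have h3 : (((4 * d : ℤ) : v.adicCompletion ℚ)) = 2 * 2 * ((d : ℤ) : v.adicCompletion ℚ) := by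
        push_cast; ring
      rw [h3]
      exact (IsSquare.mul_self 2).mul h2
    have h4 := (hT A a b θ h hds0 v (4 * d) (mul_ne_zero (by norm_num) hd0) h1 z).1
      (hz.loc v hvW)
    unfold CondAt at h4
    rw [VV_eq] at h4
    have h5 : ((4 * d : ℤ) : A) * θ = 4 * d * θ := by push_cast; ring
    rw [h5] at h4
    exact h4
  obtain ⟨w, hσ, hL, -⟩ := exists_ld v
  have hp5 : 5 ≤ ng v := five_le' hW hp hvW
  have h2 : ng v ≠ 2 := by omega
  by_cases hpd : ((ng v : ℕ) : ℤ) ∣ d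
  · have hex : ∃ Q ∈ Z, ((ng v : ℕ) : ℤ) ∣ Q := by
      rw [hd] at hpd
      exact (Prime.dvd_finset_prod_iff hpZ _).1 hpd
    obtain ⟨Q, hQ, hQp⟩ := hex
    have hQe := eq_of_dvd hp (hG Q hQ).pr hQp
    have hdd : d = ((ng v : ℕ) : ℤ) * ∏ R ∈ Z.erase Q, R := by
      rw [hd, ← Finset.mul_prod_erase Z (fun R => R) hQ, hQe]
    have hd' : ¬ ((ng v : ℕ) : ℤ) ∣ ∏ R ∈ Z.erase Q, R := by
      intro hcon
      obtain ⟨R, hR, hRp⟩ := (Prime.dvd_finset_prod_iff hpZ _).1 hcon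
      have hR' := Finset.mem_erase.1 hR
      exact hR'.1 ((eq_of_dvd hp (hG R hR'.2).pr hRp).trans hQe.symm)
    have hu0 := hz.u0 Q hQ
    have hb := (hG Q hQ).db
    have hns := (hG Q hQ).ns
    rw [hQe] at hu0 hb hns
    exact cond_conv _ _ _ _ _ _ (cond_unr w hσ hL h hds0 h2 hdd hd' hb hns hz.ne hr' hu0)
  have hev : ∀ 𝔓 : HeightOneSpectrum (𝓞 A), Ov ((ng v : ℕ) : ℤ) 𝔓 → Ev 𝔓 z := by
    intro 𝔓 h𝔓
    have h3 : ((((ng v : ℕ) : ℤ)) : 𝓞 A) ∈ 𝔓.asIdeal := h𝔓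
    apply hz.ev 𝔓
    · intro hcon
      have h1 : ((ng v : ℕ) : ℤ) ∣ (W : ℤ) := by
        refine not_both hp ?_ (D := (W : ℤ)) (by exact_mod_cast hcon)
        · exact_mod_cast h3
      exact hvW (by exact_mod_cast h1)
    · rintro Q hQ ⟨hQ1, -⟩
      apply hpd
      have h1 : ((ng v : ℕ) : ℤ) ∣ Q := by
        refine not_both hp ?_ hQ1
        exact_mod_cast h3
      rw [hd]
      exact h1.trans (Finset.dvd_prod_of_mem (fun R => R) hQ)
  by_cases hds : ((ng v : ℕ) : ℤ) ∣ Pool.Agent.N922.PQ.dsc a b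
  · have hsq : ¬ ((ng v : ℕ) : ℤ) ^ 2 ∣ Pool.Agent.N922.PQ.dsc a b := by
      intro hcon
      have h6 := hF.pow (ng v) 2 hp le_rfl hcon
      exact hvW ((dvd_pow_self _ (by norm_num)).trans h6)
    exact hR A a b θ h hds0 d hd0 v hp5 hpd hds hsq z hz.ne hz.norm hev
  · refine cond_conv _ _ _ _ _ _ (cond_gd (cf_of h hd0) ?_ v ?_ hz.ne hr' hev)
    · rw [Wt_disc]
      exact mul_ne_zero (mul_ne_zero (by norm_num) (pow_ne_zero 6 hd0)) hds0
    · rw [Wt_disc]
      intro hcon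
      have e : (2 * (-16 * d ^ 6 * Pool.Agent.N922.PQ.dsc a b) : ℤ) =
        2 ^ 5 * (d ^ 6 * -Pool.Agent.N922.PQ.dsc a b) := by ring
      rw [e] at hcon
      rcases hpZ.dvd_or_dvd hcon with h5 | h5
      · have h6 := hpZ.dvd_of_dvd_pow h5
        have h7 : ng v ∣ 2 := by exact_mod_cast h6
        exact h2 ((Nat.prime_dvd_prime_iff_eq hp Nat.prime_two).1 h7)
      · rcases hpZ.dvd_or_dvd h5 with h5 | h5
        · exact hpd (hpZ.dvd_of_dvd_pow h5)
        · rw [dvd_neg] at h5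
          exact hds h5

end all

end Pool.Agent.H29A.SLOWP

namespace Pool.Agent.H29A

open Pool.Agent.TH115.GD
open Pool.Agent.Y702.G (sh base pts)
open Pool.Agent.Helper29L.LOW
open Pool.Agent.Helper29L (gal_self)
open Pool.Agent.H30EV (curve Coch ShaCocycle cob)

/-- **Piece SLOWW.** -/
theorem t_SLOWW (hT : S_TWC) (hS : S_SQV) (hR : S_RAMC) : S_SLOWW := by
  intro W hOK L _ _ a b θ Z d h hF hG hd n z hz hne
  have hd8 : d % 8 = 1 := by
    rw [hd]
    exact prod_mod8 Z fun Q hQ => (hG Q hQ).m8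
  have hd0 : d ≠ 0 := by
    rintro rfl
    norm_num at hd8
  have hpos : 0 < Pool.Agent.N922.PQ.dsc a b := hF.pos
  have hW : (Wt a b d).Δ < 0 := by
    rw [Wt_disc]
    have h6 : 0 < d ^ 6 := by positivity
    have := mul_pos h6 hpos
    nlinarith
  have hX : curve ℚ (a * d ^ 2, b * d ^ 3) = base (Wt a b d) ℚ := by
    unfold curve base Wt
    ext <;> simp
  rw [hX]
  haveI := gal_self
  exact low_aux' ℚ hW (no_rat h hd0) (cf_of h hd0) z (fun i => (hz i).ne) (fun i => (hz i).norm)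
    (fun i j hij => by
      by_contra hcon
      exact hne i j hcon hij)
    (fun i v => SLOWP.cond_all hT hS hR hOK h hF hG hd (hz i) v)

end Pool.Agent.H29A
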