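import Pool.Agent.H29A.Stm

/-!
# Project ALL (helper29): piece SQV
-/

set_option autoImplicit false
set_option linter.all false

open Polynomial IsDedekindDomain NumberField
open scoped Classical

namespace Pool.Agent.H29A

open Pool.Agent.R425.G (ng ng_prime)

/-- an integer `d` which is `1` modulo `24` and modulo `p` is a square in `ℚ_p` -/
theorem SQV.sq_int (p : ℕ) [hp : Fact p.Prime] (d : ℤ) (h24 : (24 : ℤ) ∣ d - 1)
    (hd : (p : ℤ) ∣ d - 1) : ∃ δ : ℚ_[p], δ * δ = (d : ℚ_[p]) := by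
  obtain ⟨F, hF⟩ : ∃ F : ℤ[X], F = X ^ 2 - C d := ⟨_, rfl⟩
  have h1 : F.aeval (1 : ℤ_[p]) = ((1 - d : ℤ) : ℤ_[p]) := by
    rw [hF, map_sub, map_pow, aeval_X, aeval_C]
    simp
  have h2' : F.derivative.aeval (1 : ℤ_[p]) = 2 := by
    rw [hF]
    simp only [derivative_sub, derivative_X_pow, derivative_C, sub_zero, map_mul, aeval_C, map_pow,
      aeval_X, one_pow, mul_one]
    simp
  have h3 : ‖F.aeval (1 : ℤ_[p])‖ < ‖F.derivative.aeval (1 : ℤ_[p])‖ ^ 2 := by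
    by_cases h2 : p = 2
    · subst h2
      have hn2 : ‖(2 : ℤ_[2])‖ = 2⁻¹ := by
        have := PadicInt.norm_p (p := 2)
        push_cast at this
        exact this
      rw [h1, h2', hn2]
      have h4 : ‖((1 - d : ℤ) : ℤ_[2])‖ ≤ ((2 : ℕ) : ℝ) ^ (-((3 : ℕ) : ℤ)) := by
        rw [PadicInt.norm_int_le_pow_iff_dvd]
        push_cast
        omega
      refine h4.trans_lt ?_
      norm_num
    · have hn2 : ‖(2 : ℤ_[p])‖ = 1 := by
        have h : ((2 : ℕ) : ℤ_[p]) = 2 := by norm_num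
        rw [← h, PadicInt.norm_natCast_eq_one_iff]
        exact (Nat.coprime_primes hp.out Nat.prime_two).2 h2
      rw [h1, h2', hn2, one_pow, PadicInt.norm_intCast_lt_one_iff]
      have := dvd_neg.2 hd
      rwa [neg_sub] at this
  obtain ⟨z, hz, -⟩ := hensels_lemma h3
  refine ⟨(z : ℚ_[p]), ?_⟩
  rw [hF, map_sub, map_pow, aeval_X, aeval_C, sub_eq_zero] at hz
  have h5 := congrArg (fun x : ℤ_[p] => (x : ℚ_[p])) hz
  rw [← sq]
  simpa using h5

/-- the field `ℚ_p` -/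
theorem SQV.exists_j (v : HeightOneSpectrum (𝓞 ℚ)) [Fact (ng v).Prime] :
    Nonempty (ℚ_[ng v] →+* v.adicCompletion ℚ) := by
  have j : Nonempty (ℚ_[(Rat.HeightOneSpectrum.primesEquiv v : ℕ)] →+* v.adicCompletion ℚ) := by
    letI : Algebra ℚ (v.adicCompletion ℚ) := HeightOneSpectrum.instAlgebraAdicCompletion (𝓞 ℚ) ℚ v
    exact ⟨((Rat.HeightOneSpectrum.adicCompletion.padicEquiv v).toAlgEquiv.toRingEquiv.symm : _ →+* _)⟩
  exact j

theorem t_SQV : S_SQV := by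
  intro W hW d hd v hv
  haveI : Fact (ng v).Prime := ⟨ng_prime v⟩
  obtain ⟨j⟩ := SQV.exists_j v
  have h24 : (24 : ℤ) ∣ d - 1 := by
    have h1 : ((24 : ℕ) : ℤ) ∣ (W : ℤ) := Int.natCast_dvd_natCast.2 hW.dvd
    exact (by exact_mod_cast h1 : (24 : ℤ) ∣ (W : ℤ)).trans hd
  have hp : ((ng v : ℕ) : ℤ) ∣ d - 1 := (Int.natCast_dvd_natCast.2 hv).trans hd
  obtain ⟨δ, hδ⟩ := SQV.sq_int (ng v) d h24 hp
  refine ⟨j δ, ?_⟩
  rw [← map_mul, hδ, map_intCast]

end Pool.Agent.H29A
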