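import Pool.Agent.H29A.Stm
import Pool.Agent.Helper29L.Up

/-!
# Project ALL, piece SUPW: the upper bound for the 2-Selmer group of a twist over `ℚ`
-/

set_option autoImplicit false
set_option linter.all false

open Polynomial IsDedekindDomain WeierstrassCurve WeierstrassCurve.Affine NumberField
open Pool.Agent.TH115.GD
open scoped Classical IntermediateField

namespace Pool.Agent.H29A

open Pool.Agent.N922.PQ
open Pool.Agent.H30GR
open Pool.Agent.Helper29L (Gp PBad InB PD NBas NN cubD)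
open Pool.Agent.N874.PP (Tup chA chB gq tau Two Ev Sq1 U0 sW IsBeta Rt)
open Pool.Agent.R425.G (ng)

namespace SUPW

/-- the product of numbers which are one modulo `W` -/
theorem prod_one {W : ℤ} {Z : Finset ℤ} (h : ∀ Q ∈ Z, W ∣ Q - 1) : W ∣ (∏ Q ∈ Z, Q) - 1 := by
  have h1 : (∏ Q ∈ Z, Q) ≡ ∏ Q ∈ Z, 1 [ZMOD W] := by
    have : ∀ Q ∈ Z, Q ≡ 1 [ZMOD W] := fun Q hQ => (Int.modEq_iff_dvd.2 (by
      have := h Q hQ
      rw [← dvd_neg]
      simpa using this))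
    exact Int.ModEq.prod this
  rw [Finset.prod_const_one] at h1
  have h2 := Int.modEq_iff_dvd.1 h1.symm
  exact h2

/-- no rational root -/
theorem rat_root {a b : ℤ} (h : ∀ z : ℤ, z ^ 3 + a * z + b ≠ 0) (t : ℚ) :
    t ^ 3 + (a : ℚ) * t + (b : ℚ) ≠ 0 := by
  intro ht
  have hint : _root_.IsIntegral ℤ t := by
    refine ⟨X ^ 3 + C a * X + C b, by monicity!, ?_⟩
    rw [← aeval_def, map_add, map_add, map_mul, map_pow, aeval_X, aeval_C, aeval_C]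
    simpa only [eq_intCast, map_intCast] using ht
  obtain ⟨z, rfl⟩ := IsIntegrallyClosed.isIntegral_iff.1 hint
  apply h z
  simp only [eq_intCast] at ht
  exact_mod_cast ht

end SUPW

open SUPW in
theorem t_SUPW (hG : S_GLC) (hT : S_TWC) (hS : S_SQV) (hE : S_EVC) : S_SUPW := by
  intro W hW L _ _ a b θ Z d hc hGW hZ hd N hN m z hz h2z hlz hdiff
  have H : Parts2 := parts2
  have h6M : (6 : ℚ) ≠ 0 := by norm_num
  have hD0 : d ≠ 0 := by
    rw [hd]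
    exact (Finset.prod_pos fun Q hQ => (hZ Q hQ).pr.1).ne'
  have hW1 : (W : ℤ) ∣ d - 1 := by
    rw [hd]
    exact prod_one fun Q hQ => (hZ Q hQ).one
  have hdsc : dsc a b ≠ 0 := hGW.pos.ne'
  have hirrD : Irreducible (X ^ 3 + C (((a * d ^ 2 : ℤ)) : ℚ) * X +
      C (((b * d ^ 3 : ℤ)) : ℚ) : ℚ[X]) :=
    irr_tw' (F := ℚ) (a := a * d ^ 2) (b := b * d ^ 3)
      (fun t => no_root_tw' (rat_root hGW.irr) hD0 t)
  have hdisc' : 4 * (a * d ^ 2) ^ 3 + 27 * (b * d ^ 3) ^ 2 ≠ 0 := by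
    have e : 4 * (a * d ^ 2) ^ 3 + 27 * (b * d ^ 3) ^ 2 = d ^ 6 * dsc a b := by
      simp only [dsc]
      ring
    rw [e]
    exact mul_ne_zero (pow_ne_zero _ hD0) hdsc
  have hdisc : 4 * (((a * d ^ 2 : ℤ)) : ℚ) ^ 3 + 27 * (((b * d ^ 3 : ℤ)) : ℚ) ^ 2 ≠ 0 := by
    exact_mod_cast hdisc'
  have hroot := hc.root
  have hcD : IsCub (a * d ^ 2) (b * d ^ 3) ((d : L) * θ) := cubD hc hD0
  have hRt : Rt (((a * d ^ 2 : ℤ)) : ℚ) (((b * d ^ 3 : ℤ)) : ℚ) ((d : L) * θ) := by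
    unfold Rt
    rw [map_intCast, map_intCast, Int.cast_mul a, Int.cast_mul b, Int.cast_pow, Int.cast_pow]
    linear_combination ((d : ℤ) : L) ^ 3 * hroot
  have hex : ∀ i, ∃ (β : Sep ℚ → Sep ℚ) (h : ℚ[X]),
      IsBeta (((a * d ^ 2 : ℤ)) : ℚ) (((b * d ^ 3 : ℤ)) : ℚ) (z i) β ∧
      (∀ t : Sep ℚ, Rt (((a * d ^ 2 : ℤ)) : ℚ) (((b * d ^ 3 : ℤ)) : ℚ) t →
        aeval t h = β t ^ 2) := by
    intro i
    obtain ⟨β, hβ⟩ := H.p.gb ℚ _ _ h6M hdisc hirrD (z i) (hz i) (h2z i)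
    obtain ⟨h, hh, hn⟩ := H.p.gn ℚ _ _ h6M hdisc hirrD (z i) (hz i) (h2z i) β hβ
    exact ⟨β, h, hβ, hh⟩
  choose β h hβ hh using hex
  refine hN m (fun i => aeval ((d : L) * θ) (h i)) (fun i => ?_) (fun i j hij hsq => ?_)
  · obtain ⟨hx0, hxN, hxE, hxU⟩ := hE W hW L a b θ Z d hc hGW hZ hd (z i) (hz i) (h2z i) (hlz i)
      (β i) (h i) (hβ i) (hh i)
    refine ⟨⟨hx0, hxN, fun v hv => ?_, hxE⟩, hxU⟩
    rw [hT L a b θ hc hdsc v d hD0 (hS W hW d hW1 v hv)]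
    exact hG (a * d ^ 2) (b * d ^ 3) hdisc' (z i) (hz i) (h2z i) (β i) (h i) (hβ i) (hh i) v
      (hlz i v) L ((d : L) * θ) hcD
  · apply hij
    apply hdiff
    obtain ⟨T', hT', hT2⟩ := H.p.gt ℚ _ _ h6M hdisc hirrD (fun σ => z i σ - z j σ)
      (coc_sub (hz i) (hz j)) (fun σ => by rw [nsmul_sub, h2z, h2z, sub_zero])
      (fun t => β i t * β j t) (h i * h j)
      (beta_sub h6M hdisc hirrD (h2z i) (h2z j) (hβ i) (hβ j))
      (fun t ht => by rw [map_mul, hh i t ht, hh j t ht, mul_pow]) L _ hRt hc.rank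
      (by rw [map_mul]; exact hsq)
    exact ⟨T', hT', hT2⟩

end Pool.Agent.H29A
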