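import Pool.Agent.H29A.Stm
import Pool.Agent.Helper29L.Lat5

/-!
# Project ALL (helper29), piece TTW: the conditions at `Q ∈ S`

Port of `Helper29L/Lat5.lean` with integrality at `Q` only.
-/

set_option autoImplicit false
set_option linter.all false

open IsDedekindDomain NumberField Matrix
open scoped Classical

namespace Pool.Agent.H29A

open Pool.Agent.N922.PQ
open Pool.Agent.N301.PQ (mem_P1 val_lt_mem exO theta_ex mapO poly_mem)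
open Pool.Agent.N227.PQ (co_crd eq_co co_smul co_int_smul co_th det_T)
open Pool.Agent.N774.PQ (quad prm)
open Pool.Agent.N874.PP (Tup chA chB gq tau Two Ev Sq1 U0 sW)
open Pool.Agent.Helper29L (Gp PD NN cubD InB coD Q_ne par2 div2 ev_div stepB' odd_not_dvd sum_B)

theorem gp_disc {a b Q : ℤ} (hQ : Gp a b Q) : ¬ Q ∣ dsc a b := by
  intro hd
  have hp := hQ.pr.2
  have ha : ¬ Q ∣ a := fun h1 => hQ.ns 0 (by simpa using h1)
  have h2 : ¬ Q ∣ 2 := odd_not_dvd hQ.pr hQ.m8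
  have e : (4 : ℤ) * a ^ 3 = dsc a b - 27 * b ^ 2 := by simp only [dsc]; ring
  have h3 : Q ∣ 4 * a ^ 3 := by
    rw [e]
    exact dvd_sub hd ((hQ.db.pow (by norm_num)).mul_left _)
  rcases hp.dvd_or_dvd h3 with h4 | h4
  · have h5 : (4 : ℤ) = 2 * 2 := by norm_num
    rw [h5] at h4
    exact (hp.dvd_or_dvd h4).elim h2 h2
  · exact ha (hp.dvd_of_dvd_pow h4)

section lat

variable {L : Type} [Field L] [NumberField L]

/-- a multiple prime to `Q` has integral coordinates -/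
theorem crd_loc (hI : S_INL) {a b : ℤ} {θ : L} (h : IsCub a b θ) {Q : ℤ} (hQ : Gp a b Q)
    (w : 𝓞 L) : ∃ (s : ℤ) (v : Fin 3 → ℤ), ¬ Q ∣ s ∧ Crd θ v ((s : L) * algebraMap (𝓞 L) L w) := by
  have hd := gp_disc hQ
  have hd0 : dsc a b ≠ 0 := fun h0 => hd (h0 ▸ dvd_zero Q)
  obtain ⟨q, hq⟩ : ∃ q : ℕ, (q : ℤ) = Q := ⟨Q.toNat, Int.toNat_of_nonneg hQ.pr.1.le⟩
  subst hq
  have hqp : q.Prime := Nat.prime_iff_prime_int.2 hQ.pr.2
  exact hI L a b θ h hd0 q hqp (fun h1 => hd ((dvd_pow_self _ two_ne_zero).trans h1)) _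
    (RingOfIntegers.isIntegral_coe w)

theorem NBW.symm {a b : ℤ} {θ : L} {h : IsCub a b θ} {M N : ℤ} {hM : M ≠ 0} {α : L}
    {e : Fin 3 → L} {B : Matrix (Fin 3) (Fin 3) ℤ} (H : NBW h M N hM α e B) (i j : Fin 3) :
    B i j = B j i := by
  have h1 := H.c1 i j
  have h2 := H.c1 j i
  have h3 : e i * e j / α = e j * e i / α := by rw [mul_comm (e i)]
  rw [h3] at h1
  exact_mod_cast h1.symm.trans h2

/-- The values of the two forms. -/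
theorem NBW.val {a b : ℤ} {θ : L} {h : IsCub a b θ} {M N : ℤ} {hM : M ≠ 0} {α : L}
    {e : Fin 3 → L} {B : Matrix (Fin 3) (Fin 3) ℤ} (H : NBW h M N hM α e B) (η : Fin 3 → ℤ) :
    (cubD h hM).co 2 ((∑ i, (η i : L) * e i) ^ 2 / α) = ((2 * η 0 * η 2 + η 1 ^ 2 : ℤ) : ℚ) ∧
    (cubD h hM).co 1 ((∑ i, (η i : L) * e i) ^ 2 / α) =
      ((B 0 0 * η 0 ^ 2 + 2 * B 0 1 * η 0 * η 1 + 2 * B 0 2 * η 0 * η 2 - 2 * B 0 2 * η 1 ^ 2 +
        2 * B 1 2 * η 1 * η 2 + B 2 2 * η 2 ^ 2 : ℤ) : ℚ) := by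
  constructor
  · rw [quad ((cubD h hM).co 2) α e η (fun i j => JJ i j) (fun i j => H.c2 i j)]
    congr 1
    simp [Fin.sum_univ_three, JJ]
    ring
  · rw [quad ((cubD h hM).co 1) α e η (fun i j => B i j) (fun i j => H.c1 i j)]
    congr 1
    simp only [Fin.sum_univ_three]
    rw [H.b11, H.symm 1 0, H.symm 2 0, H.symm 2 1]
    ring

/-- **Two zeros.** -/
theorem tt_ofW (hI : S_INL) {a b : ℤ} {θ : L} (h : IsCub a b θ) {M N : ℤ}
    (hM : M ≠ 0) {α : L} (hα : α ≠ 0) {e : Fin 3 → L} {B : Matrix (Fin 3) (Fin 3) ℤ}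
    (H : NBW h M N hM α e B) {Q : ℤ} (hQ : Gp a b Q) (hQM : ¬ Q ∣ M) (hQD : ¬ Q ∣ N) {t : 𝓞 L}
    (ht : algebraMap (𝓞 L) L t = θ) {𝔓 𝔮 : HeightOneSpectrum (𝓞 L)} (hd : PD Q t 𝔓 𝔮)
    (hsP : Sq1 𝔓 α) (hsq' : Sq1 𝔮 α) : TT Q (⟨B 0 0, B 0 1, B 0 2, B 1 2, B 2 2⟩ : Tup ℤ) := by
  have hQp := hQ.pr.2
  have hQ2 := odd_not_dvd hQ.pr hQ.m8
  have hN0 : N ≠ 0 := fun h0 => hQD (h0 ▸ dvd_zero Q)
  obtain ⟨x₁, g₁, hx₁, hg₁, hg₁P, hg₁q⟩ := stepB' hα hsP hd.sep.1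
  obtain ⟨x₂, g₂, hx₂, hg₂, hg₂q, hg₂P⟩ := stepB' hα hsq' hd.sep.2
  obtain ⟨hh, hhh⟩ := hx₁.prod hα hx₂
  have hsqh : hh * hh = g₁ * g₂ := by
    apply IsFractionRing.injective (𝓞 L) L
    rw [map_mul, map_mul, hhh, hg₁, hg₂]
    field_simp
  have hhP : hh ∈ 𝔓.asIdeal := by
    have h1 : hh * hh ∈ 𝔓.asIdeal := by rw [hsqh]; exact 𝔓.asIdeal.mul_mem_left _ hg₂P
    exact (𝔓.isPrime.mem_or_mem h1).elim id id
  have hhq : hh ∈ 𝔮.asIdeal := by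
    have h1 : hh * hh ∈ 𝔮.asIdeal := by rw [hsqh]; exact 𝔮.asIdeal.mul_mem_right _ hg₁q
    exact (𝔮.isPrime.mem_or_mem h1).elim id id
  obtain ⟨η, hη⟩ := H.sup _ (hx₁.add hα hx₂)
  obtain ⟨η', hη'⟩ := H.sup _ (hx₁.sub hα hx₂)
  have hQq : (Q : ℚ) ≠ 0 := by exact_mod_cast hQp.ne_zero
  have hMq : (M : ℚ) ≠ 0 := by exact_mod_cast hM
  -- the values
  have hval : ∀ (c : ℤ), c = 1 ∨ c = -1 → ∀ ξ : Fin 3 → ℤ,
      (N : L) * (x₁ + (c : L) * x₂) = ∑ i, (ξ i : L) * e i →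
      Q ∣ 2 * ξ 0 * ξ 2 + ξ 1 ^ 2 ∧
      Q ∣ B 0 0 * ξ 0 ^ 2 + 2 * B 0 1 * ξ 0 * ξ 1 + 2 * B 0 2 * ξ 0 * ξ 2 - 2 * B 0 2 * ξ 1 ^ 2 +
        2 * B 1 2 * ξ 1 * ξ 2 + B 2 2 * ξ 2 ^ 2 := by
    intro c hc ξ hξ
    have hcc : c * c = 1 := by rcases hc with rfl | rfl <;> ring
    have hccL : (c : L) * (c : L) = 1 := by exact_mod_cast congrArg (Int.cast (R := L)) hcc
    obtain ⟨w, hw⟩ := hd.both (g₁ + 2 * (c : 𝓞 L) * hh + g₂ - 1) (by
      have e1 : g₁ + 2 * (c : 𝓞 L) * hh + g₂ - 1 = (g₁ - 1) + 2 * (c : 𝓞 L) * hh + g₂ := by ring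
      rw [e1]
      exact 𝔓.asIdeal.add_mem (𝔓.asIdeal.add_mem hg₁P (𝔓.asIdeal.mul_mem_left _ hhP)) hg₂P) (by
      have e1 : g₁ + 2 * (c : 𝓞 L) * hh + g₂ - 1 = g₁ + 2 * (c : 𝓞 L) * hh + (g₂ - 1) := by ring
      rw [e1]
      exact 𝔮.asIdeal.add_mem (𝔮.asIdeal.add_mem hg₁q (𝔮.asIdeal.mul_mem_left _ hhq)) hg₂q)
    have hv : (∑ i, (ξ i : L) * e i) ^ 2 / α =
        ((N ^ 2 : ℤ) : L) * 1 + ((N ^ 2 * Q : ℤ) : L) * algebraMap (𝓞 L) L w := by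
      rw [← hξ]
      have e2 : ((N : L) * (x₁ + (c : L) * x₂)) ^ 2 / α = (N : L) ^ 2 *
          (x₁ * x₁ / α + 2 * (c : L) * (x₁ * x₂ / α) + ((c : L) * (c : L)) * (x₂ * x₂ / α)) := by
        ring
      have e3 : algebraMap (𝓞 L) L (g₁ + 2 * (c : 𝓞 L) * hh + g₂ - 1) =
          (Q : L) * algebraMap (𝓞 L) L w := by rw [hw, map_mul, mapO]
      simp only [map_add, map_sub, map_mul, map_one, map_ofNat, mapO] at e3
      rw [e2, hccL, one_mul, ← hg₁, ← hg₂, ← hhh]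
      push_cast
      linear_combination (N : L) ^ 2 * e3
    obtain ⟨v2, v1⟩ := H.val ξ
    rw [hv, (coD h hM _).2, map_add, co_int_smul, co_int_smul] at v2
    rw [hv, (coD h hM _).1, map_add, co_int_smul, co_int_smul] at v1
    obtain ⟨s, m, hs, hm⟩ := crd_loc hI h hQ w
    have hm2 := Pool.Agent.N301.PQ.co_crd h hm 2
    have hm1 := Pool.Agent.N301.PQ.co_crd h hm 1
    rw [co_int_smul] at hm2 hm1
    have c20 : h.co 2 (1 : L) = 0 := by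
      have := (co_crd h 1 0 0).2.2
      simpa using this
    have c10 : h.co 1 (1 : L) = 0 := by
      have := (co_crd h 1 0 0).2.1
      simpa using this
    rw [c20, mul_zero, zero_add] at v2
    rw [c10, mul_zero, zero_add] at v1
    constructor
    · have h5 : (s * M ^ 2) * (2 * ξ 0 * ξ 2 + ξ 1 ^ 2) = Q * (N ^ 2 * m 2) := by
        have h6 : ((s : ℚ) * (M : ℚ) ^ 2) * ((2 * ξ 0 * ξ 2 + ξ 1 ^ 2 : ℤ) : ℚ) =
            (Q : ℚ) * ((N : ℚ) ^ 2 * (m 2 : ℚ)) := by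
          rw [← v2, ← hm2]
          push_cast
          field_simp
        exact_mod_cast h6
      have h7 : Q ∣ (s * M ^ 2) * (2 * ξ 0 * ξ 2 + ξ 1 ^ 2) := ⟨_, h5⟩
      rcases hQp.dvd_or_dvd h7 with h8 | h8
      · exact absurd ((hQp.dvd_or_dvd h8).resolve_left hs) fun h9 => hQM (hQp.dvd_of_dvd_pow h9)
      · exact h8
    · have h5 : (s * M) * (B 0 0 * ξ 0 ^ 2 + 2 * B 0 1 * ξ 0 * ξ 1 + 2 * B 0 2 * ξ 0 * ξ 2 -
          2 * B 0 2 * ξ 1 ^ 2 + 2 * B 1 2 * ξ 1 * ξ 2 + B 2 2 * ξ 2 ^ 2) = Q * (N ^ 2 * m 1) := by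
        have h6 : ((s : ℚ) * (M : ℚ)) * ((B 0 0 * ξ 0 ^ 2 + 2 * B 0 1 * ξ 0 * ξ 1 +
            2 * B 0 2 * ξ 0 * ξ 2 - 2 * B 0 2 * ξ 1 ^ 2 + 2 * B 1 2 * ξ 1 * ξ 2 +
            B 2 2 * ξ 2 ^ 2 : ℤ) : ℚ) = (Q : ℚ) * ((N : ℚ) ^ 2 * (m 1 : ℚ)) := by
          rw [← v1, ← hm1]
          push_cast
          field_simp
        exact_mod_cast h6
      have h7 : Q ∣ (s * M) * (B 0 0 * ξ 0 ^ 2 + 2 * B 0 1 * ξ 0 * ξ 1 + 2 * B 0 2 * ξ 0 * ξ 2 -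
          2 * B 0 2 * ξ 1 ^ 2 + 2 * B 1 2 * ξ 1 * ξ 2 + B 2 2 * ξ 2 ^ 2) := ⟨_, h5⟩
      rcases hQp.dvd_or_dvd h7 with h8 | h8
      · exact absurd ((hQp.dvd_or_dvd h8).resolve_left hs) hQM
      · exact h8
  obtain ⟨m1, m2⟩ := hval 1 (Or.inl rfl) η (by rw [Int.cast_one, one_mul]; exact hη)
  obtain ⟨m1', m2'⟩ := hval (-1) (Or.inr rfl) η' (by
    rw [Int.cast_neg, Int.cast_one, neg_one_mul, ← sub_eq_add_neg]; exact hη')
  refine prm hQp hQ2 _ _ _ _ _ η η' ?_ m1 m2 m1' m2'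
  by_contra hcon
  push Not at hcon
  have hg₁n : g₁ ∉ 𝔓.asIdeal := by
    intro hg
    apply 𝔓.isPrime.ne_top
    rw [Ideal.eq_top_iff_one]
    have := 𝔓.asIdeal.sub_mem hg hg₁P
    rwa [sub_sub_cancel] at this
  have hg₂n : g₂ ∉ 𝔮.asIdeal := by
    intro hg
    apply 𝔮.isPrime.ne_top
    rw [Ideal.eq_top_iff_one]
    have := 𝔮.asIdeal.sub_mem hg hg₂q
    rwa [sub_sub_cancel] at this
  have hDP : (N : 𝓞 L) ∉ 𝔓.asIdeal := fun h1 => hQD ((poly_mem hQp hd.ovP N).1 h1)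
  have hDq' : (N : 𝓞 L) ∉ 𝔮.asIdeal := fun h1 => hQD ((poly_mem hQp hd.ovq N).1 h1)
  have hDL : (N : L) ≠ 0 := Q_ne hN0
  -- all coordinates are divisible by `Q`
  have hdiv : ∀ j, Q ∣ η j := by
    intro j
    choose r hr using fun i => hcon j i
    have hrel : (N : L) * (((η j : ℤ) : L) * (x₁ - x₂) - ((η' j : ℤ) : L) * (x₁ + x₂)) =
        (Q : L) * ∑ i, ((r i : ℤ) : L) * e i := by
      have h1 : (N : L) * (((η j : ℤ) : L) * (x₁ - x₂) - ((η' j : ℤ) : L) * (x₁ + x₂)) =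
          ((η j : ℤ) : L) * ((N : L) * (x₁ - x₂)) - ((η' j : ℤ) : L) * ((N : L) * (x₁ + x₂)) := by
        ring
      rw [h1, hη, hη', Finset.mul_sum, Finset.mul_sum, Finset.mul_sum, ← Finset.sum_sub_distrib]
      refine Finset.sum_congr rfl fun i _ => ?_
      have h1 := congrArg (Int.cast (R := L)) (hr i)
      rw [Int.cast_sub, Int.cast_mul, Int.cast_mul, Int.cast_mul] at h1
      linear_combination (e i) * h1
    have hw : InB α (∑ i, ((r i : ℤ) : L) * e i) := sum_B hα H.mem r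
    obtain ⟨w₁, hw₁⟩ := hw.prod hα hx₁
    obtain ⟨w₂, hw₂⟩ := hw.prod hα hx₂
    have e1 : (N : 𝓞 L) * (((η j - η' j : ℤ) : 𝓞 L) * g₁) =
        (N : 𝓞 L) * (((η j + η' j : ℤ) : 𝓞 L) * hh) + (Q : 𝓞 L) * w₁ := by
      apply IsFractionRing.injective (𝓞 L) L
      simp only [map_add, map_mul, map_sub, mapO, hg₁, hhh, hw₁, Int.cast_sub, Int.cast_add]
      linear_combination (x₁ / α) * hrel
    have e2 : (N : 𝓞 L) * (((η j + η' j : ℤ) : 𝓞 L) * g₂) =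
        (N : 𝓞 L) * (((η j - η' j : ℤ) : 𝓞 L) * hh) - (Q : 𝓞 L) * w₂ := by
      apply IsFractionRing.injective (𝓞 L) L
      simp only [map_add, map_mul, map_sub, mapO, hg₂, hhh, hw₂, Int.cast_sub, Int.cast_add]
      linear_combination (-x₂ / α) * hrel
    have e3 : (N : 𝓞 L) * (((η j - η' j : ℤ) : 𝓞 L) * g₁) ∈ 𝔓.asIdeal := by
      rw [e1]
      exact 𝔓.asIdeal.add_mem (𝔓.asIdeal.mul_mem_left _ (𝔓.asIdeal.mul_mem_left _ hhP))
        (𝔓.asIdeal.mul_mem_right _ hd.ovP)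
    have e4 : (N : 𝓞 L) * (((η j + η' j : ℤ) : 𝓞 L) * g₂) ∈ 𝔮.asIdeal := by
      rw [e2]
      exact 𝔮.asIdeal.sub_mem (𝔮.asIdeal.mul_mem_left _ (𝔮.asIdeal.mul_mem_left _ hhq))
        (𝔮.asIdeal.mul_mem_right _ hd.ovq)
    have e3' := (𝔓.isPrime.mem_or_mem e3).resolve_left hDP
    have e4' := (𝔮.isPrime.mem_or_mem e4).resolve_left hDq'
    have e5 : Q ∣ η j - η' j :=
      (poly_mem hQp hd.ovP _).1 ((𝔓.isPrime.mem_or_mem e3').resolve_right hg₁n)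
    have e6 : Q ∣ η j + η' j :=
      (poly_mem hQp hd.ovq _).1 ((𝔮.isPrime.mem_or_mem e4').resolve_right hg₂n)
    have e7 : Q ∣ 2 * η j := by
      have := dvd_add e5 e6
      have e8 : η j - η' j + (η j + η' j) = 2 * η j := by ring
      rwa [e8] at this
    exact (hQp.dvd_or_dvd e7).resolve_left hQ2
  choose r hr using hdiv
  have hx : (N : L) * (x₁ + x₂) = (Q : L) * ∑ i, ((r i : ℤ) : L) * e i := by
    rw [hη, Finset.mul_sum]
    refine Finset.sum_congr rfl fun i _ => ?_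
    rw [hr i, Int.cast_mul]
    ring
  have hw : InB α (∑ i, ((r i : ℤ) : L) * e i) := sum_B hα H.mem r
  obtain ⟨w₁, hw₁⟩ := hw.prod hα hx₁
  have e1 : (N : 𝓞 L) * (g₁ + hh) = (Q : 𝓞 L) * w₁ := by
    apply IsFractionRing.injective (𝓞 L) L
    simp only [map_add, map_mul, mapO, hg₁, hhh, hw₁]
    linear_combination (x₁ / α) * hx
  have e2 : (N : 𝓞 L) * (g₁ + hh) ∈ 𝔓.asIdeal := by
    rw [e1]
    exact 𝔓.asIdeal.mul_mem_right _ hd.ovP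
  apply hg₁n
  have e3 := (𝔓.isPrime.mem_or_mem e2).resolve_left hDP
  have e4 : g₁ = (g₁ + hh) - hh := by ring
  rw [e4]
  exact 𝔓.asIdeal.sub_mem e3 hhP

/-- every integer is a square in the residue field at the prime of degree two -/
theorem sq_deg_two {a b Q : ℤ} {θ : L} (h : IsCub a b θ) (hQ : Gp a b Q) {t : 𝓞 L}
    (ht : algebraMap (𝓞 L) L t = θ) {𝔓 𝔮 : HeightOneSpectrum (𝓞 L)} (hd : PD Q t 𝔓 𝔮) (n : ℤ) :
    ∃ τ : 𝓞 L, τ ^ 2 - (n : 𝓞 L) ∈ 𝔮.asIdeal := by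
  have hQp := hQ.pr.2
  have htq2 : t ^ 2 + (a : 𝓞 L) ∈ 𝔮.asIdeal := by
    have hroot : t * (t ^ 2 + (a : 𝓞 L)) = -(b : 𝓞 L) := by
      apply IsFractionRing.injective (𝓞 L) L
      simp only [map_add, map_mul, map_pow, map_neg, mapO, ht]
      linear_combination h.root
    have h3 : t * (t ^ 2 + (a : 𝓞 L)) ∈ 𝔮.asIdeal := by
      rw [hroot]
      exact 𝔮.asIdeal.neg_mem ((poly_mem hQp hd.ovq b).2 hQ.db)
    exact (𝔮.isPrime.mem_or_mem h3).resolve_left hd.tq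
  have hsqr : ∃ r : ℤ, Q ∣ r ^ 2 - n ∨ Q ∣ a * r ^ 2 + n := by
    obtain ⟨q, hq⟩ : ∃ q : ℕ, (q : ℤ) = Q := ⟨Q.toNat, Int.toNat_of_nonneg hQ.pr.1.le⟩
    subst hq
    haveI : Fact q.Prime := ⟨Nat.prime_iff_prime_int.2 hQp⟩
    have hq2 : ringChar (ZMod q) ≠ 2 := by
      rw [ZMod.ringChar_zmod_n]
      rintro rfl
      have := hQ.m8
      norm_num at this
    have hns' : ¬ IsSquare ((-a : ℤ) : ZMod q) := by
      rintro ⟨r, hr⟩
      apply hQ.ns (r.val : ℤ)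
      rw [← ZMod.intCast_zmod_eq_zero_iff_dvd]
      push_cast
      rw [ZMod.natCast_zmod_val]
      push_cast at hr
      linear_combination -hr
    by_cases hcs : IsSquare ((n : ℤ) : ZMod q)
    · obtain ⟨r, hr⟩ := hcs
      refine ⟨(r.val : ℤ), Or.inl ?_⟩
      rw [← ZMod.intCast_zmod_eq_zero_iff_dvd]
      push_cast
      rw [ZMod.natCast_zmod_val, hr]
      ring
    · have ha0 : ((-a : ℤ) : ZMod q) ≠ 0 := by
        intro h0
        exact hns' (h0 ▸ IsSquare.zero)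
      have hprod : IsSquare (((n : ℤ) : ZMod q) * ((-a : ℤ) : ZMod q)) := by
        have c1 := quadraticChar_neg_one_iff_not_isSquare.2 hcs
        have c2 := quadraticChar_neg_one_iff_not_isSquare.2 hns'
        have c3 : quadraticChar (ZMod q) (((n : ℤ) : ZMod q) * ((-a : ℤ) : ZMod q)) = 1 := by
          rw [map_mul, c1, c2]
          norm_num
        exact (quadraticChar_one_iff_isSquare (by
          intro h0
          rw [h0, quadraticChar_zero] at c3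
          exact zero_ne_one c3)).1 c3
      obtain ⟨r, hr⟩ := hprod
      refine ⟨((r / ((-a : ℤ) : ZMod q)).val : ℤ), Or.inr ?_⟩
      rw [← ZMod.intCast_zmod_eq_zero_iff_dvd]
      push_cast
      rw [ZMod.natCast_zmod_val]
      push_cast at ha0 hr
      have ha1 : (a : ZMod q) ≠ 0 := fun h0 => ha0 (by rw [h0, neg_zero])
      push_cast
      field_simp
      linear_combination -hr
  obtain ⟨r, hr | hr⟩ := hsqr
  · refine ⟨(r : 𝓞 L), ?_⟩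
    have : (r : 𝓞 L) ^ 2 - (n : 𝓞 L) = ((r ^ 2 - n : ℤ) : 𝓞 L) := by push_cast; ring
    rw [this]
    exact (poly_mem hQp hd.ovq _).2 hr
  · refine ⟨(r : 𝓞 L) * t, ?_⟩
    have : ((r : 𝓞 L) * t) ^ 2 - (n : 𝓞 L) =
        (r : 𝓞 L) ^ 2 * (t ^ 2 + (a : 𝓞 L)) - ((a * r ^ 2 + n : ℤ) : 𝓞 L) := by
      push_cast; ring
    rw [this]
    exact 𝔮.asIdeal.sub_mem (𝔮.asIdeal.mul_mem_left _ htq2) ((poly_mem hQp hd.ovq _).2 hr)

/-- **No zero.** -/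
theorem no_isoW (hI : S_INL) {a b : ℤ} {θ : L} (h : IsCub a b θ) {M N : ℤ}
    (hM : M ≠ 0) {α : L} (hα : α ≠ 0) {e : Fin 3 → L} {B : Matrix (Fin 3) (Fin 3) ℤ}
    (H : NBW h M N hM α e B) {Q : ℤ} (hQ : Gp a b Q) (hQD : ¬ Q ∣ N) {t : 𝓞 L}
    (ht : algebraMap (𝓞 L) L t = θ) {𝔓 𝔮 : HeightOneSpectrum (𝓞 L)} (hd : PD Q t 𝔓 𝔮)
    (hevP : Ev 𝔓 α) (hevq : Ev 𝔮 α) (hns : ¬ Sq1 𝔮 α) (η : Fin 3 → ℤ) (hη : ∃ j, ¬ Q ∣ η j)
    (h2 : Q ∣ 2 * η 0 * η 2 + η 1 ^ 2)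
    (h1 : Q ∣ B 0 0 * η 0 ^ 2 + 2 * B 0 1 * η 0 * η 1 + 2 * B 0 2 * η 0 * η 2 -
      2 * B 0 2 * η 1 ^ 2 + 2 * B 1 2 * η 1 * η 2 + B 2 2 * η 2 ^ 2) : False := by
  have hQp := hQ.pr.2
  have hMq : (M : ℚ) ≠ 0 := by exact_mod_cast hM
  have hQL : (Q : L) ≠ 0 := Q_ne hQp.ne_zero
  set y := ∑ i, (η i : L) * e i with hy
  have hym : InB α y := sum_B hα H.mem η
  obtain ⟨z, hz⟩ := hym
  obtain ⟨s, v, hs, hv⟩ := crd_loc hI h hQ z
  have hsL : (s : L) ≠ 0 := by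
    have : s ≠ 0 := fun h0 => hs (h0 ▸ dvd_zero Q)
    exact_mod_cast this
  have e2 : Q ∣ v 2 ∧ Q ∣ v 1 := by
    obtain ⟨v2, v1⟩ := H.val η
    have hyy : y ^ 2 = y * y := pow_two y
    have w2' := Pool.Agent.N301.PQ.co_crd h hv 2
    have w1' := Pool.Agent.N301.PQ.co_crd h hv 1
    rw [co_int_smul] at w2' w1'
    rw [← hy, hyy, ← hz, (coD h hM _).2] at v2
    rw [← hy, hyy, ← hz, (coD h hM _).1] at v1
    rw [div_eq_iff (pow_ne_zero 2 hMq)] at v2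
    rw [div_eq_iff hMq] at v1
    rw [v2] at w2'
    rw [v1] at w1'
    have w2 : v 2 = s * ((2 * η 0 * η 2 + η 1 ^ 2) * M ^ 2) := by exact_mod_cast w2'.symm
    have w1 : v 1 = s * ((B 0 0 * η 0 ^ 2 + 2 * B 0 1 * η 0 * η 1 + 2 * B 0 2 * η 0 * η 2 -
      2 * B 0 2 * η 1 ^ 2 + 2 * B 1 2 * η 1 * η 2 + B 2 2 * η 2 ^ 2) * M) := by
      exact_mod_cast w1'.symm
    exact ⟨w2 ▸ (h2.mul_right _).mul_left _, w1 ▸ (h1.mul_right _).mul_left _⟩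
  obtain ⟨⟨c2, hc2⟩, ⟨c1, hc1⟩⟩ := e2
  have hzc : (s : 𝓞 L) * z =
      ((v 0 : ℤ) : 𝓞 L) + (Q : 𝓞 L) * ((c1 : 𝓞 L) * t + (c2 : 𝓞 L) * t ^ 2) := by
    apply IsFractionRing.injective (𝓞 L) L
    rw [map_mul, mapO, hv, hc1, hc2]
    simp only [map_add, map_mul, map_pow, mapO, ht]
    push_cast
    ring
  have hvα : 𝔮.valuation L α ≠ 0 := (Valuation.ne_zero_iff _).2 hα
  by_cases hc : Q ∣ v 0
  · -- `y` is divisible by `Q`
    obtain ⟨c0, hc0⟩ := hc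
    have hzQ : (s : 𝓞 L) * z =
        (Q : 𝓞 L) * ((c0 : 𝓞 L) + ((c1 : 𝓞 L) * t + (c2 : 𝓞 L) * t ^ 2)) := by
      rw [hzc, hc0]
      push_cast
      ring
    have hzP : 𝔓.valuation L (algebraMap (𝓞 L) L z) < 1 := by
      rw [val_lt_mem]
      have h3 : (s : 𝓞 L) * z ∈ 𝔓.asIdeal := by
        rw [hzQ]
        exact 𝔓.asIdeal.mul_mem_right _ hd.ovP
      exact (𝔓.isPrime.mem_or_mem h3).resolve_left fun h4 => hs ((poly_mem hQp hd.ovP _).1 h4)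
    have hzq : 𝔮.valuation L (algebraMap (𝓞 L) L z) < 1 := by
      rw [val_lt_mem]
      have h3 : (s : 𝓞 L) * z ∈ 𝔮.asIdeal := by
        rw [hzQ]
        exact 𝔮.asIdeal.mul_mem_right _ hd.ovq
      exact (𝔮.isPrime.mem_or_mem h3).resolve_left fun h4 => hs ((poly_mem hQp hd.ovq _).1 h4)
    obtain ⟨w, hw⟩ := div2 (L := L) hQp.ne_zero hd
      (by rw [hz] at hzP ⊢; exact par2 hd.unif (ev_div hα hevP) hzP)
      (by rw [hz] at hzq ⊢; exact par2 hd.unif' (ev_div hα hevq) hzq)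
    have hyQ : InB α (y / (Q : L)) := by
      refine ⟨w, ?_⟩
      have e1 : y / (Q : L) * (y / (Q : L)) / α = (y * y / α) / (Q : L) ^ 2 := by
        field_simp
      rw [e1, ← hz, hw, map_mul, map_pow, mapO]
      field_simp
    obtain ⟨c, hc'⟩ := H.sup _ hyQ
    have hrel : ∑ i, (((N * η i - Q * c i : ℤ) : ℚ)) • e i = 0 := by
      have e1 : (N : L) * y - (Q : L) * ((N : L) * (y / (Q : L))) = 0 := by
        field_simp
        ring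
      rw [hc', hy, Finset.mul_sum, Finset.mul_sum, ← Finset.sum_sub_distrib] at e1
      rw [← e1]
      refine Finset.sum_congr rfl fun i _ => ?_
      rw [Rat.smul_def]
      push_cast
      ring
    obtain ⟨j, hj⟩ := hη
    have h3 := Fintype.linearIndependent_iff.1 H.li _ hrel j
    have h4 : N * η j = Q * c j := by
      have : (N * η j - Q * c j : ℤ) = 0 := by exact_mod_cast h3
      linarith
    have h5 : Q ∣ N * η j := ⟨c j, h4⟩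
    exact (hQp.dvd_or_dvd h5).elim hQD hj
  · -- a square root of `s v 0` modulo `𝔮`
    obtain ⟨τ, hτ⟩ := sq_deg_two h hQ ht hd (s * v 0)
    have hτn : τ ∉ 𝔮.asIdeal := by
      intro h3
      have h5 : Q ∣ s * v 0 := by
        rw [← poly_mem hQp hd.ovq]
        have h4 := 𝔮.asIdeal.sub_mem (𝔮.asIdeal.mul_mem_left τ h3) hτ
        have e1 : τ * τ - (τ ^ 2 - ((s * v 0 : ℤ) : 𝓞 L)) = ((s * v 0 : ℤ) : 𝓞 L) := by ring
        rwa [e1] at h4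
      exact (hQp.dvd_or_dvd h5).elim hs hc
    have hvτ := (HeightOneSpectrum.valuation_eq_one_iff_notMem (K := L) 𝔮).2 hτn
    have hzτ : τ ^ 2 - (s : 𝓞 L) ^ 2 * z ∈ 𝔮.asIdeal := by
      have e1 : τ ^ 2 - (s : 𝓞 L) ^ 2 * z = (τ ^ 2 - ((s * v 0 : ℤ) : 𝓞 L)) -
          (s : 𝓞 L) * ((Q : 𝓞 L) * ((c1 : 𝓞 L) * t + (c2 : 𝓞 L) * t ^ 2)) := by
        push_cast
        linear_combination -(s : 𝓞 L) * hzc
      rw [e1]
      exact 𝔮.asIdeal.sub_mem hτ (𝔮.asIdeal.mul_mem_left _ (𝔮.asIdeal.mul_mem_right _ hd.ovq))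
    apply hns
    refine ⟨(s : L) * y / algebraMap (𝓞 L) L τ, ?_⟩
    have hτ0 : algebraMap (𝓞 L) L τ ≠ 0 := by
      intro h0
      rw [h0, map_zero] at hvτ
      exact zero_ne_one hvτ
    have e1 : α - ((s : L) * y / algebraMap (𝓞 L) L τ) ^ 2 =
        α * (algebraMap (𝓞 L) L (τ ^ 2 - (s : 𝓞 L) ^ 2 * z)) / algebraMap (𝓞 L) L τ ^ 2 := by
      rw [map_sub, map_mul, map_pow, map_pow, mapO, hz]
      field_simp
    rw [e1, map_div₀, map_mul, map_pow, hvτ, one_pow, div_one]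
    calc _ < 𝔮.valuation L α * 1 :=
          (mul_lt_mul_iff_right₀ (zero_lt_iff.2 hvα)).2 ((val_lt_mem 𝔮 _).2 hzτ)
      _ = _ := mul_one _

end lat

theorem t_TTW (hI : S_INL) : S_TTW := by
  intro L _ _ a b θ h M N hM α e B hα H Q hQ hQM hQN t ht 𝔓 𝔮 hd
  refine ⟨fun hsP hsq => tt_ofW hI h hM hα H hQ hQM hQN ht hd hsP hsq, fun hevP hevq hns => ?_⟩
  have hkey := no_isoW hI h hM hα H hQ hQN ht hd hevP hevq hns
  refine ⟨?_, ?_⟩
  · intro h8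
    refine hkey ![1, 0, 0] ⟨0, ?_⟩ ?_ ?_
    · intro h9
      exact hQ.pr.2.not_unit (isUnit_of_dvd_one (by simpa using h9))
    · simp
    · simpa using h8
  · intro u h8
    refine hkey ![-2 * u ^ 2, 2 * u, 1] ⟨2, ?_⟩ ?_ ?_
    · intro h9
      exact hQ.pr.2.not_unit (isUnit_of_dvd_one (by simpa using h9))
    · refine ⟨0, ?_⟩
      simp only [Matrix.cons_val_zero, Matrix.cons_val_one, Matrix.cons_val]
      ring
    · convert h8 using 1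
      simp only [Matrix.cons_val_zero, Matrix.cons_val_one, Matrix.cons_val, gq]
      ring

end Pool.Agent.H29A
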