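import Pool.Agent.H29A.Stm

/-!
# Project ALL (helper29): piece TWC
-/

set_option autoImplicit false
set_option linter.all false

open Polynomial IsDedekindDomain NumberField WeierstrassCurve WeierstrassCurve.Affine
open scoped Classical

namespace Pool.Agent.H29A.TWC

open Pool.Agent.TH115.GD
open Pool.Agent.R425.G
open Pool.Agent.Y710.CV (Cond)
open Pool.Agent.N922.PQ (IsCub)
open Pool.Agent.Helper29L.SZ (VV disc_VV)

section one

variable {Ω : Type} [Field Ω] [Algebra ℚ Ω]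

theorem c1 (a b : ℤ) : ((VV a b).baseChange Ω).toAffine.a₁ = 0 := by
  show algebraMap ℚ Ω 0 = 0
  exact map_zero _

theorem c2 (a b : ℤ) : ((VV a b).baseChange Ω).toAffine.a₂ = 0 := by
  show algebraMap ℚ Ω 0 = 0
  exact map_zero _

theorem c3 (a b : ℤ) : ((VV a b).baseChange Ω).toAffine.a₃ = 0 := by
  show algebraMap ℚ Ω 0 = 0
  exact map_zero _

theorem c4 (a b : ℤ) : ((VV a b).baseChange Ω).toAffine.a₄ = (a : Ω) := by
  show algebraMap ℚ Ω (a : ℚ) = _
  exact map_intCast _ _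

theorem c6 (a b : ℤ) : ((VV a b).baseChange Ω).toAffine.a₆ = (b : Ω) := by
  show algebraMap ℚ Ω (b : ℚ) = _
  exact map_intCast _ _

theorem isC_scale {a b a' b' : ℤ} {D : Ω} (hD : D ≠ 0) (ha : (a' : Ω) = a * D ^ 4)
    (hb : (b' : Ω) = b * D ^ 6) {x y z : Ω}
    (h : IsC ((VV a' b').baseChange Ω).toAffine (D ^ 2 * x) (D ^ 2 * y) (D ^ 2 * z)) :
    IsC ((VV a b).baseChange Ω).toAffine x y z := by
  obtain ⟨h1, h3, h2, h4, h6, htwo, hab, hac, hbc⟩ := h
  rw [c2] at h2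
  rw [c4, ha] at h4
  rw [c6, hb] at h6
  refine ⟨c1 a b, c3 a b, ?_, ?_, ?_, htwo, fun h => hab (by rw [h]), fun h => hac (by rw [h]),
    fun h => hbc (by rw [h])⟩
  · rw [c2]
    have : D ^ 2 * (-(x + y + z)) = D ^ 2 * 0 := by linear_combination -h2
    exact (mul_left_cancel₀ (pow_ne_zero 2 hD) this).symm
  · rw [c4]
    apply mul_left_cancel₀ (pow_ne_zero 4 hD)
    linear_combination h4
  · rw [c6]
    apply mul_left_cancel₀ (pow_ne_zero 6 hD)
    linear_combination h6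

theorem ns_scale {a b a' b' : ℤ} (hd : Pool.Agent.N922.PQ.dsc a' b' ≠ 0) {D : Ω}
    (ha : (a' : Ω) = a * D ^ 4) (hb : (b' : Ω) = b * D ^ 6) {x y : Ω}
    (h : ((VV a b).baseChange Ω).toAffine.Nonsingular x y) :
    ((VV a' b').baseChange Ω).toAffine.Nonsingular (D ^ 2 * x) (D ^ 3 * y) := by
  have h1 := h.1
  rw [Affine.equation_iff, c1, c2, c3, c4, c6] at h1
  rw [← Affine.equation_iff_nonsingular_of_Δ_ne_zero]
  · rw [Affine.equation_iff, c1, c2, c3, c4, c6, ha, hb]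
    linear_combination D ^ 6 * h1
  · show ((VV a' b').baseChange Ω).Δ ≠ 0
    rw [WeierstrassCurve.baseChange, WeierstrassCurve.map_Δ]
    exact (_root_.map_ne_zero _).2 (Pool.Agent.Helper29L.SZ.iv_VV hd).Δ

end one

theorem tw {F Ω A : Type} [Field F] [Field Ω] [Field A] [Algebra F Ω] [Algebra ℚ F] [Algebra ℚ Ω]
    [IsScalarTower ℚ F Ω] {a b a' b' : ℤ} (hd : Pool.Agent.N922.PQ.dsc a' b' ≠ 0) {θ θ' z : A}
    {δ : F} (hδ : δ ≠ 0) (ha : (a' : F) = a * δ ^ 4) (hb : (b' : F) = b * δ ^ 6)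
    (hθ : ∀ φ : A →+* Ω, φ θ' = algebraMap F Ω δ ^ 2 * φ θ)
    (h : Cond F Ω (VV a b) θ z) : Cond F Ω (VV a' b') θ' z := by
  obtain ⟨D, hDd⟩ : ∃ D : Ω, D = algebraMap F Ω δ := ⟨_, rfl⟩
  have hD : D ≠ 0 := by
    rw [hDd]
    exact (_root_.map_ne_zero _).2 hδ
  have hσD : ∀ σ : Ω ≃ₐ[F] Ω, σ D = D := fun σ => by rw [hDd]; exact σ.commutes δ
  have haΩ : (a' : Ω) = a * D ^ 4 := by
    have := congrArg (algebraMap F Ω) ha
    rw [map_intCast, map_mul, map_pow, map_intCast] at this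
    rw [hDd]
    exact this
  have hbΩ : (b' : Ω) = b * D ^ 6 := by
    have := congrArg (algebraMap F Ω) hb
    rw [map_intCast, map_mul, map_pow, map_intCast] at this
    rw [hDd]
    exact this
  have hfix : ∀ (φ : A →+* Ω) (σ : Ω ≃ₐ[F] Ω), σ (φ θ') = φ θ' → σ (φ θ) = φ θ := by
    intro φ σ h1
    rw [hθ, ← hDd, map_mul, map_pow, hσD] at h1
    exact mul_left_cancel₀ (pow_ne_zero 2 hD) h1
  have hcc : ∀ (φ : A →+* Ω) (e c : Ω), IsC ((VV a' b').baseChange Ω).toAffine (φ θ') e c →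
      IsC ((VV a b).baseChange Ω).toAffine (φ θ) ((D ^ 2)⁻¹ * e) ((D ^ 2)⁻¹ * c) := by
    intro φ e c h1
    apply isC_scale hD haΩ hbΩ
    rw [mul_inv_cancel_left₀ (pow_ne_zero 2 hD), mul_inv_cancel_left₀ (pow_ne_zero 2 hD), hDd,
      ← hθ φ]
    exact h1
  obtain ⟨R, hR, hφ⟩ := h
  rcases R with _ | ⟨x, y, hxy⟩
  · refine ⟨0, fun σ => map_zero _, fun φ => ?_⟩
    obtain ⟨w, hw, hz⟩ := hφ φ
    refine ⟨w, fun σ hσ => hw σ (hfix φ σ hσ), fun e c hC => ?_⟩
    exact hz _ _ (hcc φ e c hC)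
  · refine ⟨Point.some _ _ (ns_scale hd haΩ hbΩ hxy), fun σ => ?_, fun φ => ?_⟩
    · have h1 := hR σ
      obtain ⟨h', hh⟩ := act_some (VV a b) (rs ℚ σ) hxy
      rw [hh, Point.some.injEq] at h1
      obtain ⟨h'', hh''⟩ := act_some (VV a' b') (rs ℚ σ) (ns_scale hd haΩ hbΩ hxy)
      rw [hh'', Point.some.injEq]
      have e1 : (rs ℚ σ) D = D := hσD σ
      constructor
      · rw [map_mul, map_pow, e1, h1.1]
      · rw [map_mul, map_pow, e1, h1.2]
    · obtain ⟨w, hw, hz⟩ := hφ φ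
      by_cases hx : x = φ θ
      · refine ⟨w * (D ^ 2)⁻¹, fun σ hσ => ?_, fun e c hC => ?_⟩
        · rw [map_mul, map_inv₀, map_pow, hσD, hw σ (hfix φ σ hσ)]
        · rw [hz _ _ (hcc φ e c hC)]
          have e2 : D ^ 2 * x = φ θ' := by rw [hx, hθ φ, hDd]
          simp only [dc]
          rw [if_pos hx, if_pos e2, hθ φ, ← hDd]
          field_simp
      · refine ⟨w * D⁻¹, fun σ hσ => ?_, fun e c hC => ?_⟩
        · rw [map_mul, map_inv₀, hσD, hw σ (hfix φ σ hσ)]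
        · rw [hz _ _ (hcc φ e c hC)]
          have e2 : ¬ D ^ 2 * x = φ θ' := by
            rw [hθ φ, ← hDd]
            intro h3
            exact hx (mul_left_cancel₀ (pow_ne_zero 2 hD) h3)
          simp only [dc]
          rw [if_neg hx, if_neg e2, hθ φ, ← hDd]
          field_simp

end Pool.Agent.H29A.TWC

namespace Pool.Agent.H29A

open Pool.Agent.N922.PQ

theorem t_TWC : S_TWC := by
  intro L _ _ a b θ h hd v d hd0 hsq z
  obtain ⟨δ, hδ⟩ := hsq
  haveI : CharZero (v.adicCompletion ℚ) := algebraRat.charZero _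
  haveI : CharZero (AlgebraicClosure (v.adicCompletion ℚ)) := algebraRat.charZero _
  have hdF : ((d : ℤ) : v.adicCompletion ℚ) ≠ 0 := Int.cast_ne_zero.2 hd0
  have hδ0 : δ ≠ 0 := by
    rintro rfl
    rw [mul_zero] at hδ
    exact hdF hδ
  have hdΩ : ((d : ℤ) : AlgebraicClosure (v.adicCompletion ℚ)) =
      algebraMap (v.adicCompletion ℚ) (AlgebraicClosure (v.adicCompletion ℚ)) δ ^ 2 := by
    have := congrArg (algebraMap (v.adicCompletion ℚ) (AlgebraicClosure (v.adicCompletion ℚ))) hδ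
    rw [map_intCast, map_mul] at this
    rw [this, sq]
  have hdd : dsc (a * d ^ 2) (b * d ^ 3) ≠ 0 := by
    have : dsc (a * d ^ 2) (b * d ^ 3) = d ^ 6 * dsc a b := by
      unfold dsc
      ring
    rw [this]
    exact mul_ne_zero (pow_ne_zero 6 hd0) hd
  have hφd : ∀ φ : L →+* AlgebraicClosure (v.adicCompletion ℚ), φ ((d : L) * θ) =
      algebraMap (v.adicCompletion ℚ) (AlgebraicClosure (v.adicCompletion ℚ)) δ ^ 2 * φ θ := by
    intro φ
    rw [map_mul, map_intCast, hdΩ]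
  unfold CondAt
  constructor
  · refine TWC.tw hdd hδ0 ?_ ?_ hφd
    · push_cast
      rw [hδ]
      ring
    · push_cast
      rw [hδ]
      ring
  · refine TWC.tw hd (inv_ne_zero hδ0) ?_ ?_ fun φ => ?_
    · push_cast
      rw [hδ]
      field_simp
    · push_cast
      rw [hδ]
      field_simp
    · rw [hφd, ← mul_assoc, ← mul_pow, ← map_mul, inv_mul_cancel₀ hδ0, map_one, one_pow, one_mul]

end Pool.Agent.H29A
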