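import Pool.Agent.H29A.Stm
import Pool.Agent.N803.PQ.Unim

/-!
# Project ALL (helper29), piece UNW (helper52): even valuations give isotropy over `ℚ_p`, `p` odd

Port of `Pool/Agent/N803/PQ/Unim.lean` (helper803) with the local integrality `S_INL`.
-/

set_option autoImplicit false
set_option linter.all false

open IsDedekindDomain NumberField
open scoped Classical Matrix

namespace Pool.Agent.H29A

open Pool.Agent.N922.PQ
open Pool.Agent.N803.PQ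
open Pool.Agent.N874.PP (Ev Sq1 U0)

theorem t_UNW (h0 : S_INL) : S_UNW := by
  intro L _ _ a b θ h hdsc p _ h2 hp2 α hα hev
  have hp : p.Prime := Fact.out
  have hP : Prime (p : ℤ) := Nat.prime_iff_prime_int.1 hp
  have hINT := h0 L a b θ h hdsc p hp hp2
  have hfin := fin_over (L := L) (O := 𝓞 L) hP.ne_zero
  have hev' : ∀ 𝔓 : HeightOneSpectrum (𝓞 L), ∃ y : L, Ov (p : ℤ) 𝔓 → y ≠ 0 ∧
      𝔓.valuation L α = 𝔓.valuation L y ^ 2 := by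
    intro 𝔓
    by_cases h𝔓 : Ov (p : ℤ) 𝔓
    · obtain ⟨y, hy⟩ := hev 𝔓 h𝔓
      refine ⟨y, fun _ => ⟨?_, hy⟩⟩
      rintro rfl
      rw [map_zero, zero_pow two_ne_zero, map_eq_zero] at hy
      exact hα hy
    · exact ⟨0, fun h => absurd h h𝔓⟩
  choose y hy using hev'
  obtain ⟨g0, hg0, hgv⟩ := weak (L := L) hfin.toFinset y (fun 𝔓 h𝔓 =>
    (hy 𝔓 (by simpa using h𝔓)).1)
  have hgv' : ∀ 𝔓 : HeightOneSpectrum (𝓞 L), Ov (p : ℤ) 𝔓 → 𝔓.valuation L (g0 ^ 2 / α) = 1 := by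
    intro 𝔓 h𝔓
    rw [map_div₀, map_pow, hgv 𝔓 (by simpa using h𝔓), (hy 𝔓 h𝔓).2, div_self]
    exact pow_ne_zero _ ((Valuation.ne_zero_iff _).2 (hy 𝔓 h𝔓).1)
  obtain ⟨s₀, hs₀, hsi₀⟩ := loc_int hP (g0 ^ 2 / α) fun 𝔓 h𝔓 => (hgv' 𝔓 h𝔓).le
  obtain ⟨s₁, v₁, hs₁, hv₁⟩ := hINT _ hsi₀
  -- `s = s₀ s₁`
  obtain ⟨s, hsdef⟩ : ∃ s : ℤ, s = s₁ * s₀ := ⟨_, rfl⟩
  have hs : ¬ (p : ℤ) ∣ s := by
    rw [hsdef]
    intro hd
    rcases hP.dvd_or_dvd hd with h | h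
    · exact hs₁ h
    · exact hs₀ h
  have hsL : (s : L) = (s₁ : L) * (s₀ : L) := by rw [hsdef]; push_cast; rfl
  have hs0 : (s : L) ≠ 0 := by
    intro h
    apply hs
    have : s = 0 := by exact_mod_cast h
    rw [this]; exact dvd_zero _
  obtain ⟨g, hg⟩ : ∃ g : L, g = (s : L) * g0 := ⟨_, rfl⟩
  have hgne : g ≠ 0 := by rw [hg]; exact mul_ne_zero hs0 hg0
  have hδ0 : g ^ 2 / α ≠ 0 := div_ne_zero (pow_ne_zero _ hgne) hα
  have hδv : ∀ 𝔓 : HeightOneSpectrum (𝓞 L), Ov (p : ℤ) 𝔓 → 𝔓.valuation L (g ^ 2 / α) = 1 := by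
    intro 𝔓 h𝔓
    have e : g ^ 2 / α = (s : L) ^ 2 * (g0 ^ 2 / α) := by
      rw [hg]; ring
    rw [e, map_mul, map_pow, val_eq hP h𝔓 hs, hgv' 𝔓 h𝔓, one_pow, one_mul]
  obtain ⟨d, hd⟩ : ∃ d : Fin 3 → ℤ, Crd θ d (g ^ 2 / α) := by
    refine ⟨mulc a b ![s, 0, 0] v₁, ?_⟩
    have e : g ^ 2 / α = (s : L) * ((s₁ : L) * ((s₀ : L) * (g0 ^ 2 / α))) := by
      rw [hg, hsL]; ring
    rw [e]
    exact crd_mul h (crd_int s) hv₁
  obtain ⟨s', hs', hsi'⟩ := loc_int hP (g ^ 2 / α)⁻¹ fun 𝔓 h𝔓 => by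
    rw [map_inv₀, hδv 𝔓 h𝔓, inv_one]
  obtain ⟨s₂, e, hs₂, he⟩ := hINT _ hsi'
  have hprod : mulc a b d e = ![s₂ * s', 0, 0] := by
    refine crd_uniq h (crd_mul h hd he) ?_
    have e1 : g ^ 2 / α * ((s₂ : L) * ((s' : L) * (g ^ 2 / α)⁻¹)) = ((s₂ * s' : ℤ) : L) := by
      have : g ^ 2 / α * ((s₂ : L) * ((s' : L) * (g ^ 2 / α)⁻¹)) =
          (s₂ : L) * (s' : L) * (g ^ 2 / α * (g ^ 2 / α)⁻¹) := by ring
      rw [this, mul_inv_cancel₀ hδ0, mul_one]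
      push_cast
      rfl
    rw [e1]
    exact crd_int (s₂ * s')
  have hdet : ¬ (p : ℤ) ∣ (Matrix.of (hk a b d)).det := by
    intro hdvd
    have h3 := hk_det_mul a b d e
    rw [hprod, hk_det_int, neg_neg] at h3
    have h4 : (p : ℤ) ∣ (s₂ * s') ^ 3 := by
      rw [← h3]; exact Dvd.dvd.mul_right hdvd _
    rcases hP.dvd_or_dvd (hP.dvd_of_dvd_pow h4) with h5 | h5
    · exact hs₂ h5
    · exact hs' h5
  obtain ⟨z, hz, hz0⟩ := iso_unim h2 (hk a b d) (hk_symm a b d) hdet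
  have hF : IsoF h p α fun i : Fin 3 => g * θ ^ (i : ℕ) := by
    refine ⟨z, hz, ?_⟩
    rw [← hz0]
    refine Finset.sum_congr rfl fun i _ => Finset.sum_congr rfl fun j _ => ?_
    rw [gram h hd, Rat.cast_intCast]
  exact iso_change h p α (li_mul (li_pow h) hgne) (li_pow h) hF

end Pool.Agent.H29A
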