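import Pool.Agent.H29A.Stm
import Pool.Agent.N849.PQ.Int
import Pool.Agent.N301.PQ.TTV

/-!
# Project ALL, piece INW
-/

set_option autoImplicit false
set_option linter.all false

open IsDedekindDomain NumberField Filter
open scoped Classical Matrix

namespace Pool.Agent.H29A

open Pool.Agent.N922.PQ

theorem isInt_root {L : Type} [Field L] [CharZero L] {a b : ℤ} {θ : L} (h : IsCub a b θ) : IsIntegral ℤ θ := by
  refine ⟨Polynomial.X ^ 3 + Polynomial.C a * Polynomial.X + Polynomial.C b, ?_, ?_⟩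
  · monicity!
  · rw [Polynomial.eval₂_add, Polynomial.eval₂_add, Polynomial.eval₂_mul, Polynomial.eval₂_C,
      Polynomial.eval₂_C, Polynomial.eval₂_X, Polynomial.eval₂_pow, Polynomial.eval₂_X]
    simpa using h.root

/-- there is an integer `m` with `m ^ 2 ∣ dsc a b` and `m 𝓞 ⊆ ℤ[θ]` -/
theorem exists_index {L : Type} [Field L] [NumberField L] {a b : ℤ} {θ : L} (h : IsCub a b θ) :
    ∃ m : ℤ, m ^ 2 ∣ dsc a b ∧ ∀ x : L, IsIntegral ℤ x → ∃ v : Fin 3 → ℤ, Crd θ v ((m : L) * x) := by
  have hcard : Fintype.card (Module.Free.ChooseBasisIndex ℤ (𝓞 L)) = 3 := by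
    rw [← Module.finrank_eq_card_basis (NumberField.integralBasis L), h.rank]
  let ω : Module.Basis (Fin 3) ℚ L :=
    (NumberField.integralBasis L).reindex (Fintype.equivFinOfCardEq hcard)
  have hco : ∀ y : L, IsIntegral ℤ y → ∃ c : Fin 3 → ℤ, y = ∑ i, (c i : L) * ω i := by
    intro y hy
    obtain ⟨z, rfl⟩ := (IsIntegralClosure.isIntegral_iff (A := 𝓞 L)).1 hy
    refine ⟨fun i => (RingOfIntegers.basis L).repr z ((Fintype.equivFinOfCardEq hcard).symm i), ?_⟩
    have h1 := ω.sum_repr (algebraMap (𝓞 L) L z)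
    rw [← h1]
    refine Finset.sum_congr rfl fun i _ => ?_
    have h2 : ω.repr (algebraMap (𝓞 L) L z) i =
        (((RingOfIntegers.basis L).repr z ((Fintype.equivFinOfCardEq hcard).symm i) : ℤ) : ℚ) := by
      simp only [ω, Module.Basis.repr_reindex_apply]
      exact NumberField.integralBasis_repr_apply L z _
    rw [h2, Rat.smul_def]
    push_cast
    rfl
  have hωi : ∀ i, IsIntegral ℤ (ω i) := by
    intro i
    simp only [ω, Module.Basis.reindex_apply]
    rw [NumberField.integralBasis_apply]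
    exact RingOfIntegers.isIntegral_coe _
  have hvi : ∀ i, IsIntegral ℤ (vec θ i) := by
    intro i
    have h1 := isInt_root h
    fin_cases i
    · exact isIntegral_one
    · exact h1
    · exact h1.pow 2
  choose c hc using fun i => hco (vec θ i) (hvi i)
  let M : Matrix (Fin 3) (Fin 3) ℤ := Matrix.of c
  have hM : ∀ i, vec θ i = ∑ j, (M i j : L) * ω j := fun i => hc i
  obtain ⟨D, hD⟩ := IsIntegrallyClosed.isIntegral_iff.1 (Algebra.discr_isIntegral ℚ (R := ℤ) hωi)
  have hdis := Algebra.discr_of_matrix_mulVec (A := ℚ) (fun i => ω i) (M.map (Int.castRingHom ℚ))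
  have hmv : ((M.map (Int.castRingHom ℚ)).map (algebraMap ℚ L)) *ᵥ (fun i => ω i) = vec θ := by
    funext i
    rw [hM i]
    simp [Matrix.mulVec, dotProduct]
  rw [hmv, Pool.Agent.N849.PQ.discr_vec h] at hdis
  have hdet : (M.map (Int.castRingHom ℚ)).det = ((M.det : ℤ) : ℚ) := by
    have := (Int.castRingHom ℚ).map_det M
    simpa using this.symm
  have hdd : -dsc a b = M.det ^ 2 * D := by
    rw [hdet] at hdis
    rw [eq_intCast] at hD
    have h1 : ((-dsc a b : ℤ) : ℚ) = ((M.det ^ 2 * D : ℤ) : ℚ) := by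
      rw [Int.cast_neg, Int.cast_mul, Int.cast_pow, hD]
      exact hdis
    exact_mod_cast h1
  refine ⟨M.det, ⟨-D, by linear_combination -hdd⟩, ?_⟩
  intro x hx
  obtain ⟨w, hw⟩ := hco x hx
  refine ⟨fun i => ∑ j, w j * M.adjugate j i, ?_⟩
  have h1 : ∀ j, ((M.det : ℤ) : L) * ω j = ∑ i, ((M.adjugate j i : ℤ) : L) * vec θ i := by
    intro j
    have h2 : M.adjugate * M = M.det • (1 : Matrix (Fin 3) (Fin 3) ℤ) := Matrix.adjugate_mul M
    have h3 : ∀ k, ∑ i, M.adjugate j i * M i k = M.det * (1 : Matrix (Fin 3) (Fin 3) ℤ) j k := by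
      intro k
      have := congrFun (congrFun h2 j) k
      simpa [Matrix.mul_apply] using this
    calc ((M.det : ℤ) : L) * ω j
        = ∑ k, ((M.det * (1 : Matrix (Fin 3) (Fin 3) ℤ) j k : ℤ) : L) * ω k := by
          simp [Matrix.one_apply]
      _ = ∑ k, ∑ i, ((M.adjugate j i : ℤ) : L) * ((M i k : ℤ) : L) * ω k := by
          refine Finset.sum_congr rfl fun k _ => ?_
          rw [← h3 k]
          push_cast
          rw [Finset.sum_mul]
      _ = ∑ i, ((M.adjugate j i : ℤ) : L) * vec θ i := by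
          rw [Finset.sum_comm]
          refine Finset.sum_congr rfl fun i _ => ?_
          rw [hM i, Finset.mul_sum]
          refine Finset.sum_congr rfl fun k _ => ?_
          ring
  have h4 : ((M.det : ℤ) : L) * x = ∑ i, ((∑ j, w j * M.adjugate j i : ℤ) : L) * vec θ i := by
    calc ((M.det : ℤ) : L) * x = ∑ j, (w j : L) * (((M.det : ℤ) : L) * ω j) := by
          rw [hw, Finset.mul_sum]
          refine Finset.sum_congr rfl fun j _ => ?_
          ring
      _ = ∑ j, ∑ i, (w j : L) * (((M.adjugate j i : ℤ) : L) * vec θ i) := by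
          refine Finset.sum_congr rfl fun j _ => ?_
          rw [h1 j, Finset.mul_sum]
      _ = ∑ i, ((∑ j, w j * M.adjugate j i : ℤ) : L) * vec θ i := by
          rw [Finset.sum_comm]
          refine Finset.sum_congr rfl fun i _ => ?_
          push_cast
          rw [Finset.sum_mul]
          refine Finset.sum_congr rfl fun j _ => ?_
          ring
  rw [Crd, h4, Fin.sum_univ_three]
  simp [vec]

theorem t_INW : S_INW := by
  intro W hW L _ _ a b θ h hG x hx
  obtain ⟨m, hm, H⟩ := exists_index h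
  obtain ⟨v, hv⟩ := H x hx
  have hmW : m.natAbs ∣ W := by
    rw [Nat.dvd_iff_prime_pow_dvd_dvd]
    intro p k hp hk
    rcases Nat.eq_zero_or_pos k with rfl | hk0
    · simp
    have h1 : ((p : ℤ) ^ (2 * k)) ∣ dsc a b := by
      have h2 : ((p : ℤ) ^ k) ∣ m := by
        rw [← Int.natCast_pow]
        exact Int.natCast_dvd.2 hk
      calc ((p : ℤ) ^ (2 * k)) = ((p : ℤ) ^ k) ^ 2 := by rw [← pow_mul, mul_comm]
        _ ∣ m ^ 2 := pow_dvd_pow_of_dvd h2 2
        _ ∣ dsc a b := hm
    have h3 := hG.pow p (2 * k) hp (by omega) h1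
    exact (pow_dvd_pow p (by omega)).trans h3
  obtain ⟨s, hs⟩ : m ∣ (W : ℤ) := Int.natAbs_dvd.1 (Int.natCast_dvd_natCast.2 hmW)
  refine ⟨fun i => s * v i, ?_⟩
  have hv' := hv
  unfold Crd at hv' ⊢
  have hW' : (W : L) = (m : L) * (s : L) := by
    have : ((W : ℤ) : L) = ((m * s : ℤ) : L) := by rw [hs]
    push_cast at this
    exact this
  push_cast
  rw [hW']
  linear_combination (s : L) * hv'

end Pool.Agent.H29A
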