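import Pool.Agent.H29A.Det

/-!
# Project ALL: the levels (as `Helper29L/Lev2.lean`)
-/

set_option autoImplicit false
set_option linter.all false

open Finset Filter
open scoped Classical

namespace Pool.Agent.H29A

open Pool.Agent.Helper29L (UnbSet FewSet)
open Pool.Agent.Helper29K (SE Pr8 zS NR)

/-- finite sets of primes `1` modulo `W`, larger than `N`, outside a finite set, with a large sum of the
reciprocals -/
theorem prW (h : S_PRW) {W : ℕ} (hW : OKW W) (N : ℕ) (T : Finset ℕ) (Λ : ℝ) :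
    ∃ 𝒬 : Finset ℕ, PrW W N 𝒬 ∧ Disjoint T 𝒬 ∧ Λ ≤ ∑ Q ∈ 𝒬, (1 : ℝ) / Q := by
  obtain ⟨𝒬, h1, h2, h3, h4⟩ := h W hW.ne (T ∪ range (N + 1)) Λ
  refine ⟨𝒬, ⟨h1, fun Q hQ => ⟨?_, ?_⟩⟩, Disjoint.mono_left Finset.subset_union_left h3, h4⟩
  · have h5 := (h2 Q hQ).1
    have h6 : Q ≡ 1 [MOD W] := h5
    have h7 : (1 : ℕ) ≤ Q := (h1 Q hQ).1.one_lt.le
    have h8 := (Nat.modEq_iff_dvd' h7).1 h6.symm
    have h9 : ((W : ℕ) : ℤ) ∣ ((Q - 1 : ℕ) : ℤ) := Int.natCast_dvd_natCast.2 h8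
    rwa [Nat.cast_sub h7, Nat.cast_one] at h9
  · by_contra hcon
    exact Finset.disjoint_left.1 h3 (Finset.mem_union_right _ (Finset.mem_range.2 (by omega))) hQ

/-- the estimates for one more level -/
lemma lev_step (hM : S_MOMW) (κ : ℕ) {δ ε : ℝ} (hδ : 0 < δ) (hδ1 : δ ≤ 1 / 4) (hε : 0 < ε)
    {M₀ : ℕ} (hM₀ : 0 < M₀) (V : Finset ℕ) (hV : ∀ Q ∈ V, 0 < Q) :
    ∃ Λ₀ : ℝ, ∀ 𝒬 : Finset ℕ, Pr8 𝒬 → Λ₀ ≤ ∑ Q ∈ 𝒬, (1 : ℝ) / Q → ∃ m ≥ 1, ∀ᶠ X : ℕ in atTop,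
      ((FewA 𝒬 m X).ncard : ℝ) ≤ ε * (X : ℝ) ^ 5 ∧
      (∀ Z ⊆ V, (UnbSet κ (M₀ * (∏ Q ∈ Z, Q) * X) 𝒬 δ m).Finite) ∧
      (∑ Z ∈ V.powerset, ((UnbSet κ (M₀ * (∏ Q ∈ Z, Q) * X) 𝒬 δ m).ncard : ℝ)) ≤
        ε * (X : ℝ) ^ 5 := by
  obtain ⟨P, hP⟩ : ∃ P : ℕ, P = M₀ * ∏ Q ∈ V, Q := ⟨_, rfl⟩
  have hPV : 0 < ∏ Q ∈ V, Q := Finset.prod_pos hV
  have hP0 : 0 < P := by rw [hP]; exact Nat.mul_pos hM₀ hPV
  have hP1 : (1 : ℝ) ≤ P := by exact_mod_cast hP0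
  have hc : (1 : ℝ) ≤ 2 ^ V.card * (P : ℝ) ^ 5 := by
    have h1 : (1 : ℝ) ≤ 2 ^ V.card := one_le_pow₀ (by norm_num)
    have h2 : (1 : ℝ) ≤ (P : ℝ) ^ 5 := one_le_pow₀ hP1
    nlinarith
  obtain ⟨ε', hε'⟩ : ∃ ε' : ℝ, ε' = ε / (2 ^ V.card * (P : ℝ) ^ 5) := ⟨_, rfl⟩
  have hε'0 : 0 < ε' := by rw [hε']; positivity
  have hε'1 : ε' ≤ ε := by rw [hε']; exact div_le_self hε.le hc
  obtain ⟨Λ₀, hΛ⟩ := hM κ δ ε' hδ hδ1 hε'0 1
  refine ⟨Λ₀, fun 𝒬 h𝒬 hL => ?_⟩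
  obtain ⟨m, hm, hev⟩ := hΛ 𝒬 h𝒬 hL
  refine ⟨m, hm, ?_⟩
  have hZ : ∀ Z ∈ V.powerset, ∀ᶠ X : ℕ in atTop,
      (UnbSet κ (M₀ * (∏ Q ∈ Z, Q) * X) 𝒬 δ m).Finite ∧
      ((UnbSet κ (M₀ * (∏ Q ∈ Z, Q) * X) 𝒬 δ m).ncard : ℝ) ≤
        ε' * (((M₀ * (∏ Q ∈ Z, Q) * X : ℕ)) : ℝ) ^ 5 := by
    intro Z hZ
    rw [mem_powerset] at hZ
    have hz0 : 0 < M₀ * ∏ Q ∈ Z, Q := Nat.mul_pos hM₀ (Finset.prod_pos fun Q hQ => hV Q (hZ hQ))
    have ht : Tendsto (fun X : ℕ => M₀ * (∏ Q ∈ Z, Q) * X) atTop atTop := by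
      refine tendsto_atTop_mono (fun X => ?_) tendsto_id
      exact Nat.le_mul_of_pos_left X hz0
    exact (ht.eventually hev).mono fun X h => h.2
  rw [← Filter.eventually_all_finset] at hZ
  filter_upwards [hev, hZ] with X h1 h2
  refine ⟨h1.1.trans ?_, fun Z hZV => (h2 Z (mem_powerset.2 hZV)).1, ?_⟩
  · exact mul_le_mul_of_nonneg_right hε'1 (by positivity)
  · have h3 : ∀ Z ∈ V.powerset, ((UnbSet κ (M₀ * (∏ Q ∈ Z, Q) * X) 𝒬 δ m).ncard : ℝ) ≤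
        ε / 2 ^ V.card * (X : ℝ) ^ 5 := by
      intro Z hZ
      refine (h2 Z hZ).2.trans ?_
      rw [mem_powerset] at hZ
      have h4 : ((M₀ * ∏ Q ∈ Z, Q : ℕ) : ℝ) ≤ P := by
        have : M₀ * ∏ Q ∈ Z, Q ≤ P := by
          rw [hP]
          exact Nat.mul_le_mul_left _ (Nat.le_of_dvd hPV (Finset.prod_dvd_prod_of_subset _ _ _ hZ))
        exact_mod_cast this
      have h5 : (((M₀ * (∏ Q ∈ Z, Q) * X : ℕ)) : ℝ) ^ 5 ≤ (P : ℝ) ^ 5 * (X : ℝ) ^ 5 := by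
        rw [Nat.cast_mul, ← mul_pow]
        exact pow_le_pow_left₀ (by positivity) (mul_le_mul_of_nonneg_right h4 (Nat.cast_nonneg _)) 5
      calc ε' * (((M₀ * (∏ Q ∈ Z, Q) * X : ℕ)) : ℝ) ^ 5 ≤ ε' * ((P : ℝ) ^ 5 * (X : ℝ) ^ 5) :=
            mul_le_mul_of_nonneg_left h5 hε'0.le
        _ = ε / 2 ^ V.card * (X : ℝ) ^ 5 := by
            rw [hε']
            have : (P : ℝ) ≠ 0 := by positivity
            field_simp
    refine (Finset.sum_le_sum h3).trans (le_of_eq ?_)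
    rw [Finset.sum_const, Finset.card_powerset, nsmul_eq_mul]
    push_cast
    field_simp

/-- **The levels.** -/
theorem lev (hM : S_MOMW) (hP : S_PRW) {W : ℕ} (hW : OKW W) {M₀ : ℕ} (hM₀ : 0 < M₀) (N κ k : ℕ) {δ ε : ℝ}
    (hδ : 0 < δ) (hδ1 : δ ≤ 1 / 4) (hε : 0 < ε) (𝒬₀ : Finset ℕ) :
    ∃ (𝒬 : ℕ → Finset ℕ) (m : ℕ → ℕ), (∀ i < k, PrW W N (𝒬 i) ∧ Disjoint 𝒬₀ (𝒬 i) ∧ 1 ≤ m i) ∧
      (∀ i < k, ∀ j < i, Disjoint (𝒬 j) (𝒬 i)) ∧ ∀ᶠ X : ℕ in atTop, ∀ i < k,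
      ((FewA (𝒬 i) (m i) X).ncard : ℝ) ≤ ε * (X : ℝ) ^ 5 ∧
      (∀ Z ⊆ (range i).biUnion 𝒬, (UnbSet κ (M₀ * (∏ Q ∈ Z, Q) * X) (𝒬 i) δ (m i)).Finite) ∧
      (∑ Z ∈ ((range i).biUnion 𝒬).powerset,
        ((UnbSet κ (M₀ * (∏ Q ∈ Z, Q) * X) (𝒬 i) δ (m i)).ncard : ℝ)) ≤ ε * (X : ℝ) ^ 5 := by
  induction k with
  | zero =>
    refine ⟨fun _ => ∅, fun _ => 0, fun i hi => absurd hi (Nat.not_lt_zero _),
      fun i hi => absurd hi (Nat.not_lt_zero _), Eventually.of_forall fun X i hi => absurd hi (Nat.not_lt_zero _)⟩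
  | succ k ih =>
    obtain ⟨𝒬, m, h1, h2, h3⟩ := ih
    set V : Finset ℕ := (range k).biUnion 𝒬 with hVdef
    have hV : ∀ Q ∈ V, 0 < Q := by
      intro Q hQ
      obtain ⟨j, hj, hQj⟩ := Finset.mem_biUnion.1 hQ
      exact ((h1 j (mem_range.1 hj)).1.1 Q hQj).1.pos
    obtain ⟨Λ₀, hΛ⟩ := lev_step hM κ hδ hδ1 hε hM₀ V hV
    obtain ⟨𝒬', hp, hd, hL⟩ := prW hP hW N (𝒬₀ ∪ V) Λ₀
    obtain ⟨m', hm', hev⟩ := hΛ 𝒬' hp.1 hL
    have eU : ∀ i ≤ k, (range i).biUnion (Function.update 𝒬 k 𝒬') = (range i).biUnion 𝒬 := by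
      intro i hi
      refine Finset.biUnion_congr rfl fun j hj => ?_
      rw [mem_range] at hj
      rw [Function.update_of_ne (by omega)]
    refine ⟨Function.update 𝒬 k 𝒬', Function.update m k m', fun i hi => ?_, fun i hi j hj => ?_, ?_⟩
    · rcases Nat.lt_succ_iff_lt_or_eq.1 hi with h | h
      · rw [Function.update_of_ne (by omega), Function.update_of_ne (by omega)]
        exact h1 i h
      · subst h
        rw [Function.update_self, Function.update_self]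
        exact ⟨hp, Disjoint.mono_left Finset.subset_union_left hd, hm'⟩
    · rcases Nat.lt_succ_iff_lt_or_eq.1 hi with h | h
      · rw [Function.update_of_ne (by omega), Function.update_of_ne (by omega)]
        exact h2 i h j hj
      · subst h
        rw [Function.update_self, Function.update_of_ne (by omega)]
        refine Disjoint.mono_left ?_ hd
        refine subset_trans ?_ Finset.subset_union_right
        exact Finset.subset_biUnion_of_mem 𝒬 (mem_range.2 hj)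
    · filter_upwards [h3, hev] with X h4 h5 i hi
      rw [eU i (by omega)]
      rcases Nat.lt_succ_iff_lt_or_eq.1 hi with h | h
      · rw [Function.update_of_ne (by omega), Function.update_of_ne (by omega)]
        exact h4 i h
      · subst h
        rw [Function.update_self, Function.update_self]
        exact h5

end Pool.Agent.H29A
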