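import Pool.Agent.H29A.Stm
import Pool.Agent.Helper29L.LOW9

/-!
# Project ALL, piece RAMC: the places over the discriminant (port of `Helper29L/LOW6.lean`; the
discriminant need not be squarefree, only the square of the prime does not divide it)
-/

set_option autoImplicit false
set_option linter.all false

open NumberField IsDedekindDomain WithZero WeierstrassCurve WeierstrassCurve.Affine
open scoped NNReal Classical

namespace Pool.Agent.H29A.RAMCP

open Pool.Agent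
open Pool.Agent.TH115.GD
open Pool.Agent.Y710.CV (Cond cond1 cond2)
open Pool.Agent.Y702.G (sh base pts)
open Pool.Agent.R425 (sqrt_fix mem_of_fixed exists_data)
open Pool.Agent.R425.G
open Pool.Agent.N922.PQ (IsCub Ov IsPr Loc2 PL2)
open Pool.Agent.N874.PP (Ev Sq1 U0)
open Pool.Agent.Helper29K (InFamily)
open Pool.Agent.Helper29L
open Pool.Agent.Helper29L.LOW

section odd

variable {L Ω' : Type} [Field L] [Field Ω'] [Algebra L Ω'] [IsAlgClosed Ω'] [IsGalois L Ω']
  [CharZero Ω'] [Algebra ℚ L] [Algebra ℚ Ω'] [IsScalarTower ℚ L Ω'] (w : Valuation Ω' ℝ≥0)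
  (hσ : ∀ (σ : Ω' ≃ₐ[L] Ω') (x : Ω'), w (σ x) = w x) {p : ℕ}
  (hL : LD (w.comap (algebraMap L Ω')) p)
  {A : Type} [Field A] [NumberField A] {a b d : ℤ} {θ : A}

include hσ hL in
/-- a prime that divides the discriminant once, two roots being close -/
theorem cond_ramW_aux (h : IsCub a b θ) (hds0 : Pool.Agent.N922.PQ.dsc a b ≠ 0)
    (hsq : ¬ (p : ℤ) ^ 2 ∣ Pool.Agent.N922.PQ.dsc a b) (hd : d ≠ 0)
    (hp5 : 5 ≤ p) (hpd : ¬ (p : ℤ) ∣ d) (hdsc : (p : ℤ) ∣ Pool.Agent.N922.PQ.dsc a b)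
    {z : A} (hz : z ≠ 0) {r : ℚ} (hr : Algebra.norm ℚ z = r ^ 2)
    (hev : ∀ 𝔓 : HeightOneSpectrum (𝓞 A), Ov (p : ℤ) 𝔓 → Ev 𝔓 z) {e1 e2 e3 : Ω'}
    (hC : IsC ((sh (Wt a b d)).baseChange Ω').toAffine e1 e2 e3) (hlt : w (e2 - e3) < 1) :
    Cond L Ω' (sh (Wt a b d)) (4 * d * θ) z := by
  have hpr := hL.pr
  have hpZ : Prime (p : ℤ) := Nat.prime_iff_prime_int.1 hpr
  have h2p : ¬ (p : ℤ) ∣ 2 := by
    intro hh
    have h6 : p ∣ 2 := by exact_mod_cast hh
    have := Nat.le_of_dvd (by norm_num) h6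
    omega
  have h3p : ¬ (p : ℤ) ∣ 3 := by
    intro hh
    have h6 : p ∣ 3 := by exact_mod_cast hh
    have := Nat.le_of_dvd (by norm_num) h6
    omega
  have h2 : w (2 : Ω') = 1 := by
    have := w_unit w hL h2p
    exact_mod_cast this
  have h3 : w (3 : Ω') = 1 := by
    have := w_unit w hL h3p
    exact_mod_cast this
  have hdw := w_unit w hL hpd
  have hW : (Wt a b d).Δ ≠ 0 := by
    rw [Wt_disc]
    exact mul_ne_zero (mul_ne_zero (by norm_num) (pow_ne_zero 6 hd)) hds0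
  have hV := iv_sh (Wt a b d) hW
  have hcf := cf_of h hd
  -- the bounds
  have w1 := w_rt w hC.root_a
  have w2 := w_rt w hC.root_b
  have w3 := w_rt w hC.root_c
  -- the symmetric functions
  have hs1 : e1 + e2 + e3 = 0 := by
    have h5 := hC.e2
    have c2 : algebraMap ℚ Ω' (sh (Wt a b d)).a₂ = 0 := by
      show algebraMap ℚ Ω' (((Wt a b d).b₂ : ℤ) : ℚ) = _
      rw [Wt_b2]
      simp
    rw [c2] at h5
    linear_combination h5
  have hs2 : e1 * e2 + e1 * e3 + e2 * e3 = ((16 * a * d ^ 2 : ℤ) : Ω') := by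
    have h5 := hC.e4
    have c4 : algebraMap ℚ Ω' (sh (Wt a b d)).a₄ = ((16 * a * d ^ 2 : ℤ) : Ω') := by
      show algebraMap ℚ Ω' (8 * (((Wt a b d).b₄ : ℤ) : ℚ)) = _
      rw [Wt_b4]
      push_cast
      simp only [map_mul, map_pow, map_intCast, map_ofNat]
      ring
    rw [c4] at h5
    exact h5.symm
  have hs3 : e1 * e2 * e3 = -((64 * b * d ^ 3 : ℤ) : Ω') := by
    have h5 := hC.e6
    have c6 : algebraMap ℚ Ω' (sh (Wt a b d)).a₆ = ((64 * b * d ^ 3 : ℤ) : Ω') := by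
      show algebraMap ℚ Ω' (16 * (((Wt a b d).b₆ : ℤ) : ℚ)) = _
      rw [Wt_b6]
      push_cast
      simp only [map_mul, map_pow, map_intCast, map_ofNat]
      ring
    rw [c6] at h5
    linear_combination h5
  -- the three roots are not all close
  have hnot : ¬ w (e1 - e2) < 1 := by
    intro h12
    have h13 : w (e1 - e3) < 1 := by
      have e : e1 - e3 = (e1 - e2) + (e2 - e3) := by ring
      rw [e]
      exact Valuation.map_add_lt _ h12 hlt
    have h1 : w e1 < 1 := by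
      have e : 3 * e1 = (e1 - e2) + (e1 - e3) := by linear_combination hs1
      have h5 : w (3 * e1) < 1 := by
        rw [e]
        exact Valuation.map_add_lt _ h12 h13
      rwa [map_mul, h3, one_mul] at h5
    have h2' : w e2 < 1 := by
      have e : e2 = e1 - (e1 - e2) := by ring
      rw [e]
      exact (Valuation.map_sub _ _ _).trans_lt (max_lt h1 h12)
    have h3' : w e3 < 1 := by
      have e : e3 = e1 - (e1 - e3) := by ring
      rw [e]
      exact (Valuation.map_sub _ _ _).trans_lt (max_lt h1 h13)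
    have ha : (p : ℤ) ∣ 16 * a * d ^ 2 := by
      rw [← w_lt_iff w hL, ← hs2]
      refine Valuation.map_add_lt _ (Valuation.map_add_lt _ ?_ ?_) ?_
      · rw [map_mul]; exact mul_lt_one_of_lt_of_le h1 h2'.le
      · rw [map_mul]; exact mul_lt_one_of_lt_of_le h1 h3'.le
      · rw [map_mul]; exact mul_lt_one_of_lt_of_le h2' h3'.le
    have hb : (p : ℤ) ∣ 64 * b * d ^ 3 := by
      rw [← w_lt_iff w hL, ← Valuation.map_neg, ← hs3, map_mul, map_mul]
      exact mul_lt_one_of_lt_of_le (mul_lt_one_of_lt_of_le h1 h2'.le) h3'.le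
    have ha' : (p : ℤ) ∣ a := by
      have e : (16 * a * d ^ 2 : ℤ) = 2 ^ 4 * a * d ^ 2 := by ring
      rw [e] at ha
      rcases hpZ.dvd_or_dvd ha with h5 | h5
      · rcases hpZ.dvd_or_dvd h5 with h6 | h6
        · exact absurd (hpZ.dvd_of_dvd_pow h6) h2p
        · exact h6
      · exact absurd (hpZ.dvd_of_dvd_pow h5) hpd
    have hb' : (p : ℤ) ∣ b := by
      have e : (64 * b * d ^ 3 : ℤ) = 2 ^ 6 * b * d ^ 3 := by ring
      rw [e] at hb
      rcases hpZ.dvd_or_dvd hb with h5 | h5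
      · rcases hpZ.dvd_or_dvd h5 with h6 | h6
        · exact absurd (hpZ.dvd_of_dvd_pow h6) h2p
        · exact h6
      · exact absurd (hpZ.dvd_of_dvd_pow h5) hpd
    obtain ⟨a', rfl⟩ := ha'
    obtain ⟨b', rfl⟩ := hb'
    have hdd : (p : ℤ) * p ∣ Pool.Agent.N922.PQ.dsc (p * a') (p * b') := by
      refine ⟨4 * p * a' ^ 3 + 27 * b' ^ 2, ?_⟩
      unfold Pool.Agent.N922.PQ.dsc
      ring
    exact hsq (by rw [sq]; exact hdd)
  have d12 : w (e1 - e2) = 1 :=
    le_antisymm ((Valuation.map_sub _ _ _).trans (max_le w1 w2)) (not_lt.1 hnot)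
  have d13 : w (e1 - e3) = 1 := by
    have e : e1 - e3 = (e1 - e2) + (e2 - e3) := by ring
    rw [e, Valuation.map_add_eq_of_lt_left _ (by rw [d12]; exact hlt), d12]
  -- the discriminant
  obtain ⟨k, hk⟩ := hdsc
  have hpk : ¬ (p : ℤ) ∣ k := by
    rintro ⟨k', rfl⟩
    have hdd : (p : ℤ) * p ∣ Pool.Agent.N922.PQ.dsc a b := ⟨k', by rw [hk]; ring⟩
    exact hsq (by rw [sq]; exact hdd)
  have hodd : ∃ m : ℤ, w (e2 - e3) ^ 2 = w (p : Ω') ^ (2 * m + 1) := by
    refine ⟨0, ?_⟩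
    have hdi := congrArg w (disc_sh hC)
    rw [Wt_disc, hk, map_mul, map_mul, map_pow, map_pow, map_pow, d12, d13, one_pow, one_mul,
      one_mul] at hdi
    rw [hdi]
    have e : (256 * ((-16 * d ^ 6 * (p * k) : ℤ) : Ω')) = -(2 ^ 12 * ((d : ℤ) : Ω') ^ 6 * (k : Ω') * p) := by
      push_cast; ring
    rw [e, Valuation.map_neg, map_mul, map_mul, map_mul, map_pow, map_pow, h2, hdw,
      w_unit w hL hpk]
    simp
  -- the conjugates
  have hroot : ∀ σ : Ω' ≃ₐ[L] Ω', σ e1 = e1 := by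
    intro σ
    have r1 := hC.root (root_map σ hC.root_a)
    have r2 := hC.root (root_map σ hC.root_b)
    have r3 := hC.root (root_map σ hC.root_c)
    have n12 : σ e1 ≠ σ e2 := fun h => hC.ab (σ.injective h)
    have n13 : σ e1 ≠ σ e3 := fun h => hC.ac (σ.injective h)
    have n23 : σ e2 ≠ σ e3 := fun h => hC.bc (σ.injective h)
    have hs : w (σ e2 - σ e3) < 1 := by rw [← map_sub, hσ]; exact hlt
    have d12' : w (e2 - e1) = 1 := by rw [Valuation.map_sub_swap]; exact d12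
    have d13' : w (e3 - e1) = 1 := by rw [Valuation.map_sub_swap]; exact d13
    rcases r1 with r1 | r1 | r1
    · exact r1
    · exfalso
      rcases r2 with r2 | r2 | r2
      · rcases r3 with r3 | r3 | r3
        · exact n23 (r2.trans r3.symm)
        · exact n13 (r1.trans r3.symm)
        · rw [r2, r3] at hs; exact hs.ne d13
      · exact n12 (r1.trans r2.symm)
      · rcases r3 with r3 | r3 | r3
        · rw [r2, r3] at hs; exact hs.ne d13'
        · exact n13 (r1.trans r3.symm)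
        · exact n23 (r2.trans r3.symm)
    · exfalso
      rcases r2 with r2 | r2 | r2
      · rcases r3 with r3 | r3 | r3
        · exact n23 (r2.trans r3.symm)
        · rw [r2, r3] at hs; exact hs.ne d12
        · exact n13 (r1.trans r3.symm)
      · rcases r3 with r3 | r3 | r3
        · rw [r2, r3] at hs; exact hs.ne d12'
        · exact n23 (r2.trans r3.symm)
        · exact n13 (r1.trans r3.symm)
      · exact n12 (r1.trans r2.symm)
  have hwp0 := (w_alg w hL).2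
  have hwp1 := (w_alg w hL).1
  have hcj : Cj L e1 e2 e3 := by
    refine cj_of hC hroot fun hall => ?_
    obtain ⟨l, hl⟩ := mem_of_fixed (L := L) (x := e2 - e3) (fun σ => by
      rw [map_sub, (hall σ).1, (hall σ).2])
    have hl0 : l ≠ 0 := by
      rintro rfl
      rw [map_zero] at hl
      exact hC.bc (sub_eq_zero.1 hl.symm)
    obtain ⟨n, hn⟩ := hL.disc l hl0
    rw [Valuation.comap_apply, Valuation.comap_apply, map_natCast, hl] at hn
    obtain ⟨m, hm⟩ := hodd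
    rw [hn, ← zpow_natCast, ← zpow_mul] at hm
    have h5 : w (p : Ω') ^ (n * ((2 : ℕ) : ℤ) - (2 * m + 1)) = 1 := by
      rw [zpow_sub₀ hwp0, hm, div_self (zpow_ne_zero _ hwp0)]
    have h6 : (n * ((2 : ℕ) : ℤ) - (2 * m + 1)) = 0 := by
      by_contra h7
      rcases lt_or_gt_of_ne h7 with h8 | h8
      · have := one_lt_zpow_of_neg₀ (pos_of_ne_zero hwp0) hwp1 h8
        rw [h5] at this
        exact lt_irrefl _ this
      · have := zpow_lt_one₀ (pos_of_ne_zero hwp0) hwp1 h8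
        rw [h5] at this
        exact lt_irrefl _ this
    push_cast at h6
    omega
  -- the element
  set φ : A →+* Ω' := (em hcf (⟨e2, hC.root_b⟩ : Rt (sh (Wt a b d)) Ω') : A →+* Ω') with hφ
  have hζe : zf hcf z e2 = φ z := zf_root hcf z ⟨e2, hC.root_b⟩
  obtain ⟨y, hy0, hy⟩ := plc_ev w φ hpr.ne_zero hwp1 hz (hev _ (by
    show ((p : ℤ) : 𝓞 A) ∈ _
    have := q_mem_plc w φ hpr.ne_zero hwp1
    exact_mod_cast this))
  have hnorm := norm_em hcf hC z
  rw [← zf_root hcf z ⟨e1, hC.root_a⟩, ← zf_root hcf z ⟨e2, hC.root_b⟩,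
    ← zf_root hcf z ⟨e3, hC.root_c⟩, hr, map_pow, IsScalarTower.algebraMap_apply ℚ L Ω'] at hnorm
  refine cond_of_out hcf hV ?_
  refine ram w hσ hL hp5 h2 hC.cub_eq (fun x => ?_) w1 w2 d12 hcj hlt hodd
    (fun e => zf hcf z e) (fun σ e he => zf_equi hcf z σ he) ?_ (s := φ y) ?_ ?_
    (algebraMap ℚ L r) hnorm.symm
  · exact (cub_map (sh (Wt a b d)) (incl ℚ L Ω') x).symm
  · show zf hcf z e2 ≠ 0
    rw [hζe]
    exact (_root_.map_ne_zero φ).2 hz
  · exact em_fx hcf (⟨e2, hC.root_b⟩ : Rt (sh (Wt a b d)) Ω') y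
  · show w (zf hcf z e2) = _
    rw [hζe]
    exact hy

include hσ hL in
/-- a prime that divides the discriminant once -/
theorem cond_ramW (h : IsCub a b θ) (hds0 : Pool.Agent.N922.PQ.dsc a b ≠ 0)
    (hsq : ¬ (p : ℤ) ^ 2 ∣ Pool.Agent.N922.PQ.dsc a b) (hd : d ≠ 0)
    (hp5 : 5 ≤ p) (hpd : ¬ (p : ℤ) ∣ d) (hdsc : (p : ℤ) ∣ Pool.Agent.N922.PQ.dsc a b)
    {z : A} (hz : z ≠ 0) {r : ℚ} (hr : Algebra.norm ℚ z = r ^ 2)
    (hev : ∀ 𝔓 : HeightOneSpectrum (𝓞 A), Ov (p : ℤ) 𝔓 → Ev 𝔓 z) :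
    Cond L Ω' (sh (Wt a b d)) (4 * d * θ) z := by
  have hW : (Wt a b d).Δ ≠ 0 := by
    rw [Wt_disc]
    exact mul_ne_zero (mul_ne_zero (by norm_num) (pow_ne_zero 6 hd)) hds0
  have hV := iv_sh (Wt a b d) hW
  obtain ⟨e1, e2, e3, hC⟩ := Y355.G.V_roots hV.a1 hV.a3 hV.Δ Ω'
  have aux := fun {x1 x2 x3 : Ω'} (hC : IsC ((sh (Wt a b d)).baseChange Ω').toAffine x1 x2 x3) hlt =>
    cond_ramW_aux w hσ hL h hds0 hsq hd hp5 hpd hdsc hz hr hev hC hlt
  by_cases h23 : w (e2 - e3) < 1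
  · exact aux hC h23
  by_cases h31 : w (e3 - e1) < 1
  · exact aux hC.rot h31
  by_cases h12 : w (e1 - e2) < 1
  · exact aux hC.rot.rot h12
  exfalso
  rw [not_lt] at h23 h31 h12
  rw [Valuation.map_sub_swap] at h31
  have hdi := congrArg w (disc_sh hC)
  rw [map_mul, map_mul, map_pow, map_pow, map_pow] at hdi
  have h5 : 1 ≤ w (256 * ((Wt a b d).Δ : Ω')) := by
    rw [← hdi]
    exact one_le_mul (one_le_mul (one_le_pow₀ h12) (one_le_pow₀ h31)) (one_le_pow₀ h23)
  have h6 : w (256 * ((Wt a b d).Δ : Ω')) < 1 := by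
    obtain ⟨k, hk⟩ := hdsc
    have e : (256 * ((Wt a b d).Δ : Ω')) = ((p * (256 * (-16 * d ^ 6 * k)) : ℤ) : Ω') := by
      rw [Wt_disc, hk]; push_cast; ring
    rw [e]
    exact w_dvd w hL ⟨_, rfl⟩
  exact absurd h5 (not_le.2 h6)

end odd

end Pool.Agent.H29A.RAMCP

namespace Pool.Agent.H29A

open Pool.Agent.R425.G
open Pool.Agent.Helper29L.LOW
open Pool.Agent.N922.PQ

/-- **Piece RAMC.** -/
theorem t_RAMC : S_RAMC := by
  intro L _ _ a b θ h hds d hd v h5 hpd hdsc hsq z hz hN hev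
  haveI : CharZero (v.adicCompletion ℚ) := algebraRat.charZero _
  haveI : CharZero (AlgebraicClosure (v.adicCompletion ℚ)) := algebraRat.charZero _
  haveI := gal_p v
  obtain ⟨r, hr⟩ := hN
  have hr' : Algebra.norm ℚ z = r ^ 2 := by rw [hr, sq]
  obtain ⟨w, hσ, hL, -⟩ := exists_ld v
  exact cond_conv _ _ _ _ _ _ (RAMCP.cond_ramW w hσ hL h hds hsq hd h5 hpd hdsc hz hr' hev)

end Pool.Agent.H29A
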