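import Pool.Agent.H29A.Defs
import Pool.Agent.Helper29L.Stm3
import Pool.Agent.Helper29L.LOW5

/-!
# Project ALL (helper29): the pieces

Most pieces are ports of existing files of project PR (`Pool/Agent/Helper29L`) with weaker hypotheses. File
`Pool/Agent/H29A/<PIECE>.lean`, theorem `t_<PIECE> : S_<PIECE>` (pieces which use other pieces take them as
hypotheses, as said in the docstring), namespace `Pool.Agent.H29A`.
-/

set_option autoImplicit false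
set_option linter.all false

open IsDedekindDomain NumberField Filter
open scoped Classical Matrix

namespace Pool.Agent.H29A

open Pool.Agent.N922.PQ
open Pool.Agent.TH115.GD (Sep Comp IsCoc LocTriv Pt)
open Pool.Agent.Helper29L (Gp PBad InB PD NBas NN cubD UnbSet FewSet)
open Pool.Agent.Helper29L.SZ (VV)
open Pool.Agent.Helper29K (SE Pr8 zS Bx)
open Pool.Agent.Y710.CV (Cond)
open Pool.Agent.R425.G (ng)
open Pool.Agent.N874.PP (Tup chA chB gq tau Two Ev Sq1 U0 sW IsBeta Rt)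
open Pool.Agent.H30EV (curve Coch ShaCocycle cob)
open Pool.Agent.H30GR (SelBd)

/-! ### Group A: integrality and the primes over `Q` -/

/-- Piece INL. Locally at `p` the ring of integers is `ℤ[θ]` if `p ^ 2` does not divide the discriminant.
Compare `Pool/Agent/N849/PQ/Int.lean` (squarefree discriminant) and `Pool/Agent/H30T/Int.lean` (theorem for
`T_INT`, a general base field `F`; take `g = 1`, `F = ℚ`, `f = X ^ 3 + a X + b` over `𝓞 ℚ`; `-dsc a b` is the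
discriminant of `1, θ, θ ^ 2`, and it is the square of the index times the discriminant of the field). -/
def S_INL : Prop := ∀ (L : Type) [Field L] [NumberField L] (a b : ℤ) (θ : L), IsCub a b θ →
  dsc a b ≠ 0 → ∀ p : ℕ, p.Prime → ¬ (p : ℤ) ^ 2 ∣ dsc a b → ∀ x : L, IsIntegral ℤ x →
  ∃ (s : ℤ) (v : Fin 3 → ℤ), ¬ (p : ℤ) ∣ s ∧ Crd θ v ((s : L) * x)

/-- Piece INW. `W 𝓞_L ⊆ ℤ[θ]`. The index `m` of `ℤ[θ]` in `𝓞_L` satisfies `m ^ 2 ∣ dsc a b`, so for every prime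
power `q ^ j` dividing `m` exactly, `j ≥ 1`, `q ^ (2 j)` divides `dsc a b`, hence `W`; so `m ∣ W`, and `m` kills the
quotient. -/
def S_INW : Prop := ∀ (W : ℕ), OKW W → ∀ (L : Type) [Field L] [NumberField L] (a b : ℤ) (θ : L),
  IsCub a b θ → GW W a b → ∀ x : L, IsIntegral ℤ x → ∃ v : Fin 3 → ℤ, Crd θ v ((W : L) * x)

/-- Piece EXW. The two primes over a prime `Q` of the type (`Helper29L/Lat1.lean`, `exists_PD`, without the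
hypothesis that the discriminant is squarefree: `Q` divides `b` and not `a`, so not `dsc a b`, and `S_INL` can
be used at `Q`; write `t_EXW (h : S_INL) : S_EXW`). Moreover the two formulas on valuations. -/
def S_EXW : Prop := ∀ (L : Type) [Field L] [NumberField L] (a b : ℤ) (θ : L) (t : 𝓞 L),
  IsCub a b θ → algebraMap (𝓞 L) L t = θ → ∀ Q : ℤ, Gp a b Q →
  ∃ 𝔓 𝔮 : HeightOneSpectrum (𝓞 L), PD Q t 𝔓 𝔮 ∧ 𝔓.valuation L θ < 1 ∧ 𝔮.valuation L θ = 1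

/-- Piece NSW. The parity and the square class at the prime of degree one over `Q` from the norm (`S_NS` of
`N922/PQ/Lat`, proved in `N667/PQ/Ns.lean`, and `ev_deg_one` in `Helper29L/Size2.lean`; without the hypothesis that
the discriminant is squarefree; `t_NSW (h : S_INL) : S_NSW`). -/
def S_NSW : Prop := ∀ (L : Type) [Field L] [NumberField L] (a b : ℤ) (θ : L), IsCub a b θ →
  ∀ Q : ℤ, Gp a b Q → ∀ x : L, x ≠ 0 → IsSquare (Algebra.norm ℚ x) →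
  (∀ 𝔓 : HeightOneSpectrum (𝓞 L), Ov Q 𝔓 → 𝔓.valuation L θ < 1 → Ev 𝔓 x) ∧
  ((∀ 𝔓 : HeightOneSpectrum (𝓞 L), Ov Q 𝔓 → 𝔓.valuation L θ = 1 → Sq1 𝔓 x) →
    ∀ 𝔓 : HeightOneSpectrum (𝓞 L), Ov Q 𝔓 → Sq1 𝔓 x)

/-! ### Group B: isotropy of the ternary form `c₂(x ^ 2 / α)` -/

/-- Piece DIAG (port of the proof of `Pool.Agent.N922.PQ.S_DIAG`; there `0 < a` is used only to see that there
is exactly one real zero, which follows from `dsc a b > 0`). The last clause is new: the same equivalence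
over `ℚ` (write `c₂(x ^ 2 / α)`, of determinant `-1` times a square, in a diagonal form `s (d x² + e y² - d e z²)`;
it is isotropic over a field `F` if and only if `Spl d e` over `F`). -/
def S_DIAGW : Prop := ∀ (L : Type) [Field L] [NumberField L] (a b : ℤ) (θ : L) (h : IsCub a b θ),
  0 < dsc a b → ∀ α : L, α ≠ 0 → IsSquare (Algebra.norm ℚ α) →
  ∃ d e : ℤ, d ≠ 0 ∧ e ≠ 0 ∧ Spl (d : ℝ) (e : ℝ) ∧
    (∀ (p : ℕ) [Fact p.Prime], IsoAt h p α ↔ Spl (d : ℚ_[p]) (e : ℚ_[p])) ∧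
    (Spl (d : ℚ) (e : ℚ) → ∃ x : L, x ≠ 0 ∧ h.co 2 (x * x / α) = 0)

/-- Piece ISOW. The class of a point gives an isotropic form. Proof: let `F` be the completion at `v`, `Ω` its
algebraic closure, `R` the point of `CondAt`, `φ α = w_φ ^ 2 * dc (φ θ) R` for the embeddings `φ` of `L` in `Ω`. If
`R = 0` let `g_φ = w_φ`; if `R = (x₀, y₀)` let `g_φ = w_φ (x₀ - φ θ)`. Then `g_φ ^ 2 / φ α` is `1`, respectively
`x₀ - φ θ` (also if `x₀ = φ θ`, both sides are `0`). Choose `w_φ` (`w` is determined up to the sign, and fixed by the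
`σ` which fix `φ θ`) such that `σ (w_φ) = w_{σ φ}`; then there is a polynomial `g` of degree `≤ 2` over `F` with
`g(φ θ) = g_φ` (see `cond_pl` in `Helper29L/Size1.lean` for an irreducible cubic; in general take one `w` for each
orbit of the three roots, Lagrange interpolation), not zero, and `c₂(g(θ) ^ 2 / α)` is the coefficient of `θ ^ 2` of
`1` or `x₀ - θ` in `F ⊗ L`, so zero. Then pass from `F` to `ℚ_p` by
`Rat.HeightOneSpectrum.adicCompletion.padicEquiv` (as in `exists_j`, `Helper29L/LOW10.lean`). -/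
def S_ISOW : Prop := ∀ (L : Type) [Field L] [NumberField L] (a b : ℤ) (θ : L) (h : IsCub a b θ),
  dsc a b ≠ 0 → ∀ (v : HeightOneSpectrum (𝓞 ℚ)) (p : ℕ) [Fact p.Prime], ng v = p →
  ∀ α : L, α ≠ 0 → CondAt v a b θ α → IsoAt h p α

/-- Piece UNW. `S_UNIM` of `N922/PQ/Lat` with the local hypothesis at `p` only (port of its proof; with `S_INL`;
`t_UNW (h : S_INL) : S_UNW`; or from `T_ISO2` of `H30T`). -/
def S_UNW : Prop := ∀ (L : Type) [Field L] [NumberField L] (a b : ℤ) (θ : L) (h : IsCub a b θ),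
  dsc a b ≠ 0 → ∀ (p : ℕ) [Fact p.Prime], p ≠ 2 → ¬ (p : ℤ) ^ 2 ∣ dsc a b → ∀ α : L, α ≠ 0 →
  (∀ 𝔓 : HeightOneSpectrum (𝓞 L), Ov (p : ℤ) 𝔓 → Ev 𝔓 α) → IsoAt h p α

/-- Piece RAW. `S_RAM` of `N922/PQ/Lat` without the hypothesis that the discriminant is squarefree (port of its
proof; with `S_INL`; `t_RAW (h : S_INL) : S_RAW`). -/
def S_RAW : Prop := ∀ (L : Type) [Field L] [NumberField L] (a b : ℤ) (θ : L) (h : IsCub a b θ),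
  ∀ (p : ℕ) [Fact p.Prime], Gp a b p → ∀ (𝔓₁ 𝔮 : HeightOneSpectrum (𝓞 L)), Ov (p : ℤ) 𝔓₁ →
    Ov (p : ℤ) 𝔮 → 𝔓₁.valuation L θ < 1 → 𝔮.valuation L θ = 1 → ∀ α : L, α ≠ 0 → Ev 𝔓₁ α →
    ¬ Ev 𝔮 α → (IsoAt h p α ↔ Sq1 𝔮 (α * ((p : L) * θ)))

/-- Piece RECW: the reciprocity law. `t_RECW (hD : S_DIAGW) (hI : S_ISOW) (hU : S_UNW) (hR : S_RAW) (hE : S_EXW) :
S_RECW`. As in the proof of `Pool.Agent.N922.PQ.S_REC` from `S_DIAG`, `S_HP`, `S_UNIM`, `S_RAM`, `S_ISO2`: the primes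
`p` at which the form `c₂(x ^ 2 / α)` is anisotropic are the `Q ∈ S` with `¬ Ev` and `¬ Sq1`, because: `p ∣ W`: ISOW;
`p ∤ W` (so `p ≠ 2` and `p ^ 2 ∤ dsc a b` by `GW.pow`), `p ∉ S`: UNW; `p = Q ∈ S`: UNW or RAW (`Q ∤ W` because
`W ∣ Q - 1` and `W ≥ 24`). Their number is even by `S_HP` (proved). -/
def S_RECW : Prop := ∀ (W : ℕ), OKW W → ∀ (L : Type) [Field L] [NumberField L] (a b : ℤ) (θ : L)
  (S : Finset ℤ), IsCub a b θ → GW W a b → (∀ Q ∈ S, GpW W a b Q) →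
  ∀ 𝔮 : ℤ → HeightOneSpectrum (𝓞 L), (∀ Q ∈ S, Ov Q (𝔮 Q) ∧ (𝔮 Q).valuation L θ = 1) →
  ∀ α : L, InRelW W a b S θ α →
    Even (S.filter fun Q => ¬ Ev (𝔮 Q) α ∧ ¬ Sq1 (𝔮 Q) (α * ((Q : L) * θ))).card

/-- Piece ISQ: the form is isotropic over `ℚ` for a Selmer class.
`t_ISQ (hD : S_DIAGW) (hI : S_ISOW) (hU : S_UNW) (hR : S_RAW) (hE : S_EXW) : S_ISQ`. It is isotropic over all `ℚ_p` (as
in RECW; at `p = Q ∈ Z` by UNW if the valuation at the prime of degree two is even, and by RAW and `U0` if it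
is odd), so `Spl d e` over all `ℚ_p` and over `ℝ`, and over `ℚ` by the theorem of Hasse and Minkowski for conics:
`Pool.Agent.H527R9.CC.S_HM`, proved by `t_HM` (with `t_HMA`, `t_HMB`, `t_HS`) in `Pool/Agent/H527R9/CC`. -/
def S_ISQ : Prop := ∀ (W : ℕ), OKW W → ∀ (L : Type) [Field L] [NumberField L] (a b : ℤ) (θ : L)
  (h : IsCub a b θ) (Z : Finset ℤ), GW W a b → (∀ Q ∈ Z, GpW W a b Q) →
  ∀ α : L, InSelW W a b Z θ α → ∃ x : L, x ≠ 0 ∧ h.co 2 (x * x / α) = 0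

/-! ### Group C: the local condition and the Selmer groups -/

/-- Piece MUL. The local condition is multiplicative: if `R`, `R'` are the points for `x`, `y`, then `R + R'` is a
point for `x y`; see the subgroup `DD` in `Pool/Agent/R425/G` (used in `H30GR/Low1`, `exists_zs`, where
`CondAt` is derived from `lo h _ _ z ∈ DD hC`), `dc` in `TH115/TC/Roots`. -/
def S_MUL : Prop := ∀ (L : Type) [Field L] [NumberField L] (a b : ℤ) (θ : L), IsCub a b θ →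
  dsc a b ≠ 0 → ∀ (v : HeightOneSpectrum (𝓞 ℚ)) (x y : L), x ≠ 0 → y ≠ 0 → CondAt v a b θ x →
  CondAt v a b θ y → CondAt v a b θ (x * y)

/-- Piece TWC. The local condition for the twist by a local square `d = δ ^ 2`: the points correspond by
`(x, y) ↦ (d x, δ ^ 3 y)`, `d x - d θ = δ ^ 2 (x - θ)`, and `δ` is in the completion. -/
def S_TWC : Prop := ∀ (L : Type) [Field L] [NumberField L] (a b : ℤ) (θ : L), IsCub a b θ →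
  dsc a b ≠ 0 → ∀ (v : HeightOneSpectrum (𝓞 ℚ)) (d : ℤ), d ≠ 0 →
  IsSquare (((d : ℤ) : v.adicCompletion ℚ)) → ∀ z : L,
  CondAt v a b θ z ↔ CondAt v (a * d ^ 2) (b * d ^ 3) ((d : L) * θ) z

/-- Piece SQV. Integers `d` with `W ∣ d - 1` are squares in the completions at the primes dividing `W` (`24 ∣ W`, so
`d = 1` modulo `8`; see `T_DSQ`, proved in `Pool/Agent/H30T/Dsq.lean`). -/
def S_SQV : Prop := ∀ (W : ℕ), OKW W → ∀ d : ℤ, (W : ℤ) ∣ d - 1 →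
  ∀ v : HeightOneSpectrum (𝓞 ℚ), ng v ∣ W → IsSquare (((d : ℤ) : v.adicCompletion ℚ))

/-- Piece GLC. From the local triviality of a cocycle to the local condition. `S_GLF` of `N874/QM/Stm` (proved:
`Pool.Agent.N42.QM.glf Pool.Agent.N630.PP.gp1 Pool.Agent.N630.PP.gp2 Pool.Agent.N630.PP.gp3 Pool.Agent.N630.PP.gp4`) with
`S_FARC` (proved: `Pool.Agent.N530.QM.farc`) gives `PLoc (Comp (𝓞 ℚ) ℚ v) A B h` at every `v` (also at `2`): either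
`h = g ^ 2` modulo the cubic (then `cond1` of `Y710/CV/Core` with `w = g(φ θ)`), or `(x - X) h = g ^ 2` with a point
`(x, y)`, `y ≠ 0` (then `cond2` with `D = x - φ θ`, `w = g(φ θ) / (x - φ θ)`). -/
def S_GLC : Prop := ∀ (A B : ℤ), 4 * A ^ 3 + 27 * B ^ 2 ≠ 0 →
  ∀ f : (Sep ℚ ≃ₐ[ℚ] Sep ℚ) → Pt (sW (A : ℚ) (B : ℚ)) (Sep ℚ), IsCoc (sW (A : ℚ) (B : ℚ)) f →
  (∀ σ, (2 : ℕ) • f σ = 0) → ∀ (β : Sep ℚ → Sep ℚ) (h : Polynomial ℚ), IsBeta (A : ℚ) (B : ℚ) f β →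
    (∀ t : Sep ℚ, Rt (A : ℚ) (B : ℚ) t → Polynomial.aeval t h = β t ^ 2) →
    ∀ v : HeightOneSpectrum (𝓞 ℚ),
      LocTriv (sW (A : ℚ) (B : ℚ)) (Comp (𝓞 ℚ) ℚ v) (Sep (Comp (𝓞 ℚ) ℚ v)) f →
    ∀ (L : Type) [Field L] [NumberField L] (θ : L), IsCub A B θ →
      CondAt v A B θ (Polynomial.aeval θ h)

/-- Piece SIZEW (port of `Helper29L/Size3.lean`, `size_aux`). `t_SIZEW (hN : S_NSW) (hE : S_EXW) : S_SIZEW`. Use
`exists_zs` with `D0 = W`, `R` the primes in `S`: the elements are units outside `W ∏ R`, satisfy `Cond` at all `v ∣ W`;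
at the primes of degree one over `Q ∈ S` the valuation is even by NSW. (The curve `VV a b`, `cf_VV`, `iv_VV`.) -/
def S_SIZEW : Prop := ∀ (W : ℕ), OKW W → ∀ (L : Type) [Field L] [NumberField L] (a b : ℤ) (θ : L)
  (S : Finset ℤ), IsCub a b θ → GW W a b → (∀ Q ∈ S, GpW W a b Q) →
  ∃ z : Fin (2 ^ S.card) → L, (∀ i, InRelW W a b S θ (z i)) ∧ ∀ i j, i ≠ j → ¬ IsSquare (z i * z j)

/-- Piece RAMC: `cond_ram` (`Helper29L/LOW6.lean`) with `¬ p ^ 2 ∣ dsc a b` in place of a squarefree discriminant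
(port; `t_RAMC (h : S_INL) : S_RAMC` if the integrality is needed). -/
def S_RAMC : Prop := ∀ (L : Type) [Field L] [NumberField L] (a b : ℤ) (θ : L), IsCub a b θ →
  dsc a b ≠ 0 → ∀ d : ℤ, d ≠ 0 → ∀ v : HeightOneSpectrum (𝓞 ℚ), 5 ≤ ng v → ¬ ((ng v : ℕ) : ℤ) ∣ d →
  ((ng v : ℕ) : ℤ) ∣ dsc a b → ¬ ((ng v : ℕ) : ℤ) ^ 2 ∣ dsc a b → ∀ z : L, z ≠ 0 →
  IsSquare (Algebra.norm ℚ z) → (∀ 𝔓 : HeightOneSpectrum (𝓞 L), Ov ((ng v : ℕ) : ℤ) 𝔓 → Ev 𝔓 z) →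
  Cond (v.adicCompletion ℚ) (AlgebraicClosure (v.adicCompletion ℚ))
    (Pool.Agent.Y702.G.sh (Pool.Agent.Helper29L.LOW.Wt a b d)) (4 * d * θ) z

/-- Piece SLOWW (port of `Helper29L/LOW10.lean`). `t_SLOWW (hT : S_TWC) (hS : S_SQV) (hR : S_RAMC) : S_SLOWW`. The
cases for `v` in `cond_all`: `ng v ∣ W` (new): TWC for the twist by `4 d`, a local square; `ng v ∣ d`: `cond_unr`;
`ng v ∣ dsc a b` (then `5 ≤ ng v`, because `24 ∣ W`, and the square does not divide): RAMC; else `cond_gd`. -/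
def S_SLOWW : Prop := ∀ (W : ℕ), OKW W → ∀ (L : Type) [Field L] [NumberField L] (a b : ℤ) (θ : L)
  (Z : Finset ℤ) (d : ℤ), IsCub a b θ → GW W a b → (∀ Q ∈ Z, GpW W a b Q) → d = ∏ Q ∈ Z, Q →
  ∀ (n : ℕ) (z : Fin n → L), (∀ i, InSelW W a b Z θ (z i)) →
  (∀ i j, i ≠ j → ¬ IsSquare (z i * z j)) →
  ∃ c : Fin n → Coch (curve ℚ (a * d ^ 2, b * d ^ 3)),
    (∀ i, ShaCocycle (curve ℚ (a * d ^ 2, b * d ^ 3)) (c i) ∧ ∀ σ, 2 • c i σ = 0) ∧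
    (∀ i j, (∃ Q, 2 • Q = 0 ∧ c i - c j = cob Q) → i = j)

/-- Piece EVC. The element of a Selmer cocycle of the twist by `d` has even valuations at the primes `𝔓` not over
`W`, except those of degree two over `Q ∈ Z`, and satisfies `U0` there. Proof: `S_GLF` and `S_FARC` (see piece GLC) give
`PLoc` at every `v`; at `v ∤ W` we have `5 ≤ ng v`, and `ng v ^ 2` does not divide `dsc a b`; so `S_LOC1M` (`ng v ∤ d`) and
`S_LOC2M` (`ng v = Q ∈ Z`, `d = Q * d'`) of `N874/PM/Stm` (both proved, both local) apply; see `sel_elem_b` and `sup` in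
`Helper29L/Up.lean`, and `S_GN` for the norm. -/
def S_EVC : Prop := ∀ (W : ℕ), OKW W → ∀ (L : Type) [Field L] [NumberField L] (a b : ℤ) (θ : L)
  (Z : Finset ℤ) (d : ℤ), IsCub a b θ → GW W a b → (∀ Q ∈ Z, GpW W a b Q) → d = ∏ Q ∈ Z, Q →
  ∀ f : (Sep ℚ ≃ₐ[ℚ] Sep ℚ) → Pt (sW (((a * d ^ 2 : ℤ)) : ℚ) (((b * d ^ 3 : ℤ)) : ℚ)) (Sep ℚ),
  IsCoc (sW (((a * d ^ 2 : ℤ)) : ℚ) (((b * d ^ 3 : ℤ)) : ℚ)) f → (∀ σ, (2 : ℕ) • f σ = 0) →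
  (∀ v : HeightOneSpectrum (𝓞 ℚ), LocTriv (sW (((a * d ^ 2 : ℤ)) : ℚ) (((b * d ^ 3 : ℤ)) : ℚ))
    (Comp (𝓞 ℚ) ℚ v) (Sep (Comp (𝓞 ℚ) ℚ v)) f) →
  ∀ (β : Sep ℚ → Sep ℚ) (h : Polynomial ℚ),
    IsBeta (((a * d ^ 2 : ℤ)) : ℚ) (((b * d ^ 3 : ℤ)) : ℚ) f β →
    (∀ t : Sep ℚ, Rt (((a * d ^ 2 : ℤ)) : ℚ) (((b * d ^ 3 : ℤ)) : ℚ) t →
      Polynomial.aeval t h = β t ^ 2) →
  Polynomial.aeval ((d : L) * θ) h ≠ 0 ∧ IsSquare (Algebra.norm ℚ (Polynomial.aeval ((d : L) * θ) h)) ∧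
  (∀ 𝔓 : HeightOneSpectrum (𝓞 L), (W : 𝓞 L) ∉ 𝔓.asIdeal →
    (∀ Q ∈ Z, ¬ (Ov Q 𝔓 ∧ 𝔓.valuation L θ = 1)) → Ev 𝔓 (Polynomial.aeval ((d : L) * θ) h)) ∧
  ∀ Q ∈ Z, ∀ 𝔓 : HeightOneSpectrum (𝓞 L), Ov Q 𝔓 → 𝔓.valuation L θ = 1 →
    U0 𝔓 ((Q : L) * θ) (Polynomial.aeval ((d : L) * θ) h)

/-- Piece SUPW (port of `Helper29L/Up.lean`, `sup`). `t_SUPW (hG : S_GLC) (hT : S_TWC) (hS : S_SQV) (hE : S_EVC) :
S_SUPW`. -/
def S_SUPW : Prop := ∀ (W : ℕ), OKW W → ∀ (L : Type) [Field L] [NumberField L] (a b : ℤ) (θ : L)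
  (Z : Finset ℤ) (d : ℤ), IsCub a b θ → GW W a b → (∀ Q ∈ Z, GpW W a b Q) → d = ∏ Q ∈ Z, Q →
  ∀ N : ℕ, (∀ (n : ℕ) (z : Fin n → L), (∀ i, InSelW W a b Z θ (z i)) →
    (∀ i j, i ≠ j → ¬ IsSquare (z i * z j)) → n ≤ N) →
  SelBd (𝓞 ℚ) (sW (((a * d ^ 2 : ℤ)) : ℚ) (((b * d ^ 3 : ℤ)) : ℚ)) N

/-! ### Group D: from classes to tuples -/

/-- Piece MAJW. The majorant, for all signatures (port of `S_MAJ` of `N922/PQ/Lat`, proved in `N50/PQ/Maj.lean`; or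
from `Pool.Agent.N783.PF.S_MAJ`): `H(x, y) = ∑ Re (τ x * conj (τ y)) / |τ (α f'(θ))|` over the three embeddings `τ` of `L` in
`ℂ`; `c₂(z) = ∑ τ z / τ f'(θ)`, `c₁(z) = ∑ τ θ τ z / τ f'(θ)` and `|τ θ| ≤ 2 X`. The determinant: with `M = (τ e_i)` the
Gram matrix of `c₂(x y / α)` is `M D Mᵀ` and `H = M |D| Mᴴ`. -/
def S_MAJW : Prop := ∀ (L : Type) [Field L] [NumberField L] (a b : ℤ) (θ : L) (h : IsCub a b θ)
  (X : ℕ), dsc a b ≠ 0 → |a| ≤ X ^ 2 → |b| ≤ X ^ 3 → ∀ (α : L) (e : Fin 3 → L), α ≠ 0 →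
  LinearIndependent ℚ e →
  ∃ H : Matrix (Fin 3) (Fin 3) ℝ, H.PosDef ∧
    H.det = |((Matrix.of fun i j => h.co 2 (e i * e j / α)).det : ℝ)| ∧
    (∀ u v : Fin 3 → ℝ, (∑ i, ∑ j, u i * v j * (h.co 2 (e i * e j / α) : ℝ)) ^ 2 ≤
      (u ⬝ᵥ H *ᵥ u) * (v ⬝ᵥ H *ᵥ v)) ∧
    (∀ u v : Fin 3 → ℝ, (∑ i, ∑ j, u i * v j * (h.co 1 (e i * e j / α) : ℝ)) ^ 2 ≤
      (2 * X) ^ 2 * ((u ⬝ᵥ H *ᵥ u) * (v ⬝ᵥ H *ᵥ v)))

/-- Piece REDW. Reduction of positive definite ternary forms of determinant `n ^ 2` (apply `S_RED`, proved in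
`N945/PQ`, to a multiple of `H`). -/
def S_REDW : Prop := ∀ (H : Matrix (Fin 3) (Fin 3) ℝ) (n : ℝ), 0 < n → H.PosDef → H.det = n ^ 2 →
  ∃ (U : Matrix (Fin 3) (Fin 3) ℤ) (h : Fin 3 → ℝ), IsUnit U.det ∧ (∀ i, 0 < h i) ∧ Monotone h ∧
    h 0 * h 1 * h 2 ≤ 8 * n ∧
    ∀ i, (fun j => (U i j : ℝ)) ⬝ᵥ H *ᵥ (fun j => (U i j : ℝ)) = h i ^ 2

/-- Piece NFW. The normal form, with bounded denominators. Proof. If `h 0 < 1` then `G 0 0 = 0`, if `h 0 * h 1 < 1`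
then `G 0 1 = 0`. (1) Both: `G = [[0, 0, g], [0, k², c], [g, c, d]]` with `g ^ 2 k ^ 2 = n ^ 2` (`g²` divides `n²` and the quotient is
the integer `G 1 1`, so a square `k²`), and
`T 0 = (1/g, 0, 0)`, `T 1 = (- c/(g k) .. )`: explicitly `e₀' = e₀ / g`, `e₁' = e₁ / k`, `e₂' = e₂ - (c / k²) e₁ + z e₀`, `z` with
`G(e₂', e₂') = 0` (`z = (c² / k² - d) / (2 g)`); denominators divide `2 n ^ 4`. Sizes: `1 ≤ |g| ≤ h 0 * h 2`, `1 ≤ k ≤ h 1`,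
so `h 1 ≤ 8 n`, `h 0 * h 2 ≤ 8 n`, `|c| ≤ h 1 * h 2`, `|d| ≤ h 2 ^ 2`; take `2 ^ m` with `2 ^ m ≤ 1 / h 0 < 2 ^ (m + 1)`.
(2) If not, all the `h i` are bounded (`h 0 ≥ 1 / h 1`, `h 0 * h 1 * h 2 ≤ 8 n`), so `G` is in a finite set; for each
isotropic `G` in this set choose one `T` (an isotropic form of determinant `- n ^ 2` is equivalent to `JJ` over `ℚ`: take a
primitive isotropic vector as the first vector of a basis of `ℤ³`, make `G 0 1 = 0` by a change of the other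
two vectors, then (1)), `m = 0`, and a common denominator. -/
def S_NFW : Prop := ∀ N₀ : ℕ, ∃ (κ : ℝ) (N : ℕ), 0 < κ ∧ 0 < N ∧
  ∀ (G : Matrix (Fin 3) (Fin 3) ℤ) (n : ℕ) (h : Fin 3 → ℝ), 0 < n → n ≤ N₀ → G.IsSymm →
  G.det = -(n : ℤ) ^ 2 → (∃ v : Fin 3 → ℤ, v ≠ 0 ∧ v ⬝ᵥ G *ᵥ v = 0) → (∀ i, 0 < h i) → Monotone h →
  h 0 * h 1 * h 2 ≤ 8 * n → (∀ i j, |(G i j : ℝ)| ≤ h i * h j) →
  ∃ (m : ℕ) (T : Matrix (Fin 3) (Fin 3) ℚ) (T₁ T₂ : Matrix (Fin 3) (Fin 3) ℤ),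
    T * G.map (Int.castRingHom ℚ) * Tᵀ = JJ.map (Int.castRingHom ℚ) ∧
    T₁.map (Int.castRingHom ℚ) = (N : ℚ) • T ∧
    T₂.map (Int.castRingHom ℚ) * T = (N : ℚ) • (1 : Matrix (Fin 3) (Fin 3) ℚ) ∧
    (∑ j, |(T 0 j : ℝ)| * h j ≤ κ / 2 ^ m) ∧ (∑ j, |(T 1 j : ℝ)| * h j ≤ κ) ∧
    (∑ j, |(T 2 j : ℝ)| * h j ≤ κ * 2 ^ m)

/-- Piece DLW: duality (port of `dual_mem`, `dualQ`, `crt_B`, `exists_f1`, `exists_f` of `Helper29L/Lat1`, `Lat2`, `Lat3`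
and of `lattice` in `Lat4`). `t_LATW (hI : S_INL) (hW : S_INW) (hE : S_EXW) (hN : S_NSW) : S_LATW`.

As in `Lat4.lattice`: `B = {y | InB α y}`, `f ∈ B` with `f f / α = Q c θ + Q² w`, `f x / α ∈ Q 𝓞` for `x ∈ B` and all
`Q ∈ Z` (`exists_f1`, `exists_f`: no hypothesis on the discriminant), `Λ = ℤ f + D B` (`Lam`), `e` a basis of `Λ`
(`basis_M`), `G = W² c₂'(e e / α)`, `B = W² c₁'(e e / α)`, where `c_i'` are the coordinates for `D θ`. They are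
integral because `W c_i(𝓞) ⊆ ℤ` (INW) and `Q ∤ W` (so that `c₂(f² / α)`, an element of `(1/W) ℤ ∩ Q² (1/W) ℤ`
for all `Q ∈ Z`, is in `(D²/W) ℤ`, etc.). Duality: if `c₂'(e_i y / α) ∈ ℤ` for all `i` then `W y ∈ Λ`: for `x ∈ B` we
have `D x ∈ Λ`, so `c₂(θ^k x y / α) ∈ D ℤ` for `k = 0, 1, 2` and `x y / α ∈ D ℤ[θ]`; for every `𝔓` there is `x ∈ B` with
`v(x²/α) ≥ v(D W)` (multiplicative valuation; if the valuation of `α` at `𝔓` is odd then `𝔓` is over `Z` or over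
`W`), so `v(y²/α) ≤ v(D)² / v(D W)` and `(W y)²/α ∈ D 𝓞`; so `W y ∈ B` and `(W y)² / α ∈ 𝔓_Q`; by `dualQ` and `crt_B`
(local at `Q ∈ Z`, `Q ∤ W`) `W y ∈ Λ`. The determinant of `g = c₂'(e e / α)` is `- r²`, `r ∈ ℚ` (proof of `det_dual`), `W g`
and `W g⁻¹` are integral (the dual basis of `e` has the coordinates `g⁻¹`), so `r² ≤ W³` and `n = W³ |r|` is an
integer with `n ≤ W ^ 5`. -/
def S_LATW : Prop := ∀ (W : ℕ), OKW W → ∀ (L : Type) [Field L] [NumberField L] (a b : ℤ) (θ : L)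
  (h : IsCub a b θ) (Z : Finset ℤ) (D : ℤ) (hD0 : D ≠ 0), GW W a b → (∀ Q ∈ Z, GpW W a b Q) →
  D = ∏ Q ∈ Z, Q → ∀ α : L, InSelW W a b Z θ α →
  (∀ Q ∈ Z, ∀ 𝔓 : HeightOneSpectrum (𝓞 L), Ov Q 𝔓 → 𝔓.valuation L θ = 1 → ¬ Ev 𝔓 α) →
    ∃ (e : Fin 3 → L) (G B : Matrix (Fin 3) (Fin 3) ℤ) (n : ℕ), LinearIndependent ℚ e ∧
      (∀ i, InB α (e i)) ∧ (∀ y, InB α y → ∃ c : Fin 3 → ℤ, (D : L) * y = ∑ i, (c i : L) * e i) ∧
      0 < n ∧ n ≤ W ^ 5 ∧ G.det = -(n : ℤ) ^ 2 ∧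
      (∀ i j, (G i j : ℚ) = (W : ℚ) ^ 2 * (cubD h hD0).co 2 (e i * e j / α)) ∧
      ∀ i j, (B i j : ℚ) = (W : ℚ) ^ 2 * (cubD h hD0).co 1 (e i * e j / α)

/-- A normalised basis, for the twist by `M`; `N` is the denominator. -/
structure NBW {L : Type} [Field L] [NumberField L] {a b : ℤ} {θ : L} (h : IsCub a b θ) (M N : ℤ)
    (hM : M ≠ 0) (α : L) (e : Fin 3 → L) (B : Matrix (Fin 3) (Fin 3) ℤ) : Prop where
  li : LinearIndependent ℚ e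
  mem : ∀ i, InB α (e i)
  sup : ∀ y, InB α y → ∃ c : Fin 3 → ℤ, (N : L) * y = ∑ i, (c i : L) * e i
  c2 : ∀ i j, (cubD h hM).co 2 (e i * e j / α) = (JJ i j : ℚ)
  c1 : ∀ i j, (cubD h hM).co 1 (e i * e j / α) = (B i j : ℚ)
  b11 : B 1 1 = -2 * B 0 2

/-- Piece TTW: the conditions at `Q ∈ S` (port of `tt_of` and `no_iso` in `Helper29L/Lat5.lean`; there `M = N = D` and the
discriminant is squarefree). `t_TTW (hI : S_INL) (hE : S_EXW) : S_TTW`. -/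
def S_TTW : Prop := ∀ (L : Type) [Field L] [NumberField L] (a b : ℤ) (θ : L) (h : IsCub a b θ)
  (M N : ℤ) (hM : M ≠ 0) (α : L) (e : Fin 3 → L) (B : Matrix (Fin 3) (Fin 3) ℤ), α ≠ 0 →
  NBW h M N hM α e B → ∀ Q : ℤ, Gp a b Q → ¬ Q ∣ M → ¬ Q ∣ N → ∀ t : 𝓞 L,
  algebraMap (𝓞 L) L t = θ → ∀ 𝔓 𝔮 : HeightOneSpectrum (𝓞 L), PD Q t 𝔓 𝔮 →
  (Sq1 𝔓 α → Sq1 𝔮 α → TT Q (⟨B 0 0, B 0 1, B 0 2, B 1 2, B 2 2⟩ : Tup ℤ)) ∧
  (Ev 𝔓 α → Ev 𝔮 α → ¬ Sq1 𝔮 α → NN Q (⟨B 0 0, B 0 1, B 0 2, B 1 2, B 2 2⟩ : Tup ℤ))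

/-- Piece PLBW: from a class to a tuple (port of `Helper29L/Lat6.lean`, `plb`).
`t_PLBW (hQ : S_ISQ) (hM : S_MAJW) (hR : S_REDW) (hN : S_NFW) (hL : S_LATW) (hT : S_TTW) (hS : S_NSW) (hE : S_EXW) :
S_PLBW`. Steps: `e, G, B, n` from LATW for `D = ∏ Z`; `G` is isotropic over `ℤ` by ISQ; `H` from MAJW for `D θ` and the basis
`e`, multiplied by `W²`, has determinant `n²`; `U, h` from REDW; `m, T, T₁, T₂` from NFW for `U G Uᵀ` (`N₀ = W ^ 5`).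
With `e' = W T U e`: `c₂'(e' e' / α) = JJ` and `c₁'(e' e' / α) = T U B Uᵀ Tᵀ ∈ (1/N²) ℤ`. Let `M₀ = N²`, `e'' = M₀ e'` and twist by
`M₀ D`: `c₂'' = JJ`, `c₁'' = M₀ T U B Uᵀ Tᵀ` is integral. So `NBW h (M₀ D) (M₀ W N D) e'' B''` (`S_CHI` gives `b11`, `chA`,
`chB` for the twist by `M₀ D`), the sizes are those of `plb` with `κ` depending on `W`, and TTW at `Q ∈ S` (`Q ∤ N`
for the primes `Q > N`; `N` depends only on `W`: hypothesis `N₁ < Q`). -/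
def S_PLBW : Prop := ∀ (W : ℕ), OKW W → ∃ κ M₀ N₁ : ℕ, 0 < M₀ ∧ ∀ (L : Type) [Field L] [NumberField L]
  (a b : ℤ) (θ : L) (X : ℕ) (Z S E : Finset ℤ) (D : ℕ), IsCub a b θ → |a| ≤ X ^ 2 → |b| ≤ X ^ 3 →
  GW W a b → (∀ Q ∈ Z ∪ S, GpW W a b Q) → (∀ Q ∈ S, (N₁ : ℤ) < Q) → Disjoint Z S →
  ((D : ℕ) : ℤ) = ∏ Q ∈ Z, Q → ∀ α : L, InSelW W a b Z θ α → ¬ IsSquare α →
  (∀ Q ∈ Z, ∀ 𝔓 : HeightOneSpectrum (𝓞 L), Ov Q 𝔓 → 𝔓.valuation L θ = 1 → ¬ Ev 𝔓 α) →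
  (∀ Q ∈ S, ∀ 𝔓 : HeightOneSpectrum (𝓞 L), Ov Q 𝔓 → 𝔓.valuation L θ = 1 →
    (Sq1 𝔓 α ↔ Q ∉ E)) →
  PBad κ (M₀ * D * X) S E (fun _ => a * (M₀ * D) ^ 2) (a * (M₀ * D) ^ 2) (b * (M₀ * D) ^ 3)

/-! ### Group E: counting -/

/-- The box. -/
noncomputable def BxA (X : ℕ) : Finset (ℤ × ℤ) :=
  Finset.Icc (-((X ^ 2 : ℕ) : ℤ)) ((X ^ 2 : ℕ) : ℤ) ×ˢ Finset.Icc (-((X ^ 3 : ℕ) : ℤ)) ((X ^ 3 : ℕ) : ℤ)

/-- The pairs with few primes of the type. -/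
def FewA (𝒬 : Finset ℕ) (m X : ℕ) : Set (ℤ × ℤ) :=
  {p | p ∈ BxA X ∧ (SE 𝒬 p.1 p.2).card < m}

/-- Piece MOMW (from `Pool.Agent.Helper29L.S_MOM`, proved: `mom NNL.pbad`): the same for the symmetric box. The pairs of the
box with `a ≤ 0`: translate `a` by the multiple `t` of `P = ∏ 𝒬` with `X² < t ≤ X² + P`; `SE` does not change, and
`(a + t, b) ∈ Bx (X + P)`. So `|FewA 𝒬 m X| ≤ |FewSet 𝒬 m X| + |FewSet 𝒬 m (X + P)|`, and `(X + P)⁵ ≤ 2 X⁵` for large `X`; use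
`S_MOM` with `ε / 4`. -/
def S_MOMW : Prop := ∀ (κ : ℕ) (δ ε : ℝ), 0 < δ → δ ≤ 1 / 4 → 0 < ε → ∀ m₀ : ℕ, ∃ Λ₀ : ℝ,
  ∀ 𝒬 : Finset ℕ, Pr8 𝒬 → Λ₀ ≤ ∑ Q ∈ 𝒬, (1 : ℝ) / Q → ∃ m ≥ m₀, ∀ᶠ X : ℕ in atTop,
    ((FewA 𝒬 m X).ncard : ℝ) ≤ ε * (X : ℝ) ^ 5 ∧
    (UnbSet κ X 𝒬 δ m).Finite ∧ ((UnbSet κ X 𝒬 δ m).ncard : ℝ) ≤ ε * (X : ℝ) ^ 5

/-- Piece PRW: the primes `1` modulo `W` have a divergent sum of reciprocals (from `Helper29K.spl_div` and `exists_large`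
as in `prD`, `Helper29L/Lev2.lean`, with the cyclotomic field in place of `ℚ` and its generator `ζ` or the generator of
`gen`: a prime which does not divide `W` and modulo which the polynomial splits is `1` modulo `W`, because the residue
field `𝔽_p` of the cyclotomic field contains the roots of unity of order `W`; or the library has the prime number
theorem in arithmetic progressions, see `TH423/SH/PAIP.lean`, `Y851/PS/G7.lean`). -/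
def S_PRW : Prop := ∀ (W : ℕ), W ≠ 0 → ∀ (T : Finset ℕ) (Λ : ℝ), ∃ 𝒬 : Finset ℕ, Pr8 𝒬 ∧
  (∀ Q ∈ 𝒬, Q % W = 1 % W ∧ W < Q) ∧ Disjoint T 𝒬 ∧ Λ ≤ ∑ Q ∈ 𝒬, (1 : ℝ) / Q

/-- Piece TAIL: nearly all pairs are in `GW W` for a suitable `W`. (1) the pairs with `z ^ 3 + a z + b = 0` for an
integer `z` (then `|z| ≤ 2 X`, and `(a, z)` determines `b`) are `O(X³)`; so are those with `dsc a b = 0`. (2) for a prime `q > Y`:
`q ^ 2 ∣ dsc a b`. If `q ∣ a` then `q ∣ b`: at most `(2 X² / q + 1) (2 X³ / q + 1)` pairs (and `a = 0`: `O(X³)`; `q ≤ X²` if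
`a ≠ 0`). If `q ∤ a`, then for each `a` there are at most two classes of `b` modulo `q ^ 2`, so at most `2 (2 X³ / q² + 1)`
values of `b`; `q ≤ 6 X³`, and the number of primes up to `6 X³` is `o(X³)` (library: Chebyshev or
`π(x) = o(x)`). So all together `≤ C X⁵ / Y + o(X⁵)`. (3) for a prime `q ≤ Y` and `j` large the pairs with
`q ^ j ∣ dsc a b` are at most `C q ^ (- j / 2) X⁵ + C_q,j X⁴`: for each `a` the number of `b` modulo `q ^ j` with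
`27 b ^ 2 = - 4 a ^ 3` is at most `C q ^ (j / 2)` (if `b`, `b'` are two of them, `q ^ (j - 3)` divides
`(b - b') (b + b')`). Take `W = 24 * ∏_{q ≤ Y} q ^ j`. -/
def S_TAIL : Prop := ∀ ε : ℝ, 0 < ε → ∃ W : ℕ, OKW W ∧ ∀ᶠ X : ℕ in atTop,
  (((BxA X).filter fun p => 0 < dsc p.1 p.2 ∧ ¬ GW W p.1 p.2).card : ℝ) ≤ ε * (X : ℝ) ^ 5

/-- Piece DEN: more than `9/10` of all pairs, by height, have negative discriminant (`dsc > 0`). For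
`a = - A`, `A > 0`: `dsc a b ≤ 0` if and only if `27 b ^ 2 ≤ 4 A ^ 3`, at most `2 * (2 / √27) * A ^ (3/2) + 1` values of `b`;
`∑_{A ≤ N} A ^ (3/2) ≤ (2/5) (N + 1) ^ (5/2)`; with `N = T ^ (1/3)` this is `0.308 T ^ (5/6) + O(T ^ (1/2))`, and the number of all pairs
with `dsc a b ≠ 0` is `4 T ^ (5/6) + O(T ^ (1/2))`. `hgt (a, b) = max (|a| ^ 3) (b ^ 2)`. -/
def S_DEN : Prop := ∀ᶠ T : ℕ in atTop,
  9 / 10 * ({p : ℤ × ℤ | dsc p.1 p.2 ≠ 0 ∧ Pool.Agent.Helper29L.hgt p ≤ T}.ncard : ℝ) ≤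
    ({p : ℤ × ℤ | 0 < dsc p.1 p.2 ∧ Pool.Agent.Helper29L.hgt p ≤ T}.ncard : ℝ) ∧
  (T : ℝ) ^ (5 / 6 : ℝ) ≤ ({p : ℤ × ℤ | 0 < dsc p.1 p.2 ∧ Pool.Agent.Helper29L.hgt p ≤ T}.ncard : ℝ)

end Pool.Agent.H29A
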