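import Pool.Agent.H29A.Stm

/-!
# Project ALL, piece TAIL: nearly all pairs of positive `dsc` are in `GW W` for a suitable `W`
-/

set_option autoImplicit false
set_option linter.all false

open IsDedekindDomain NumberField Filter
open scoped Classical Matrix

namespace Pool.Agent.H29A.Tail

open Pool.Agent.H29A
open Pool.Agent.N922.PQ

/-- Primes have density zero. -/
theorem pc_eps {δ : ℝ} (hδ : 0 < δ) :
    ∃ Y : ℕ, ∀ n : ℕ, Y ≤ n → (Nat.primeCounting n : ℝ) ≤ δ * n := by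
  have h1 := Chebyshev.eventually_primeCounting_le (ε := 1) one_pos
  have h2 : ∀ᶠ x : ℝ in Filter.atTop, (Real.log 4 + 1) / δ ≤ Real.log x :=
    Real.tendsto_log_atTop.eventually_ge_atTop _
  have h3 : ∀ᶠ x : ℝ in Filter.atTop, (Nat.primeCounting ⌊x⌋₊ : ℝ) ≤ δ * x := by
    filter_upwards [h1, h2, Filter.eventually_gt_atTop (1:ℝ)] with x hx1 hx2 hx3
    refine hx1.trans ?_
    have hlog : 0 < Real.log x := Real.log_pos hx3
    rw [div_le_iff₀ hδ] at hx2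
    rw [div_le_iff₀ hlog]
    nlinarith
  obtain ⟨X, hX⟩ := Filter.eventually_atTop.mp h3
  refine ⟨⌈X⌉₊, fun n hn => ?_⟩
  have := hX n (Nat.ceil_le.mp hn)
  simpa using this

/-- integers of absolute value at most `N`, congruent modulo `m` -/
theorem cls (N m : ℕ) (hm : 0 < m) (S : Finset ℤ) (hS : ∀ b ∈ S, |b| ≤ (N : ℤ))
    (h : ∀ b ∈ S, ∀ b' ∈ S, (m : ℤ) ∣ b - b') : (S.card : ℝ) ≤ 2 * N / m + 2 := by
  have hm' : (0 : ℤ) < m := by exact_mod_cast hm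
  have h1 : S.card ≤ (Finset.Icc ((-(N : ℤ)) / m) ((N : ℤ) / m)).card := by
    refine Finset.card_le_card_of_injOn (fun b => b / (m : ℤ)) ?_ ?_
    · intro b hb
      have hb' := abs_le.1 (hS b hb)
      simp only [Finset.coe_Icc, Set.mem_Icc]
      exact ⟨Int.ediv_le_ediv hm' hb'.1, Int.ediv_le_ediv hm' hb'.2⟩
    · intro b hb b' hb' he
      have h2 := h b hb b' hb'
      have h3 : b % (m : ℤ) = b' % m := (Int.modEq_iff_dvd.2 h2).symm
      have he' : b / (m : ℤ) = b' / m := he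
      rw [← Int.mul_ediv_add_emod b m, ← Int.mul_ediv_add_emod b' m, he', h3]
  have h2 : ((Finset.Icc ((-(N : ℤ)) / m) ((N : ℤ) / m)).card : ℤ) =
      (N : ℤ) / m + 1 - (-(N : ℤ)) / m := by
    rw [Int.card_Icc, Int.toNat_of_nonneg]
    have : (-(N : ℤ)) / m ≤ (N : ℤ) / m := Int.ediv_le_ediv hm' (by omega)
    linarith
  have h3 : (((N : ℤ) / m : ℤ) : ℝ) ≤ N / m := by
    rw [le_div_iff₀ (by exact_mod_cast hm)]
    exact_mod_cast Int.ediv_mul_le (N : ℤ) hm'.ne'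
  have h4 : -(N : ℝ) / m ≤ (((-(N : ℤ)) / m : ℤ) : ℝ) + 1 := by
    rw [div_le_iff₀ (by exact_mod_cast hm)]
    have : (-(N : ℤ)) < ((-(N : ℤ)) / m + 1) * m := Int.lt_ediv_add_one_mul_self _ hm'
    exact_mod_cast this.le
  have h5 : (S.card : ℝ) ≤ (((N : ℤ) / m : ℤ) : ℝ) + 1 - (((-(N : ℤ)) / m : ℤ) : ℝ) := by
    have h6 : (S.card : ℤ) ≤ (N : ℤ) / m + 1 - (-(N : ℤ)) / m := by
      rw [← h2]
      exact_mod_cast h1
    exact_mod_cast h6
  have h7 : 2 * (N : ℝ) / m = N / m - -(N : ℝ) / m := by ring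
  rw [h7]
  linarith

/-- two classes -/
theorem cls2 (N m : ℕ) (hm : 0 < m) (S : Finset ℤ) (hS : ∀ b ∈ S, |b| ≤ (N : ℤ))
    (h : ∀ b ∈ S, ∀ b' ∈ S, (m : ℤ) ∣ b - b' ∨ (m : ℤ) ∣ b + b') :
    (S.card : ℝ) ≤ 4 * N / m + 4 := by
  rcases S.eq_empty_or_nonempty with rfl | ⟨b₀, h₀⟩
  · simp only [Finset.card_empty, Nat.cast_zero]
    positivity
  have h1 : S ⊆ (S.filter fun b => (m : ℤ) ∣ b - b₀) ∪ S.filter fun b => (m : ℤ) ∣ b + b₀ := by
    intro b hb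
    rw [Finset.mem_union, Finset.mem_filter, Finset.mem_filter]
    rcases h b hb b₀ h₀ with h2 | h2
    · exact Or.inl ⟨hb, h2⟩
    · exact Or.inr ⟨hb, h2⟩
  have h2 := (Finset.card_le_card h1).trans (Finset.card_union_le _ _)
  have h3 := cls N m hm (S.filter fun b => (m : ℤ) ∣ b - b₀)
    (fun b hb => hS b (Finset.mem_filter.1 hb).1) (by
      intro b hb b' hb'
      have := dvd_sub (Finset.mem_filter.1 hb).2 (Finset.mem_filter.1 hb').2
      rwa [sub_sub_sub_cancel_right] at this)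
  have h4 := cls N m hm (S.filter fun b => (m : ℤ) ∣ b + b₀)
    (fun b hb => hS b (Finset.mem_filter.1 hb).1) (by
      intro b hb b' hb'
      have := dvd_sub (Finset.mem_filter.1 hb).2 (Finset.mem_filter.1 hb').2
      rwa [add_sub_add_right_eq_sub] at this)
  have h5 : (S.card : ℝ) ≤ ((S.filter fun b => (m : ℤ) ∣ b - b₀).card : ℝ) +
      ((S.filter fun b => (m : ℤ) ∣ b + b₀).card : ℝ) := by exact_mod_cast h2
  have h6 : 4 * (N : ℝ) / m + 4 = (2 * N / m + 2) + (2 * N / m + 2) := by ring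
  rw [h6]
  linarith

/-- number of pairs of the box with a condition which for every `a` allows at most `K` values of `b` -/
theorem rows (X : ℕ) (hX : 1 ≤ X) (P : ℤ → ℤ → Prop) [∀ a b, Decidable (P a b)] (K : ℝ) (hK : 0 ≤ K)
    (h : ∀ a : ℤ, |a| ≤ ((X ^ 2 : ℕ) : ℤ) → (((Finset.Icc (-((X ^ 3 : ℕ) : ℤ)) ((X ^ 3 : ℕ) : ℤ)).filter
      fun b => P a b).card : ℝ) ≤ K) :
    (((BxA X).filter fun p => P p.1 p.2).card : ℝ) ≤ 3 * X ^ 2 * K := by
  have h1 : ((BxA X).filter fun p => P p.1 p.2).card =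
      ∑ a ∈ Finset.Icc (-((X ^ 2 : ℕ) : ℤ)) ((X ^ 2 : ℕ) : ℤ),
        ((Finset.Icc (-((X ^ 3 : ℕ) : ℤ)) ((X ^ 3 : ℕ) : ℤ)).filter fun b => P a b).card := by
    rw [BxA, Finset.card_filter, Finset.sum_product]
    refine Finset.sum_congr rfl fun a _ => ?_
    rw [Finset.card_filter]
  rw [h1]
  push_cast
  have h2 : ∀ a ∈ Finset.Icc (-((X ^ 2 : ℕ) : ℤ)) ((X ^ 2 : ℕ) : ℤ),
      (((Finset.Icc (-((X ^ 3 : ℕ) : ℤ)) ((X ^ 3 : ℕ) : ℤ)).filter fun b => P a b).card : ℝ) ≤ K := by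
    intro a ha
    exact h a (abs_le.2 (Finset.mem_Icc.1 ha))
  have h3 := Finset.sum_le_card_nsmul _ _ K h2
  have h4 : ((Finset.Icc (-((X ^ 2 : ℕ) : ℤ)) ((X ^ 2 : ℕ) : ℤ)).card : ℝ) ≤ 3 * X ^ 2 := by
    rw [Int.card_Icc]
    have : (((X ^ 2 : ℕ) : ℤ) + 1 - -((X ^ 2 : ℕ) : ℤ)).toNat = 2 * X ^ 2 + 1 := by omega
    rw [this]
    have h5 : 1 ≤ X ^ 2 := Nat.one_le_pow _ _ hX
    have h6 : ((2 * X ^ 2 + 1 : ℕ) : ℝ) ≤ ((3 * X ^ 2 : ℕ) : ℝ) := by exact_mod_cast (by omega)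
    push_cast at h6 ⊢
    exact h6
  push_cast at h3 ⊢
  rw [nsmul_eq_mul] at h3
  refine h3.trans ?_
  exact mul_le_mul_of_nonneg_right h4 hK

/-- large powers of small primes: for `q ^ (2 i + 3) ∣ dsc a b` -/
theorem pw_row {q i : ℕ} (hq : q.Prime) {a b b' : ℤ} (h : (q : ℤ) ^ (2 * i + 3) ∣ dsc a b)
    (h' : (q : ℤ) ^ (2 * i + 3) ∣ dsc a b') : (q : ℤ) ^ i ∣ b - b' ∨ (q : ℤ) ^ i ∣ b + b' := by
  have hp : Prime (q : ℤ) := Nat.prime_iff_prime_int.1 hq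
  have h1 : (q : ℤ) ^ (2 * i + 3) ∣ 27 * ((b - b') * (b + b')) := by
    have := dvd_sub h h'
    have e : dsc a b - dsc a b' = 27 * ((b - b') * (b + b')) := by unfold dsc; ring
    rwa [e] at this
  -- `q ^ (2 i) ∣ (b - b') (b + b')`
  have h2 : (q : ℤ) ^ (2 * i) ∣ (b - b') * (b + b') := by
    by_cases h3 : q = 3
    · subst h3
      have h4 : (((3 : ℕ) : ℤ)) ^ (2 * i + 3) = 27 * ((3 : ℕ) : ℤ) ^ (2 * i) := by
        rw [pow_add]; norm_num; ring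
      rw [h4] at h1
      exact Int.dvd_of_mul_dvd_mul_left (by norm_num) h1
    · have h4 : IsCoprime ((q : ℤ) ^ (2 * i + 3)) 27 := by
        have h5 : Nat.Coprime q 3 := (Nat.coprime_primes hq Nat.prime_three).2 h3
        have h6 : IsCoprime (q : ℤ) 3 := by
          have := Nat.isCoprime_iff_coprime.2 h5
          exact_mod_cast this
        have h7 : (27 : ℤ) = 3 ^ 3 := by norm_num
        rw [h7]
        exact h6.pow
      exact (pow_dvd_pow _ (by omega)).trans (h4.dvd_of_dvd_mul_left h1)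
  -- one of the two factors
  by_contra hcon
  push Not at hcon
  obtain ⟨h3, h4⟩ := hcon
  have hx0 : b - b' ≠ 0 := fun h0 => h3 (h0 ▸ dvd_zero _)
  have hy0 : b + b' ≠ 0 := fun h0 => h4 (h0 ▸ dvd_zero _)
  have hfx : FiniteMultiplicity (q : ℤ) (b - b') := Int.finiteMultiplicity_iff.2
    ⟨by simpa using hq.ne_one, hx0⟩
  have hfy : FiniteMultiplicity (q : ℤ) (b + b') := Int.finiteMultiplicity_iff.2
    ⟨by simpa using hq.ne_one, hy0⟩
  have h5 : multiplicity (q : ℤ) (b - b') < i := hfx.multiplicity_lt_iff_not_dvd.2 h3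
  have h6 : multiplicity (q : ℤ) (b + b') < i := hfy.multiplicity_lt_iff_not_dvd.2 h4
  have hfxy : FiniteMultiplicity (q : ℤ) ((b - b') * (b + b')) := Int.finiteMultiplicity_iff.2
    ⟨by simpa using hq.ne_one, mul_ne_zero hx0 hy0⟩
  have h7 := multiplicity_mul hp hfxy
  have h8 : 2 * i ≤ multiplicity (q : ℤ) ((b - b') * (b + b')) :=
    hfxy.pow_dvd_iff_le_multiplicity.1 h2
  omega

/-- a large prime which does not divide `a` -/
theorem lp_row {q : ℕ} (hq : q.Prime) (h5 : 3 < q) {a b b' : ℤ} (ha : ¬ (q : ℤ) ∣ a)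
    (h : (q : ℤ) ^ 2 ∣ dsc a b) (h' : (q : ℤ) ^ 2 ∣ dsc a b') :
    (q : ℤ) ^ 2 ∣ b - b' ∨ (q : ℤ) ^ 2 ∣ b + b' := by
  have hp : Prime (q : ℤ) := Nat.prime_iff_prime_int.1 hq
  have c3 : IsCoprime (q : ℤ) 3 := by
    have := Nat.isCoprime_iff_coprime.2 ((Nat.coprime_primes hq Nat.prime_three).2 (by omega))
    exact_mod_cast this
  have c2 : IsCoprime (q : ℤ) 2 := by
    have := Nat.isCoprime_iff_coprime.2 ((Nat.coprime_primes hq Nat.prime_two).2 (by omega))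
    exact_mod_cast this
  have h1 : (q : ℤ) ^ 2 ∣ (b - b') * (b + b') := by
    have := dvd_sub h h'
    have e : dsc a b - dsc a b' = 3 ^ 3 * ((b - b') * (b + b')) := by unfold dsc; ring
    rw [e] at this
    exact (c3.pow).dvd_of_dvd_mul_left this
  have hb : ¬ (q : ℤ) ∣ b := by
    intro hb
    have h2 : (q : ℤ) ∣ dsc a b := (dvd_pow_self _ two_ne_zero).trans h
    have h3 : (q : ℤ) ∣ 2 ^ 2 * a ^ 3 := by
      have h4 : (q : ℤ) ∣ 27 * b ^ 2 := (dvd_pow hb two_ne_zero).mul_left _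
      have := dvd_sub h2 h4
      have e : dsc a b - 27 * b ^ 2 = 2 ^ 2 * a ^ 3 := by unfold dsc; ring
      rwa [e] at this
    exact ha (hp.dvd_of_dvd_pow ((c2.pow_right).dvd_of_dvd_mul_left h3))
  by_cases h2 : (q : ℤ) ∣ b - b'
  · left
    have h3 : ¬ (q : ℤ) ∣ b + b' := by
      intro h3
      have h4 := dvd_add h2 h3
      have e : b - b' + (b + b') = 2 * b := by ring
      rw [e] at h4
      exact hb (c2.dvd_of_dvd_mul_left h4)
    exact ((hp.coprime_iff_not_dvd.2 h3).pow_left).dvd_of_dvd_mul_right h1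
  · right
    exact ((hp.coprime_iff_not_dvd.2 h2).pow_left).dvd_of_dvd_mul_left h1

/-- the pairs with an integral zero of the cubic -/
theorem red_count (X : ℕ) (hX : 1 ≤ X) :
    (((BxA X).filter fun p => ∃ z : ℤ, z ^ 3 + p.1 * z + p.2 = 0).card : ℝ) ≤ 15 * X ^ 3 := by
  have h1 : ((BxA X).filter fun p => ∃ z : ℤ, z ^ 3 + p.1 * z + p.2 = 0) ⊆
      (Finset.Icc (-((X ^ 2 : ℕ) : ℤ)) ((X ^ 2 : ℕ) : ℤ) ×ˢ
        Finset.Icc (-((2 * X : ℕ) : ℤ)) ((2 * X : ℕ) : ℤ)).image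
        fun q : ℤ × ℤ => (q.1, -(q.2 ^ 3 + q.1 * q.2)) := by
    rintro ⟨a, b⟩ hp
    rw [Finset.mem_filter, BxA, Finset.mem_product, Finset.mem_Icc, Finset.mem_Icc] at hp
    obtain ⟨⟨⟨ha1, ha2⟩, hb1, hb2⟩, z, hz⟩ := hp
    simp only at ha1 ha2 hb1 hb2 hz
    rw [Finset.mem_image]
    refine ⟨(a, z), ?_, ?_⟩
    · rw [Finset.mem_product, Finset.mem_Icc, Finset.mem_Icc]
      refine ⟨⟨ha1, ha2⟩, ?_⟩
      have hz2 : |z| ≤ 2 * X := by
        by_contra hcon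
        push Not at hcon
        have hb : |b| ≤ (X : ℤ) ^ 3 := abs_le.2 (by push_cast at hb1 hb2; exact ⟨hb1, hb2⟩)
        have ha : |a| ≤ (X : ℤ) ^ 2 := abs_le.2 (by push_cast at ha1 ha2; exact ⟨ha1, ha2⟩)
        have hX' : (1 : ℤ) ≤ X := by exact_mod_cast hX
        have e : z ^ 3 = -(a * z) - b := by linear_combination hz
        have h2 : |z| ^ 3 ≤ |a| * |z| + |b| := by
          rw [← abs_pow, e]
          calc |-(a * z) - b| ≤ |-(a * z)| + |b| := abs_sub _ _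
            _ = |a| * |z| + |b| := by rw [abs_neg, abs_mul]
        set t := |z| with ht
        have h3 : |a| * t ≤ X ^ 2 * t := mul_le_mul_of_nonneg_right ha (abs_nonneg z)
        have h4 : t ^ 3 ≤ X ^ 2 * t + X ^ 3 := by linarith
        nlinarith [mul_pos (show (0 : ℤ) < t by linarith) (show (0 : ℤ) < t by linarith),
          mul_pos (show (0 : ℤ) < X by linarith) (show (0 : ℤ) < X by linarith), sq_nonneg (t - 2 * X),
          mul_nonneg (show (0 : ℤ) ≤ t - 2 * X by linarith) (show (0 : ℤ) ≤ X by linarith),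
          mul_nonneg (mul_nonneg (show (0 : ℤ) ≤ t - 2 * X by linarith) (show (0 : ℤ) ≤ t by linarith))
            (show (0 : ℤ) ≤ t by linarith),
          mul_nonneg (mul_nonneg (show (0 : ℤ) ≤ t - 2 * X by linarith) (show (0 : ℤ) ≤ X by linarith))
            (show (0 : ℤ) ≤ t by linarith),
          mul_nonneg (mul_nonneg (show (0 : ℤ) ≤ t - 2 * X by linarith) (show (0 : ℤ) ≤ X by linarith))
            (show (0 : ℤ) ≤ X by linarith), pow_pos (show (0 : ℤ) < X by linarith) 3]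
      have := abs_le.1 hz2
      push_cast
      exact this
    · simp only [Prod.mk.injEq, true_and]
      linear_combination -hz
  have h2 := (Finset.card_le_card h1).trans Finset.card_image_le
  rw [Finset.card_product, Int.card_Icc, Int.card_Icc] at h2
  have e1 : (((X ^ 2 : ℕ) : ℤ) + 1 - -((X ^ 2 : ℕ) : ℤ)).toNat = 2 * X ^ 2 + 1 := by omega
  have e2 : (((2 * X : ℕ) : ℤ) + 1 - -((2 * X : ℕ) : ℤ)).toNat = 4 * X + 1 := by omega
  rw [e1, e2] at h2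
  have h3 : (2 * X ^ 2 + 1) * (4 * X + 1) ≤ 15 * X ^ 3 := by
    have h5 : 1 ≤ X ^ 2 := Nat.one_le_pow _ _ hX
    calc (2 * X ^ 2 + 1) * (4 * X + 1) ≤ (3 * X ^ 2) * (5 * X) :=
          Nat.mul_le_mul (by omega) (by omega)
      _ = 15 * X ^ 3 := by ring
  exact_mod_cast h2.trans h3

/-- the pairs with `a = 0` -/
theorem zero_count (X : ℕ) (hX : 1 ≤ X) :
    (((BxA X).filter fun p => p.1 = 0).card : ℝ) ≤ 3 * X ^ 3 := by
  have h1 : ((BxA X).filter fun p => p.1 = 0) ⊆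
      (Finset.Icc (-((X ^ 3 : ℕ) : ℤ)) ((X ^ 3 : ℕ) : ℤ)).image fun b : ℤ => ((0 : ℤ), b) := by
    rintro ⟨a, b⟩ hp
    rw [Finset.mem_filter, BxA, Finset.mem_product] at hp
    obtain ⟨⟨-, hb⟩, rfl⟩ := hp
    exact Finset.mem_image.2 ⟨b, hb, rfl⟩
  have h2 := (Finset.card_le_card h1).trans Finset.card_image_le
  rw [Int.card_Icc] at h2
  have e1 : (((X ^ 3 : ℕ) : ℤ) + 1 - -((X ^ 3 : ℕ) : ℤ)).toNat = 2 * X ^ 3 + 1 := by omega
  rw [e1] at h2
  have h3 : 2 * X ^ 3 + 1 ≤ 3 * X ^ 3 := by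
    have h5 : 1 ≤ X ^ 3 := Nat.one_le_pow _ _ hX
    omega
  exact_mod_cast h2.trans h3

/-- multiples of `q` -/
theorem mult_count (N q : ℕ) (hq : 0 < q) (hqN : q ≤ N) :
    (((Finset.Icc (-(N : ℤ)) (N : ℤ)).filter fun b => (q : ℤ) ∣ b).card : ℝ) ≤ 4 * N / q := by
  have h1 := cls N q hq ((Finset.Icc (-(N : ℤ)) (N : ℤ)).filter fun b => (q : ℤ) ∣ b)
    (fun b hb => abs_le.2 (Finset.mem_Icc.1 (Finset.mem_filter.1 hb).1))
    (fun b hb b' hb' => dvd_sub (Finset.mem_filter.1 hb).2 (Finset.mem_filter.1 hb').2)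
  have h2 : (2 : ℝ) ≤ 2 * N / q := by
    rw [le_div_iff₀ (by exact_mod_cast hq)]
    have : (q : ℝ) ≤ N := by exact_mod_cast hqN
    linarith
  have h3 : 4 * (N : ℝ) / q = 2 * N / q + 2 * N / q := by ring
  rw [h3]
  linarith

/-- both divisible by `q` -/
theorem both_count (X q : ℕ) (hX : 1 ≤ X) (hq : 0 < q) (hqX : q ≤ X ^ 2) :
    (((BxA X).filter fun p => (q : ℤ) ∣ p.1 ∧ (q : ℤ) ∣ p.2).card : ℝ) ≤ 16 * X ^ 5 / q ^ 2 := by
  have h1 : ((BxA X).filter fun p => (q : ℤ) ∣ p.1 ∧ (q : ℤ) ∣ p.2) =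
      ((Finset.Icc (-((X ^ 2 : ℕ) : ℤ)) ((X ^ 2 : ℕ) : ℤ)).filter fun b => (q : ℤ) ∣ b) ×ˢ
      ((Finset.Icc (-((X ^ 3 : ℕ) : ℤ)) ((X ^ 3 : ℕ) : ℤ)).filter fun b => (q : ℤ) ∣ b) := by
    ext ⟨a, b⟩
    simp only [BxA, Finset.mem_filter, Finset.mem_product]
    tauto
  rw [h1, Finset.card_product]
  have h2 := mult_count (X ^ 2) q hq hqX
  have h3 := mult_count (X ^ 3) q hq (hqX.trans (Nat.pow_le_pow_right hX (by norm_num)))
  push_cast at h2 h3 ⊢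
  calc _ ≤ (4 * (X : ℝ) ^ 2 / q) * (4 * (X : ℝ) ^ 3 / q) :=
        mul_le_mul h2 h3 (by positivity) (by positivity)
    _ = 16 * X ^ 5 / q ^ 2 := by
        field_simp
        ring

/-- large primes which do not divide `a` -/
theorem lp_count (X q : ℕ) (hX : 1 ≤ X) (hq : q.Prime) (h3 : 3 < q) :
    (((BxA X).filter fun p => ¬ (q : ℤ) ∣ p.1 ∧ (q : ℤ) ^ 2 ∣ dsc p.1 p.2).card : ℝ) ≤
      12 * X ^ 5 / q ^ 2 + 12 * X ^ 2 := by
  have h1 := rows X hX (fun a b => ¬ (q : ℤ) ∣ a ∧ (q : ℤ) ^ 2 ∣ dsc a b)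
    (4 * ((X ^ 3 : ℕ) : ℝ) / ((q ^ 2 : ℕ) : ℝ) + 4) (by positivity) (by
      intro a ha
      apply cls2 (X ^ 3) (q ^ 2) (pow_pos hq.pos 2)
      · intro b hb
        exact abs_le.2 (Finset.mem_Icc.1 (Finset.mem_filter.1 hb).1)
      · intro b hb b' hb'
        have h2 := (Finset.mem_filter.1 hb).2
        have h4 := (Finset.mem_filter.1 hb').2
        push_cast
        exact lp_row hq h3 h2.1 h2.2 h4.2)
  refine h1.trans (le_of_eq ?_)
  push_cast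
  ring

/-- large powers of small primes -/
theorem sp_count (X q i : ℕ) (hX : 1 ≤ X) (hq : q.Prime) :
    (((BxA X).filter fun p => (q : ℤ) ^ (2 * i + 3) ∣ dsc p.1 p.2).card : ℝ) ≤
      12 * X ^ 5 / 2 ^ i + 12 * X ^ 2 := by
  have h1 := rows X hX (fun a b => (q : ℤ) ^ (2 * i + 3) ∣ dsc a b)
    (4 * ((X ^ 3 : ℕ) : ℝ) / ((q ^ i : ℕ) : ℝ) + 4) (by positivity) (by
      intro a ha
      apply cls2 (X ^ 3) (q ^ i) (pow_pos hq.pos i)
      · intro b hb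
        exact abs_le.2 (Finset.mem_Icc.1 (Finset.mem_filter.1 hb).1)
      · intro b hb b' hb'
        have h2 := (Finset.mem_filter.1 hb).2
        have h4 := (Finset.mem_filter.1 hb').2
        push_cast
        exact pw_row hq h2 h4)
  refine h1.trans ?_
  have h2 : (2 : ℝ) ^ i ≤ (q : ℝ) ^ i := pow_le_pow_left₀ (by norm_num)
    (by exact_mod_cast hq.two_le) i
  have h3 : 4 * ((X ^ 3 : ℕ) : ℝ) / ((q ^ i : ℕ) : ℝ) ≤ 4 * X ^ 3 / 2 ^ i := by
    push_cast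
    exact div_le_div_of_nonneg_left (by positivity) (by positivity) h2
  have h4 : (0 : ℝ) ≤ 3 * X ^ 2 := by positivity
  calc _ ≤ 3 * (X : ℝ) ^ 2 * (4 * X ^ 3 / 2 ^ i + 4) := by
        apply mul_le_mul_of_nonneg_left _ h4
        linarith
    _ = _ := by ring

/-- The pairs with an irreducible cubic the discriminant of which has few prime powers. -/
def Good (W : ℕ) (a b : ℤ) : Prop := (∀ z : ℤ, z ^ 3 + a * z + b ≠ 0) ∧
  ∀ q k : ℕ, q.Prime → 2 ≤ k → (q : ℤ) ^ k ∣ dsc a b → q ^ k ∣ W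

/-- the sum of the inverse squares -/
theorem sq_sum (Y N : ℕ) (hY : Y ≠ 0) (hN : Y ≤ N) (P : Finset ℕ) (hP : P ⊆ Finset.Ioc Y N) :
    ∑ q ∈ P, (1 : ℝ) / (q : ℝ) ^ 2 ≤ 1 / Y := by
  have h1 : ∑ q ∈ P, (1 : ℝ) / (q : ℝ) ^ 2 ≤ ∑ q ∈ Finset.Ioc Y N, ((q : ℝ) ^ 2)⁻¹ := by
    simp only [one_div]
    exact Finset.sum_le_sum_of_subset_of_nonneg hP fun i _ _ => by positivity
  have h2 := sum_Ioc_inv_sq_le_sub (α := ℝ) hY hN
  have h3 : (0 : ℝ) ≤ (N : ℝ)⁻¹ := by positivity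
  rw [one_div]
  linarith

theorem tail_subset (X Y i : ℕ) (hX : 1 ≤ X) (hY : 3 ≤ Y) :
    ((BxA X).filter fun p => dsc p.1 p.2 ≠ 0 ∧ ¬ Good (24 * (Y.factorial) ^ (2 * i + 3)) p.1 p.2) ⊆
      (((BxA X).filter fun p => ∃ z : ℤ, z ^ 3 + p.1 * z + p.2 = 0) ∪
        ((BxA X).filter fun p => p.1 = 0)) ∪
      ((((Finset.Ioc Y (X ^ 2)).filter Nat.Prime).biUnion fun q =>
          (BxA X).filter fun p => (q : ℤ) ∣ p.1 ∧ (q : ℤ) ∣ p.2) ∪
        ((((Finset.Ioc Y (6 * X ^ 3)).filter Nat.Prime).biUnion fun q =>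
          (BxA X).filter fun p => ¬ (q : ℤ) ∣ p.1 ∧ (q : ℤ) ^ 2 ∣ dsc p.1 p.2) ∪
        (((Finset.range (Y + 1)).filter Nat.Prime).biUnion fun q =>
          (BxA X).filter fun p => (q : ℤ) ^ (2 * i + 3) ∣ dsc p.1 p.2))) := by
  rintro ⟨a, b⟩ hp
  obtain ⟨hbx, hpos, hG⟩ := Finset.mem_filter.1 hp
  simp only at hpos hG
  have hbx' := hbx
  rw [BxA, Finset.mem_product, Finset.mem_Icc, Finset.mem_Icc] at hbx'
  obtain ⟨⟨ha1, ha2⟩, hb1, hb2⟩ := hbx'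
  simp only at ha1 ha2 hb1 hb2
  have ha : |a| ≤ (X : ℤ) ^ 2 := abs_le.2 (by push_cast at ha1 ha2; exact ⟨ha1, ha2⟩)
  have hb : |b| ≤ (X : ℤ) ^ 3 := abs_le.2 (by push_cast at hb1 hb2; exact ⟨hb1, hb2⟩)
  simp only [Finset.mem_union, Finset.mem_filter, Finset.mem_biUnion, Finset.mem_Ioc,
    Finset.mem_range]
  by_cases hirr : ∀ z : ℤ, z ^ 3 + a * z + b ≠ 0
  · have h1 : ∃ q k : ℕ, q.Prime ∧ 2 ≤ k ∧ (q : ℤ) ^ k ∣ dsc a b ∧
        ¬ q ^ k ∣ 24 * (Y.factorial) ^ (2 * i + 3) := by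
      by_contra hcon
      push Not at hcon
      exact hG ⟨hirr, hcon⟩
    obtain ⟨q, k, hq, hk, hd, hnd⟩ := h1
    have hp : Prime (q : ℤ) := Nat.prime_iff_prime_int.1 hq
    rcases le_or_gt q Y with hqY | hqY
    · right; right; right
      refine ⟨q, ⟨by omega, hq⟩, hbx, ?_⟩
      have h2 : q ^ (2 * i + 3) ∣ 24 * (Y.factorial) ^ (2 * i + 3) :=
        (pow_dvd_pow_of_dvd (Nat.dvd_factorial hq.pos hqY) _).mul_left _
      have h3 : 2 * i + 3 ≤ k := by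
        by_contra hcon
        exact hnd ((pow_dvd_pow q (by omega)).trans h2)
      exact (pow_dvd_pow _ h3).trans hd
    · have hd2 : (q : ℤ) ^ 2 ∣ dsc a b := (pow_dvd_pow _ hk).trans hd
      have hd1 : (q : ℤ) ∣ dsc a b := (dvd_pow_self _ two_ne_zero).trans hd2
      by_cases hqa : (q : ℤ) ∣ a
      · by_cases ha0 : a = 0
        · left; right
          exact ⟨hbx, ha0⟩
        · right; left
          have hqX : q ≤ X ^ 2 := by
            have h4 : (q : ℤ) ≤ |a| := Int.le_of_dvd (abs_pos.2 ha0) ((dvd_abs _ _).2 hqa)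
            exact_mod_cast h4.trans ha
          refine ⟨q, ⟨⟨hqY, hqX⟩, hq⟩, hbx, hqa, ?_⟩
          have h5 : (q : ℤ) ∣ 3 ^ 3 * b ^ 2 := by
            have h6 : (q : ℤ) ∣ 4 * a ^ 3 := (dvd_pow hqa (by norm_num)).mul_left _
            have := dvd_sub hd1 h6
            have e : dsc a b - 4 * a ^ 3 = 3 ^ 3 * b ^ 2 := by unfold dsc; ring
            rwa [e] at this
          have c3 : IsCoprime (q : ℤ) 3 := by
            have := Nat.isCoprime_iff_coprime.2 ((Nat.coprime_primes hq Nat.prime_three).2 (by omega))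
            exact_mod_cast this
          exact hp.dvd_of_dvd_pow ((c3.pow_right).dvd_of_dvd_mul_left h5)
      · right; right; left
        refine ⟨q, ⟨⟨hqY, ?_⟩, hq⟩, hbx, hqa, hd2⟩
        have h6 : (q : ℤ) ^ 2 ≤ |dsc a b| := Int.le_of_dvd (abs_pos.2 hpos) ((dvd_abs _ _).2 hd2)
        have h7 : |dsc a b| ≤ 31 * (X : ℤ) ^ 6 := by
          have h8 : |a| ^ 3 ≤ ((X : ℤ) ^ 2) ^ 3 := pow_le_pow_left₀ (abs_nonneg a) ha 3
          have h9 : |b| ^ 2 ≤ ((X : ℤ) ^ 3) ^ 2 := pow_le_pow_left₀ (abs_nonneg b) hb 2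
          have h10 : |dsc a b| ≤ 4 * |a| ^ 3 + 27 * |b| ^ 2 := by
            unfold dsc
            refine (abs_add_le _ _).trans (le_of_eq ?_)
            rw [abs_mul, abs_mul, abs_pow, abs_pow]
            norm_num
          nlinarith
        by_contra hcon
        push Not at hcon
        have h8 : (6 * (X : ℤ) ^ 3) < (q : ℤ) := by exact_mod_cast hcon
        have h9 : (6 * (X : ℤ) ^ 3) ^ 2 < (q : ℤ) ^ 2 :=
          pow_lt_pow_left₀ h8 (by positivity) two_ne_zero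
        have h10 : (6 * (X : ℤ) ^ 3) ^ 2 = 36 * (X : ℤ) ^ 6 := by ring
        have h11 : (0 : ℤ) ≤ (X : ℤ) ^ 6 := by positivity
        rw [h10] at h9
        linarith
  · left; left
    push Not at hirr
    exact ⟨hbx, hirr⟩

theorem tail_gen : ∀ ε : ℝ, 0 < ε → ∃ W : ℕ, OKW W ∧ ∀ᶠ X : ℕ in atTop,
    (((BxA X).filter fun p => dsc p.1 p.2 ≠ 0 ∧ ¬ Good W p.1 p.2).card : ℝ) ≤ ε * (X : ℝ) ^ 5 := by
  intro ε hε
  obtain ⟨Y, hY⟩ := exists_nat_ge (max 3 (4 * 28 / ε))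
  have hY3 : 3 ≤ Y := by exact_mod_cast (le_max_left _ _).trans hY
  have hYε : 28 / (Y : ℝ) ≤ ε / 4 := by
    have h1 : 4 * 28 / ε ≤ Y := (le_max_right _ _).trans hY
    have hY0 : (0 : ℝ) < Y := by
      have : 0 < Y := by omega
      exact_mod_cast this
    rw [div_le_iff₀ hε] at h1
    rw [div_le_iff₀ hY0]
    linarith
  obtain ⟨i, hi⟩ := pow_unbounded_of_one_lt (4 * (12 * ((Y : ℝ) + 1)) / ε) (one_lt_two (α := ℝ))
  have hi2 : ((Y : ℝ) + 1) * (12 / 2 ^ i) ≤ ε / 4 := by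
    have h1 : (0 : ℝ) < 2 ^ i := by positivity
    rw [div_lt_iff₀ hε] at hi
    rw [← mul_div_assoc, div_le_iff₀ h1]
    linarith
  obtain ⟨M, hM⟩ := pc_eps (δ := ε / 288) (by positivity)
  refine ⟨24 * (Y.factorial) ^ (2 * i + 3), ⟨?_, dvd_mul_right _ _⟩, ?_⟩
  · have : 0 < Y.factorial := Nat.factorial_pos Y
    positivity
  have hlim : ∀ᶠ X : ℕ in atTop, 18 + 12 * ((Y : ℝ) + 1) ≤ ε / 4 * X := by
    have h1 : Tendsto (fun X : ℕ => ε / 4 * (X : ℝ)) atTop atTop :=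
      Tendsto.const_mul_atTop (by positivity) tendsto_natCast_atTop_atTop
    exact h1.eventually_ge_atTop _
  filter_upwards [hlim, eventually_ge_atTop 1, eventually_ge_atTop Y, eventually_ge_atTop M]
    with X h1 hX1 hXY hXM
  have hX0 : (1 : ℝ) ≤ X := by exact_mod_cast hX1
  have hsub := Finset.card_le_card (tail_subset X Y i hX1 hY3)
  have hu := hsub.trans (Finset.card_union_le _ _)
  have hu1 := Finset.card_union_le ((BxA X).filter fun p => ∃ z : ℤ, z ^ 3 + p.1 * z + p.2 = 0)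
    ((BxA X).filter fun p => p.1 = 0)
  have hu2 := Finset.card_union_le (((Finset.Ioc Y (X ^ 2)).filter Nat.Prime).biUnion fun q =>
          (BxA X).filter fun p => (q : ℤ) ∣ p.1 ∧ (q : ℤ) ∣ p.2)
    ((((Finset.Ioc Y (6 * X ^ 3)).filter Nat.Prime).biUnion fun q =>
          (BxA X).filter fun p => ¬ (q : ℤ) ∣ p.1 ∧ (q : ℤ) ^ 2 ∣ dsc p.1 p.2) ∪
        (((Finset.range (Y + 1)).filter Nat.Prime).biUnion fun q =>
          (BxA X).filter fun p => (q : ℤ) ^ (2 * i + 3) ∣ dsc p.1 p.2))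
  have hu3 := Finset.card_union_le (((Finset.Ioc Y (6 * X ^ 3)).filter Nat.Prime).biUnion fun q =>
          (BxA X).filter fun p => ¬ (q : ℤ) ∣ p.1 ∧ (q : ℤ) ^ 2 ∣ dsc p.1 p.2)
        (((Finset.range (Y + 1)).filter Nat.Prime).biUnion fun q =>
          (BxA X).filter fun p => (q : ℤ) ^ (2 * i + 3) ∣ dsc p.1 p.2)
  have c1 := red_count X hX1
  have c2 := zero_count X hX1
  have hYX2 : Y ≤ X ^ 2 := hXY.trans (Nat.le_self_pow two_ne_zero X)
  have hYX3 : Y ≤ 6 * X ^ 3 := (hXY.trans (Nat.le_self_pow three_ne_zero X)).trans (by omega)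
  have c3 : ((((Finset.Ioc Y (X ^ 2)).filter Nat.Prime).biUnion fun q =>
          (BxA X).filter fun p => (q : ℤ) ∣ p.1 ∧ (q : ℤ) ∣ p.2).card : ℝ) ≤ 16 * X ^ 5 * (1 / Y) := by
    have h2 : ((((Finset.Ioc Y (X ^ 2)).filter Nat.Prime).biUnion fun q =>
          (BxA X).filter fun p => (q : ℤ) ∣ p.1 ∧ (q : ℤ) ∣ p.2).card : ℝ) ≤
        ∑ q ∈ (Finset.Ioc Y (X ^ 2)).filter Nat.Prime,
          (((BxA X).filter fun p => (q : ℤ) ∣ p.1 ∧ (q : ℤ) ∣ p.2).card : ℝ) := by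
      exact_mod_cast Finset.card_biUnion_le
    refine h2.trans ?_
    have h3 : ∀ q ∈ (Finset.Ioc Y (X ^ 2)).filter Nat.Prime,
        (((BxA X).filter fun p => (q : ℤ) ∣ p.1 ∧ (q : ℤ) ∣ p.2).card : ℝ) ≤
          16 * X ^ 5 * (1 / (q : ℝ) ^ 2) := by
      intro q hq
      rw [Finset.mem_filter, Finset.mem_Ioc] at hq
      have := both_count X q hX1 hq.2.pos hq.1.2
      rw [mul_one_div]
      exact this
    refine (Finset.sum_le_sum h3).trans ?_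
    rw [← Finset.mul_sum]
    exact mul_le_mul_of_nonneg_left (sq_sum Y (X ^ 2) (by omega) hYX2 _ (Finset.filter_subset _ _))
      (by positivity)
  have c4 : ((((Finset.Ioc Y (6 * X ^ 3)).filter Nat.Prime).biUnion fun q =>
          (BxA X).filter fun p => ¬ (q : ℤ) ∣ p.1 ∧ (q : ℤ) ^ 2 ∣ dsc p.1 p.2).card : ℝ) ≤
      12 * X ^ 5 * (1 / Y) + ε / 4 * X ^ 5 := by
    have h2 : ((((Finset.Ioc Y (6 * X ^ 3)).filter Nat.Prime).biUnion fun q =>
          (BxA X).filter fun p => ¬ (q : ℤ) ∣ p.1 ∧ (q : ℤ) ^ 2 ∣ dsc p.1 p.2).card : ℝ) ≤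
        ∑ q ∈ (Finset.Ioc Y (6 * X ^ 3)).filter Nat.Prime,
          (((BxA X).filter fun p => ¬ (q : ℤ) ∣ p.1 ∧ (q : ℤ) ^ 2 ∣ dsc p.1 p.2).card : ℝ) := by
      exact_mod_cast Finset.card_biUnion_le
    refine h2.trans ?_
    have h3 : ∀ q ∈ (Finset.Ioc Y (6 * X ^ 3)).filter Nat.Prime,
        (((BxA X).filter fun p => ¬ (q : ℤ) ∣ p.1 ∧ (q : ℤ) ^ 2 ∣ dsc p.1 p.2).card : ℝ) ≤
          12 * X ^ 5 * (1 / (q : ℝ) ^ 2) + 12 * X ^ 2 := by
      intro q hq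
      rw [Finset.mem_filter, Finset.mem_Ioc] at hq
      have := lp_count X q hX1 hq.2 (by omega)
      rw [mul_one_div]
      exact this
    refine (Finset.sum_le_sum h3).trans ?_
    rw [Finset.sum_add_distrib, ← Finset.mul_sum, Finset.sum_const, nsmul_eq_mul]
    have h4 : ((((Finset.Ioc Y (6 * X ^ 3)).filter Nat.Prime).card : ℕ) : ℝ) ≤ ε / 288 * (6 * X ^ 3) := by
      have h5 : ((Finset.Ioc Y (6 * X ^ 3)).filter Nat.Prime).card ≤ Nat.primeCounting (6 * X ^ 3) := by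
        rw [Nat.primeCounting, Nat.primeCounting', Nat.count_eq_card_filter_range]
        apply Finset.card_le_card
        intro q hq
        rw [Finset.mem_filter, Finset.mem_Ioc] at hq
        rw [Finset.mem_filter, Finset.mem_range]
        exact ⟨by omega, hq.2⟩
      have h6 := hM (6 * X ^ 3) ((hXM.trans (Nat.le_self_pow three_ne_zero X)).trans (by omega))
      push_cast at h6
      have h7 : ((((Finset.Ioc Y (6 * X ^ 3)).filter Nat.Prime).card : ℕ) : ℝ) ≤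
        (Nat.primeCounting (6 * X ^ 3) : ℝ) := by exact_mod_cast h5
      exact h7.trans h6
    have h7 : 12 * (X : ℝ) ^ 5 * ∑ q ∈ (Finset.Ioc Y (6 * X ^ 3)).filter Nat.Prime, (1 : ℝ) / (q : ℝ) ^ 2 ≤
        12 * X ^ 5 * (1 / Y) :=
      mul_le_mul_of_nonneg_left (sq_sum Y (6 * X ^ 3) (by omega) hYX3 _ (Finset.filter_subset _ _))
        (by positivity)
    have h8 : ((((Finset.Ioc Y (6 * X ^ 3)).filter Nat.Prime).card : ℕ) : ℝ) * (12 * X ^ 2) ≤
        ε / 4 * X ^ 5 := by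
      calc _ ≤ (ε / 288 * (6 * (X : ℝ) ^ 3)) * (12 * X ^ 2) :=
            mul_le_mul_of_nonneg_right h4 (by positivity)
        _ = ε / 4 * X ^ 5 := by ring
    linarith
  have c5 : ((((Finset.range (Y + 1)).filter Nat.Prime).biUnion fun q =>
          (BxA X).filter fun p => (q : ℤ) ^ (2 * i + 3) ∣ dsc p.1 p.2).card : ℝ) ≤
      ((Y : ℝ) + 1) * (12 * X ^ 5 / 2 ^ i + 12 * X ^ 2) := by
    have h2 : ((((Finset.range (Y + 1)).filter Nat.Prime).biUnion fun q =>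
          (BxA X).filter fun p => (q : ℤ) ^ (2 * i + 3) ∣ dsc p.1 p.2).card : ℝ) ≤
        ∑ q ∈ (Finset.range (Y + 1)).filter Nat.Prime,
          (((BxA X).filter fun p => (q : ℤ) ^ (2 * i + 3) ∣ dsc p.1 p.2).card : ℝ) := by
      exact_mod_cast Finset.card_biUnion_le
    refine h2.trans ?_
    have h3 : ∀ q ∈ (Finset.range (Y + 1)).filter Nat.Prime,
        (((BxA X).filter fun p => (q : ℤ) ^ (2 * i + 3) ∣ dsc p.1 p.2).card : ℝ) ≤
          12 * X ^ 5 / 2 ^ i + 12 * X ^ 2 := by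
      intro q hq
      exact sp_count X q i hX1 (Finset.mem_filter.1 hq).2
    have h4 := Finset.sum_le_card_nsmul _ _ _ h3
    refine h4.trans ?_
    rw [nsmul_eq_mul]
    apply mul_le_mul_of_nonneg_right _ (by positivity)
    have h5 : ((Finset.range (Y + 1)).filter Nat.Prime).card ≤ Y + 1 := by
      have := Finset.card_filter_le (Finset.range (Y + 1)) Nat.Prime
      rwa [Finset.card_range] at this
    exact_mod_cast h5
  have htot : (((BxA X).filter fun p => dsc p.1 p.2 ≠ 0 ∧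
      ¬ Good (24 * (Y.factorial) ^ (2 * i + 3)) p.1 p.2).card : ℝ) ≤
      15 * X ^ 3 + 3 * X ^ 3 + (16 * X ^ 5 * (1 / Y) + ((12 * X ^ 5 * (1 / Y) + ε / 4 * X ^ 5) +
        ((Y : ℝ) + 1) * (12 * X ^ 5 / 2 ^ i + 12 * X ^ 2))) := by
    have hN := hu.trans (add_le_add hu1 (hu2.trans (add_le_add le_rfl hu3)))
    have hR : (((BxA X).filter fun p => dsc p.1 p.2 ≠ 0 ∧
      ¬ Good (24 * (Y.factorial) ^ (2 * i + 3)) p.1 p.2).card : ℝ) ≤ _ := Nat.cast_le.2 hN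
    push_cast at hR
    linarith
  refine htot.trans ?_
  have e1 : 16 * (X : ℝ) ^ 5 * (1 / Y) + 12 * X ^ 5 * (1 / Y) = 28 / Y * X ^ 5 := by ring
  have e2 : ((Y : ℝ) + 1) * (12 * X ^ 5 / 2 ^ i + 12 * X ^ 2) =
      ((Y : ℝ) + 1) * (12 / 2 ^ i) * X ^ 5 + 12 * ((Y : ℝ) + 1) * X ^ 2 := by ring
  have b1 : 28 / (Y : ℝ) * X ^ 5 ≤ ε / 4 * X ^ 5 := mul_le_mul_of_nonneg_right hYε (by positivity)
  have b2 : ((Y : ℝ) + 1) * (12 / 2 ^ i) * X ^ 5 ≤ ε / 4 * X ^ 5 :=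
    mul_le_mul_of_nonneg_right hi2 (by positivity)
  have b3 : 18 * (X : ℝ) ^ 3 + 12 * ((Y : ℝ) + 1) * X ^ 2 ≤ ε / 4 * X ^ 5 := by
    have h2 : (X : ℝ) ^ 3 ≤ X ^ 4 := pow_le_pow_right₀ hX0 (by norm_num)
    have h3 : (X : ℝ) ^ 2 ≤ X ^ 4 := pow_le_pow_right₀ hX0 (by norm_num)
    calc 18 * (X : ℝ) ^ 3 + 12 * ((Y : ℝ) + 1) * X ^ 2
        ≤ 18 * X ^ 4 + 12 * ((Y : ℝ) + 1) * X ^ 4 := by
          apply add_le_add
          · linarith
          · exact mul_le_mul_of_nonneg_left h3 (by positivity)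
      _ = (18 + 12 * ((Y : ℝ) + 1)) * X ^ 4 := by ring
      _ ≤ (ε / 4 * X) * X ^ 4 := mul_le_mul_of_nonneg_right h1 (by positivity)
      _ = ε / 4 * X ^ 5 := by ring
  rw [e2]
  linarith

end Pool.Agent.H29A.Tail

namespace Pool.Agent.H29A

open Pool.Agent.N922.PQ
open Pool.Agent.H29A.Tail

theorem t_TAIL : S_TAIL := by
  intro ε hε
  obtain ⟨W, hW, h⟩ := tail_gen ε hε
  refine ⟨W, hW, h.mono fun X hX => le_trans ?_ hX⟩
  have h1 : ((BxA X).filter fun p => 0 < dsc p.1 p.2 ∧ ¬ GW W p.1 p.2) ⊆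
      (BxA X).filter fun p => dsc p.1 p.2 ≠ 0 ∧ ¬ Good W p.1 p.2 := by
    intro p hp
    rw [Finset.mem_filter] at hp ⊢
    exact ⟨hp.1, hp.2.1.ne', fun hg => hp.2.2 ⟨hp.2.1, hg.1, hg.2⟩⟩
  exact_mod_cast Finset.card_le_card h1

end Pool.Agent.H29A
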